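import Pool.Agent.HGP.Defs

/-!
# HGP: Hilbert sums, reindexing representations (proved facts)
-/

open scoped InnerProductSpace ENNReal

namespace HGP

noncomputable section

/-- square summable families -/
abbrev L2 (I : Type) (E : Type) [NormedAddCommGroup E] : Type := lp (fun _ : I => E) 2

section basic

variable {I : Type} {F : I → Type} [∀ i, NormedAddCommGroup (F i)]

lemma mem2 (f : ∀ i, F i) : Memℓp f 2 ↔ Summable (fun i => ‖f i‖ ^ 2) := by
  rw [memℓp_gen_iff (by norm_num)]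
  simp

lemma norm_sq_lp (f : lp F 2) : ‖f‖ ^ 2 = ∑' i, ‖f i‖ ^ 2 := by
  have h := lp.norm_rpow_eq_tsum (p := 2) (by norm_num) f
  simpa using h

lemma summable_sq_lp (f : lp F 2) : Summable (fun i => ‖f i‖ ^ 2) := (mem2 _).1 (lp.memℓp f)

lemma apply_le_norm (f : lp F 2) (i : I) : ‖f i‖ ≤ ‖f‖ := lp.norm_apply_le_norm (by norm_num) f i

end basic

section perm

variable {I : Type} {E : Type} [NormedAddCommGroup E] [InnerProductSpace ℝ E]

/-- reindex by `e` and apply `T` -/
def reiMap (e : Equiv.Perm I) (T : E ≃ₗᵢ[ℝ] E) (f : L2 I E) : L2 I E :=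
  ⟨fun i => T (f (e.symm i)), by
    show Memℓp _ 2
    rw [mem2]
    simp only [LinearIsometryEquiv.norm_map]
    exact e.symm.summable_iff.2 (summable_sq_lp f)⟩

@[simp] lemma reiMap_apply (e : Equiv.Perm I) (T : E ≃ₗᵢ[ℝ] E) (f : L2 I E) (i : I) :
    reiMap e T f i = T (f (e.symm i)) := rfl

lemma reiMap_norm (e : Equiv.Perm I) (T : E ≃ₗᵢ[ℝ] E) (f : L2 I E) : ‖reiMap e T f‖ = ‖f‖ := by
  have h : ‖reiMap e T f‖ ^ 2 = ‖f‖ ^ 2 := by
    rw [norm_sq_lp, norm_sq_lp]
    simp only [reiMap_apply, LinearIsometryEquiv.norm_map]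
    exact e.symm.tsum_eq (fun i => ‖f i‖ ^ 2)
  exact (pow_left_inj₀ (norm_nonneg _) (norm_nonneg _) two_ne_zero).1 h

/-- reindexing as a linear isometry equivalence -/
def rei (e : Equiv.Perm I) (T : E ≃ₗᵢ[ℝ] E) : L2 I E ≃ₗᵢ[ℝ] L2 I E where
  toFun := reiMap e T
  invFun := reiMap e.symm T.symm
  left_inv f := by ext i; simp
  right_inv f := by ext i; simp
  map_add' f g := by ext i; simp
  map_smul' c f := by ext i; simp
  norm_map' f := reiMap_norm e T f

@[simp] lemma rei_apply (e : Equiv.Perm I) (T : E ≃ₗᵢ[ℝ] E) (f : L2 I E) (i : I) :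
    rei e T f i = T (f (e.symm i)) := rfl

variable {H : Type} [Group H]

/-- the representation on `L2 I E` given by a permutation action `σ` on `I` and a
representation `π` on `E` : `(h f)(i) = π h (f (σ h⁻¹ i))` -/
def permRep (σ : H →* Equiv.Perm I) (π : H →* (E ≃ₗᵢ[ℝ] E)) : H →* (L2 I E ≃ₗᵢ[ℝ] L2 I E) where
  toFun h := rei (σ h) (π h)
  map_one' := by
    ext f i
    simp only [map_one, rei_apply]
    rfl
  map_mul' a b := by ext f i; simp [Equiv.Perm.mul_def]

lemma permRep_apply (σ : H →* Equiv.Perm I) (π : H →* (E ≃ₗᵢ[ℝ] E)) (h : H) (f : L2 I E) (i : I) :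
    permRep σ π h f i = π h (f (σ h⁻¹ i)) := by
  have : σ h⁻¹ = (σ h).symm := by rw [map_inv]; rfl
  rw [this]; rfl

/-- the tensor product of a square summable scalar family and a vector -/
def tens (η : L2 I ℝ) (w : E) : L2 I E :=
  ⟨fun i => η i • w, by
    show Memℓp _ 2
    rw [mem2]
    have h := (summable_sq_lp η).mul_right (‖w‖ ^ 2)
    refine h.congr fun i => ?_
    rw [norm_smul, mul_pow]⟩

@[simp] lemma tens_apply (η : L2 I ℝ) (w : E) (i : I) : tens η w i = η i • w := rfl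

lemma norm_tens (η : L2 I ℝ) (w : E) : ‖tens η w‖ = ‖η‖ * ‖w‖ := by
  have h : ‖tens η w‖ ^ 2 = (‖η‖ * ‖w‖) ^ 2 := by
    rw [norm_sq_lp, mul_pow, norm_sq_lp, ← tsum_mul_right]
    refine tsum_congr fun i => ?_
    rw [tens_apply, norm_smul, mul_pow]
  exact (pow_left_inj₀ (norm_nonneg _) (by positivity) two_ne_zero).1 h

lemma tens_sub_left (η η' : L2 I ℝ) (w : E) : tens (η - η') w = tens η w - tens η' w := by
  ext i; simp [sub_smul]

lemma tens_sub_right (η : L2 I ℝ) (w w' : E) : tens η (w - w') = tens η w - tens η w' := by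
  ext i; simp [smul_sub]

end perm

section shift

variable {Z : Type} {E : Type} [NormedAddCommGroup E] [InnerProductSpace ℝ E]
  {H : Type} [Group H]

/-- translation of the first coordinate -/
def sh (Z : Type) : Multiplicative ℤ →* Equiv.Perm (ℤ × Z) where
  toFun k :=
    { toFun := fun q => (q.1 + Multiplicative.toAdd k, q.2)
      invFun := fun q => (q.1 - Multiplicative.toAdd k, q.2)
      left_inv := fun q => by simp
      right_inv := fun q => by simp }
  map_one' := by ext q <;> simp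
  map_mul' a b := by
    ext q
    · simp; ring
    · simp

@[simp] lemma sh_apply (k : Multiplicative ℤ) (q : ℤ × Z) :
    sh Z k q = (q.1 + Multiplicative.toAdd k, q.2) := rfl

/-- the representation on `L2 (ℤ × Z) E` : `(h f)(n, z) = π h (f (n - β h, z))` -/
def pR (Z : Type) (β : H →* Multiplicative ℤ) (π : H →* (E ≃ₗᵢ[ℝ] E)) :
    H →* (L2 (ℤ × Z) E ≃ₗᵢ[ℝ] L2 (ℤ × Z) E) :=
  permRep ((sh Z).comp β) π

lemma pR_apply (β : H →* Multiplicative ℤ) (π : H →* (E ≃ₗᵢ[ℝ] E)) (h : H)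
    (f : L2 (ℤ × Z) E) (n : ℤ) (z : Z) :
    pR Z β π h f (n, z) = π h (f (n - Multiplicative.toAdd (β h), z)) := by
  unfold pR
  rw [permRep_apply]
  simp [sub_eq_add_neg]

/-- the shift on scalar families -/
def S1 (Z : Type) : L2 (ℤ × Z) ℝ ≃ₗᵢ[ℝ] L2 (ℤ × Z) ℝ :=
  rei (sh Z (Multiplicative.ofAdd 1)) (LinearIsometryEquiv.refl ℝ ℝ)

lemma S1_apply (f : L2 (ℤ × Z) ℝ) (n : ℤ) (z : Z) : S1 Z f (n, z) = f (n - 1, z) := rfl

end shift

section mu

variable {E : Type} [NormedAddCommGroup E] [InnerProductSpace ℝ E] {Y : Type}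

/-- the index set of the big space -/
abbrev Ix (Y : Type) : Type := ℤ × List (Y × ℤ)

open Classical in
/-- the family on the big space -/
def mu (lam : Y → E) : List (Y × ℤ) → L2 (Ix Y) E
  | [] => 0
  | q :: l => lp.single 2 (q.2, l) (lam q.1)

open Classical in
/-- the family for `permRep` -/
def lamI {I : Type} (lam : Y → E) : Y × I → L2 I E := fun q => lp.single 2 q.2 (lam q.1)

end mu

end

end HGP
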