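import Mathlib

/-!
# HGP: the Haagerup property for HNN extensions along cyclic subgroups, definitions
-/

open scoped InnerProductSpace

namespace HGP

noncomputable section

/-! ## Haagerup property, amenability -/

/-- the Haagerup property: a metrically proper action by affine isometries on a real Hilbert
space -/
def HasHaagerup (G : Type) [Group G] : Prop :=
  ∃ (E : Type) (_ : NormedAddCommGroup E) (_ : InnerProductSpace ℝ E) (_ : CompleteSpace E)
    (ρ : G →* (E ≃ᵃⁱ[ℝ] E)), ∀ B : Set E, Bornology.IsBounded B →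
      {g : G | ((fun v => ρ g v) '' B ∩ B).Nonempty}.Finite

/-- amenability, by Folner's condition -/
def IsAmenable (G : Type) [Group G] : Prop :=
  ∀ (S : Finset G) (ε : ℝ), 0 < ε → ∃ F : Set G, F.Finite ∧ F.Nonempty ∧
    ∀ s ∈ S, (((fun x => s * x) '' F \ F).ncard : ℝ) ≤ ε * F.ncard

/-! ## Localised representations -/

section loc

variable {H : Type} [Group H] {E : Type} [NormedAddCommGroup E] [InnerProductSpace ℝ E] {Y : Type}

/-- the square sum of the coefficients of `u` along the orbit of the family `lam` -/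
def pq (π : H →* (E ≃ₗᵢ[ℝ] E)) (a : H) (lam : Y → E) (u : E) : ℝ :=
  ∑' i : ℤ × Y, ⟪π (a ^ i.1) u, lam i.2⟫_ℝ ^ 2

/-- `π (a^m) (lam y)` is a Bessel family with bound one -/
def Bes (π : H →* (E ≃ₗᵢ[ℝ] E)) (a : H) (lam : Y → E) : Prop :=
  ∀ (u : E) (s : Finset (ℤ × Y)), ∑ i ∈ s, ⟪π (a ^ i.1) u, lam i.2⟫_ℝ ^ 2 ≤ ‖u‖ ^ 2

/-- all coefficients tend to zero -/
def C0 (π : H →* (E ≃ₗᵢ[ℝ] E)) : Prop :=
  ∀ (u v : E) (δ : ℝ), 0 < δ → {h : H | δ ≤ |⟪π h u, v⟫_ℝ|}.Finite

/-- the square sums along the cosets of `⟨a⟩` tend to zero -/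
def C0A (π : H →* (E ≃ₗᵢ[ℝ] E)) (a : H) (lam : Y → E) : Prop :=
  ∀ (u : E) (δ : ℝ), 0 < δ → ∃ T : Finset H, ∀ h : H, δ ≤ pq π a lam (π h u) →
    ∃ m : ℤ, ∃ x ∈ T, h = a ^ m * x

/-- almost invariant vectors with almost full square sums for all elements of the list `l` -/
def AI (π : H →* (E ≃ₗᵢ[ℝ] E)) (l : List H) (Y : H → Type) (lam : ∀ c : H, Y c → E)
    (S : Finset H) (ε : ℝ) (ξ : E) : Prop :=
  ‖ξ‖ ≤ 1 ∧ 1 - ε ≤ ‖ξ‖ ∧ (∀ s ∈ S, ‖π s ξ - ξ‖ ≤ ε) ∧ ∀ c ∈ l, 1 - ε ≤ pq π c (lam c) ξ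

end loc

/-- the property (Q) of a group and a list of its elements; `QF H []` says that `H` has `C_0`
representations with almost invariant vectors -/
def QF (H : Type) [Group H] (l : List H) : Prop :=
  ∀ (S : Finset H) (ε : ℝ), 0 < ε →
    ∃ (E : Type) (_ : NormedAddCommGroup E) (_ : InnerProductSpace ℝ E) (_ : CompleteSpace E)
      (π : H →* (E ≃ₗᵢ[ℝ] E)) (Y : H → Type) (lam : ∀ c : H, Y c → E) (ξ : E),
      C0 π ∧ (∀ c ∈ l, Bes π c (lam c) ∧ C0A π c (lam c)) ∧ AI π l Y lam S ε ξ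

/-- the same with one representation -/
def UF (H : Type) [Group H] (l : List H) : Prop :=
  ∃ (E : Type) (_ : NormedAddCommGroup E) (_ : InnerProductSpace ℝ E) (_ : CompleteSpace E)
    (π : H →* (E ≃ₗᵢ[ℝ] E)) (Y : H → Type) (lam : ∀ c : H, Y c → E),
    C0 π ∧ (∀ c ∈ l, Bes π c (lam c) ∧ C0A π c (lam c)) ∧
      ∀ (S : Finset H) (ε : ℝ), 0 < ε → ∃ ξ : E, AI π l Y lam S ε ξ

/-! ## Words in HNN extensions -/

section hnn

open HNNExtension HNNExtension.NormalWord

variable {H : Type} [Group H] {A B : Subgroup H} (φ : A ≃* B)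

/-- the number of letters `t` in a reduced word -/
def len (g : HNNExtension H A B φ) : ℕ :=
  ((NormalWord.equiv φ (Classical.choice (TransversalPair.nonempty H A B))) g).toList.length

variable {M : Type} [Monoid M]

/-- `V` for the unit `1`, `V'` for the unit `-1` -/
def vu (V V' : M) (u : ℤˣ) : M := if u = 1 then V else V'

/-- evaluation of a reduced word -/
def ev (π : H →* M) (V V' : M) (w : ReducedWord H A B) : M :=
  π w.head * (w.toList.map (fun x => vu V V' x.1 * π x.2)).prod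

end hnn

/-- an orthogonal representation as a homomorphism to the monoid of continuous linear maps -/
def cl {H : Type} [Group H] {E : Type} [NormedAddCommGroup E] [InnerProductSpace ℝ E]
    (π : H →* (E ≃ₗᵢ[ℝ] E)) : H →* (E →L[ℝ] E) where
  toFun h := ((π h).toContinuousLinearEquiv : E →L[ℝ] E)
  map_one' := by ext x; simp
  map_mul' a b := by ext x; simp

section sys

open HNNExtension HNNExtension.NormalWord

variable {H : Type} [Group H] {A B : Subgroup H} (φ : A ≃* B)
  {E : Type} [NormedAddCommGroup E] [InnerProductSpace ℝ E] [CompleteSpace E]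

/-- `W` is the operator valued function on the HNN extension given by the representation `π` of
the base group and the contraction `V` -/
structure Sys (π : H →* (E ≃ₗᵢ[ℝ] E)) (V : E →L[ℝ] E)
    (W : HNNExtension H A B φ → (E →L[ℝ] E)) : Prop where
  norm : ‖V‖ ≤ 1
  tw : ∀ (a : A) (u : E), V (π (a : H) u) = π (φ a : H) (V u)
  evp : ∀ w : ReducedWord H A B,
    W (w.prod φ) = ev (cl π) V (ContinuousLinearMap.adjoint V) w

end sys

/-! ## Two generator one-relator groups -/

/-- `⟨x, y | w⟩` -/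
abbrev OneRel (w : FreeGroup (Fin 2)) : Type := PresentedGroup ({w} : Set (FreeGroup (Fin 2)))

/-- the first generator -/
def gx (w : FreeGroup (Fin 2)) : OneRel w := PresentedGroup.of 0

/-- the second generator -/
def gy (w : FreeGroup (Fin 2)) : OneRel w := PresentedGroup.of 1

/-- substitution `w(u, v)` -/
def sub (w u v : FreeGroup (Fin 2)) : FreeGroup (Fin 2) := FreeGroup.lift ![u, v] w

/-- the letter `x` -/
abbrev lx : FreeGroup (Fin 2) := FreeGroup.of 0

/-- the letter `y` -/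
abbrev ly : FreeGroup (Fin 2) := FreeGroup.of 1

/-- `w(x, y)` becomes `w(x, y x^p y^{-1})` -/
def nestStep (p : ℤ) (w : FreeGroup (Fin 2)) : FreeGroup (Fin 2) :=
  sub w lx (ly * lx ^ p * ly⁻¹)

/-- iterated -/
def nest (w : FreeGroup (Fin 2)) : List ℤ → FreeGroup (Fin 2)
  | [] => w
  | p :: ps => nestStep p (nest w ps)

end

end HGP
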