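import Pool.Agent.HGP.TargetsF

/-!
# HGP: targets ADD (new free letter), SVT (stable letter survives), CNT (countability)
-/

open HNNExtension HNNExtension.NormalWord

namespace HGP

noncomputable section

theorem p_SVT : T_SVT := by
  intro H _ A B φ
  refine ⟨lift 1 (Multiplicative.ofAdd 1) (by intro a; simp), ?_, fun h => by simp⟩
  rw [lift_t]
  intro h
  have h1 : Multiplicative.toAdd (Multiplicative.ofAdd (1 : ℤ)) =
    Multiplicative.toAdd (1 : Multiplicative ℤ) := by rw [h]
  simp at h1

theorem p_CNT : T_CNT := by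
  intro H _ _ A B φ
  obtain ⟨d⟩ := TransversalPair.nonempty H A B
  have h1 : Function.Injective (fun w : NormalWord d => (w.head, w.toList)) := by
    intro w w' h
    simp only [Prod.mk.injEq] at h
    exact NormalWord.ext h.1 h.2
  have h2 : Countable (NormalWord d) := h1.countable
  exact (NormalWord.equiv φ d).injective.countable

lemma ADD_map {n : ℕ} {G : Type} [Group G] (F : Fin (n + 1) → G) (r : FreeGroup (Fin n)) :
    FreeGroup.lift F (FreeGroup.map Fin.castSucc r) =
      FreeGroup.lift (fun i => F (Fin.castSucc i)) r := by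
  have h : (FreeGroup.lift F).comp (FreeGroup.map Fin.castSucc) =
      FreeGroup.lift (fun i => F (Fin.castSucc i)) := by
    refine FreeGroup.ext_hom _ _ fun k => ?_
    simp
  rw [← h]; rfl

theorem p_ADD : T_ADD := by
  intro n r
  have rel : ∀ {m : ℕ} (r : FreeGroup (Fin m)) {G : Type} [Group G] (ψ : OR r →* G),
      FreeGroup.lift (fun k => ψ (gl r k)) r = 1 := by
    intro m r G _ ψ
    have h : FreeGroup.lift (fun k => ψ (gl r k)) = ψ.comp (PresentedGroup.mk {r}) := by
      refine FreeGroup.ext_hom _ _ fun k => ?_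
      simp only [FreeGroup.lift_apply_of, MonoidHom.comp_apply]
      rfl
    rw [h, MonoidHom.comp_apply, PresentedGroup.one_of_mem (Set.mem_singleton r), map_one]
  refine ⟨MulEquiv.refl _, ?_⟩
  set φ : (⊥ : Subgroup (OR r)) ≃* (⊥ : Subgroup (OR r)) := MulEquiv.refl _ with hφ
  set G := HNNExtension (OR r) ⊥ ⊥ φ with hG
  let F : Fin (n + 1) → G := Fin.snoc (fun i => of (gl r i)) t
  have hF1 : ∀ i : Fin n, F (Fin.castSucc i) = of (gl r i) := fun i => Fin.snoc_castSucc _ _ _
  have hF2 : F (Fin.last n) = t := Fin.snoc_last _ _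
  have hFr : ∀ x ∈ ({FreeGroup.map Fin.castSucc r} : Set (FreeGroup (Fin (n + 1)))),
      FreeGroup.lift F x = 1 := by
    intro x hx
    rw [Set.mem_singleton_iff] at hx
    rw [hx, ADD_map]
    simp only [hF1]
    exact rel r (of (φ := φ))
  let f : OR (FreeGroup.map Fin.castSucc r) →* G := PresentedGroup.toGroup hFr
  have hf : ∀ k, f (gl _ k) = F k := fun k => PresentedGroup.toGroup.of _
  have hgr : ∀ x ∈ ({r} : Set (FreeGroup (Fin n))),
      FreeGroup.lift (fun i => gl (FreeGroup.map Fin.castSucc r) (Fin.castSucc i)) x = 1 := by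
    intro x hx
    rw [Set.mem_singleton_iff] at hx
    rw [hx]
    have h := rel (FreeGroup.map Fin.castSucc r) (MonoidHom.id _)
    rw [ADD_map] at h
    exact h
  let g : OR r →* OR (FreeGroup.map Fin.castSucc r) := PresentedGroup.toGroup hgr
  have hg : ∀ k, g (gl r k) = gl _ (Fin.castSucc k) := fun k => PresentedGroup.toGroup.of _
  let F' : G →* OR (FreeGroup.map Fin.castSucc r) := lift g (gl _ (Fin.last n)) (by
    rintro ⟨a, ha⟩
    rw [Subgroup.mem_bot] at ha
    subst ha
    have : (φ ⟨1, ha⟩ : OR r) = 1 := rfl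
    rw [this]; simp)
  have h1 : F'.comp f = MonoidHom.id _ := by
    refine PresentedGroup.ext fun k => ?_
    change F' (f (gl _ k)) = gl _ k
    rw [hf]
    refine Fin.lastCases ?_ (fun i => ?_) k
    · rw [hF2]; exact lift_t _ _ _
    · rw [hF1]
      have : F' (of (gl r i)) = g (gl r i) := lift_of _ _ _ _
      rw [this, hg]
  have h2 : f.comp F' = MonoidHom.id _ := by
    refine hom_ext ?_ ?_
    · refine PresentedGroup.ext fun k => ?_
      change f (F' (of (gl r k))) = of (gl r k)
      have : F' (of (gl r k)) = g (gl r k) := lift_of _ _ _ _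
      rw [this, hg, hf, hF1]
    · change f (F' t) = t
      have : F' t = gl _ (Fin.last n) := lift_t _ _ _
      rw [this, hf, hF2]
  refine ⟨MulEquiv.mk' ⟨f, F', fun x => ?_, fun x => ?_⟩ (fun a b => map_mul f a b), ?_, ?_⟩
  · exact DFunLike.congr_fun h1 x
  · exact DFunLike.congr_fun h2 x
  · intro i
    exact (hf _).trans (hF1 i)
  · exact (hf _).trans hF2

end

end HGP
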