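import Pool.Agent.HGP.Targets

/-!
# HGP: T_AMN, amenable groups
-/

open scoped InnerProductSpace ENNReal

namespace HGP

noncomputable section

/-- the left regular representation -/
def AMN_reg (H : Type) [Group H] : H →* (L2 H ℝ ≃ₗᵢ[ℝ] L2 H ℝ) :=
  permRep (MulAction.toPermHom H H) 1

lemma AMN_reg_apply {H : Type} [Group H] (h : H) (f : L2 H ℝ) (i : H) :
    AMN_reg H h f i = f (h⁻¹ * i) := by
  unfold AMN_reg
  rw [permRep_apply]
  rfl

lemma AMN_summable (H : Type) (F : Finset H) (c : ℝ) [DecidablePred (· ∈ F)] :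
    Summable (fun i => ‖(if i ∈ F then c else 0 : ℝ)‖ ^ 2) :=
  summable_of_ne_finset_zero (s := F) (fun b hb => by simp [hb])

open Classical in
/-- multiple of the indicator of a finite set -/
def AMN_ind {H : Type} (F : Finset H) (c : ℝ) : L2 H ℝ :=
  ⟨fun i => if i ∈ F then c else 0, by
    show Memℓp _ 2
    rw [mem2]
    exact AMN_summable H F c⟩

open Classical in
lemma AMN_ind_apply {H : Type} (F : Finset H) (c : ℝ) (i : H) :
    AMN_ind F c i = if i ∈ F then c else 0 := rfl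

open Classical in
lemma AMN_norm_ind {H : Type} (F : Finset H) (c : ℝ) :
    ‖AMN_ind F c‖ ^ 2 = F.card * c ^ 2 := by
  rw [norm_sq_lp, tsum_eq_sum (s := F)]
  · rw [Finset.sum_congr rfl (g := fun _ => c ^ 2)]
    · rw [Finset.sum_const, nsmul_eq_mul]
    · intro i hi
      rw [AMN_ind_apply, if_pos hi, Real.norm_eq_abs, sq_abs]
  · intro i hi
    rw [AMN_ind_apply, if_neg hi]
    simp

open Classical in
lemma AMN_norm_diff {H : Type} [Group H] (F : Finset H) (c : ℝ) (s : H) :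
    ‖AMN_reg H s (AMN_ind F c) - AMN_ind F c‖ ^ 2 =
      2 * ((F.image (fun x => s * x)) \ F).card * c ^ 2 := by
  set F' : Finset H := F.image (fun x => s * x) with hF'
  have hcard : F'.card = F.card :=
    Finset.card_image_of_injective F (mul_right_injective s)
  have hmem : ∀ i, (s⁻¹ * i ∈ F) ↔ i ∈ F' := by
    intro i
    rw [hF', Finset.mem_image]
    constructor
    · intro h
      exact ⟨s⁻¹ * i, h, by simp⟩
    · rintro ⟨x, hx, rfl⟩
      simpa using hx
  have hval : ∀ i, (AMN_reg H s (AMN_ind F c) - AMN_ind F c) i =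
      (if i ∈ F' then c else 0) - (if i ∈ F then c else 0) := by
    intro i
    have h1 : (AMN_reg H s (AMN_ind F c) - AMN_ind F c) i =
        AMN_reg H s (AMN_ind F c) i - AMN_ind F c i := rfl
    rw [h1, AMN_reg_apply, AMN_ind_apply, AMN_ind_apply]
    simp only [hmem]
  have hsum : ‖AMN_reg H s (AMN_ind F c) - AMN_ind F c‖ ^ 2 =
      ∑ i ∈ (F' \ F) ∪ (F \ F'), c ^ 2 := by
    rw [norm_sq_lp, tsum_eq_sum (s := (F' \ F) ∪ (F \ F'))]
    · refine Finset.sum_congr rfl fun i hi => ?_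
      rw [hval]
      rw [Finset.mem_union, Finset.mem_sdiff, Finset.mem_sdiff] at hi
      rcases hi with ⟨h1, h2⟩ | ⟨h1, h2⟩
      · rw [if_pos h1, if_neg h2, sub_zero, Real.norm_eq_abs, sq_abs]
      · rw [if_neg h2, if_pos h1, zero_sub, norm_neg, Real.norm_eq_abs, sq_abs]
    · intro i hi
      rw [Finset.mem_union, Finset.mem_sdiff, Finset.mem_sdiff] at hi
      push Not at hi
      rw [hval]
      by_cases h1 : i ∈ F
      · rw [if_pos (hi.2 h1), if_pos h1]; simp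
      · have h2 : i ∉ F' := fun h => h1 (hi.1 h)
        rw [if_neg h2, if_neg h1]; simp
  rw [hsum, Finset.sum_const, nsmul_eq_mul, Finset.card_union_of_disjoint]
  · have h3 : (F \ F').card = (F' \ F).card := by
      have e1 := Finset.card_sdiff_add_card_inter F F'
      have e2 := Finset.card_sdiff_add_card_inter F' F
      rw [Finset.inter_comm F' F] at e2
      omega
    rw [h3]
    push_cast
    ring
  · rw [Finset.disjoint_left]
    intro i hi hi'
    rw [Finset.mem_sdiff] at hi hi'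
    exact hi'.2 hi.1

open Classical in
lemma AMN_inner {H : Type} [Group H] (h : H) (u : L2 H ℝ) (τ : H) :
    ⟪AMN_reg H h u, (lp.single 2 τ (1 : ℝ) : L2 H ℝ)⟫_ℝ = u (h⁻¹ * τ) := by
  rw [lp.inner_single_right, AMN_reg_apply]
  simp

section coset

variable {H : Type} [Group H]

/-- cosets of `⟨c⟩` which meet `F` -/
def AMN_Y (F : Finset H) (c : H) : Type :=
  {q : Quotient (QuotientGroup.rightRel (Subgroup.zpowers c)) // ∃ x ∈ F, ⟦x⟧ = q}

/-- representatives -/
def AMN_rep (F : Finset H) (c : H) (q : AMN_Y F c) : H := q.1.out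

instance AMN_finite (F : Finset H) (c : H) : Finite (AMN_Y F c) := by
  have hs : ({q : Quotient (QuotientGroup.rightRel (Subgroup.zpowers c)) |
      ∃ x ∈ F, ⟦x⟧ = q}).Finite := by
    have : {q : Quotient (QuotientGroup.rightRel (Subgroup.zpowers c)) | ∃ x ∈ F, ⟦x⟧ = q} =
        (fun x : H => (⟦x⟧ : Quotient (QuotientGroup.rightRel (Subgroup.zpowers c)))) '' F := by
      ext q
      simp
    rw [this]
    exact F.finite_toSet.image _
  exact hs.to_subtype

/-- the parametrisation of the union of the cosets -/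
def AMN_psi (F : Finset H) (c : H) (i : ℤ × AMN_Y F c) : H := (c ^ i.1)⁻¹ * AMN_rep F c i.2

lemma AMN_psi_inj (F : Finset H) (c : H) (hc : ¬ IsOfFinOrder c) :
    Function.Injective (AMN_psi F c) := by
  rintro ⟨m, q⟩ ⟨m', q'⟩ h
  simp only [AMN_psi, AMN_rep] at h
  have hq : q = q' := by
    apply Subtype.ext
    rw [← Quotient.out_eq q.1, ← Quotient.out_eq q'.1]
    apply Quotient.sound
    show (QuotientGroup.rightRel (Subgroup.zpowers c)) q.1.out q'.1.out
    rw [QuotientGroup.rightRel_apply]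
    have h2 : q'.1.out * (q.1.out)⁻¹ = c ^ (m' - m) := by
      have : q'.1.out = c ^ m' * ((c ^ m)⁻¹ * q.1.out) := by rw [h]; simp
      rw [this, zpow_sub]
      group
    rw [h2]
    exact Subgroup.mem_zpowers_iff.2 ⟨_, rfl⟩
  subst hq
  have h3 : (c ^ m)⁻¹ = (c ^ m')⁻¹ := mul_right_cancel h
  have h4 : c ^ m = c ^ m' := inv_injective h3
  have h5 : m = m' := injective_zpow_iff_not_isOfFinOrder.2 hc h4
  rw [h5]

lemma AMN_mem_range (F : Finset H) (c : H) {x : H} (hx : x ∈ F) :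
    x ∈ Set.range (AMN_psi F c) := by
  let q : AMN_Y F c := ⟨⟦x⟧, x, hx, rfl⟩
  have h1 : (QuotientGroup.rightRel (Subgroup.zpowers c)) q.1.out x := by
    exact Quotient.exact (Quotient.out_eq q.1)
  rw [QuotientGroup.rightRel_apply, Subgroup.mem_zpowers_iff] at h1
  obtain ⟨k, hk⟩ := h1
  refine ⟨(-k, q), ?_⟩
  simp only [AMN_psi, AMN_rep]
  rw [zpow_neg, inv_inv, hk]
  simp

open Classical in
/-- the family -/
def AMN_lam (F : Finset H) (c : H) (q : AMN_Y F c) : L2 H ℝ :=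
  lp.single 2 (AMN_rep F c q) (1 : ℝ)

lemma AMN_term (F : Finset H) (c : H) (u : L2 H ℝ) (i : ℤ × AMN_Y F c) :
    ⟪AMN_reg H (c ^ i.1) u, AMN_lam F c i.2⟫_ℝ ^ 2 = ‖u (AMN_psi F c i)‖ ^ 2 := by
  unfold AMN_lam
  rw [AMN_inner, Real.norm_eq_abs, sq_abs]
  rfl

lemma AMN_pq (F : Finset H) (c : H) (u : L2 H ℝ) :
    pq (AMN_reg H) c (AMN_lam F c) u = ∑' i, ‖u (AMN_psi F c i)‖ ^ 2 := by
  unfold pq
  exact tsum_congr fun i => AMN_term F c u i

lemma AMN_bes (F : Finset H) (c : H) (hc : ¬ IsOfFinOrder c) :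
    Bes (AMN_reg H) c (AMN_lam F c) := by
  intro u s
  classical
  have h1 : ∑ i ∈ s, ⟪AMN_reg H (c ^ i.1) u, AMN_lam F c i.2⟫_ℝ ^ 2 =
      ∑ j ∈ s.map ⟨AMN_psi F c, AMN_psi_inj F c hc⟩, ‖u j‖ ^ 2 := by
    rw [Finset.sum_map]
    exact Finset.sum_congr rfl fun i _ => AMN_term F c u i
  rw [h1, norm_sq_lp]
  exact (summable_sq_lp u).sum_le_tsum _ (fun i _ => by positivity)

open Classical in
lemma AMN_tail (u : L2 H ℝ) (δ : ℝ) (hδ : 0 < δ) :
    ∃ K : Finset H, ∑' i, (if i ∈ K then 0 else ‖u i‖ ^ 2) < δ := by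
  classical
  have hs := summable_sq_lp u
  have ht := hs.hasSum
  rw [HasSum, SummationFilter.unconditional_filter] at ht
  have h1 : ∀ᶠ K in Filter.atTop, (∑' i, ‖u i‖ ^ 2) - δ < ∑ i ∈ K, ‖u i‖ ^ 2 :=
    ht.eventually (lt_mem_nhds (by linarith))
  obtain ⟨K, hK⟩ := h1.exists
  refine ⟨K, ?_⟩
  have h2 : ∑' i, ‖u i‖ ^ 2 =
      ∑' i, (if i ∈ K then ‖u i‖ ^ 2 else 0) + ∑' i, (if i ∈ K then 0 else ‖u i‖ ^ 2) := by
    rw [← Summable.tsum_add]
    · refine tsum_congr fun i => ?_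
      split_ifs <;> simp
    · exact summable_of_ne_finset_zero (s := K) (fun b hb => by simp [hb])
    · refine Summable.of_nonneg_of_le (fun i => ?_) (fun i => ?_) hs
      · split_ifs <;> positivity
      · split_ifs
        · positivity
        · exact le_rfl
  have h3 : ∑' i, (if i ∈ K then ‖u i‖ ^ 2 else 0) = ∑ i ∈ K, ‖u i‖ ^ 2 := by
    rw [tsum_eq_sum (s := K)]
    · exact Finset.sum_congr rfl fun i hi => by rw [if_pos hi]
    · intro i hi; rw [if_neg hi]
  rw [h3] at h2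
  linarith

lemma AMN_c0a (F : Finset H) (c : H) (hc : ¬ IsOfFinOrder c) :
    C0A (AMN_reg H) c (AMN_lam F c) := by
  classical
  intro u δ hδ
  obtain ⟨K, hK⟩ := AMN_tail u δ hδ
  have : Fintype (AMN_Y F c) := Fintype.ofFinite _
  refine ⟨(Finset.univ ×ˢ K).image fun x => AMN_rep F c x.1 * x.2⁻¹, ?_⟩
  intro h hh
  by_contra hcon
  push Not at hcon
  have hno : ∀ i : ℤ × AMN_Y F c, h⁻¹ * AMN_psi F c i ∉ K := by
    intro i hi
    refine hcon (-i.1) (AMN_rep F c i.2 * (h⁻¹ * AMN_psi F c i)⁻¹) ?_ ?_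
    · rw [Finset.mem_image]
      exact ⟨(i.2, h⁻¹ * AMN_psi F c i), by simp [hi], rfl⟩
    · simp only [AMN_psi, zpow_neg]
      group
  have hinj : Function.Injective (fun i : ℤ × AMN_Y F c => h⁻¹ * AMN_psi F c i) :=
    fun i j hij => AMN_psi_inj F c hc (mul_left_cancel hij)
  have h1 : pq (AMN_reg H) c (AMN_lam F c) (AMN_reg H h u) =
      ∑' i : ℤ × AMN_Y F c, (if h⁻¹ * AMN_psi F c i ∈ K then 0 else
        ‖u (h⁻¹ * AMN_psi F c i)‖ ^ 2) := by
    rw [AMN_pq]
    refine tsum_congr fun i => ?_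
    rw [if_neg (hno i), AMN_reg_apply]
  have h2 : ∑' i : ℤ × AMN_Y F c, (if h⁻¹ * AMN_psi F c i ∈ K then 0 else
        ‖u (h⁻¹ * AMN_psi F c i)‖ ^ 2) ≤ ∑' i, (if i ∈ K then 0 else ‖u i‖ ^ 2) := by
    refine tsum_comp_le_tsum_of_inj (f := fun i => if i ∈ K then (0 : ℝ) else ‖u i‖ ^ 2)
      ?_ ?_ hinj
    · refine Summable.of_nonneg_of_le (fun i => ?_) (fun i => ?_) (summable_sq_lp u)
      · split_ifs <;> positivity
      · split_ifs
        · positivity
        · exact le_rfl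
    · intro i
      simp only
      split_ifs <;> positivity
  rw [h1] at hh
  linarith

open Classical in
lemma AMN_pq_ind (F : Finset H) (c : H) (hc : ¬ IsOfFinOrder c) (a : ℝ) :
    pq (AMN_reg H) c (AMN_lam F c) (AMN_ind F a) = ‖AMN_ind F a‖ ^ 2 := by
  rw [AMN_pq, norm_sq_lp]
  refine (AMN_psi_inj F c hc).tsum_eq (f := fun i => ‖AMN_ind F a i‖ ^ 2) ?_
  intro x hx
  rw [Function.mem_support, AMN_ind_apply] at hx
  by_cases h : x ∈ F
  · exact AMN_mem_range F c h
  · rw [if_neg h] at hx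
    simp at hx

open Classical in
/-- the elementary vectors -/
def AMN_D (H : Type) : Set (L2 H ℝ) := Set.range fun i : H => (lp.single 2 i (1 : ℝ) : L2 H ℝ)

lemma AMN_dense (H : Type) : Dense (Submodule.span ℝ (AMN_D H) : Set (L2 H ℝ)) := by
  classical
  intro f
  have h := lp.hasSum_single (p := 2) (E := fun _ : H => ℝ) (by norm_num) f
  rw [HasSum, SummationFilter.unconditional_filter] at h
  refine mem_closure_of_tendsto h (Filter.Eventually.of_forall fun s => ?_)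
  refine Submodule.sum_mem _ fun i _ => ?_
  have h1 : (lp.single 2 i (f i) : L2 H ℝ) = f i • (lp.single 2 i (1 : ℝ) : L2 H ℝ) := by
    rw [← lp.single_smul]
    simp
  rw [h1]
  refine Submodule.smul_mem _ _ (Submodule.subset_span ?_)
  exact ⟨i, by congr⟩

/-- the coefficient as a seminorm of the first vector -/
def AMN_F1 (v : L2 H ℝ) (h : H) : Seminorm ℝ (L2 H ℝ) :=
  (normSeminorm ℝ ℝ).comp
    (((innerSL ℝ v : L2 H ℝ →L[ℝ] ℝ) : L2 H ℝ →ₗ[ℝ] ℝ).comp
      ((AMN_reg H h).toLinearEquiv : L2 H ℝ →ₗ[ℝ] L2 H ℝ))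

lemma AMN_F1_apply (v : L2 H ℝ) (h : H) (u : L2 H ℝ) :
    AMN_F1 v h u = |⟪AMN_reg H h u, v⟫_ℝ| := by
  rw [real_inner_comm]
  rfl

/-- the coefficient as a seminorm of the second vector -/
def AMN_F2 (u : L2 H ℝ) (h : H) : Seminorm ℝ (L2 H ℝ) :=
  (normSeminorm ℝ ℝ).comp ((innerSL ℝ (AMN_reg H h u) : L2 H ℝ →L[ℝ] ℝ) : L2 H ℝ →ₗ[ℝ] ℝ)

lemma AMN_F2_apply (u : L2 H ℝ) (h : H) (v : L2 H ℝ) :
    AMN_F2 u h v = |⟪AMN_reg H h u, v⟫_ℝ| := rfl

lemma AMN_c0 (hDEN : T_DEN) (H : Type) [Group H] : C0 (AMN_reg H) := by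
  classical
  intro u v δ hδ
  -- elementary vectors
  have h0 : ∀ (i k : H) (δ : ℝ), 0 < δ → {h : H | δ ≤ |⟪AMN_reg H h
      (lp.single 2 i (1 : ℝ) : L2 H ℝ), (lp.single 2 k (1 : ℝ) : L2 H ℝ)⟫_ℝ|}.Finite := by
    intro i k δ hδ
    refine (Set.finite_singleton (k * i⁻¹)).subset ?_
    intro h hh
    rw [Set.mem_ofPred_eq, AMN_inner] at hh
    rw [Set.mem_singleton_iff]
    by_contra hne
    have h1 : h⁻¹ * k ≠ i := by
      intro h2
      apply hne
      rw [← h2]
      group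
    rw [lp.single_apply_ne _ _ _ h1, abs_zero] at hh
    linarith
  -- first vector arbitrary
  have h1 : ∀ (k : H) (u : L2 H ℝ) (δ : ℝ), 0 < δ → {h : H | δ ≤ |⟪AMN_reg H h u,
      (lp.single 2 k (1 : ℝ) : L2 H ℝ)⟫_ℝ|}.Finite := by
    intro k u δ hδ
    have := hDEN H (L2 H ℝ) (AMN_D H) (AMN_dense H)
      (AMN_F1 (lp.single 2 k (1 : ℝ) : L2 H ℝ)) 1 (fun h u => by
        rw [AMN_F1_apply, one_mul]
        refine (abs_real_inner_le_norm _ _).trans ?_
        rw [LinearIsometryEquiv.norm_map, lp.norm_single (by norm_num), norm_one, mul_one])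
      Set.Finite Set.finite_empty (fun s t hst ht => ht.subset hst)
      (fun s t hs ht => hs.union ht) (fun w hw δ hδ => by
        obtain ⟨i, rfl⟩ := hw
        simp only [AMN_F1_apply]
        convert h0 i k δ hδ using 5) u δ hδ
    simpa only [AMN_F1_apply] using this
  have := hDEN H (L2 H ℝ) (AMN_D H) (AMN_dense H) (AMN_F2 u) ‖u‖ (fun h v => by
      rw [AMN_F2_apply]
      refine (abs_real_inner_le_norm _ _).trans ?_
      rw [LinearIsometryEquiv.norm_map])
    Set.Finite Set.finite_empty (fun s t hst ht => ht.subset hst)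
    (fun s t hs ht => hs.union ht) (fun w hw δ hδ => by
      obtain ⟨k, rfl⟩ := hw
      simp only [AMN_F2_apply]
      convert h1 k u δ hδ using 5) v δ hδ
  simpa only [AMN_F2_apply] using this

end coset

theorem p_AMN (hDEN : T_DEN) : T_AMN := by
  classical
  intro H _ l hA hl S ε hε
  obtain ⟨F0, hF0, hne, hF⟩ := hA S (ε ^ 2 / 2) (by positivity)
  obtain ⟨F, rfl⟩ : ∃ F : Finset H, (F : Set H) = F0 := ⟨hF0.toFinset, by simp⟩
  have hcard : 0 < (F.card : ℝ) := by
    have : F.Nonempty := by simpa using hne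
    exact_mod_cast this.card_pos
  set a : ℝ := (Real.sqrt F.card)⁻¹ with ha
  have ha2 : a ^ 2 = (F.card : ℝ)⁻¹ := by
    rw [ha, inv_pow, Real.sq_sqrt hcard.le]
  have hn2 : ‖AMN_ind F a‖ ^ 2 = 1 := by
    rw [AMN_norm_ind, ha2]
    field_simp
  have hn : ‖AMN_ind F a‖ = 1 := by
    have h := (pow_eq_one_iff_of_nonneg (norm_nonneg (AMN_ind F a)) two_ne_zero).1 hn2
    exact h
  refine ⟨L2 H ℝ, inferInstance, inferInstance, inferInstance, AMN_reg H, AMN_Y F,
    AMN_lam F, AMN_ind F a, AMN_c0 hDEN H, fun c hc => ⟨AMN_bes F c (hl c hc),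
      AMN_c0a F c (hl c hc)⟩, hn.le, by rw [hn]; linarith, ?_, ?_⟩
  · intro s hs
    have h1 := AMN_norm_diff F a s
    have h2 := hF s hs
    have h3 : ((fun x => s * x) '' (F : Set H) \ (F : Set H)) =
        (((F.image fun x => s * x) \ F : Finset H) : Set H) := by
      rw [Finset.coe_sdiff, Finset.coe_image]
    rw [h3, Set.ncard_coe_finset, Set.ncard_coe_finset] at h2
    rw [ha2] at h1
    have h4 : ‖AMN_reg H s (AMN_ind F a) - AMN_ind F a‖ ^ 2 ≤ ε ^ 2 := by
      rw [h1]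
      have h5 : 2 * (((F.image fun x => s * x) \ F).card : ℝ) * (F.card : ℝ)⁻¹ ≤
          2 * (ε ^ 2 / 2 * F.card) * (F.card : ℝ)⁻¹ := by
        gcongr
      refine h5.trans (le_of_eq ?_)
      field_simp
    exact abs_le_of_sq_le_sq' h4 hε.le |>.2
  · intro c hc
    rw [AMN_pq_ind F c (hl c hc), hn2]
    linarith

end

end HGP
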