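import Pool.Agent.HGP.Targets

/-!
# HGP: target T_ASM (the assembly)
-/

open scoped InnerProductSpace
open HNNExtension HNNExtension.NormalWord

namespace HGP

set_option maxHeartbeats 4000000

section asm

/-- the data on the HNN extension obtained from a strict contraction -/
lemma ASM_core (hSYS : T_SYS) (hSP : T_SP) (hPOS : T_POS) (hGNS : T_GNS) (hLC : T_LC)
    (hKGA : T_KGA) (hKGB : T_KGB) (hPQ : T_PQ)
    (H : Type) [Group H] (A B : Subgroup H) (φ : A ≃* B) (l : List H) (E : Type)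
    [NormedAddCommGroup E] [InnerProductSpace ℝ E] [CompleteSpace E] (π : H →* (E ≃ₗᵢ[ℝ] E))
    (Y : H → Type) (lam : ∀ c : H, Y c → E) (V : E →L[ℝ] E) (hC0 : C0 π)
    (hl : ∀ c ∈ l, Bes π c (lam c) ∧ C0A π c (lam c)) (hV : ‖V‖ < 1)
    (htw : ∀ (a : A) (u : E), V (π (a : H) u) = π (φ a : H) (V u))
    (hd1 : ∀ (u : E) (δ : ℝ), 0 < δ → ∃ T : Finset H, ∀ h : H, δ ≤ ‖V (π h u)‖ →
      ∃ a ∈ A, ∃ x ∈ T, h = a * x)
    (hd2 : ∀ (u : E) (δ : ℝ), 0 < δ → ∃ T : Finset H, ∀ h : H,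
      δ ≤ ‖ContinuousLinearMap.adjoint V (π h u)‖ → ∃ b ∈ B, ∃ x ∈ T, h = b * x) :
    ∃ (K : Type) (_ : NormedAddCommGroup K) (_ : InnerProductSpace ℝ K) (_ : CompleteSpace K)
      (P : HNNExtension H A B φ →* (K ≃ₗᵢ[ℝ] K)) (ι : E →ₗᵢ[ℝ] K),
      C0 P ∧ (∀ c ∈ l, Bes P (of c) (fun z => ι (lam c z)) ∧
        C0A P (of c) (fun z => ι (lam c z)) ∧
        ∀ u : E, pq P (of c) (fun z => ι (lam c z)) (ι u) = pq π c (lam c) u) ∧
      (∀ (h : H) (u : E), P (of h) (ι u) = ι (π h u)) ∧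
      ∀ u v : E, ⟪P t (ι u), ι v⟫_ℝ = ⟪V u, v⟫_ℝ := by
  obtain ⟨W, hW⟩ := hSYS H A B φ E π V hV.le htw
  obtain ⟨s1, s2, s3, s4, s5, s6, s7, s8, s9⟩ := hSP H A B φ E π V W hW
  have hW1u : ∀ u : E, W 1 u = u := by
    intro u
    have h := s1 1 u
    simpa using h
  have hW1 : W 1 = 1 := by
    ext u
    simpa using hW1u u
  obtain ⟨K, i1, i2, i3, P, ι, hP, hdense⟩ := hGNS (HNNExtension H A B φ) E W hW1 s7
    (hPOS H A B φ E π V W hW)
  obtain ⟨ka, kb⟩ := hKGA H A B φ E π V W hW K P ι hP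
  obtain ⟨ga, gb⟩ := hKGB (HNNExtension H A B φ) E W K P ι hP hdense
  refine ⟨K, i1, i2, i3, P, ι, ga ?_, ?_, ka, ?_⟩
  · -- coefficients
    intro u v δ hδ
    have hv : 0 < ‖v‖ + 1 := by positivity
    -- the seminorm
    let p : Seminorm ℝ E :=
      { toFun := fun u => |⟪u, v⟫_ℝ| / (‖v‖ + 1)
        map_zero' := by simp
        add_le' := by
          intro x y
          rw [inner_add_left, ← add_div]
          exact div_le_div_of_nonneg_right (abs_add_le _ _) hv.le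
        neg' := by
          intro x
          rw [inner_neg_left, abs_neg]
        smul' := by
          intro c x
          rw [real_inner_smul_left, abs_mul, mul_div_assoc]
          rfl }
    have hp : ∀ u, p u = |⟪u, v⟫_ℝ| / (‖v‖ + 1) := fun u => rfl
    have hle : ∀ u, p u ≤ ‖u‖ := by
      intro u
      rw [hp, div_le_iff₀ hv]
      calc |⟪u, v⟫_ℝ| ≤ ‖u‖ * ‖v‖ := abs_real_inner_le_norm u v
        _ ≤ ‖u‖ * (‖v‖ + 1) := by
          apply mul_le_mul_of_nonneg_left _ (norm_nonneg _)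
          linarith
    obtain ⟨T, hT⟩ := hLC H A B φ E π V W hW hV hd1 hd2 p ⊥ hle
      (by
        intro c hc u
        rw [Subgroup.mem_bot] at hc
        rw [hc, map_one]
        rfl)
      (by
        intro u δ hδ
        have hfin := hC0 u v (δ * (‖v‖ + 1)) (by positivity)
        refine ⟨hfin.toFinset, fun h hh => ⟨1, Subgroup.mem_bot.2 rfl, h, ?_, by simp⟩⟩
        rw [Set.Finite.mem_toFinset, Set.mem_setOf_eq]
        rw [hp, le_div_iff₀ hv] at hh
        exact hh)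
      u (δ / (‖v‖ + 1)) (by positivity)
    refine T.finite_toSet.subset ?_
    intro g hg
    rw [Set.mem_setOf_eq] at hg
    obtain ⟨c, hc, x, hx, hgx⟩ := hT g (by
      rw [hp]
      exact div_le_div_of_nonneg_right hg hv.le)
    rw [Subgroup.mem_bot] at hc
    rw [hc, map_one, one_mul] at hgx
    rw [hgx]
    exact hx
  · -- the families
    intro c hc
    obtain ⟨hB, hA⟩ := hl c hc
    obtain ⟨hB', hpq⟩ := kb c (Y c) (lam c) hB
    have hP1 : ∀ u : E, P 1 (ι u) = ι u := by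
      intro u
      rw [map_one]
      rfl
    refine ⟨hB', gb (of c) (Y c) (fun z => ι (lam c z)) hB' ?_, ?_⟩
    · intro u δ hδ
      obtain ⟨p, hp2, hple, hpinv, -, -⟩ := hPQ H E π c (Y c) (lam c) hB
      obtain ⟨T, hT⟩ := hLC H A B φ E π V W hW hV hd1 hd2 p (Subgroup.zpowers c) hple
        (by
          intro c' hc' u
          obtain ⟨m, rfl⟩ := Subgroup.mem_zpowers_iff.1 hc'
          exact hpinv m u)
        (by
          intro u δ hδ
          obtain ⟨T, hT⟩ := hA u (δ ^ 2) (by positivity)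
          refine ⟨T, fun h hh => ?_⟩
          obtain ⟨m, x, hx, hhx⟩ := hT h (by
            rw [← hp2]
            exact pow_le_pow_left₀ hδ.le hh 2)
          exact ⟨c ^ m, Subgroup.zpow_mem_zpowers c m, x, hx, hhx⟩)
        u (Real.sqrt δ) (Real.sqrt_pos.2 hδ)
      refine ⟨T, fun g hg => ?_⟩
      rw [hpq, ← hp2] at hg
      obtain ⟨c', hc', x, hx, hgx⟩ := hT g (by
        rw [← Real.sqrt_sq (apply_nonneg p (W g u))]
        exact Real.sqrt_le_sqrt hg)
      obtain ⟨m, rfl⟩ := Subgroup.mem_zpowers_iff.1 hc'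
      refine ⟨m, x, hx, ?_⟩
      rw [hgx, map_zpow]
    · intro u
      have h := hpq 1 u
      rw [hP1, hW1u] at h
      exact h
  · intro u v
    rw [hP, s2]

theorem p_ASM (hSYS : T_SYS) (hSP : T_SP) (hPOS : T_POS) (hGNS : T_GNS) (hLC : T_LC)
    (hAW : T_AW) (hKGA : T_KGA) (hKGB : T_KGB) (hPQ : T_PQ) : T_ASM := by
  intro H _ A B φ l hop S' ε hε
  obtain ⟨S, ε₁, hε₁, hAW'⟩ := hAW H A B φ S' ε hε
  -- the small number
  obtain ⟨e, he0, he1, he2, he3, he4⟩ : ∃ e : ℝ, 0 < e ∧ e ≤ ε ∧ e ≤ ε₁ ∧ 4 * e ≤ ε₁ ^ 2 ∧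
      e ≤ 1 / 2 := by
    refine ⟨min (min ε ε₁) (min (ε₁ ^ 2 / 4) (1 / 2)), ?_, ?_, ?_, ?_, ?_⟩
    · exact lt_min (lt_min hε hε₁) (lt_min (by positivity) (by norm_num))
    · exact (min_le_left _ _).trans (min_le_left _ _)
    · exact (min_le_left _ _).trans (min_le_right _ _)
    · have : min (min ε ε₁) (min (ε₁ ^ 2 / 4) (1 / 2)) ≤ ε₁ ^ 2 / 4 :=
        (min_le_right _ _).trans (min_le_left _ _)
      linarith
    · exact (min_le_right _ _).trans (min_le_right _ _)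
  obtain ⟨E, j1, j2, j3, π, Y, lam, V, ξ, hC0, hl, hV, htw, hd1, hd2, ⟨hx1, hx2, hx3, hx4⟩,
    hVx⟩ := hop S e he0
  -- the scaled operator
  have hs0 : 0 < 1 - e := by linarith
  have hs1 : 1 - e ≤ 1 := by linarith
  have hVs : ‖(1 - e) • V‖ < 1 := by
    rw [norm_smul, Real.norm_of_nonneg hs0.le]
    calc (1 - e) * ‖V‖ ≤ (1 - e) * 1 := mul_le_mul_of_nonneg_left hV hs0.le
      _ < 1 := by linarith
  have hsc : ∀ x : E, ‖(1 - e) • x‖ ≤ ‖x‖ := by
    intro x
    rw [norm_smul, Real.norm_of_nonneg hs0.le]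
    calc (1 - e) * ‖x‖ ≤ 1 * ‖x‖ := mul_le_mul_of_nonneg_right hs1 (norm_nonneg _)
      _ = ‖x‖ := one_mul _
  obtain ⟨K, i1, i2, i3, P, ι, q1, q2, q3, q4⟩ := ASM_core hSYS hSP hPOS hGNS hLC hKGA hKGB hPQ
    H A B φ l E π Y lam ((1 - e) • V) hC0 hl hVs
    (by
      intro a u
      rw [ContinuousLinearMap.smul_apply, ContinuousLinearMap.smul_apply, htw, map_smul])
    (by
      intro u δ hδ
      obtain ⟨T, hT⟩ := hd1 u δ hδ
      refine ⟨T, fun h hh => hT h ?_⟩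
      rw [ContinuousLinearMap.smul_apply] at hh
      exact hh.trans (hsc _))
    (by
      intro u δ hδ
      obtain ⟨T, hT⟩ := hd2 u δ hδ
      refine ⟨T, fun h hh => hT h ?_⟩
      have hadj : ContinuousLinearMap.adjoint ((1 - e) • V) =
          (1 - e) • ContinuousLinearMap.adjoint V := by
        rw [map_smulₛₗ]
        simp
      rw [hadj, ContinuousLinearMap.smul_apply] at hh
      exact hh.trans (hsc _))
  -- the choice of preimages
  obtain ⟨ch, hch⟩ : ∃ ch : HNNExtension H A B φ → H, ∀ g ∈ l.map of,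
      ch g ∈ l ∧ of (ch g) = g := by
    classical
    refine ⟨fun g => if h : ∃ c ∈ l, (of c : HNNExtension H A B φ) = g then h.choose else 1,
      fun g hg => ?_⟩
    have h : ∃ c ∈ l, (of c : HNNExtension H A B φ) = g := List.mem_map.1 hg
    simp only [dif_pos h]
    exact h.choose_spec
  refine ⟨K, i1, i2, i3, P, fun g => Y (ch g), fun g z => ι (lam (ch g) z), ι ξ, q1, ?_, ?_, ?_,
    ?_, ?_⟩
  · intro g hg
    obtain ⟨h1, h2⟩ := hch g hg
    obtain ⟨k1, k2, -⟩ := q2 (ch g) h1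
    rw [h2] at k1 k2
    exact ⟨k1, k2⟩
  · rw [LinearIsometry.norm_map]
    exact hx1
  · rw [LinearIsometry.norm_map]
    linarith
  · refine hAW' K P (ι ξ) ?_ ?_
    · intro s hs
      rw [q3, ← map_sub, LinearIsometry.norm_map]
      exact (hx3 s hs).trans he2
    · have h1 : ‖P t (ι ξ) - ι ξ‖ ^ 2 ≤ ε₁ ^ 2 := by
        rw [norm_sub_sq_real, LinearIsometryEquiv.norm_map, LinearIsometry.norm_map, q4,
          ContinuousLinearMap.smul_apply, real_inner_smul_left]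
        have h2 : ‖ξ‖ ^ 2 ≤ 1 := by
          have := norm_nonneg ξ
          nlinarith
        have h3 : (1 - e) * (1 - e) ≤ (1 - e) * ⟪V ξ, ξ⟫_ℝ :=
          mul_le_mul_of_nonneg_left hVx hs0.le
        nlinarith
      exact (pow_le_pow_iff_left₀ (norm_nonneg _) hε₁.le two_ne_zero).1 h1
  · intro g hg
    obtain ⟨h1, h2⟩ := hch g hg
    obtain ⟨-, -, k3⟩ := q2 (ch g) h1
    have k4 := k3 ξ
    rw [h2] at k4
    rw [k4]
    have := hx4 (ch g) h1
    linarith

end asm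

end HGP
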