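import Pool.Agent.HGP.TargetsF

/-!
# HGP: targets ADG (new free letter) and AUT (automorphisms)
-/

open HNNExtension

namespace HGP

noncomputable section

theorem p_ADG (hADD : T_ADD) (hSVT : T_SVT) (hIN0 : T_IN0) (hSUR : T_SUR) (hTRA : T_TRA)
    (hSBL : T_SBL) : T_ADG := by
  intro n r hr
  obtain ⟨φ, e, he1, he2⟩ := hADD n r
  obtain ⟨β, hβ, -⟩ := hSVT (OR r) ⊥ ⊥ φ
  have h1 := hIN0 (OR r) φ _ hr
  have h2 := hSUR _ t β hβ _ h1
  have h3 := hTRA _ _ e.symm _ h2
  refine hSBL _ _ _ ?_ h3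
  intro c hc
  rw [List.mem_ofFn] at hc
  obtain ⟨i, rfl⟩ := hc
  refine Fin.lastCases ?_ (fun i => ?_) i
  · rw [List.map_cons]
    have : e.symm t = gl (FreeGroup.map Fin.castSucc r) (Fin.last n) := by
      rw [← he2, e.symm_apply_apply]
    rw [this]
    exact List.mem_cons_self
  · rw [List.map_cons]
    refine List.mem_cons_of_mem _ ?_
    rw [List.map_map, List.mem_map]
    refine ⟨gl r i, ?_, ?_⟩
    · rw [List.mem_ofFn]; exact ⟨i, rfl⟩
    · simp only [Function.comp_apply]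
      rw [← he1 i]
      exact e.symm_apply_apply _

theorem p_AUT (hMOV : T_MOV) (hTRA : T_TRA) (hEXT : T_EXT) (hSBL : T_SBL) : T_AUT := by
  intro n r f hr hf
  obtain ⟨e, he⟩ := hMOV.1 n r f
  have h1 := hTRA _ _ e _ hr
  have h2 := hEXT (OR (f r)) _ (List.ofFn (gl (f r))) h1 ?_
  · exact hSBL _ _ _ (fun c hc => List.mem_append_left _ hc) h2
  · intro c hc
    rw [List.mem_ofFn] at hc
    obtain ⟨i, rfl⟩ := hc
    rcases hf i with h | ⟨j, k, g, hk, hg⟩
    · exact Or.inl h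
    · refine Or.inr ⟨e (gl r j), ?_, k, e (PresentedGroup.mk {r} g), hk, ?_⟩
      · rw [List.mem_map]
        exact ⟨gl r j, by rw [List.mem_ofFn]; exact ⟨j, rfl⟩, rfl⟩
      · have h3 : gl (f r) i = e (PresentedGroup.mk {r} (f.symm (FreeGroup.of i))) := by
          rw [he, f.apply_symm_apply]; rfl
        rw [h3, hg]
        simp only [map_mul, map_zpow, map_inv]
        rfl

end

end HGP
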