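import Pool.Agent.HGP.Targets

/-!
# HGP: almost invariance under the base group and the stable letter
-/

open scoped InnerProductSpace
open HNNExtension

namespace HGP

/-- a bound for the displacement of `x` by `g` -/
def AW_B {H : Type} [Group H] {A B : Subgroup H} (φ : A ≃* B) (g : HNNExtension H A B φ)
    (S : Finset H) (C : ℕ) : Prop :=
  ∀ (K : Type) [NormedAddCommGroup K] [InnerProductSpace ℝ K]
    (P : HNNExtension H A B φ →* (K ≃ₗᵢ[ℝ] K)) (x : K) (e : ℝ), 0 ≤ e →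
    (∀ s ∈ S, ‖P (of s) x - x‖ ≤ e) → ‖P t x - x‖ ≤ e → ‖P g x - x‖ ≤ C * e

lemma AW_mul {K : Type} [NormedAddCommGroup K] [InnerProductSpace ℝ K] (f g : K ≃ₗᵢ[ℝ] K)
    (x : K) : (f * g) x = f (g x) := rfl

lemma AW_one {H : Type} [Group H] {A B : Subgroup H} (φ : A ≃* B) (g : HNNExtension H A B φ) :
    ∃ (S : Finset H) (C : ℕ), AW_B φ g S C := by
  induction g using HNNExtension.induction_on with
  | of h =>
    refine ⟨{h}, 1, ?_⟩
    intro K _ _ P x e _ h1 _
    rw [Nat.cast_one, one_mul]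
    exact h1 h (Finset.mem_singleton_self h)
  | t =>
    refine ⟨∅, 1, ?_⟩
    intro K _ _ P x e _ _ h2
    rw [Nat.cast_one, one_mul]
    exact h2
  | mul a b ha hb =>
    classical
    obtain ⟨S1, C1, h1⟩ := ha
    obtain ⟨S2, C2, h2⟩ := hb
    refine ⟨S1 ∪ S2, C1 + C2, ?_⟩
    intro K _ _ P x e he hS ht
    have k1 := h1 K P x e he (fun s hs => hS s (Finset.mem_union_left _ hs)) ht
    have k2 := h2 K P x e he (fun s hs => hS s (Finset.mem_union_right _ hs)) ht
    have k3 : P (a * b) x - x = P a (P b x - x) + (P a x - x) := by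
      rw [map_mul, AW_mul, map_sub]
      abel
    rw [k3]
    refine le_trans (norm_add_le _ _) ?_
    rw [LinearIsometryEquiv.norm_map, Nat.cast_add]
    linarith
  | inv a ha =>
    obtain ⟨S1, C1, h1⟩ := ha
    refine ⟨S1, C1, ?_⟩
    intro K _ _ P x e he hS ht
    have k1 := h1 K P x e he hS ht
    have k2 : ‖P a⁻¹ x - x‖ = ‖P a x - x‖ := by
      rw [← LinearIsometryEquiv.norm_map (P a) (P a⁻¹ x - x), map_sub,
        ← AW_mul, ← map_mul, mul_inv_cancel, map_one]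
      rw [LinearIsometryEquiv.coe_one, id_eq, norm_sub_rev]
    rw [k2]
    exact k1

theorem p_AW : T_AW := by
  intro H _ A B φ S' ε hε
  classical
  choose S C hSC using fun g : HNNExtension H A B φ => AW_one φ g
  have hpos : (0 : ℝ) < ((∑ g ∈ S', C g : ℕ) : ℝ) + 1 := by positivity
  refine ⟨S'.biUnion S, ε / (((∑ g ∈ S', C g : ℕ) : ℝ) + 1), div_pos hε hpos, ?_⟩
  intro K _ _ P x h1 h2 g hg
  have h3 := hSC g K P x _ (div_pos hε hpos).le
    (fun s hs => h1 s (Finset.mem_biUnion.2 ⟨g, hg, hs⟩)) h2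
  refine le_trans h3 ?_
  have h4 : (C g : ℝ) ≤ ((∑ g ∈ S', C g : ℕ) : ℝ) := by
    exact_mod_cast Finset.single_le_sum (f := C) (fun i _ => Nat.zero_le _) hg
  calc (C g : ℝ) * (ε / (((∑ g ∈ S', C g : ℕ) : ℝ) + 1))
      ≤ (((∑ g ∈ S', C g : ℕ) : ℝ) + 1) * (ε / (((∑ g ∈ S', C g : ℕ) : ℝ) + 1)) :=
        mul_le_mul_of_nonneg_right (by linarith) (div_pos hε hpos).le
    _ = ε := mul_div_cancel₀ _ (ne_of_gt hpos)

end HGP
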