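import Pool.Agent.HGP.Targets

/-!
# HGP: operator data for trivial edge groups (job HGP-BI0)
-/

set_option autoImplicit false

open scoped InnerProductSpace ENNReal
open HNNExtension HNNExtension.NormalWord

namespace HGP

noncomputable section

section

variable {E : Type} [NormedAddCommGroup E] [InnerProductSpace ℝ E]

/-- the rank one operator -/
def BI0_V (x : E) : E →L[ℝ] E := (innerSL ℝ x).smulRight x

lemma BI0_apply (x u : E) : BI0_V x u = ⟪x, u⟫_ℝ • x := rfl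

lemma BI0_norm_apply (x u : E) (hx : ‖x‖ ≤ 1) : ‖BI0_V x u‖ ≤ |⟪u, x⟫_ℝ| := by
  rw [BI0_apply, norm_smul, Real.norm_eq_abs, real_inner_comm]
  exact mul_le_of_le_one_right (abs_nonneg _) hx

lemma BI0_norm (x : E) (hx : ‖x‖ ≤ 1) : ‖BI0_V x‖ ≤ 1 := by
  refine ContinuousLinearMap.opNorm_le_bound _ zero_le_one fun u => ?_
  rw [one_mul]
  refine (BI0_norm_apply x u hx).trans ((abs_real_inner_le_norm u x).trans ?_)
  exact mul_le_of_le_one_right (norm_nonneg _) hx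

lemma BI0_adj [CompleteSpace E] (x : E) :
    ContinuousLinearMap.adjoint (BI0_V x) = BI0_V x := by
  symm
  rw [ContinuousLinearMap.eq_adjoint_iff]
  intro u v
  rw [BI0_apply, BI0_apply, real_inner_smul_left, real_inner_smul_right, real_inner_comm u x]
  ring

lemma BI0_inner (x : E) : ⟪BI0_V x x, x⟫_ℝ = ‖x‖ ^ 4 := by
  rw [BI0_apply, real_inner_smul_left, real_inner_self_eq_norm_sq]
  ring

end

lemma BI0_decay {H : Type} [Group H] {E : Type} [NormedAddCommGroup E] [InnerProductSpace ℝ E]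
    (π : H →* (E ≃ₗᵢ[ℝ] E)) (hC : C0 π) (x : E) (hx : ‖x‖ ≤ 1) (u : E) (δ : ℝ) (hδ : 0 < δ) :
    ∃ T : Finset H, ∀ h : H, δ ≤ ‖BI0_V x (π h u)‖ →
      ∃ a ∈ (⊥ : Subgroup H), ∃ y ∈ T, h = a * y := by
  refine ⟨(hC u x δ hδ).toFinset, fun h hh => ⟨1, Subgroup.one_mem _, h, ?_, (one_mul h).symm⟩⟩
  rw [Set.Finite.mem_toFinset]
  exact hh.trans (BI0_norm_apply x _ hx)

theorem p_BI0 : T_BI0 := by
  intro H _ φ l hQ S ε hε
  obtain ⟨E, i1, i2, i3, π, Y, lam, ξ, hC, hl, hn1, hn2, hS, hlc⟩ :=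
    hQ S (min (ε / 4) 1) (lt_min (by positivity) one_pos)
  have he1 : min (ε / 4) 1 ≤ ε / 4 := min_le_left _ _
  have he2 : min (ε / 4) 1 ≤ 1 := min_le_right _ _
  refine ⟨E, i1, i2, i3, π, Y, lam, BI0_V ξ, ξ, hC, hl, BI0_norm ξ hn1, ?_,
    BI0_decay π hC ξ hn1, ?_, ⟨hn1, by linarith, fun s hs => (hS s hs).trans (by linarith),
      fun c hc => le_trans (by linarith) (hlc c hc)⟩, ?_⟩
  · intro a u
    have h1 : (a : H) = 1 := Subgroup.mem_bot.1 a.2
    have h2 : (φ a : H) = 1 := Subgroup.mem_bot.1 (φ a).2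
    rw [h1, h2, map_one]
    rfl
  · rw [BI0_adj]
    exact BI0_decay π hC ξ hn1
  · rw [BI0_inner]
    have h1 := one_add_mul_le_pow (show (-2 : ℝ) ≤ -min (ε / 4) 1 by linarith) 4
    have h2 : (1 + -min (ε / 4) 1) ^ 4 ≤ ‖ξ‖ ^ 4 :=
      pow_le_pow_left₀ (by linarith) (by linarith) 4
    push_cast at h1
    linarith

end

end HGP
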