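import Pool.Agent.HGP.Targets

/-!
# HGP: operator data on the big space (T_BIG)
-/

open scoped InnerProductSpace ENNReal

namespace HGP

noncomputable section

lemma BIG_zp {H : Type} [Group H] {E : Type} [NormedAddCommGroup E] [InnerProductSpace ℝ E]
    (π : H →* (E ≃ₗᵢ[ℝ] E)) (a b : H) (V : E →L[ℝ] E)
    (h : ∀ f, V (π a f) = π b (V f)) (m : ℤ) : ∀ f, V (π (a ^ m) f) = π (b ^ m) (V f) := by
  have hmul : ∀ (x y : H) (f : E), π (x * y) f = π x (π y f) := by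
    intro x y f
    rw [map_mul]; rfl
  have hone : ∀ f : E, π 1 f = f := by
    intro f
    rw [map_one]; rfl
  induction m using Int.induction_on with
  | zero => intro f; rw [zpow_zero, zpow_zero, hone, hone]
  | succ m ih =>
    intro f
    rw [zpow_add_one, zpow_add_one, hmul, hmul, ih, h]
  | pred m ih =>
    intro f
    rw [zpow_sub_one, zpow_sub_one, hmul, hmul, ih]
    congr 1
    have h1 : V f = π b (V (π a⁻¹ f)) := by
      rw [← h, ← hmul, mul_inv_cancel, hone]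
    rw [h1, ← hmul, inv_mul_cancel, hone]

lemma BIG_scale {H : Type} [Group H] {E : Type} [NormedAddCommGroup E] [InnerProductSpace ℝ E]
    {Y : Type} (π : H →* (E ≃ₗᵢ[ℝ] E)) (c : H) (lam : Y → E) (x : ℝ) (u : E) :
    pq π c lam (x • u) = x ^ 2 * pq π c lam u := by
  unfold pq
  rw [← tsum_mul_left]
  refine tsum_congr fun i => ?_
  rw [map_smul, real_inner_smul_left, mul_pow]

lemma BIG_pqle (hPQ : T_PQ) {H : Type} [Group H] {E : Type} [NormedAddCommGroup E]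
    [InnerProductSpace ℝ E] {Y : Type} (π : H →* (E ≃ₗᵢ[ℝ] E)) (c : H) (lam : Y → E)
    (hB : Bes π c lam) (u : E) : pq π c lam u ≤ ‖u‖ ^ 2 := by
  obtain ⟨p, h1, h2, -⟩ := hPQ H E π c Y lam hB
  rw [← h1]
  exact pow_le_pow_left₀ (apply_nonneg p u) (h2 u) 2

lemma BIG_ns (hLEV : T_LEV) {Y E : Type} [NormedAddCommGroup E] [InnerProductSpace ℝ E] (J : ℕ)
    (f : ℕ → L2 (Ix Y) E) (hf : ∀ j n l, l.length ≠ j → f j (n, l) = 0) :
    ‖(Real.sqrt ((J : ℝ) + 1))⁻¹ • ∑ j ∈ Finset.range (J + 1), f j‖ ^ 2 =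
      ((J : ℝ) + 1)⁻¹ * ∑ j ∈ Finset.range (J + 1), ‖f j‖ ^ 2 := by
  have hN : (0 : ℝ) < (J : ℝ) + 1 := by positivity
  rw [norm_smul, mul_pow, norm_inv, inv_pow, Real.norm_eq_abs, sq_abs, Real.sq_sqrt hN.le]
  congr 1
  rw [← real_inner_self_eq_norm_sq, hLEV Y E J f f hf hf]
  refine Finset.sum_congr rfl fun j _ => ?_
  rw [real_inner_self_eq_norm_sq]

lemma BIG_up (hLEV : T_LEV) {Y E : Type} [NormedAddCommGroup E] [InnerProductSpace ℝ E] (J : ℕ)
    (f : ℕ → L2 (Ix Y) E) (hf : ∀ j n l, l.length ≠ j → f j (n, l) = 0) (x : ℝ) (hx : 0 ≤ x)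
    (hb : ∀ j ≤ J, ‖f j‖ ≤ x) :
    ‖(Real.sqrt ((J : ℝ) + 1))⁻¹ • ∑ j ∈ Finset.range (J + 1), f j‖ ≤ x := by
  have hN : (0 : ℝ) < (J : ℝ) + 1 := by positivity
  refine (pow_le_pow_iff_left₀ (norm_nonneg _) hx two_ne_zero).1 ?_
  rw [BIG_ns hLEV J f hf, inv_mul_le_iff₀ hN]
  calc ∑ j ∈ Finset.range (J + 1), ‖f j‖ ^ 2 ≤ ∑ _j ∈ Finset.range (J + 1), x ^ 2 :=
        Finset.sum_le_sum fun j hj => pow_le_pow_left₀ (norm_nonneg _)
          (hb j (Nat.lt_succ_iff.1 (Finset.mem_range.1 hj))) 2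
    _ = ((J : ℝ) + 1) * x ^ 2 := by
        rw [Finset.sum_const, Finset.card_range, nsmul_eq_mul]; push_cast; ring

lemma BIG_lo (hLEV : T_LEV) {Y E : Type} [NormedAddCommGroup E] [InnerProductSpace ℝ E] (J : ℕ)
    (f : ℕ → L2 (Ix Y) E) (hf : ∀ j n l, l.length ≠ j → f j (n, l) = 0) (x : ℝ) (hx : 0 ≤ x)
    (hb : ∀ j ≤ J, x ≤ ‖f j‖) :
    x ≤ ‖(Real.sqrt ((J : ℝ) + 1))⁻¹ • ∑ j ∈ Finset.range (J + 1), f j‖ := by
  have hN : (0 : ℝ) < (J : ℝ) + 1 := by positivity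
  refine (pow_le_pow_iff_left₀ hx (norm_nonneg _) two_ne_zero).1 ?_
  rw [BIG_ns hLEV J f hf, le_inv_mul_iff₀ hN]
  calc ((J : ℝ) + 1) * x ^ 2 = ∑ _j ∈ Finset.range (J + 1), x ^ 2 := by
        rw [Finset.sum_const, Finset.card_range, nsmul_eq_mul]; push_cast; ring
    _ ≤ ∑ j ∈ Finset.range (J + 1), ‖f j‖ ^ 2 :=
        Finset.sum_le_sum fun j hj => pow_le_pow_left₀ hx
          (hb j (Nat.lt_succ_iff.1 (Finset.mem_range.1 hj))) 2

/-- the square sums of the normalised sum of levels -/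
lemma BIG_pq {H : Type} [Group H] {E : Type} [NormedAddCommGroup E] [InnerProductSpace ℝ E]
    {Y Y' : Type} (π : H →* (E ≃ₗᵢ[ℝ] E)) (c : H) (lam : Y' → E) (J : ℕ) (w : ℕ → E)
    (η : ℕ → L2 (Ix Y) ℝ) (hη : ∀ j n z, z.length ≠ j → η j (n, z) = 0) (x : ℝ) (hx : 0 ≤ x)
    (h1 : ∀ j ≤ J, x ≤ ‖η j‖) (h2 : ∀ j ≤ J, x ≤ pq π c lam (w j)) :
    x ^ 3 ≤ ∑' i, pq π c lam
      (((Real.sqrt ((J : ℝ) + 1))⁻¹ • ∑ j ∈ Finset.range (J + 1), tens (η j) (w j) :
        L2 (Ix Y) E) i) := by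
  have hN : (0 : ℝ) < (J : ℝ) + 1 := by positivity
  have key : ∀ i : Ix Y, pq π c lam
      (((Real.sqrt ((J : ℝ) + 1))⁻¹ • ∑ j ∈ Finset.range (J + 1), tens (η j) (w j) :
        L2 (Ix Y) E) i) = ∑ j ∈ Finset.range (J + 1),
          ((J : ℝ) + 1)⁻¹ * (‖η j i‖ ^ 2 * pq π c lam (w j)) := by
    rintro ⟨n, z⟩
    have e1 : ((Real.sqrt ((J : ℝ) + 1))⁻¹ • ∑ j ∈ Finset.range (J + 1), tens (η j) (w j) :
        L2 (Ix Y) E) (n, z) =
        (Real.sqrt ((J : ℝ) + 1))⁻¹ • ∑ j ∈ Finset.range (J + 1), η j (n, z) • w j := by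
      rw [lp.coeFn_smul, Pi.smul_apply, lp.coeFn_sum, Finset.sum_apply]
      rfl
    rw [e1, BIG_scale, inv_pow, Real.sq_sqrt hN.le, ← Finset.mul_sum]
    congr 1
    by_cases hz : z.length ≤ J
    · rw [Finset.sum_eq_single z.length, Finset.sum_eq_single z.length, BIG_scale,
        Real.norm_eq_abs, sq_abs]
      · intro j _ hj
        rw [hη j n z (fun h => hj h.symm)]; simp
      · intro h
        exact absurd (Finset.mem_range.2 (Nat.lt_succ_iff.2 hz)) h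
      · intro j _ hj
        rw [hη j n z (fun h => hj h.symm), zero_smul]
      · intro h
        exact absurd (Finset.mem_range.2 (Nat.lt_succ_iff.2 hz)) h
    · have h0 : ∀ j ∈ Finset.range (J + 1), η j (n, z) = 0 := by
        intro j hj
        refine hη j n z (fun h => hz ?_)
        rw [h]; exact Nat.lt_succ_iff.1 (Finset.mem_range.1 hj)
      rw [Finset.sum_eq_zero (fun j hj => by rw [h0 j hj, zero_smul]),
        Finset.sum_eq_zero (fun j hj => by rw [h0 j hj]; simp)]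
      have := BIG_scale π c lam 0 0
      simpa using this
  rw [tsum_congr key, Summable.tsum_finsetSum]
  · have e2 : ∀ j ∈ Finset.range (J + 1), ∑' i, ((J : ℝ) + 1)⁻¹ * (‖η j i‖ ^ 2 *
        pq π c lam (w j)) = ((J : ℝ) + 1)⁻¹ * (‖η j‖ ^ 2 * pq π c lam (w j)) := by
      intro j _
      rw [tsum_mul_left, tsum_mul_right, norm_sq_lp]
    rw [Finset.sum_congr rfl e2, ← Finset.mul_sum, le_inv_mul_iff₀ hN]
    calc ((J : ℝ) + 1) * x ^ 3 = ∑ _j ∈ Finset.range (J + 1), x ^ 3 := by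
          rw [Finset.sum_const, Finset.card_range, nsmul_eq_mul]; push_cast; ring
      _ ≤ ∑ j ∈ Finset.range (J + 1), ‖η j‖ ^ 2 * pq π c lam (w j) := by
          refine Finset.sum_le_sum fun j hj => ?_
          have hj' := Nat.lt_succ_iff.1 (Finset.mem_range.1 hj)
          calc x ^ 3 = x ^ 2 * x := by ring
            _ ≤ ‖η j‖ ^ 2 * pq π c lam (w j) :=
              mul_le_mul (pow_le_pow_left₀ hx (h1 j hj') 2) (h2 j hj') hx (by positivity)
  · intro j _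
    exact ((summable_sq_lp (η j)).mul_right _).mul_left _

/-- `V` raises the level by one -/
lemma BIG_vlev {H : Type} [Group H] {E : Type} [NormedAddCommGroup E] [InnerProductSpace ℝ E]
    {Y : Type} (β : H →* Multiplicative ℤ) (π : H →* (E ≃ₗᵢ[ℝ] E)) (a b : H) (r : ℕ)
    (lam : Y → E) (ω : List (Y × ℤ) → E) (V : L2 (Ix Y) E →L[ℝ] L2 (Ix Y) E)
    (hV : VForm (pR (List (Y × ℤ)) β π) π a b r (mu lam) ω V) (j : ℕ) (f : L2 (Ix Y) E)
    (hf : ∀ n z, z.length ≠ j → f (n, z) = 0) (n : ℤ) (z : List (Y × ℤ))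
    (hz : z.length ≠ j + 1) : V f (n, z) = 0 := by
  classical
  rw [hV f n z]
  have h0 : ⟪pR (List (Y × ℤ)) β π (a ^ (-(n / (r : ℤ)))) f, mu lam z⟫_ℝ = 0 := by
    cases z with
    | nil => rw [mu]; exact inner_zero_right _
    | cons q l =>
      rw [mu, lp.inner_single_right, pR_apply]
      rw [hf _ l (fun h => hz (by rw [List.length_cons, h])), map_zero, inner_zero_left]
  rw [h0, mul_zero, zero_smul]

theorem p_BIG (hXI : T_XI) (hVOP : T_VOP) (hVAD : T_VAD) (hMU : T_MU) (hPQT : T_PQT)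
    (hC0T : T_C0T) (hPQ : T_PQ) (hLEV : T_LEV) : T_BIG := by
  classical
  intro H _ a b β r hr hβ l hal hUF θ hθ S ε hε
  obtain ⟨E0, i1, i2, i3, π0, Y, lam, hC0, hfam, hAI⟩ := hUF
  obtain ⟨hBa, hCa⟩ := hfam a hal
  -- parameters
  set e : ℝ := min ε 1 / 10 with he
  have hm : 0 < min ε 1 := lt_min hε one_pos
  have he0 : 0 < e := by rw [he]; positivity
  have he1 : 10 * e ≤ ε := by rw [he]; have := min_le_left ε 1; linarith
  have he2 : 10 * e ≤ 1 := by rw [he]; have := min_le_right ε 1; linarith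
  obtain ⟨J, hJ⟩ := exists_nat_gt (1 / (4 * e))
  have hN : (0 : ℝ) < (J : ℝ) + 1 := by positivity
  have hJN : 1 - 4 * e ≤ ((J : ℝ) + 1)⁻¹ * J := by
    have h1 : (1 : ℝ) < 4 * e * J := by
      rw [div_lt_iff₀ (by positivity)] at hJ; linarith
    rw [le_inv_mul_iff₀ hN]
    nlinarith
  obtain ⟨w, η, hw, hη, hlev, hlow, hVj⟩ :=
    hXI H E0 π0 a b β r hr hβ l Y lam hal hBa hAI J S e he0
  -- the family mu
  obtain ⟨hMB, -, hMC⟩ := hMU H E0 π0 a (Y a) (lam a) β hBa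
  -- the operator
  obtain ⟨V, hVF, hVn, hVc⟩ := hVOP H (L2 (Ix (Y a)) E0) E0 (pR (List (Y a × ℤ)) β π0) π0 a b β r
    hr hβ (List (Y a × ℤ)) (mu (lam a)) (fun z => w z.length) hMB (fun z => hw _)
  have hV1 : ‖V‖ ≤ 1 := by
    refine ContinuousLinearMap.opNorm_le_bound _ zero_le_one fun f => ?_
    rw [one_mul]
    refine (pow_le_pow_iff_left₀ (norm_nonneg _) (norm_nonneg _) two_ne_zero).1 ?_
    exact (hVn f).trans (BIG_pqle hPQ _ _ _ hMB f)
  have hflev : ∀ j n z, z.length ≠ j → tens (η j) (w j) (n, z) = 0 := by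
    intro j n z hz
    rw [tens_apply, hlev j n z hz, zero_smul]
  have hfn : ∀ j, ‖tens (η j) (w j)‖ ≤ 1 := by
    intro j
    rw [norm_tens]
    exact mul_le_one₀ (hη j) (norm_nonneg _) (hw j)
  have hfl : ∀ j ≤ J, 1 - 2 * e ≤ ‖tens (η j) (w j)‖ := by
    intro j hj
    rw [norm_tens]
    obtain ⟨h1, h2, -, -⟩ := hlow j hj
    have h3 : (1 - e) * (1 - e) ≤ ‖η j‖ * ‖w j‖ :=
      mul_le_mul h1 h2 (by linarith) (norm_nonneg _)
    nlinarith
  set ξ : L2 (Ix (Y a)) E0 :=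
    (Real.sqrt ((J : ℝ) + 1))⁻¹ • ∑ j ∈ Finset.range (J + 1), tens (η j) (w j) with hξ
  refine ⟨L2 (Ix (Y a)) E0, inferInstance, inferInstance, inferInstance,
    pR (List (Y a × ℤ)) β π0, fun c => Y c × Ix (Y a), fun c => lamI (I := Ix (Y a)) (lam c),
    V, ξ, ?_, ?_, hV1, ?_, ?_, ?_, ⟨?_, ?_, ?_, ?_⟩, ?_⟩
  · exact hC0T H E0 π0 (Ix (Y a)) ((sh (List (Y a × ℤ))).comp β) hC0
  · intro c hc
    obtain ⟨h1, -, h3⟩ := hPQT H E0 π0 c (Y c) (lam c) (Ix (Y a))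
      ((sh (List (Y a × ℤ))).comp β) (hfam c hc).1
    exact ⟨h1, h3 (hfam c hc).2⟩
  · intro a' u
    obtain ⟨m, hm'⟩ := Subgroup.mem_zpowers_iff.1 a'.2
    have h1 : a' = (⟨a, Subgroup.mem_zpowers a⟩ : Subgroup.zpowers a) ^ m :=
      Subtype.ext (by rw [Subgroup.coe_zpow]; exact hm'.symm)
    have h2 : (θ a' : H) = b ^ m := by
      rw [h1, map_zpow, Subgroup.coe_zpow, hθ]
    rw [h2, ← hm']
    exact BIG_zp _ a b V hVc m u
  · intro u δ hδ
    obtain ⟨T, hT⟩ := hMC hCa u (δ ^ 2) (by positivity)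
    refine ⟨T, fun h hh => ?_⟩
    obtain ⟨m, x, hx, hxx⟩ := hT h ((pow_le_pow_left₀ hδ.le hh 2).trans (hVn _))
    exact ⟨a ^ m, Subgroup.zpow_mem_zpowers a m, x, hx, hxx⟩
  · intro u δ hδ
    obtain ⟨T, hT⟩ := hVAD H (L2 (Ix (Y a)) E0) E0 (pR (List (Y a × ℤ)) β π0) π0 a b β r
      hr hβ (List (Y a × ℤ)) (mu (lam a)) (fun z => w z.length) hMB (fun z => hw _) hC0 V hVF hV1
      u δ hδ
    refine ⟨T, fun h hh => ?_⟩
    obtain ⟨m, x, hx, hxx⟩ := hT h hh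
    exact ⟨b ^ m, Subgroup.zpow_mem_zpowers b m, x, hx, hxx⟩
  · exact BIG_up hLEV J _ hflev 1 zero_le_one (fun j _ => hfn j)
  · have := BIG_lo hLEV J _ hflev (1 - 2 * e) (by linarith) hfl
    rw [← hξ] at this
    linarith
  · intro s hs
    have e1 : pR (List (Y a × ℤ)) β π0 s ξ - ξ = (Real.sqrt ((J : ℝ) + 1))⁻¹ •
        ∑ j ∈ Finset.range (J + 1),
          (pR (List (Y a × ℤ)) β π0 s (tens (η j) (w j)) - tens (η j) (w j)) := by
      rw [hξ, map_smul, map_sum, ← smul_sub, Finset.sum_sub_distrib]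
    rw [e1]
    have h1 := BIG_up hLEV J (fun j => pR (List (Y a × ℤ)) β π0 s (tens (η j) (w j)) -
      tens (η j) (w j)) ?_ e he0.le (fun j hj => (hlow j hj).2.2.2 s hs)
    · linarith
    · intro j n z hz
      rw [lp.coeFn_sub, Pi.sub_apply, pR_apply, hflev j _ z hz, hflev j _ z hz, map_zero,
        sub_zero]
  · intro c hc
    have h1 := (hPQT H E0 π0 c (Y c) (lam c) (Ix (Y a)) ((sh (List (Y a × ℤ))).comp β)
      (hfam c hc).1).2.1 ξ
    have h2 : pq (pR (List (Y a × ℤ)) β π0) c (lamI (I := Ix (Y a)) (lam c)) ξ =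
      ∑' i, pq π0 c (lam c) (ξ i) := h1.2
    rw [h2]
    have h3 := BIG_pq π0 c (lam c) J w η hlev (1 - e) (by linarith)
      (fun j hj => (hlow j hj).1) (fun j hj => (hlow j hj).2.2.1 c hc)
    have h4 : 1 - ε ≤ (1 - e) ^ 3 := by
      have h5 : (1 - e) ^ 3 = 1 - 3 * e + e ^ 2 * (3 - e) := by ring
      have h6 : 0 ≤ e ^ 2 * (3 - e) := mul_nonneg (sq_nonneg e) (by linarith)
      linarith
    exact h4.trans h3
  · -- the inner product
    have hs : (Real.sqrt ((J : ℝ) + 1))⁻¹ * (Real.sqrt ((J : ℝ) + 1))⁻¹ = ((J : ℝ) + 1)⁻¹ := by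
      rw [← mul_inv, Real.mul_self_sqrt hN.le]
    have e1 : ⟪V ξ, ξ⟫_ℝ = ((J : ℝ) + 1)⁻¹ *
        ⟪∑ j ∈ Finset.range (J + 1), V (tens (η j) (w j)),
          ∑ j ∈ Finset.range (J + 1), tens (η j) (w j)⟫_ℝ := by
      rw [hξ, map_smul, map_sum, real_inner_smul_left, real_inner_smul_right, ← mul_assoc, hs]
    set F : ℕ → L2 (Ix (Y a)) E0 := fun j =>
      match j with
      | 0 => 0
      | (k + 1) => V (tens (η k) (w k)) with hF
    set G : ℕ → L2 (Ix (Y a)) E0 := fun j => if j ≤ J then tens (η j) (w j) else 0 with hG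
    have hFlev : ∀ j n z, z.length ≠ j → F j (n, z) = 0 := by
      intro j n z hz
      cases j with
      | zero => simp [hF]
      | succ k =>
        exact BIG_vlev β π0 a b r (lam a) _ V hVF k _ (fun n z h => hflev k n z h) n z hz
    have hGlev : ∀ j n z, z.length ≠ j → G j (n, z) = 0 := by
      intro j n z hz
      simp only [hG]
      split_ifs
      · exact hflev j n z hz
      · simp
    have e2 : ∑ j ∈ Finset.range (J + 1), V (tens (η j) (w j)) =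
        ∑ j ∈ Finset.range (J + 1 + 1), F j := by
      rw [Finset.sum_range_succ' F (J + 1)]
      simp [hF]
    have e3 : ∑ j ∈ Finset.range (J + 1), tens (η j) (w j) =
        ∑ j ∈ Finset.range (J + 1 + 1), G j := by
      rw [Finset.sum_range_succ G (J + 1)]
      have h1 : G (J + 1) = 0 := by simp [hG]
      rw [h1, add_zero]
      refine Finset.sum_congr rfl fun j hj => ?_
      have := Nat.lt_succ_iff.1 (Finset.mem_range.1 hj)
      simp [hG, this]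
    have e4 := hLEV (Y a) E0 (J + 1) F G hFlev hGlev
    rw [e1, e2, e3, e4]
    have e5 : ∑ j ∈ Finset.range (J + 1 + 1), ⟪F j, G j⟫_ℝ =
        ∑ j ∈ Finset.range J, ⟪V (tens (η j) (w j)), tens (η (j + 1)) (w (j + 1))⟫_ℝ := by
      rw [Finset.sum_range_succ' _ (J + 1), Finset.sum_range_succ _ J]
      have h1 : ⟪F 0, G 0⟫_ℝ = 0 := by simp [hF]
      have h2 : ⟪F (J + 1), G (J + 1)⟫_ℝ = 0 := by simp [hG]
      rw [h1, h2, add_zero, add_zero]
      refine Finset.sum_congr rfl fun j hj => ?_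
      have hj' : j + 1 ≤ J := Finset.mem_range.1 hj
      simp [hF, hG, hj']
    rw [e5]
    have h6 : ∀ j ∈ Finset.range J, 1 - 5 * e ≤
        ⟪V (tens (η j) (w j)), tens (η (j + 1)) (w (j + 1))⟫_ℝ := by
      intro j hj
      have hj' : j < J := Finset.mem_range.1 hj
      have h7 := hVj j hj' V hVF
      set x := tens (η (j + 1)) (w (j + 1)) with hx
      have h8 : ⟪V (tens (η j) (w j)), x⟫_ℝ = ⟪x, x⟫_ℝ + ⟪V (tens (η j) (w j)) - x, x⟫_ℝ := by
        rw [inner_sub_left]; ring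
      have h9 : |⟪V (tens (η j) (w j)) - x, x⟫_ℝ| ≤ e * 1 :=
        (abs_real_inner_le_norm _ _).trans
          (mul_le_mul h7 (hfn (j + 1)) (norm_nonneg _) he0.le)
      have h10 : (1 - 2 * e) ^ 2 ≤ ⟪x, x⟫_ℝ := by
        rw [real_inner_self_eq_norm_sq]
        exact pow_le_pow_left₀ (by linarith) (hfl (j + 1) hj') 2
      have h11 := (abs_le.1 h9).1
      rw [h8]
      nlinarith
    have h12 : (J : ℝ) * (1 - 5 * e) ≤
        ∑ j ∈ Finset.range J, ⟪V (tens (η j) (w j)), tens (η (j + 1)) (w (j + 1))⟫_ℝ := by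
      have := Finset.card_nsmul_le_sum _ _ _ h6
      rwa [Finset.card_range, nsmul_eq_mul] at this
    calc 1 - ε ≤ (1 - 4 * e) * (1 - 5 * e) := by nlinarith
      _ ≤ (((J : ℝ) + 1)⁻¹ * J) * (1 - 5 * e) :=
          mul_le_mul_of_nonneg_right hJN (by linarith)
      _ = ((J : ℝ) + 1)⁻¹ * (J * (1 - 5 * e)) := by ring
      _ ≤ _ := mul_le_mul_of_nonneg_left h12 (by positivity)

end

end HGP
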