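import Pool.Agent.HGP.Targets

/-!
# HGP: decay of the coefficients of an induced representation
-/

open scoped InnerProductSpace ENNReal

namespace HGP

noncomputable section

section c0t

variable {I : Type} {E : Type} [NormedAddCommGroup E] [InnerProductSpace ℝ E]

open Classical in
lemma C0T_dense : Dense (Submodule.span ℝ
    {f : L2 I E | ∃ (i : I) (u : E), f = lp.single 2 i u} : Set (L2 I E)) := by
  intro f
  have h : HasSum (fun i => (lp.single 2 i (f i) : L2 I E)) f :=
    lp.hasSum_single (by norm_num) f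
  refine mem_closure_of_tendsto h (Filter.Eventually.of_forall fun s => ?_)
  exact Submodule.sum_mem _ fun i _ => Submodule.subset_span ⟨i, f i, rfl⟩

/-- absolute value of the inner product with a fixed vector after a linear map -/
def C0T_sn {K L : Type} [NormedAddCommGroup K] [InnerProductSpace ℝ K] [NormedAddCommGroup L]
    [InnerProductSpace ℝ L] (T : K →ₗ[ℝ] L) (v : L) : Seminorm ℝ K :=
  (normSeminorm ℝ ℝ).comp ((innerₛₗ ℝ v).comp T)

lemma C0T_sn_apply {K L : Type} [NormedAddCommGroup K] [InnerProductSpace ℝ K]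
    [NormedAddCommGroup L] [InnerProductSpace ℝ L] (T : K →ₗ[ℝ] L) (v : L) (u : K) :
    C0T_sn T v u = |⟪T u, v⟫_ℝ| := by
  rw [real_inner_comm]
  rfl

open Classical in
lemma C0T_single {H : Type} [Group H] (π : H →* (E ≃ₗᵢ[ℝ] E)) (σ : H →* Equiv.Perm I)
    (h : H) (i k : I) (u v : E) :
    |⟪permRep σ π h (lp.single 2 i u : L2 I E), (lp.single 2 k v : L2 I E)⟫_ℝ| ≤
      |⟪π h u, v⟫_ℝ| := by
  rw [lp.inner_single_right, permRep_apply]
  by_cases hk : σ h⁻¹ k = i
  · rw [hk]
    simp
  · have h0 : (lp.single 2 i u : L2 I E) (σ h⁻¹ k) = 0 := by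
      rw [lp.single_apply]
      exact Pi.single_eq_of_ne hk _
    rw [h0]
    simp

end c0t

/-- the target `T_C0T` -/
theorem p_C0T (hDEN : T_DEN) : T_C0T := by
  intro H _ E _ _ _ π I σ hπ
  classical
  have h1 : ∀ (k : I) (v : E) (u : L2 I E) (δ : ℝ), 0 < δ →
      {h : H | δ ≤ |⟪permRep σ π h u, (lp.single 2 k v : L2 I E)⟫_ℝ|}.Finite := by
    intro k v u δ hδ
    have := hDEN H (L2 I E) {f : L2 I E | ∃ (i : I) (u : E), f = lp.single 2 i u} C0T_dense
      (fun h => C0T_sn (permRep σ π h).toLinearEquiv.toLinearMap (lp.single 2 k v : L2 I E))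
      ‖(lp.single 2 k v : L2 I E)‖
      (fun h u => by
        rw [C0T_sn_apply]
        refine (abs_real_inner_le_norm _ _).trans ?_
        have : ‖(permRep σ π h).toLinearEquiv.toLinearMap u‖ = ‖u‖ :=
          (permRep σ π h).norm_map u
        rw [this, mul_comm])
      Set.Finite Set.finite_empty (fun s t hst ht => ht.subset hst)
      (fun s t hs ht => hs.union ht)
      (by
        rintro f ⟨i, w, rfl⟩ δ' hδ'
        refine (hπ w v δ' hδ').subset fun h hh => ?_
        simp only [Set.mem_ofPred_eq, C0T_sn_apply] at hh ⊢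
        exact hh.trans (C0T_single π σ h i k w v))
      u δ hδ
    refine this.subset fun h hh => ?_
    simp only [Set.mem_ofPred_eq, C0T_sn_apply] at hh ⊢
    exact hh
  intro u v δ hδ
  have := hDEN H (L2 I E) {f : L2 I E | ∃ (i : I) (u : E), f = lp.single 2 i u} C0T_dense
    (fun h => C0T_sn LinearMap.id (permRep σ π h u)) ‖u‖
    (fun h w => by
      rw [C0T_sn_apply]
      refine (abs_real_inner_le_norm _ _).trans ?_
      rw [(permRep σ π h).norm_map u, mul_comm]
      rfl)
    Set.Finite Set.finite_empty (fun s t hst ht => ht.subset hst)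
    (fun s t hs ht => hs.union ht)
    (by
      rintro f ⟨k, w, rfl⟩ δ' hδ'
      refine (h1 k w u δ' hδ').subset fun h hh => ?_
      simp only [Set.mem_ofPred_eq, C0T_sn_apply] at hh ⊢
      rw [real_inner_comm]
      exact hh)
    v δ hδ
  refine this.subset fun h hh => ?_
  simp only [Set.mem_ofPred_eq, C0T_sn_apply] at hh ⊢
  rw [real_inner_comm]
  exact hh

end

end HGP
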