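import Pool.Agent.HGP.Targets

/-!
# HGP: concatenation of reduced words (target T_CAT)
-/

open HNNExtension HNNExtension.NormalWord

namespace HGP

section cat

variable {H : Type} [Group H] {A B : Subgroup H} (φ : A ≃* B)

/-- every element is the product of a reduced word -/
lemma CAT_exists (g : HNNExtension H A B φ) : ∃ w : ReducedWord H A B, w.prod φ = g :=
  ⟨((NormalWord.equiv φ (Classical.choice (TransversalPair.nonempty H A B))) g).toReducedWord,
    (NormalWord.equiv φ (Classical.choice (TransversalPair.nonempty H A B))).symm_apply_apply g⟩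

/-- conjugation by a power of the stable letter -/
lemma CAT_conj (u : ℤˣ) (g : toSubgroup A B u) :
    (t ^ (u : ℤ) * of (g : H) * t ^ ((-u : ℤˣ) : ℤ) : HNNExtension H A B φ) =
      of (toSubgroupEquiv φ u g : H) := by
  rcases Int.units_eq_one_or u with rfl | rfl
  · have h := (equiv_eq_conj (φ := φ) g).symm
    have e1 : ((1 : ℤˣ) : ℤ) = 1 := rfl
    have e2 : ((-1 : ℤˣ) : ℤ) = -1 := rfl
    rw [e1, e2, zpow_one, zpow_neg_one]
    exact h
  · have h := (equiv_symm_eq_conj (φ := φ) g).symm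
    have e1 : ((- -1 : ℤˣ) : ℤ) = 1 := rfl
    have e2 : ((-1 : ℤˣ) : ℤ) = -1 := rfl
    rw [e1, e2, zpow_one, zpow_neg_one]
    exact h

/-- the product of the letters of a list -/
def CAT_pr (l : List (ℤˣ × H)) : HNNExtension H A B φ :=
  (l.map (fun x => t ^ (x.1 : ℤ) * of x.2)).prod

lemma CAT_pr_append (l l' : List (ℤˣ × H)) :
    CAT_pr φ (l ++ l') = CAT_pr φ l * CAT_pr φ l' := by
  unfold CAT_pr
  rw [List.map_append, List.prod_append]

lemma CAT_pr_cons (x : ℤˣ × H) (l : List (ℤˣ × H)) :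
    CAT_pr φ (x :: l) = t ^ (x.1 : ℤ) * of x.2 * CAT_pr φ l := by
  unfold CAT_pr
  rw [List.map_cons, List.prod_cons]

lemma CAT_pr_nil : CAT_pr φ ([] : List (ℤˣ × H)) = 1 := rfl

lemma CAT_prod (w : ReducedWord H A B) : w.prod φ = of w.head * CAT_pr φ w.toList := rfl

end cat

theorem p_CAT (h1 : T_LEN) (h2 : T_LN) : T_CAT := by
  intro H _ A B φ u z r hz hr
  obtain ⟨l1, l2, -, -, -, -⟩ := h2 H A B φ
  obtain ⟨wz, rfl⟩ := CAT_exists φ z
  obtain ⟨wr, rfl⟩ := CAT_exists φ r
  obtain ⟨h0, l, hl⟩ := wz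
  obtain ⟨k0, l', hl'⟩ := wr
  -- the last letter of `z` does not cancel
  have c1 : ∀ x ∈ l.getLast?, x.2 ∈ toSubgroup A B x.1 → x.1 = u := by
    intro x hx hmem
    by_contra hne
    obtain ⟨l₁, rfl⟩ : ∃ l₁, l = l₁ ++ [x] := by
      have hne' : l ≠ [] := by
        rintro rfl
        simp at hx
      refine ⟨l.dropLast, ?_⟩
      have hx' : l.getLast hne' = x := by
        rw [List.getLast?_eq_some_getLast hne'] at hx
        simpa using hx
      rw [← hx']
      exact (List.dropLast_append_getLast hne').symm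
    have hu : u = -x.1 := by
      rcases Int.units_eq_one_or u with h | h <;> rcases Int.units_eq_one_or x.1 with h' | h' <;>
        simp_all
    have hl₁ : l₁.IsChain (fun a b => a.2 ∈ toSubgroup A B a.1 → a.1 = b.1) :=
      (List.isChain_append.1 hl).1
    have e1 : (ReducedWord.prod φ ⟨h0, l₁ ++ [x], hl⟩ * t ^ (u : ℤ) : HNNExtension H A B φ) =
        ReducedWord.prod φ ⟨h0, l₁, hl₁⟩ * of (toSubgroupEquiv φ x.1 ⟨x.2, hmem⟩ : H) := by
      rw [← CAT_conj, CAT_prod, CAT_prod, CAT_pr_append, CAT_pr_cons, CAT_pr_nil, hu]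
      simp only [mul_assoc, one_mul]
    rw [e1, l2, h1, h1] at hz
    simp at hz
    omega
  -- the first letter of `r` does not cancel
  have c2 : ∀ y ∈ l'.head?, k0 ∈ toSubgroup A B u → u = y.1 := by
    intro y hy hmem
    by_contra hne
    obtain ⟨l₂, rfl⟩ : ∃ l₂, l' = y :: l₂ := by
      cases l' with
      | nil => simp at hy
      | cons a l₂ =>
        refine ⟨l₂, ?_⟩
        simp at hy
        rw [hy]
    have hu : y.1 = -u := by
      rcases Int.units_eq_one_or u with h | h <;> rcases Int.units_eq_one_or y.1 with h' | h' <;>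
        simp_all
    have hl₂ : l₂.IsChain (fun a b => a.2 ∈ toSubgroup A B a.1 → a.1 = b.1) :=
      (List.isChain_cons.1 hl').2
    have e1 : (t ^ (u : ℤ) * ReducedWord.prod φ ⟨k0, y :: l₂, hl'⟩ : HNNExtension H A B φ) =
        of (toSubgroupEquiv φ u ⟨k0, hmem⟩ : H) * ReducedWord.prod φ ⟨y.2, l₂, hl₂⟩ := by
      rw [← CAT_conj, CAT_prod, CAT_prod, CAT_pr_cons, hu]
      simp only [mul_assoc]
    rw [e1, l1, h1, h1] at hr
    simp at hr
    omega
  -- the concatenation
  have hc : (l ++ (u, k0) :: l').IsChain (fun a b => a.2 ∈ toSubgroup A B a.1 → a.1 = b.1) := by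
    rw [List.isChain_append]
    refine ⟨hl, List.isChain_cons.2 ⟨fun y hy hm => c2 y hy hm, hl'⟩, ?_⟩
    intro x hx y hy
    have hy' : (u, k0) = y := by simpa using hy
    rw [← hy']
    exact c1 x hx
  have e2 : (ReducedWord.prod φ ⟨h0, l, hl⟩ * t ^ (u : ℤ) * ReducedWord.prod φ ⟨k0, l', hl'⟩ :
      HNNExtension H A B φ) = ReducedWord.prod φ ⟨h0, l ++ (u, k0) :: l', hc⟩ := by
    rw [CAT_prod, CAT_prod, CAT_prod, CAT_pr_append, CAT_pr_cons]
    simp only [mul_assoc]
  rw [e2, h1, h1, h1]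
  simp only [List.length_append, List.length_cons]
  omega

end HGP
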