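import Pool.Agent.HGP.Targets

/-!
# HGP: the coefficient operator
-/

open scoped InnerProductSpace ENNReal

namespace HGP

noncomputable section

/-- division with remainder on the first coordinate -/
def CF_equiv (Z : Type) (r : ℕ) [NeZero r] : ℤ × Z ≃ (ℤ × Z) × Fin r where
  toFun q := ((q.1 / (r : ℤ), q.2), (Int.divModEquiv r q.1).2)
  invFun p := ((Int.divModEquiv r).symm (p.1.1, p.2), p.1.2)
  left_inv q := by
    have h : (q.1 / (r : ℤ), (Int.divModEquiv r q.1).2) = Int.divModEquiv r q.1 := rfl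
    ext
    · simp only [h, Equiv.symm_apply_apply]
    · rfl
  right_inv p := by
    have h : ∀ x : ℤ, x / (r : ℤ) = (Int.divModEquiv r x).1 := fun _ => rfl
    ext
    · simp only [h, Equiv.apply_symm_apply]
    · rfl
    · simp only [Equiv.apply_symm_apply]

lemma CF_sum {Z : Type} (F : ℤ × Z → ℝ) (h0 : ∀ q, 0 ≤ F q) (hF : Summable F) (r : ℕ)
    (hr : 0 < r) :
    HasSum (fun q : ℤ × Z => (r : ℝ)⁻¹ * F (-(q.1 / (r : ℤ)), q.2)) (∑' q, F q) := by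
  have : NeZero r := ⟨hr.ne'⟩
  have h1 : HasSum (fun q : ℤ × Z => F (-q.1, q.2)) (∑' q, F q) := by
    have e := (Equiv.prodCongr (Equiv.neg ℤ) (Equiv.refl Z)).hasSum_iff (f := F)
      (a := ∑' q, F q)
    exact e.2 hF.hasSum
  have h2 : HasSum (fun _ : Fin r => (r : ℝ)⁻¹) 1 := by
    have h := hasSum_fintype (fun _ : Fin r => (r : ℝ)⁻¹)
    have hr' : (r : ℝ) ≠ 0 := by exact_mod_cast hr.ne'
    simpa [hr'] using h
  have h3 := h1.summable.mul_of_nonneg h2.summable (fun q => h0 _)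
    (fun _ => by positivity)
  have h4 := h1.mul h2 h3
  rw [mul_one] at h4
  have h5 := (CF_equiv Z r).hasSum_iff.2 h4
  have e : (fun q : ℤ × Z => (r : ℝ)⁻¹ * F (-(q.1 / (r : ℤ)), q.2)) =
      (fun p : (ℤ × Z) × Fin r => F (-p.1.1, p.1.2) * (r : ℝ)⁻¹) ∘ CF_equiv Z r := by
    funext q
    exact mul_comm _ _
  rw [e]
  exact h5

theorem p_CF : T_CF := by
  intro H _ K _ _ _ πK a r hr Z μ hBes
  have hr0 : (0 : ℝ) < r := by exact_mod_cast hr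
  have hB : ∀ f, Summable (fun i : ℤ × Z => ⟪πK (a ^ i.1) f, μ i.2⟫_ℝ ^ 2) := fun f =>
    summable_of_sum_le (fun _ => sq_nonneg _) (hBes f)
  have hle : ∀ f, pq πK a μ f ≤ ‖f‖ ^ 2 := fun f => (hB f).tsum_le_of_sum_le (hBes f)
  have hS : ∀ f, HasSum (fun q : ℤ × Z =>
      ‖(Real.sqrt r)⁻¹ * ⟪πK (a ^ (-(q.1 / (r : ℤ)))) f, μ q.2⟫_ℝ‖ ^ 2) (pq πK a μ f) := by
    intro f
    have h := CF_sum _ (fun _ => sq_nonneg _) (hB f) r hr
    have e : (fun q : ℤ × Z =>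
      ‖(Real.sqrt r)⁻¹ * ⟪πK (a ^ (-(q.1 / (r : ℤ)))) f, μ q.2⟫_ℝ‖ ^ 2) =
      (fun q : ℤ × Z => (r : ℝ)⁻¹ * ⟪πK (a ^ (-(q.1 / (r : ℤ)), q.2).1) f,
        μ (-(q.1 / (r : ℤ)), q.2).2⟫_ℝ ^ 2) := by
      funext q
      rw [Real.norm_eq_abs, sq_abs, mul_pow, inv_pow, Real.sq_sqrt hr0.le]
    rw [e]
    exact h
  let L : K →ₗ[ℝ] L2 (ℤ × Z) ℝ :=
    { toFun := fun f => ⟨fun q => (Real.sqrt r)⁻¹ * ⟪πK (a ^ (-(q.1 / (r : ℤ)))) f, μ q.2⟫_ℝ, by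
        show Memℓp _ 2
        rw [mem2]
        exact (hS f).summable⟩
      map_add' := fun f g => by
        ext q
        show (Real.sqrt r)⁻¹ * ⟪πK (a ^ (-(q.1 / (r : ℤ)))) (f + g), μ q.2⟫_ℝ =
          (Real.sqrt r)⁻¹ * ⟪πK (a ^ (-(q.1 / (r : ℤ)))) f, μ q.2⟫_ℝ +
          (Real.sqrt r)⁻¹ * ⟪πK (a ^ (-(q.1 / (r : ℤ)))) g, μ q.2⟫_ℝ
        rw [map_add, inner_add_left, mul_add]
      map_smul' := fun c f => by
        ext q
        show (Real.sqrt r)⁻¹ * ⟪πK (a ^ (-(q.1 / (r : ℤ)))) (c • f), μ q.2⟫_ℝ =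
          c * ((Real.sqrt r)⁻¹ * ⟪πK (a ^ (-(q.1 / (r : ℤ)))) f, μ q.2⟫_ℝ)
        rw [LinearIsometryEquiv.map_smul, real_inner_smul_left]
        ring }
  have hL : ∀ f q, L f q = (Real.sqrt r)⁻¹ * ⟪πK (a ^ (-(q.1 / (r : ℤ)))) f, μ q.2⟫_ℝ :=
    fun _ _ => rfl
  have hN : ∀ f, ‖L f‖ ^ 2 = pq πK a μ f := by
    intro f
    rw [norm_sq_lp]
    exact (hS f).tsum_eq
  have hN1 : ∀ f, ‖L f‖ ≤ ‖f‖ := by
    intro f
    have h1 : ‖L f‖ ^ 2 ≤ ‖f‖ ^ 2 := by rw [hN]; exact hle f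
    exact (pow_le_pow_iff_left₀ (norm_nonneg _) (norm_nonneg _) two_ne_zero).1 h1
  refine ⟨L.mkContinuous 1 (fun f => by rw [one_mul]; exact hN1 f), fun f n z => hL f (n, z),
    fun f => hN f, fun f => ?_⟩
  show ‖S1 Z (L f) - L f‖ ≤ ‖πK a f - f‖
  refine le_trans ?_ (hN1 (πK a f - f))
  have h2 : ‖S1 Z (L f) - L f‖ ^ 2 ≤ ‖L (πK a f - f)‖ ^ 2 := by
    rw [norm_sq_lp, norm_sq_lp]
    refine (summable_sq_lp _).tsum_le_tsum ?_ (summable_sq_lp _)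
    rintro ⟨n, z⟩
    have e1 : (S1 Z (L f) - L f) (n, z) = L f (n - 1, z) - L f (n, z) := by
      rw [lp.coeFn_sub, Pi.sub_apply, S1_apply]
    rw [e1, hL, hL, hL]
    show ‖(Real.sqrt r)⁻¹ * ⟪πK (a ^ (-((n - 1) / (r : ℤ)))) f, μ z⟫_ℝ -
      (Real.sqrt r)⁻¹ * ⟪πK (a ^ (-(n / (r : ℤ)))) f, μ z⟫_ℝ‖ ^ 2 ≤
      ‖(Real.sqrt r)⁻¹ * ⟪πK (a ^ (-(n / (r : ℤ)))) (πK a f - f), μ z⟫_ℝ‖ ^ 2
    have hrz : (0 : ℤ) < r := by exact_mod_cast hr
    by_cases hd : (r : ℤ) ∣ n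
    · obtain ⟨m, rfl⟩ := hd
      have d1 : ((r : ℤ) * m - 1) / (r : ℤ) = m - 1 := by
        rw [Int.ediv_eq_iff_of_pos hrz]
        constructor
        · nlinarith
        · nlinarith
      have d2 : ((r : ℤ) * m) / (r : ℤ) = m := Int.mul_ediv_cancel_left _ hrz.ne'
      rw [d1, d2]
      have e2 : πK (a ^ (-(m - 1))) f = πK (a ^ (-m)) (πK a f) := by
        have : a ^ (-(m - 1)) = a ^ (-m) * a := by
          rw [← zpow_add_one]
          congr 1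
          ring
        rw [this, map_mul]
        rfl
      rw [e2, map_sub, inner_sub_left, mul_sub]
    · have d1 : (n - 1) / (r : ℤ) = n / (r : ℤ) := by
        have h3 := Int.emod_add_mul_ediv n r
        have h4 := Int.emod_nonneg n hrz.ne'
        have h5 := Int.emod_lt_of_pos n hrz
        have h6 : n % (r : ℤ) ≠ 0 := fun h => hd (Int.dvd_of_emod_eq_zero h)
        rw [Int.ediv_eq_iff_of_pos hrz]
        have h7 : 1 ≤ n % (r : ℤ) := by omega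
        constructor <;> nlinarith
      rw [d1, sub_self]
      simp only [norm_zero, ne_eq, OfNat.ofNat_ne_zero, not_false_eq_true, zero_pow]
      positivity
  exact (pow_le_pow_iff_left₀ (norm_nonneg _) (norm_nonneg _) two_ne_zero).1 h2

end

end HGP
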