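import Pool.Agent.HGP.TargetsF

/-!
# HGP: conjugates
-/

open scoped InnerProductSpace ENNReal

namespace HGP

noncomputable section

section one

variable {H : Type} [Group H] {E : Type} [NormedAddCommGroup E] [InnerProductSpace ℝ E]

lemma CJG_term (π : H →* (E ≃ₗᵢ[ℝ] E)) (a g : H) {Y0 : Type} (lam0 : Y0 → E) (u : E)
    (i : ℤ × Y0) :
    ⟪π ((g * a * g⁻¹) ^ i.1) u, π g (lam0 i.2)⟫_ℝ = ⟪π (a ^ i.1) (π g⁻¹ u), lam0 i.2⟫_ℝ := by
  have h : π ((g * a * g⁻¹) ^ i.1) u = π g (π (a ^ i.1) (π g⁻¹ u)) := by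
    rw [conj_zpow, map_mul, map_mul]
    rfl
  rw [h, LinearIsometryEquiv.inner_map_map]

lemma CJG_pq (π : H →* (E ≃ₗᵢ[ℝ] E)) (a g : H) {Y0 : Type} (lam0 : Y0 → E) (u : E) :
    pq π (g * a * g⁻¹) (fun y => π g (lam0 y)) u = pq π a lam0 (π g⁻¹ u) := by
  unfold pq
  refine tsum_congr fun i => ?_
  rw [← CJG_term π a g lam0 u i]

lemma CJG_bes (π : H →* (E ≃ₗᵢ[ℝ] E)) (a g : H) {Y0 : Type} (lam0 : Y0 → E)
    (hB : Bes π a lam0) : Bes π (g * a * g⁻¹) (fun y => π g (lam0 y)) := by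
  intro u s
  have h := hB (π g⁻¹ u) s
  rw [LinearIsometryEquiv.norm_map] at h
  refine le_trans (le_of_eq ?_) h
  refine Finset.sum_congr rfl fun i _ => ?_
  rw [← CJG_term π a g lam0 u i]

lemma CJG_c0a (π : H →* (E ≃ₗᵢ[ℝ] E)) (a g : H) {Y0 : Type} (lam0 : Y0 → E)
    (hC : C0A π a lam0) : C0A π (g * a * g⁻¹) (fun y => π g (lam0 y)) := by
  classical
  intro u δ hδ
  obtain ⟨T, hT⟩ := hC u δ hδ
  refine ⟨T.image fun x => g * x, fun h hh => ?_⟩
  rw [CJG_pq] at hh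
  have h1 : π g⁻¹ (π h u) = π (g⁻¹ * h) u := by
    rw [map_mul]
    rfl
  rw [h1] at hh
  obtain ⟨m, x, hx, hmx⟩ := hT _ hh
  refine ⟨m, g * x, Finset.mem_image_of_mem _ hx, ?_⟩
  rw [conj_zpow, ← mul_assoc, inv_mul_cancel_right, mul_assoc, ← hmx, mul_inv_cancel_left]

lemma CJG_ai (hPQ : T_PQ) (π : H →* (E ≃ₗᵢ[ℝ] E)) (a g : H) {Y0 : Type} (lam0 : Y0 → E)
    (hB : Bes π a lam0) (ξ : E) (ε : ℝ) (hε : 0 ≤ ε) (hε2 : 2 * ε ≤ 1)
    (h1 : 1 - ε ≤ pq π a lam0 ξ) (h2 : ‖π g⁻¹ ξ - ξ‖ ≤ ε) :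
    1 - 4 * ε ≤ pq π (g * a * g⁻¹) (fun y => π g (lam0 y)) ξ := by
  obtain ⟨P, hP1, hP2, hP3, hP4, hP5⟩ := hPQ H E π a Y0 lam0 hB
  rw [CJG_pq]
  have h3 : 1 - ε ≤ P ξ := by
    rw [← hP1] at h1
    by_contra hcon
    push Not at hcon
    have h0 := apply_nonneg P ξ
    nlinarith
  rw [← hP1]
  have h5 : P ξ ≤ P (π g⁻¹ ξ) + P (π g⁻¹ ξ - ξ) := by
    have h6 := map_sub_le_add P (π g⁻¹ ξ) (π g⁻¹ ξ - ξ)
    rwa [sub_sub_cancel] at h6
  have h7 := (hP2 (π g⁻¹ ξ - ξ)).trans h2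
  have h8 : 1 - 2 * ε ≤ P (π g⁻¹ ξ) := by linarith
  nlinarith

end one

/-- conjugates -/
theorem p_CJG (hPQ : T_PQ) : T_CJG := by
  classical
  intro H _ l a g hal hQ S ε hε
  set b : H := g * a * g⁻¹ with hb
  set ε' : ℝ := min ε 1 / 4 with hε'
  have hε'0 : 0 < ε' := by rw [hε']; positivity
  have hm1 : min ε 1 ≤ ε := min_le_left _ _
  have hm2 : min ε 1 ≤ 1 := min_le_right _ _
  have he1 : ε' ≤ ε := by rw [hε']; linarith
  have he2 : 2 * ε' ≤ 1 := by rw [hε']; linarith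
  have he3 : 4 * ε' ≤ ε := by rw [hε']; linarith
  obtain ⟨E, i1, i2, i3, π, Y, lam, ξ, hC0, hfam, hA1, hA2, hA3, hA4⟩ :=
    hQ (insert g⁻¹ S) ε' hε'0
  obtain ⟨q, hqb, hqc⟩ : ∃ q : H → H, q b = a ∧ ∀ c, c ≠ b → q c = c :=
    ⟨fun c => if c = b then a else c, by simp, fun c hc => by simp [hc]⟩
  have hga := hA3 g⁻¹ (Finset.mem_insert_self _ _)
  have key : ∀ d, d = a → (Bes π b (fun y => π g (lam d y)) ∧ C0A π b (fun y => π g (lam d y))) ∧
      1 - ε ≤ pq π b (fun y => π g (lam d y)) ξ := by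
    intro d hd
    subst hd
    have h := hfam d hal
    exact ⟨⟨CJG_bes π d g _ h.1, CJG_c0a π d g _ h.2⟩, by
      have h5 := CJG_ai hPQ π d g (lam d) h.1 ξ ε' hε'0.le he2 (hA4 d hal) hga
      linarith⟩
  refine ⟨E, i1, i2, i3, π, fun c => Y (q c),
    fun c y => (if c = b then π g else LinearIsometryEquiv.refl ℝ E) (lam (q c) y), ξ, hC0, ?_,
    hA1, by linarith, fun s hs => (hA3 s (Finset.mem_insert_of_mem hs)).trans he1, ?_⟩
  · intro c hcl
    by_cases hcb : c = b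
    · subst hcb
      simp only [if_true]
      exact (key (q b) hqb).1
    · have hcl' : c ∈ l := by
        rcases List.mem_cons.1 hcl with h | h
        · exact absurd h hcb
        · exact h
      have h1 := hfam c hcl'
      simp only [hcb, if_false, LinearIsometryEquiv.coe_refl, id_eq]
      have h2 : ∀ d, d = c → Bes π c (lam d) ∧ C0A π c (lam d) := by
        intro d hd; subst hd; exact h1
      exact h2 (q c) (hqc c hcb)
  · intro c hcl
    by_cases hcb : c = b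
    · subst hcb
      simp only [if_true]
      exact (key (q b) hqb).2
    · have hcl' : c ∈ l := by
        rcases List.mem_cons.1 hcl with h | h
        · exact absurd h hcb
        · exact h
      have h1 := hA4 c hcl'
      simp only [hcb, if_false, LinearIsometryEquiv.coe_refl, id_eq]
      have h2 : ∀ d, d = c → 1 - ε ≤ pq π c (lam d) ξ := by
        intro d hd; subst hd; linarith
      exact h2 (q c) (hqc c hcb)

end

end HGP
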