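import Pool.Agent.HGP.TargetsF

/-!
# HGP: target CLS (the whole class of relators)
-/

namespace HGP

noncomputable section

lemma CLS_tra (hTRA : T_TRA) (hSBL : T_SBL) {n : ℕ} {r s : FreeGroup (Fin n)}
    (e : OR r ≃* OR s) (he : ∀ i, e (gl r i) = gl s i) (h : Gdn r) : Gdn s := by
  refine hSBL _ _ _ ?_ (hTRA _ _ e _ h)
  intro c hc
  rw [List.mem_ofFn] at hc
  obtain ⟨i, rfl⟩ := hc
  rw [List.mem_map]
  exact ⟨gl r i, by rw [List.mem_ofFn]; exact ⟨i, rfl⟩, he i⟩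

theorem p_CLS (hAMN : T_AMN) (hSCH : T_SCH) (hEXT : T_EXT) (hNST : T_NST) (hRTS : T_RTS)
    (hADG : T_ADG) (hAUT : T_AUT) (hMOV : T_MOV) (hTRA : T_TRA) (hSBL : T_SBL) : T_CLS := by
  obtain ⟨-, hco, hin⟩ := hMOV
  intro n r hr
  induction hr with
  | amen n r h1 h2 =>
    refine hAMN (OR r) _ h1 ?_
    intro a ha
    rw [List.mem_ofFn] at ha
    obtain ⟨i, rfl⟩ := ha
    exact h2 i
  | haag n r h1 h2 =>
    have h3 := hEXT (OR r) [] (List.ofFn (gl r)) (hSCH (OR r) h1) (by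
      intro c hc
      rw [List.mem_ofFn] at hc
      obtain ⟨i, rfl⟩ := hc
      exact Or.inl (h2 i))
    rw [List.append_nil] at h3
    exact h3
  | conj n r g _ ih =>
    obtain ⟨e, he⟩ := hco n r g
    exact CLS_tra hTRA hSBL e he ih
  | inv n r _ ih =>
    obtain ⟨e, he⟩ := hin n r
    exact CLS_tra hTRA hSBL e he ih
  | add n r _ ih => exact hADG n r ih
  | aut n r f _ hf ih => exact hAUT n r f ih hf
  | hnn n r i j p hij hp _ ih => exact hNST n r i j p hij hp ih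
  | root n r i k hk _ ih => exact hRTS n r i k hk ih

end

end HGP
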