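import Pool.Agent.HGP.Targets

/-!
# HGP: decomposition from the left
-/

open HNNExtension HNNExtension.NormalWord

namespace HGP

noncomputable section

variable {H : Type} [Group H] {A B : Subgroup H} (φ : A ≃* B)

/-- the normal word of an element -/
def DECL_w (g : HNNExtension H A B φ) :
    NormalWord (Classical.choice (TransversalPair.nonempty H A B)) :=
  NormalWord.equiv φ (Classical.choice (TransversalPair.nonempty H A B)) g

/-- the first exponent of a list -/
def DECL_u (l : List (ℤˣ × H)) : ℤˣ := (l.head?.map Prod.fst).getD 1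

/-- the product of the rest of a list -/
def DECL_r (l : List (ℤˣ × H)) : HNNExtension H A B φ :=
  match l with
  | [] => 1
  | x :: l' => of x.2 * (l'.map (fun y => t ^ (y.1 : ℤ) * of y.2)).prod

theorem DECL_prod (g : HNNExtension H A B φ) : (DECL_w φ g).toReducedWord.prod φ = g :=
  (NormalWord.equiv φ (Classical.choice (TransversalPair.nonempty H A B))).symm_apply_apply g

theorem DECL_smul (h : H) (g : HNNExtension H A B φ) :
    DECL_w φ (of h * g) = h • DECL_w φ g := by
  have h1 : DECL_w φ (of h * g) = (of h * g) • NormalWord.empty := rfl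
  have h2 : DECL_w φ g = g • NormalWord.empty := rfl
  rw [h1, h2, mul_smul, of_smul_eq_smul]

theorem p_DECL (hLEN : T_LEN) : T_DECL := by
  intro H _ A B φ
  refine ⟨fun g => (DECL_w φ g).head, fun g => DECL_u (DECL_w φ g).toList,
    fun g => DECL_r φ (DECL_w φ g).toList, fun g hg => ?_⟩
  have hlen : len φ g = (DECL_w φ g).toList.length := rfl
  obtain ⟨x, l, hl⟩ : ∃ x l, (DECL_w φ g).toList = x :: l := by
    rw [hlen] at hg
    cases hw : (DECL_w φ g).toList with
    | nil => rw [hw] at hg; exact absurd rfl hg
    | cons x l => exact ⟨x, l, rfl⟩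
  have hchain := (DECL_w φ g).chain
  rw [hl] at hchain
  have hp := DECL_prod φ g
  unfold ReducedWord.prod at hp
  rw [hl, List.map_cons, List.prod_cons] at hp
  refine ⟨?_, ?_, fun h => ⟨?_, ?_, ?_⟩⟩
  · simp only [hl, DECL_u, DECL_r, List.head?_cons, Option.map_some, Option.getD_some]
    rw [← mul_assoc (t ^ (x.1 : ℤ))]
    exact hp.symm
  · have h1 := hLEN H A B φ ⟨x.2, l, (List.isChain_cons.1 hchain).2⟩
    have h2 : DECL_r φ (DECL_w φ g).toList =
        ReducedWord.prod φ ⟨x.2, l, (List.isChain_cons.1 hchain).2⟩ := by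
      rw [hl]; rfl
    simp only [h2]
    rw [h1, hlen, hl]
    rfl
  · simp only [DECL_smul, group_smul_head]
  · simp only [DECL_smul, group_smul_toList]
  · simp only [DECL_smul, group_smul_toList]

end

end HGP
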