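import Pool.Agent.HGP.Targets

/-!
# HGP: decomposition from the right
-/

open HNNExtension HNNExtension.NormalWord

namespace HGP

theorem p_DECR (hDL : T_DECL) (hLN : T_LN) : T_DECR := by
  intro H _ A B φ g hg
  obtain ⟨hd, tu, tr, hD⟩ := hDL H A B φ
  obtain ⟨hL1, -, hLi, -, -, -⟩ := hLN H A B φ
  have hg' : len φ g⁻¹ ≠ 0 := by rw [hLi]; exact hg
  obtain ⟨h1, h2, -⟩ := hD g⁻¹ hg'
  have hinv : (tr g⁻¹)⁻¹ * (t : HNNExtension H A B φ) ^ ((-tu g⁻¹ : ℤˣ) : ℤ) =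
      ((t : HNNExtension H A B φ) ^ (tu g⁻¹ : ℤ) * tr g⁻¹)⁻¹ := by
    rw [mul_inv_rev, Units.val_neg, zpow_neg]
  refine ⟨(tr g⁻¹)⁻¹, -tu g⁻¹, (hd g⁻¹)⁻¹, ?_, ?_, ?_⟩
  · rw [hinv, map_inv, ← mul_inv_rev, ← h1, inv_inv]
  · rw [← hLi g, h2, hLi]
  · rw [hinv, hLi, hLi, ← hL1 (hd g⁻¹), ← h1, h2]

end HGP
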