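import Pool.Agent.HGP.Targets

/-!
# HGP: target T_DEN (density argument for decay)
-/

namespace HGP

set_option maxHeartbeats 4000000

lemma DEN_span {H : Type} {K : Type} [NormedAddCommGroup K] [NormedSpace ℝ K]
    (D : Set K) (F : H → Seminorm ℝ K) (small : Set H → Prop) (h0 : small ∅)
    (hmono : ∀ s t, s ⊆ t → small t → small s)
    (hun : ∀ s t, small s → small t → small (s ∪ t))
    (hD : ∀ u ∈ D, ∀ δ : ℝ, 0 < δ → small {h | δ ≤ F h u})
    (v : K) (hv : v ∈ Submodule.span ℝ D) :
    ∀ δ : ℝ, 0 < δ → small {h | δ ≤ F h v} := by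
  induction hv using Submodule.span_induction with
  | mem x hx => exact hD x hx
  | zero =>
    intro δ hδ
    refine hmono _ _ ?_ h0
    intro h hh
    have h1 : δ ≤ F h 0 := hh
    rw [map_zero] at h1
    exact absurd h1 (not_le.2 hδ)
  | add x y _ _ hx hy =>
    intro δ hδ
    refine hmono _ _ ?_ (hun _ _ (hx (δ / 2) (by positivity)) (hy (δ / 2) (by positivity)))
    intro h hh
    have h1 : δ ≤ F h (x + y) := hh
    have h2 : F h (x + y) ≤ F h x + F h y := map_add_le_add (F h) x y
    by_cases hc : δ / 2 ≤ F h x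
    · exact Or.inl hc
    · right
      show δ / 2 ≤ F h y
      push Not at hc
      linarith
  | smul a x _ hx =>
    intro δ hδ
    have ha : 0 < ‖a‖ + 1 := by positivity
    refine hmono _ _ ?_ (hx (δ / (‖a‖ + 1)) (by positivity))
    intro h hh
    have h1 : δ ≤ F h (a • x) := hh
    rw [map_smul_eq_mul] at h1
    show δ / (‖a‖ + 1) ≤ F h x
    rw [div_le_iff₀ ha]
    have h3 : 0 ≤ F h x := apply_nonneg (F h) x
    nlinarith

theorem p_DEN : T_DEN := by
  intro H K _ _ D hDense F c hF small h0 hmono hun hD u δ hδ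
  have hc : 0 < |c| + 1 := by positivity
  have hr : 0 < δ / (2 * (|c| + 1)) := by positivity
  obtain ⟨v, hv, hd⟩ := Metric.mem_closure_iff.1 (hDense u) _ hr
  refine hmono _ _ ?_ (DEN_span D F small h0 hmono hun hD v hv (δ / 2) (by positivity))
  intro h hh
  have h1 : δ ≤ F h u := hh
  show δ / 2 ≤ F h v
  have h2 : F h u ≤ F h v + F h (u - v) := by
    have h3 := map_add_le_add (F h) v (u - v)
    rwa [add_sub_cancel] at h3
  have h4 : F h (u - v) ≤ c * ‖u - v‖ := hF h (u - v)
  have h5 : c * ‖u - v‖ ≤ (|c| + 1) * ‖u - v‖ :=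
    mul_le_mul_of_nonneg_right (by linarith [le_abs_self c]) (norm_nonneg _)
  have h6 : (|c| + 1) * ‖u - v‖ ≤ δ / 2 := by
    have h7 : ‖u - v‖ < δ / (2 * (|c| + 1)) := by rwa [← dist_eq_norm]
    rw [lt_div_iff₀ (by positivity)] at h7
    nlinarith
  linarith

end HGP
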