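import Pool.Agent.HGP.Targets

/-!
# HGP: almost invariant scalar families on the big space
-/

open scoped InnerProductSpace ENNReal

namespace HGP

noncomputable section

open Classical in
/-- the constant family on the integers from `0` to `L - 1` -/
def ET0_eta (Y : Type) (L : ℕ) (c : ℝ) : L2 (Ix Y) ℝ :=
  ∑ i ∈ (Finset.range L).image (fun n : ℕ => (((n : ℤ), []) : Ix Y)), lp.single 2 i c

lemma ET0_apply (Y : Type) (L : ℕ) (c : ℝ) (n : ℤ) (l : List (Y × ℤ)) :
    ET0_eta Y L c (n, l) = if 0 ≤ n ∧ n < L ∧ l = [] then c else 0 := by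
  classical
  unfold ET0_eta
  rw [lp.coeFn_sum, Finset.sum_apply]
  have h1 : ∀ i ∈ (Finset.range L).image (fun n : ℕ => (((n : ℤ), []) : Ix Y)),
      (lp.single 2 i c : L2 (Ix Y) ℝ) (n, l) = if i = (n, l) then c else 0 := by
    intro i _
    by_cases h : i = (n, l)
    · subst h
      simp
    · rw [if_neg h, lp.single_apply_ne _ _ _ (Ne.symm h)]
  rw [Finset.sum_congr rfl h1, Finset.sum_ite_eq']
  congr 1
  rw [Finset.mem_image]
  apply propext
  constructor
  · rintro ⟨m, hm, h2⟩
    rw [Finset.mem_range] at hm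
    obtain ⟨h3, h4⟩ := Prod.mk.inj h2
    exact ⟨by omega, by omega, h4.symm⟩
  · rintro ⟨h2, h3, h4⟩
    refine ⟨n.toNat, ?_, ?_⟩
    · rw [Finset.mem_range]; omega
    · rw [h4]; exact Prod.ext (by simp only; omega) rfl

lemma ET0_norm (Y : Type) (L : ℕ) (c : ℝ) : ‖ET0_eta Y L c‖ ^ 2 = L * c ^ 2 := by
  classical
  have h := lp.norm_sum_single (p := 2) (E := fun _ : Ix Y => ℝ) (by norm_num) (fun _ => c)
    ((Finset.range L).image (fun n : ℕ => (((n : ℤ), []) : Ix Y)))
  have h2 : ((Finset.range L).image (fun n : ℕ => (((n : ℤ), []) : Ix Y))).card = L := by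
    rw [Finset.card_image_of_injective, Finset.card_range]
    intro a b hab
    have := (Prod.mk.inj hab).1
    exact_mod_cast this
  simp only [ENNReal.toReal_ofNat, Real.rpow_ofNat, Finset.sum_const, h2, nsmul_eq_mul] at h
  unfold ET0_eta
  rw [h, Real.norm_eq_abs, sq_abs]

open Classical in
lemma ET0_diff (Y : Type) (L : ℕ) (c : ℝ) :
    S1 (List (Y × ℤ)) (ET0_eta Y L c) - ET0_eta Y L c =
      (lp.single 2 (((L : ℤ), []) : Ix Y) c : L2 (Ix Y) ℝ) -
        lp.single 2 (((0 : ℤ), []) : Ix Y) c := by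
  ext ⟨n, l⟩
  have e1 : ∀ (k : ℤ), (lp.single 2 ((k, []) : Ix Y) c : L2 (Ix Y) ℝ) (n, l) =
      if n = k ∧ l = [] then c else 0 := by
    intro k
    by_cases h : n = k ∧ l = []
    · obtain ⟨h1, h2⟩ := h
      subst h1; subst h2
      simp
    · rw [if_neg h, lp.single_apply_ne]
      intro h3
      exact h (Prod.mk.inj h3)
  rw [lp.coeFn_sub, lp.coeFn_sub, Pi.sub_apply, Pi.sub_apply, e1, e1, S1_apply, ET0_apply,
    ET0_apply]
  by_cases hl : l = []
  · subst hl
    by_cases h1 : n < 0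
    · rw [if_neg (by omega), if_neg (by omega), if_neg (by omega), if_neg (by omega)]
    by_cases h2 : (L : ℤ) < n
    · rw [if_neg (by omega), if_neg (by omega), if_neg (by omega), if_neg (by omega)]
    by_cases h3 : n = 0
    · by_cases h4 : n = L
      · rw [if_neg (by omega), if_neg (by omega), if_pos (by simp [h4]), if_pos (by simp [h3]),
          sub_self, sub_self]
      · rw [if_neg (by omega), if_pos ⟨by omega, by omega, rfl⟩, if_neg (by omega),
          if_pos (by simp [h3])]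
    · by_cases h4 : n = L
      · rw [if_pos ⟨by omega, by omega, rfl⟩, if_neg (by omega), if_pos (by simp [h4]),
          if_neg (by simp [h3])]
      · rw [if_pos ⟨by omega, by omega, rfl⟩, if_pos ⟨by omega, by omega, rfl⟩,
          if_neg (by simp [h4]), if_neg (by simp [h3])]
        simp
  · rw [if_neg (by tauto), if_neg (by tauto), if_neg (by tauto), if_neg (by tauto)]

theorem p_ET0 : T_ET0 := by
  intro Y ε hε
  classical
  obtain ⟨L, hL⟩ := exists_nat_gt (4 / ε ^ 2)
  have hε2 : 0 < ε ^ 2 := by positivity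
  have hL0 : (0 : ℝ) < L := lt_of_le_of_lt (by positivity) hL
  have hs : 0 < Real.sqrt L := Real.sqrt_pos.2 hL0
  have hss : Real.sqrt L ^ 2 = L := Real.sq_sqrt hL0.le
  refine ⟨ET0_eta Y L (1 / Real.sqrt L), ?_, ?_, ?_⟩
  · have h := ET0_norm Y L (1 / Real.sqrt L)
    have h2 : (L : ℝ) * (1 / Real.sqrt L) ^ 2 = 1 := by
      rw [div_pow, hss]
      field_simp
    rw [h2] at h
    have h3 := norm_nonneg (ET0_eta Y L (1 / Real.sqrt L))
    nlinarith
  · intro n l hl
    rw [ET0_apply, if_neg]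
    rintro ⟨-, -, h⟩
    exact hl (by rw [h]; rfl)
  · rw [ET0_diff]
    refine (norm_sub_le _ _).trans ?_
    rw [lp.norm_single (by norm_num), lp.norm_single (by norm_num), Real.norm_eq_abs,
      abs_of_pos (by positivity)]
    have h1 : 2 / Real.sqrt L ≤ ε := by
      rw [div_le_iff₀ hs]
      have h2 : 4 < ε ^ 2 * L := by
        rw [div_lt_iff₀ hε2] at hL
        linarith
      have h3 : (2 : ℝ) ^ 2 ≤ (ε * Real.sqrt L) ^ 2 := by
        rw [mul_pow, hss]; linarith
      exact (pow_le_pow_iff_left₀ (by norm_num) (by positivity) two_ne_zero).1 h3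
    calc 1 / Real.sqrt L + 1 / Real.sqrt L = 2 / Real.sqrt L := by ring
      _ ≤ ε := h1

end

end HGP
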