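import Pool.Agent.HGP.Targets

/-!
# HGP: existence of the evaluation on an HNN extension (helper76)
-/

set_option autoImplicit false

open scoped InnerProductSpace ENNReal
open HNNExtension HNNExtension.NormalWord

namespace HGP

noncomputable section

section EV

variable {H : Type} [Group H] {A B : Subgroup H} (φ : A ≃* B) {M : Type} [Monoid M]
  (π : H →* M) (V V' : M)

theorem EV_rel (h1 : ∀ a : A, V * π a = π (φ a) * V)
    (h2 : ∀ b : B, V' * π b = π (φ.symm b) * V') (u : ℤˣ) (a : toSubgroup A B u) :
    π (toSubgroupEquiv φ u a : H) * vu V V' u = vu V V' u * π (a : H) := by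
  rcases Int.units_eq_one_or u with rfl | rfl
  · have : vu V V' (1 : ℤˣ) = V := by
      unfold vu
      rw [if_pos rfl]
    rw [this]
    exact (h1 a).symm
  · have : vu V V' (-1 : ℤˣ) = V' := by
      unfold vu
      rw [if_neg (by decide)]
    rw [this]
    exact (h2 a).symm

theorem EV_smul {d : TransversalPair H A B} (g : H) (w : NormalWord d) :
    ev π V V' (g • w).toReducedWord = π g * ev π V V' w.toReducedWord := by
  simp only [ev, group_smul_head, group_smul_toList, map_mul, mul_assoc]

theorem EV_cons {d : TransversalPair H A B} (g : H) (u : ℤˣ) (w : NormalWord d)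
    (h1 : w.head ∈ d.set u)
    (h2 : ∀ u' ∈ Option.map Prod.fst w.toList.head?, w.head ∈ toSubgroup A B u → u = u') :
    ev π V V' (cons g u w h1 h2).toReducedWord =
      π g * (vu V V' u * ev π V V' w.toReducedWord) := by
  simp only [ev, cons_head, cons_toList, List.map_cons, List.prod_cons, mul_assoc]

theorem EV_units (hr1 : ∀ a : A, V * π a = π (φ a) * V)
    (hr2 : ∀ b : B, V' * π b = π (φ.symm b) * V') {d : TransversalPair H A B} (u : ℤˣ)
    (w : NormalWord d) (hc : ¬ Cancels u w) :
    ev π V V' (unitsSMul φ u w).toReducedWord =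
      vu V V' u * ev π V V' w.toReducedWord := by
  rw [unitsSMul, dif_neg hc]
  simp only [EV_cons, EV_smul]
  rw [← mul_assoc]
  have e1 : π ((unitsSMulGroup φ d u w.head).1 : H) * vu V V' u =
      vu V V' u * π (((d.compl u).equiv w.head).1 : H) :=
    EV_rel φ π V V' hr1 hr2 u _
  rw [e1, mul_assoc, ← mul_assoc (π _) (π _), ← map_mul, unitsSMulGroup_snd]
  have e2 : (((d.compl u).equiv w.head).1 : H) *
      ((((d.compl u).equiv w.head).2 : H) * w.head⁻¹) = 1 := by
    rw [← mul_assoc, (d.compl u).equiv_fst_mul_equiv_snd, mul_inv_cancel]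
  rw [e2, map_one, one_mul]

theorem EV_normal (hr1 : ∀ a : A, V * π a = π (φ a) * V)
    (hr2 : ∀ b : B, V' * π b = π (φ.symm b) * V') (d : TransversalPair H A B)
    (w : ReducedWord H A B) :
    ∃ w' : NormalWord d, w'.prod φ = w.prod φ ∧
      ev π V V' w'.toReducedWord = ev π V V' w := by
  suffices ∀ w : ReducedWord H A B,
      w.head = 1 → ∃ w' : NormalWord d, w'.prod φ = w.prod φ ∧
      w'.toList.map Prod.fst = w.toList.map Prod.fst ∧
      (∀ u ∈ w.toList.head?.map Prod.fst, w'.head ∈ toSubgroup A B (-u)) ∧
      ev π V V' w'.toReducedWord = ev π V V' w by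
    obtain ⟨w', h1, -, -, h4⟩ := this ⟨1, w.toList, w.chain⟩ rfl
    refine ⟨w.head • w', ?_, ?_⟩
    · rw [prod_group_smul, h1]
      simp [ReducedWord.prod]
    · rw [EV_smul, h4]
      simp [ev]
  intro w hw1
  rcases w with ⟨g, l, chain⟩
  dsimp at hw1; subst hw1
  induction l with
  | nil =>
    exact
      ⟨{ head := 1
         toList := []
         mem_set := by simp
         chain := List.isChain_nil }, by simp⟩
  | cons a l ih =>
    rcases ih (List.isChain_cons.1 chain).2 with ⟨w', hw'1, hw'2, hw'3, hw'4⟩
    clear ih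
    have hcan : ¬ Cancels a.1 (a.2 • w') := by
      simp only [Cancels, group_smul_head, group_smul_toList, Option.map_eq_some_iff,
        Prod.exists, exists_and_right, exists_eq_right, not_and, not_exists]
      intro hS x hx
      have hx' := congr_arg (Option.map Prod.fst) hx
      rw [← List.head?_map, hw'2, List.head?_map, Option.map_some] at hx'
      have : w'.head ∈ toSubgroup A B a.fst := by
        simpa using hw'3 _ hx'
      rw [mul_mem_cancel_right this] at hS
      have : a.fst = -a.fst := by
        have hl : l ≠ [] := by rintro rfl; simp_all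
        have : a.fst = (l.head hl).fst := (List.isChain_cons.1 chain).1 (l.head hl)
          (List.head?_eq_some_head _) hS
        rwa [List.head?_eq_some_head hl, Option.map_some, ← this, Option.some_inj] at hx'
      simp at this
    refine ⟨(t^(a.1 : ℤ) * of a.2 : HNNExtension H A B φ) • w', ?_, ?_, ?_, ?_⟩
    · rw [prod_smul, hw'1]
      simp [ReducedWord.prod]
    · simp [mul_smul, of_smul_eq_smul, t_pow_smul_eq_unitsSMul, unitsSMul, dif_neg hcan, ← hw'2]
    · simp [mul_smul, of_smul_eq_smul, t_pow_smul_eq_unitsSMul, unitsSMul, dif_neg hcan]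
    · rw [mul_smul, of_smul_eq_smul, t_pow_smul_eq_unitsSMul,
        EV_units φ π V V' hr1 hr2 a.1 (a.2 • w') hcan, EV_smul, hw'4]
      simp only [ev, map_one, one_mul, List.map_cons, List.prod_cons, mul_assoc]

end EV

/-- the target `T_EV` -/
theorem p_EV : T_EV := by
  intro H _ A B φ M _ π V V' h1 h2
  obtain ⟨d⟩ := TransversalPair.nonempty H A B
  refine ⟨fun g => ev π V V' (NormalWord.equiv φ d g).toReducedWord, fun w => ?_⟩
  obtain ⟨w', hw1, hw2⟩ := EV_normal φ π V V' h1 h2 d w
  have h : NormalWord.equiv φ d (w.prod φ) = w' := by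
    rw [← hw1]
    exact (NormalWord.equiv φ d).apply_symm_apply w'
  show ev π V V' (NormalWord.equiv φ d (w.prod φ)).toReducedWord = ev π V V' w
  rw [h, hw2]

end

end HGP
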