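import Pool.Agent.HGP.Targets

/-!
# HGP: the Gaussian kernel is positive semidefinite
-/

open scoped InnerProductSpace ENNReal

namespace HGP

noncomputable section

/-- powers of the Gram matrix -/
lemma EXP_pow {E : Type} [NormedAddCommGroup E] [InnerProductSpace ℝ E] (n : ℕ)
    (x : Fin n → E) (k : ℕ) :
    (Matrix.of fun i j => ⟪x i, x j⟫_ℝ ^ k : Matrix (Fin n) (Fin n) ℝ).PosSemidef := by
  induction k with
  | zero =>
    have h := Matrix.posSemidef_vecMulVec_self_star (R := ℝ) (fun _ : Fin n => (1 : ℝ))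
    convert h using 1
    ext i j
    simp [Matrix.vecMulVec_apply]
  | succ k ih =>
    have h := Matrix.PosSemidef.hadamard (𝕜 := ℝ) ih (Matrix.posSemidef_gram ℝ x)
    have e : (Matrix.of fun i j => ⟪x i, x j⟫_ℝ ^ (k + 1) : Matrix (Fin n) (Fin n) ℝ) =
        (Matrix.of fun i j => ⟪x i, x j⟫_ℝ ^ k : Matrix (Fin n) (Fin n) ℝ).hadamard
          (Matrix.gram ℝ x) := by
      ext i j
      simp [Matrix.gram_apply, pow_succ]
    rw [e]
    exact h

lemma EXP_pow_sum {E : Type} [NormedAddCommGroup E] [InnerProductSpace ℝ E] (n : ℕ)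
    (x : Fin n → E) (k : ℕ) (d : Fin n → ℝ) :
    0 ≤ ∑ i, ∑ j, d i * d j * ⟪x i, x j⟫_ℝ ^ k := by
  have h := (EXP_pow n x k).dotProduct_mulVec_nonneg d
  have e : star d ⬝ᵥ (Matrix.of fun i j => ⟪x i, x j⟫_ℝ ^ k :
      Matrix (Fin n) (Fin n) ℝ).mulVec d = ∑ i, ∑ j, d i * d j * ⟪x i, x j⟫_ℝ ^ k := by
    simp only [dotProduct, Matrix.mulVec, Matrix.of_apply, Pi.star_apply, star_trivial,
      Finset.mul_sum]
    refine Finset.sum_congr rfl fun i _ => Finset.sum_congr rfl fun j _ => ?_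
    ring
  rwa [e] at h

theorem p_EXP : T_EXP := by
  intro E _ _ s hs n x c
  set d : Fin n → ℝ := fun i => c i * Real.exp (-(s * ‖x i‖ ^ 2)) with hd
  have key : ∀ i j, c i * c j * Real.exp (-(s * ‖x i - x j‖ ^ 2)) =
      d i * d j * Real.exp (2 * s * ⟪x i, x j⟫_ℝ) := by
    intro i j
    have h1 : -(s * ‖x i - x j‖ ^ 2) =
        -(s * ‖x i‖ ^ 2) + -(s * ‖x j‖ ^ 2) + 2 * s * ⟪x i, x j⟫_ℝ := by
      rw [norm_sub_sq_real]; ring
    rw [h1, Real.exp_add, Real.exp_add, hd]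
    ring
  have hsum : HasSum (fun k : ℕ => (2 * s) ^ k / (k.factorial : ℝ) *
      ∑ i, ∑ j, d i * d j * ⟪x i, x j⟫_ℝ ^ k)
      (∑ i, ∑ j, d i * d j * Real.exp (2 * s * ⟪x i, x j⟫_ℝ)) := by
    have h1 : ∀ i j, HasSum (fun k : ℕ => (2 * s) ^ k / (k.factorial : ℝ) *
        (d i * d j * ⟪x i, x j⟫_ℝ ^ k)) (d i * d j * Real.exp (2 * s * ⟪x i, x j⟫_ℝ)) := by
      intro i j
      have h2 := NormedSpace.expSeries_div_hasSum_exp (2 * s * ⟪x i, x j⟫_ℝ)
      rw [← Real.exp_eq_exp_ℝ] at h2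
      have h3 := h2.mul_left (d i * d j)
      have e : (fun k : ℕ => (2 * s) ^ k / (k.factorial : ℝ) *
          (d i * d j * ⟪x i, x j⟫_ℝ ^ k)) =
          fun k : ℕ => d i * d j * ((2 * s * ⟪x i, x j⟫_ℝ) ^ k / (k.factorial : ℝ)) := by
        funext k
        rw [mul_pow]
        ring
      rw [e]
      exact h3
    have h4 := hasSum_sum (s := Finset.univ) (fun i _ =>
      hasSum_sum (s := Finset.univ) (fun j _ => h1 i j))
    have e : (fun k : ℕ => (2 * s) ^ k / (k.factorial : ℝ) *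
        ∑ i, ∑ j, d i * d j * ⟪x i, x j⟫_ℝ ^ k) =
        fun k : ℕ => ∑ i, ∑ j, (2 * s) ^ k / (k.factorial : ℝ) *
        (d i * d j * ⟪x i, x j⟫_ℝ ^ k) := by
      funext k
      simp only [Finset.mul_sum]
    rw [e]
    exact h4
  simp only [key]
  exact hsum.nonneg fun k => mul_nonneg (by positivity) (EXP_pow_sum n x k d)

end

end HGP
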