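import Pool.Agent.HGP.TargetsF

/-!
# HGP: target EXT (extension of the list)
-/

namespace HGP

noncomputable section

theorem p_EXT (hSUR : T_SUR) (hPOW : T_POW) (hCJG : T_CJG) (hSBL : T_SBL) : T_EXT := by
  intro H _ l l' hl
  induction l' with
  | nil => intro _; simpa using hl
  | cons c l' ih =>
    intro h
    have h1 : QF H (l' ++ l) := ih fun c' hc' => h c' (List.mem_cons_of_mem _ hc')
    rcases h c List.mem_cons_self with ⟨β, hβ⟩ | ⟨a, ha, k, g, hk, rfl⟩
    · exact hSUR H c β hβ _ h1
    · have ha' : a ∈ l' ++ l := List.mem_append_right _ ha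
      have h2 : QF H (a :: (l' ++ l)) := by
        refine hSBL H (l' ++ l) _ ?_ h1
        intro x hx
        rcases List.mem_cons.1 hx with rfl | hx
        · exact ha'
        · exact hx
      have h3 := hPOW H a k (l' ++ l) hk h2
      have h4 := hCJG H _ (a ^ k) g List.mem_cons_self h3
      refine hSBL H _ _ ?_ h4
      intro x hx
      rcases List.mem_cons.1 hx with rfl | hx
      · exact List.mem_cons_self
      · exact List.mem_cons_of_mem _ (List.mem_cons_of_mem _ (List.mem_cons_of_mem _ hx))

end

end HGP
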