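import Pool.Agent.HGP.TargetsF

/-!
# HGP: final statements
-/

open HNNExtension

namespace HGP

noncomputable section

lemma FIN_countable {n : ℕ} (r : FreeGroup (Fin n)) : Countable (OR r) := by
  have h : Function.Surjective (PresentedGroup.mk ({r} : Set (FreeGroup (Fin n)))) :=
    PresentedGroup.mk_surjective _
  have : Countable (FreeGroup (Fin n)) :=
    (FreeGroup.toWord_injective (α := Fin n)).countable
  exact h.countable

theorem p_M0 (hCLS : T_CLS) (hHAA : T_HAA) (hSBL : T_SBL) : T_M0 := by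
  intro n r hr
  have := FIN_countable r
  exact hHAA (OR r) (hSBL _ _ [] (by simp) (hCLS n r hr))

lemma FIN_step (p : ℤ) (w : FreeGroup (Fin 2)) : nestStep p w =
    sb 1 (FreeGroup.of 1 * FreeGroup.of 0 ^ p * (FreeGroup.of 1)⁻¹) w := by
  unfold nestStep sub sb
  congr 1
  congr 1
  funext i
  fin_cases i
  · simp [lx]
  · simp [lx, ly]

lemma FIN_nest (w : FreeGroup (Fin 2)) (hw : Cln 2 w) (ps : List ℤ) (h : ∀ p ∈ ps, p ≠ 0) :
    Cln 2 (nest w ps) := by
  induction ps with
  | nil => exact hw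
  | cons p ps ih =>
    have h1 := ih fun q hq => h q (List.mem_cons_of_mem _ hq)
    have h2 := Cln.hnn 2 (nest w ps) 0 1 p (by decide) (h p List.mem_cons_self) h1
    rw [← FIN_step] at h2
    exact h2

theorem p_M2 (hM0 : T_M0) (hZAM : T_ZAM) : T_M2 := by
  intro n ps hn hps
  obtain ⟨h1, h2, h3⟩ := hZAM n hn
  refine hM0 2 _ (FIN_nest _ ?_ ps hps)
  refine Cln.amen 2 _ h1 fun i => ?_
  fin_cases i
  · exact h2
  · exact h3

theorem p_M1 (hM2 : T_M2) : T_M1 := by
  intro p m n hp hm hn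
  have h := hM2 n [p, m] hn (by
    intro q hq
    simp only [List.mem_cons, List.not_mem_nil, or_false] at hq
    rcases hq with rfl | rfl
    · exact hp
    · exact hm)
  have h2 : nest (ly * lx ^ (-n)) [p, m] =
      (ly * lx ^ p * ly⁻¹) * lx ^ m * (ly * lx ^ p * ly⁻¹)⁻¹ * lx ^ (-n) := by
    simp only [nest, nestStep, sub, map_mul, map_inv, map_zpow, FreeGroup.lift_apply_of,
      Matrix.cons_val_zero, Matrix.cons_val_one]
  rw [h2] at h
  exact h

theorem p_M3 (hINH : T_INH) (hAMN : T_AMN) (hSBL : T_SBL) (hHAA : T_HAA) (hCNT : T_CNT) :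
    T_M3 := by
  intro H _ _ a b β hH ha hb θ hθ
  have h1 : QF H [a] := hAMN H [a] hH (by
    intro c hc
    rw [List.mem_singleton] at hc
    rw [hc]; exact ha)
  have h2 := hINH H a b β hb [a] List.mem_cons_self h1 θ hθ
  have := hCNT H (Subgroup.zpowers a) (Subgroup.zpowers b) θ
  exact hHAA _ (hSBL _ _ [] (by simp) h2)

end

end HGP
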