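import Pool.Agent.HGP.Targets

/-!
# HGP: the Hilbert space of an operator valued positive definite function
-/

open scoped InnerProductSpace

namespace HGP

noncomputable section

/-- a group acting on a total family and preserving the Gram matrix acts by isometries -/
lemma GNSX_act (G X K : Type) [Group G] [MulAction G X] [NormedAddCommGroup K]
    [InnerProductSpace ℝ K] [CompleteSpace K] (e : X → K)
    (hd : Dense (Submodule.span ℝ (Set.range e) : Set K))
    (he : ∀ (g : G) (x y : X), ⟪e (g • x), e (g • y)⟫_ℝ = ⟪e x, e y⟫_ℝ) :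
    ∃ P : G →* (K ≃ₗᵢ[ℝ] K), ∀ g x, P g (e x) = e (g • x) := by
  let L : (X →₀ ℝ) →ₗ[ℝ] K := Finsupp.linearCombination ℝ e
  have hL : DenseRange L := by
    have h1 : (Set.range L : Set K) = (Submodule.span ℝ (Set.range e) : Set K) := by
      rw [← Finsupp.range_linearCombination]; rfl
    unfold DenseRange
    rw [h1]; exact hd
  let f : G → ((X →₀ ℝ) ≃ₗ[ℝ] (X →₀ ℝ)) := fun g => Finsupp.domLCongr (MulAction.toPerm g)
  have hf : ∀ g x (c : ℝ), L (f g (Finsupp.single x c)) = c • e (g • x) := by
    intro g x c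
    simp [L, f]
  have hin : ∀ g (c c' : X →₀ ℝ), ⟪L (f g c), L (f g c')⟫_ℝ = ⟪L c, L c'⟫_ℝ := by
    intro g c c'
    induction c using Finsupp.induction_linear with
    | zero => simp
    | add a b ha hb => simp only [map_add, inner_add_left, ha, hb]
    | single x a =>
      induction c' using Finsupp.induction_linear with
      | zero => simp
      | add a b ha hb => simp only [map_add, inner_add_right, ha, hb]
      | single y b =>
        rw [hf, hf]
        have h2 : ∀ x (c : ℝ), L (Finsupp.single x c) = c • e x := fun x c => by simp [L]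
        rw [h2, h2, real_inner_smul_left, real_inner_smul_right, he, real_inner_smul_left,
          real_inner_smul_right]
  have hn : ∀ g c, ‖L (f g c)‖ = ‖L c‖ := by
    intro g c
    rw [@norm_eq_sqrt_real_inner K, @norm_eq_sqrt_real_inner K, hin]
  let Q : G → (K ≃ₗᵢ[ℝ] K) := fun g => (f g).extendOfIsometry L L hL hL (hn g)
  have hQ : ∀ g c, Q g (L c) = L (f g c) := fun g c =>
    LinearEquiv.extendOfIsometry_eq _ _ _ _ _ _ _
  have hQe : ∀ g x, Q g (e x) = e (g • x) := by
    intro g x
    have h1 : e x = L (Finsupp.single x 1) := by simp [L]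
    rw [h1, hQ, hf, one_smul]
  have hext : ∀ A B : K ≃ₗᵢ[ℝ] K, (∀ x, A (e x) = B (e x)) → A = B := by
    intro A B h
    have h1 : ∀ c, A (L c) = B (L c) := by
      intro c
      induction c using Finsupp.induction_linear with
      | zero => simp
      | add a b ha hb => simp only [map_add, ha, hb]
      | single x a =>
        have h2 : L (Finsupp.single x a) = a • e x := by simp [L]
        rw [h2, map_smul, map_smul, h]
    ext v
    exact congrFun (hL.equalizer A.continuous B.continuous (funext h1)) v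
  refine ⟨{ toFun := Q, map_one' := ?_, map_mul' := ?_ }, fun g x => hQe g x⟩
  · refine hext _ _ fun x => ?_
    rw [hQe, one_smul]; rfl
  · intro g h
    refine hext _ _ fun x => ?_
    rw [hQe, mul_smul]
    change _ = Q g (Q h (e x))
    rw [hQe, hQe]

theorem GNSX : T_GNS := by
  intro G _ E _ _ _ W hW1 hWs hpos
  let Km : Matrix G G (E →L[ℝ] E) := Matrix.of fun x y => W (x⁻¹ * y)
  have hKm : ∀ x y, Km x y = W (x⁻¹ * y) := fun _ _ => rfl
  have hherm : Km.IsHermitian := by
    ext x y : 1
    change star (Km y x) = Km x y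
    rw [hKm, hKm, ContinuousLinearMap.star_eq_adjoint, ← hWs]
    congr 1
    group
  have hps : Km.PosSemidef := by
    have hiff : Km.PosSemidef ↔ (Km.IsHermitian ∧ ∀ (vv : G →₀ E),
        0 ≤ RCLike.re (vv.sum fun x w => vv.sum fun x' w' => ⟪Km x' x w, w'⟫_ℝ)) :=
      (RKHS.posSemidef_tfae (𝕜 := ℝ)).out 0 2
    refine hiff.2 ⟨hherm, fun vv => ?_⟩
    have key := hpos vv.support.card (fun i => ((vv.support.equivFin.symm i : G))⁻¹)
      (fun i => vv (vv.support.equivFin.symm i : G))
    have h1 : (vv.sum fun x w => vv.sum fun x' w' => ⟪Km x' x w, w'⟫_ℝ) =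
        ∑ i, ∑ j, ⟪W (((vv.support.equivFin.symm i : G))⁻¹ *
          (((vv.support.equivFin.symm j : G))⁻¹)⁻¹)
          (vv (vv.support.equivFin.symm j : G)), vv (vv.support.equivFin.symm i : G)⟫_ℝ := by
      rw [Finset.sum_comm]
      simp only [Finsupp.sum]
      rw [← Finset.sum_coe_sort vv.support, ← vv.support.equivFin.symm.sum_comp]
      refine Finset.sum_congr rfl fun j _ => ?_
      rw [← Finset.sum_coe_sort vv.support, ← vv.support.equivFin.symm.sum_comp]
      refine Finset.sum_congr rfl fun i _ => ?_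
      rw [hKm, inv_inv]
    simp only [RCLike.re_to_real]
    rw [h1]
    exact key
  have : Fact Km.PosSemidef := ⟨hps⟩
  let K := RKHS.OfKernel Km
  let e : G × E → K := fun q => RKHS.kerFun K q.1 q.2
  let _ : MulAction G (G × E) :=
    { smul := fun g q => (g * q.1, q.2)
      one_smul := fun q => by change (1 * q.1, q.2) = q; rw [one_mul]
      mul_smul := fun g h q => by
        change (g * h * q.1, q.2) = (g * (h * q.1), q.2); rw [mul_assoc] }
  have hsm : ∀ (g : G) (q : G × E), g • q = (g * q.1, q.2) := fun _ _ => rfl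
  have hee : ∀ x y : G × E, ⟪e x, e y⟫_ℝ = ⟪W (y.1⁻¹ * x.1) x.2, y.2⟫_ℝ := by
    intro x y
    have h1 := RKHS.kernel_inner K y.1 x.1 x.2 y.2
    rw [RKHS.OfKernel.kernel_ofKernel] at h1
    rw [← h1]
    rfl
  have hd : Dense (Submodule.span ℝ (Set.range e) : Set K) := by
    have h1 := RKHS.kerFun_dense K
    have h2 : {x | ∃ (a : G) (v : E), RKHS.kerFun K a v = x} = Set.range e := by
      ext x
      constructor
      · rintro ⟨a, v, rfl⟩; exact ⟨(a, v), rfl⟩
      · rintro ⟨q, rfl⟩; exact ⟨q.1, q.2, rfl⟩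
    rw [h2] at h1
    exact Submodule.dense_iff_topologicalClosure_eq_top.2 h1
  obtain ⟨P, hP⟩ := GNSX_act G (G × E) K e hd (by
    intro g x y
    rw [hee, hee, hsm, hsm]
    congr 2
    simp only
    group)
  refine ⟨K, inferInstance, inferInstance, inferInstance, P,
    { toFun := fun u => e (1, u), map_add' := ?_, map_smul' := ?_, norm_map' := ?_ }, ?_, ?_⟩
  · intro u v
    exact map_add (RKHS.kerFun K (1 : G)) u v
  · intro c u
    exact map_smul (RKHS.kerFun K (1 : G)) c u
  · intro u
    have h1 : ‖e (1, u)‖ ^ 2 = ‖u‖ ^ 2 := by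
      rw [← real_inner_self_eq_norm_sq, hee]
      simp only [inv_one, mul_one, hW1]
      exact real_inner_self_eq_norm_sq u
    exact (pow_left_inj₀ (norm_nonneg _) (norm_nonneg _) two_ne_zero).1 h1
  · intro g u v
    change ⟪P g (e (1, u)), e (1, v)⟫_ℝ = _
    rw [hP, hee, hsm]
    simp
  · refine hd.mono (Submodule.span_mono ?_)
    rintro x ⟨q, rfl⟩
    refine ⟨q.1, q.2, ?_⟩
    change e q = P q.1 (e (1, q.2))
    rw [hP, hsm, mul_one]

end

end HGP
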