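import Pool.Agent.HGP.Targets

/-!
# HGP: the target T_HAA
-/

open scoped InnerProductSpace ENNReal

namespace HGP

noncomputable section

section haa

variable {G : Type} [Group G] {E : ℕ → Type} [∀ i, NormedAddCommGroup (E i)]
  [∀ i, InnerProductSpace ℝ (E i)]

/-- the sum of isometries -/
def HAA_map (T : ∀ i, E i ≃ₗᵢ[ℝ] E i) (f : lp E 2) : lp E 2 :=
  ⟨fun i => T i (f i), by
    show Memℓp _ 2
    rw [mem2]
    simp only [LinearIsometryEquiv.norm_map]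
    exact summable_sq_lp f⟩

@[simp] lemma HAA_map_apply (T : ∀ i, E i ≃ₗᵢ[ℝ] E i) (f : lp E 2) (i : ℕ) :
    HAA_map T f i = T i (f i) := rfl

lemma HAA_map_norm (T : ∀ i, E i ≃ₗᵢ[ℝ] E i) (f : lp E 2) : ‖HAA_map T f‖ = ‖f‖ := by
  have h : ‖HAA_map T f‖ ^ 2 = ‖f‖ ^ 2 := by
    rw [norm_sq_lp, norm_sq_lp]
    simp only [HAA_map_apply, LinearIsometryEquiv.norm_map]
  exact (pow_left_inj₀ (norm_nonneg _) (norm_nonneg _) two_ne_zero).1 h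

/-- the sum of isometries as an isometry -/
def HAA_iso (T : ∀ i, E i ≃ₗᵢ[ℝ] E i) : lp E 2 ≃ₗᵢ[ℝ] lp E 2 where
  toFun := HAA_map T
  invFun := HAA_map fun i => (T i).symm
  left_inv f := by ext i; simp
  right_inv f := by ext i; simp
  map_add' f g := by ext i; simp
  map_smul' c f := by ext i; simp
  norm_map' f := HAA_map_norm T f

@[simp] lemma HAA_iso_apply (T : ∀ i, E i ≃ₗᵢ[ℝ] E i) (f : lp E 2) (i : ℕ) :
    HAA_iso T f i = T i (f i) := rfl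

/-- the cocycle -/
def HAA_b (π : ∀ i, G →* (E i ≃ₗᵢ[ℝ] E i)) (ξ : ∀ i, E i)
    (hs : ∀ g, Summable fun i => ‖π i g (ξ i) - ξ i‖ ^ 2) (g : G) : lp E 2 :=
  ⟨fun i => π i g (ξ i) - ξ i, by
    show Memℓp _ 2
    rw [mem2]
    exact hs g⟩

lemma HAA_b_apply (π : ∀ i, G →* (E i ≃ₗᵢ[ℝ] E i)) (ξ : ∀ i, E i)
    (hs : ∀ g, Summable fun i => ‖π i g (ξ i) - ξ i‖ ^ 2) (g : G) (i : ℕ) :
    HAA_b π ξ hs g i = π i g (ξ i) - ξ i := rfl

/-- the affine isometry -/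
def HAA_aff (π : ∀ i, G →* (E i ≃ₗᵢ[ℝ] E i)) (ξ : ∀ i, E i)
    (hs : ∀ g, Summable fun i => ‖π i g (ξ i) - ξ i‖ ^ 2) (g : G) :
    lp E 2 ≃ᵃⁱ[ℝ] lp E 2 :=
  AffineIsometryEquiv.mk' (fun v => HAA_iso (fun i => π i g) v + HAA_b π ξ hs g)
    (HAA_iso fun i => π i g) 0 fun v => by simp

lemma HAA_aff_apply (π : ∀ i, G →* (E i ≃ₗᵢ[ℝ] E i)) (ξ : ∀ i, E i)
    (hs : ∀ g, Summable fun i => ‖π i g (ξ i) - ξ i‖ ^ 2) (g : G) (v : lp E 2) :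
    HAA_aff π ξ hs g v = HAA_iso (fun i => π i g) v + HAA_b π ξ hs g := rfl

/-- the affine action -/
def HAA_act (π : ∀ i, G →* (E i ≃ₗᵢ[ℝ] E i)) (ξ : ∀ i, E i)
    (hs : ∀ g, Summable fun i => ‖π i g (ξ i) - ξ i‖ ^ 2) :
    G →* (lp E 2 ≃ᵃⁱ[ℝ] lp E 2) where
  toFun := HAA_aff π ξ hs
  map_one' := by
    ext v i
    rw [HAA_aff_apply, lp.coeFn_add, Pi.add_apply, HAA_iso_apply, HAA_b_apply]
    simp
  map_mul' g h := by
    ext v i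
    rw [AffineIsometryEquiv.coe_mul, Function.comp_apply, HAA_aff_apply, HAA_aff_apply,
      HAA_aff_apply, lp.coeFn_add, lp.coeFn_add, Pi.add_apply, Pi.add_apply, HAA_iso_apply,
      HAA_iso_apply, HAA_b_apply, HAA_b_apply, lp.coeFn_add, Pi.add_apply, HAA_iso_apply,
      HAA_b_apply]
    simp only [map_mul, map_add, map_sub, LinearIsometryEquiv.coe_mul, Function.comp_apply]
    abel

lemma HAA_far {π : ∀ i, G →* (E i ≃ₗᵢ[ℝ] E i)} {ξ : ∀ i, E i} (hn : ∀ i, 3 / 4 ≤ ‖ξ i‖)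
    {g : G} {i : ℕ} (h : |⟪π i g (ξ i), ξ i⟫_ℝ| < 1 / 8) :
    1 / 2 ≤ ‖π i g (ξ i) - ξ i‖ ^ 2 := by
  rw [norm_sub_sq_real, LinearIsometryEquiv.norm_map]
  have h1 := (abs_lt.1 h).2
  have h2 := hn i
  have h3 : (9 / 16 : ℝ) ≤ ‖ξ i‖ ^ 2 := by nlinarith
  linarith

theorem HAA_main [∀ i, CompleteSpace (E i)] (π : ∀ i, G →* (E i ≃ₗᵢ[ℝ] E i)) (ξ : ∀ i, E i)
    (hC : ∀ i, C0 (π i)) (hn : ∀ i, 3 / 4 ≤ ‖ξ i‖)
    (hs : ∀ g, Summable fun i => ‖π i g (ξ i) - ξ i‖ ^ 2) : HasHaagerup G := by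
  have hfin : ∀ R : ℝ, {g : G | ‖HAA_b π ξ hs g‖ ≤ R}.Finite := by
    intro R
    obtain ⟨N, hN⟩ := exists_nat_gt (2 * R ^ 2)
    have hU : (⋃ i ∈ Finset.range N, {g : G | 1 / 8 ≤ |⟪π i g (ξ i), ξ i⟫_ℝ|}).Finite :=
      Set.Finite.biUnion (Finset.finite_toSet _) fun i _ => hC i (ξ i) (ξ i) (1 / 8) (by norm_num)
    refine hU.subset fun g hg => ?_
    by_contra hc
    simp only [Set.mem_iUnion, Finset.mem_range, Set.mem_ofPred_eq, not_exists, not_le] at hc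
    have h1 : ‖HAA_b π ξ hs g‖ ^ 2 = ∑' i, ‖π i g (ξ i) - ξ i‖ ^ 2 := norm_sq_lp _
    have h2 : ∑ i ∈ Finset.range N, ‖π i g (ξ i) - ξ i‖ ^ 2 ≤ ‖HAA_b π ξ hs g‖ ^ 2 := by
      rw [h1]
      exact (hs g).sum_le_tsum _ fun i _ => by positivity
    have h3 : (N : ℝ) * (1 / 2) ≤ ∑ i ∈ Finset.range N, ‖π i g (ξ i) - ξ i‖ ^ 2 := by
      have h4 := Finset.card_nsmul_le_sum (Finset.range N)
        (fun i => ‖π i g (ξ i) - ξ i‖ ^ 2) (1 / 2)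
        fun i hi => HAA_far hn (hc i (Finset.mem_range.1 hi))
      rwa [Finset.card_range, nsmul_eq_mul] at h4
    have h5 : ‖HAA_b π ξ hs g‖ ≤ R := hg
    have h6 : ‖HAA_b π ξ hs g‖ ^ 2 ≤ R ^ 2 := pow_le_pow_left₀ (norm_nonneg _) h5 2
    linarith
  refine ⟨lp E 2, inferInstance, inferInstance, inferInstance, HAA_act π ξ hs, fun B hB => ?_⟩
  obtain ⟨R, hR⟩ := hB.exists_norm_le
  refine (hfin (2 * R)).subset fun g hg => ?_
  obtain ⟨x, ⟨v, hv, hvx⟩, hx⟩ := hg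
  have h1 : HAA_iso (fun i => π i g) v + HAA_b π ξ hs g = x := hvx
  have h2 : HAA_b π ξ hs g = x - HAA_iso (fun i => π i g) v := by
    rw [← h1]
    abel
  show ‖HAA_b π ξ hs g‖ ≤ 2 * R
  rw [h2]
  calc ‖x - HAA_iso (fun i => π i g) v‖ ≤ ‖x‖ + ‖HAA_iso (fun i => π i g) v‖ := norm_sub_le _ _
    _ = ‖x‖ + ‖v‖ := by rw [LinearIsometryEquiv.norm_map]
    _ ≤ R + R := add_le_add (hR x hx) (hR v hv)
    _ = 2 * R := by ring

end haa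

theorem p_HAA : T_HAA := by
  classical
  intro G _ _ hQ
  obtain ⟨e, he⟩ := exists_surjective_nat G
  have hε : ∀ i : ℕ, (0 : ℝ) < min ((1 / 2) ^ i) (1 / 4) := fun i => by positivity
  choose E iN iI iC π Y lam ξ h using fun i : ℕ =>
    hQ ((Finset.range (i + 1)).image e) (min ((1 / 2) ^ i) (1 / 4)) (hε i)
  refine HAA_main π ξ (fun i => (h i).1) (fun i => ?_) fun g => ?_
  · have h1 := (h i).2.2.2.1
    have h2 := min_le_right ((1 / 2 : ℝ) ^ i) (1 / 4)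
    linarith
  · obtain ⟨i₀, hi₀⟩ := he g
    have hg : ∀ i, i₀ ≤ i → ‖‖π i g (ξ i) - ξ i‖ ^ 2‖ ≤ (1 / 2 : ℝ) ^ i := by
      intro i hi
      have h1 : ‖π i g (ξ i) - ξ i‖ ≤ min ((1 / 2) ^ i) (1 / 4) := by
        refine (h i).2.2.2.2.1 g ?_
        exact Finset.mem_image.2 ⟨i₀, Finset.mem_range.2 (by omega), hi₀⟩
      have h2 : ‖π i g (ξ i) - ξ i‖ ≤ (1 / 2 : ℝ) ^ i := h1.trans (min_le_left _ _)
      have h3 : ‖π i g (ξ i) - ξ i‖ ≤ 1 / 4 := h1.trans (min_le_right _ _)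
      have h4 := norm_nonneg (π i g (ξ i) - ξ i)
      rw [Real.norm_eq_abs, abs_of_nonneg (by positivity)]
      nlinarith
    refine Summable.of_norm_bounded_eventually_nat
      (summable_geometric_of_lt_one (by norm_num) (by norm_num : (1 / 2 : ℝ) < 1)) ?_
    filter_upwards [Filter.eventually_ge_atTop i₀] with i hi
    exact hg i hi

end

end HGP
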