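import Pool.Agent.HGP.Targets

/-!
# HGP, target T_INH: the inheritance theorem
-/

open HNNExtension HNNExtension.NormalWord

namespace HGP

/-- a homomorphism to the integers can be chosen positive on `b` -/
lemma INH_pos {H : Type} [Group H] (b : H) (β : H →* Multiplicative ℤ) (hb : β b ≠ 1) :
    ∃ (β' : H →* Multiplicative ℤ) (r : ℕ), 0 < r ∧ Multiplicative.toAdd (β' b) = (r : ℤ) := by
  have h0 : Multiplicative.toAdd (β b) ≠ 0 := by
    intro h
    exact hb (Multiplicative.toAdd.injective h)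
  rcases lt_or_gt_of_ne h0 with h | h
  · refine ⟨β⁻¹, (-Multiplicative.toAdd (β b)).toNat, by omega, ?_⟩
    rw [MonoidHom.inv_apply, toAdd_inv]
    omega
  · exact ⟨β, (Multiplicative.toAdd (β b)).toNat, by omega, by omega⟩

theorem p_INH (h1 : T_BIG) (h2 : T_ASM) (h3 : T_UNV) : T_INH := by
  intro H _ a b β hb l ha hQ θ hθ
  obtain ⟨β', r, hr, hr2⟩ := INH_pos b β hb
  exact h2 H _ _ θ l fun S ε hε => h1 H a b β' r hr hr2 l ha (h3 H l hQ) θ hθ S ε hε

end HGP
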