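import Pool.Agent.HGP.Targets

/-!
# HGP: the Hilbert space of `W` and the localisation
-/

open scoped InnerProductSpace ENNReal
open HNNExtension

namespace HGP

noncomputable section

theorem p_KGA (h1 : T_SP) : T_KGA := by
  intro H _ A B φ E _ _ _ π V W hW K _ _ _ P ι hP
  obtain ⟨a1, -, a3, -⟩ := h1 H A B φ E π V W hW
  have c1 : ∀ (h : H) (u : E), P (of h) (ι u) = ι (π h u) := by
    intro h u
    have e1 : ‖P (of h) (ι u) - ι (π h u)‖ ^ 2 = 0 := by
      rw [norm_sub_sq_real, hP, a1, LinearIsometryEquiv.norm_map, ι.norm_map, ι.norm_map,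
        LinearIsometryEquiv.norm_map, real_inner_self_eq_norm_sq, LinearIsometryEquiv.norm_map]
      ring
    have e2 : ‖P (of h) (ι u) - ι (π h u)‖ = 0 := by
      simpa using e1
    exact sub_eq_zero.1 (norm_eq_zero.1 e2)
  refine ⟨c1, ?_⟩
  intro a Z μ hB
  refine ⟨?_, ?_⟩
  · intro v s
    set I : E →L[ℝ] K := ι.toContinuousLinearMap with hI
    have e1 : ∀ (m : ℤ) (z : Z), ⟪P ((of a : HNNExtension H A B φ) ^ m) v, ι (μ z)⟫_ℝ =
        ⟪π (a ^ m) (ContinuousLinearMap.adjoint I v), μ z⟫_ℝ := by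
      intro m z
      have e2 : ι (μ z) = P ((of a : HNNExtension H A B φ) ^ m) (ι (π (a ^ (-m)) (μ z))) := by
        rw [← map_zpow (of : H →* HNNExtension H A B φ), c1]
        have : π (a ^ m) (π (a ^ (-m)) (μ z)) = μ z := by
          have h3 : π (a ^ m) (π (a ^ (-m)) (μ z)) = (π (a ^ m) * π (a ^ (-m))) (μ z) := rfl
          rw [h3, ← map_mul, ← zpow_add]
          simp
        rw [this]
      have e3 : μ z = π (a ^ m) (π (a ^ (-m)) (μ z)) := by
        have h3 : π (a ^ m) (π (a ^ (-m)) (μ z)) = (π (a ^ m) * π (a ^ (-m))) (μ z) := rfl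
        rw [h3, ← map_mul, ← zpow_add]
        simp
      rw [e2, LinearIsometryEquiv.inner_map_map]
      conv_rhs => rw [e3]
      rw [LinearIsometryEquiv.inner_map_map, ContinuousLinearMap.adjoint_inner_left]
      rfl
    have e4 : ‖ContinuousLinearMap.adjoint I v‖ ≤ ‖v‖ := by
      have h5 := (ContinuousLinearMap.adjoint I).le_opNorm v
      have h6 : ‖ContinuousLinearMap.adjoint I‖ ≤ 1 := by
        rw [LinearIsometryEquiv.norm_map]
        exact ι.norm_toContinuousLinearMap_le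
      nlinarith [norm_nonneg v]
    calc ∑ i ∈ s, ⟪P ((of a : HNNExtension H A B φ) ^ i.1) v, ι (μ i.2)⟫_ℝ ^ 2
        = ∑ i ∈ s, ⟪π (a ^ i.1) (ContinuousLinearMap.adjoint I v), μ i.2⟫_ℝ ^ 2 :=
          Finset.sum_congr rfl fun i _ => by rw [e1]
      _ ≤ ‖ContinuousLinearMap.adjoint I v‖ ^ 2 := hB _ s
      _ ≤ ‖v‖ ^ 2 := pow_le_pow_left₀ (norm_nonneg _) e4 2
  · intro g u
    unfold pq
    refine tsum_congr fun i => ?_
    have e1 : P ((of a : HNNExtension H A B φ) ^ i.1) (P g (ι u)) =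
        P (of (a ^ i.1) * g) (ι u) := by
      rw [map_mul, map_zpow (of : H →* HNNExtension H A B φ)]
      rfl
    rw [e1, hP, a3]

end

end HGP
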