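import Pool.Agent.HGP.Targets

/-!
# HGP, item KGB: decay on the big Hilbert space follows from decay on a total set
-/

open scoped InnerProductSpace ENNReal

namespace HGP

noncomputable section

section KGB_aux

variable {G : Type} [Group G] {K : Type} [NormedAddCommGroup K] [InnerProductSpace ℝ K]

lemma KGB_mul (P : G →* (K ≃ₗᵢ[ℝ] K)) (g h : G) (x : K) : P (g * h) x = P g (P h x) := by
  rw [map_mul]
  rfl

lemma KGB_inv (P : G →* (K ≃ₗᵢ[ℝ] K)) (g : G) (x : K) : P g⁻¹ (P g x) = x := by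
  rw [← KGB_mul, inv_mul_cancel, map_one]
  rfl

lemma KGB_inner (P : G →* (K ≃ₗᵢ[ℝ] K)) (g h k : G) (x y : K) :
    ⟪P h (P g x), P k y⟫_ℝ = ⟪P (k⁻¹ * h * g) x, y⟫_ℝ := by
  rw [← (P k⁻¹).inner_map_map (P h (P g x)) (P k y), KGB_inv, KGB_mul, KGB_mul]

/-- the seminorm `u ↦ |⟪T u, v⟫|` -/
def KGB_F (v : K) (T : K →ₗ[ℝ] K) : Seminorm ℝ K :=
  (normSeminorm ℝ ℝ).comp ((innerSL ℝ v : K →ₗ[ℝ] ℝ).comp T)

lemma KGB_F_apply (v : K) (T : K →ₗ[ℝ] K) (u : K) : KGB_F v T u = |⟪T u, v⟫_ℝ| := by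
  have h : KGB_F v T u = ‖⟪v, T u⟫_ℝ‖ := rfl
  rw [h, Real.norm_eq_abs, real_inner_comm]

end KGB_aux

theorem p_KGB (hDEN : T_DEN) (hPQ : T_PQ) : T_KGB := by
  intro G _ E _ _ _ W K _ _ _ P ι hW hD
  refine ⟨fun hfin => ?_, fun a Z μ hB hdec => ?_⟩
  · -- vectors of the total set on the right
    have hA : ∀ (g₂ : G) (v : E) (u : K) (δ : ℝ), 0 < δ →
        {h : G | δ ≤ |⟪P h u, P g₂ (ι v)⟫_ℝ|}.Finite := by
      intro g₂ v
      have key := hDEN G K {x : K | ∃ (g : G) (u : E), x = P g (ι u)} hD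
        (fun h => KGB_F (P g₂ (ι v)) ((P h).toLinearEquiv : K →ₗ[ℝ] K)) ‖P g₂ (ι v)‖
        (fun h u => by
          rw [KGB_F_apply]
          calc |⟪(((P h).toLinearEquiv : K →ₗ[ℝ] K)) u, P g₂ (ι v)⟫_ℝ|
              ≤ ‖P h u‖ * ‖P g₂ (ι v)‖ := abs_real_inner_le_norm _ _
            _ = ‖P g₂ (ι v)‖ * ‖u‖ := by rw [LinearIsometryEquiv.norm_map, mul_comm])
        Set.Finite Set.finite_empty (fun s t hst ht => ht.subset hst)
        (fun s t hs ht => hs.union ht)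
        (fun u hu δ hδ => by
          obtain ⟨g₁, u₁, rfl⟩ := hu
          have hf := hfin u₁ v δ hδ
          have hinj : Set.InjOn (fun h : G => g₂⁻¹ * h * g₁)
              ((fun h : G => g₂⁻¹ * h * g₁) ⁻¹' {g : G | δ ≤ |⟪W g u₁, v⟫_ℝ|}) := by
            intro x _ y _ hxy
            simpa using hxy
          refine (hf.preimage hinj).subset ?_
          intro h hh
          simp only [Set.mem_ofPred_eq, KGB_F_apply] at hh
          have e : ⟪(((P h).toLinearEquiv : K →ₗ[ℝ] K)) (P g₁ (ι u₁)), P g₂ (ι v)⟫_ℝ =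
              ⟪W (g₂⁻¹ * h * g₁) u₁, v⟫_ℝ := by
            rw [← hW]
            exact KGB_inner P g₁ h g₂ (ι u₁) (ι v)
          rw [e] at hh
          exact hh)
      intro u δ hδ
      have h1 := key u δ hδ
      refine h1.subset ?_
      intro h hh
      simp only [Set.mem_ofPred_eq, KGB_F_apply]
      exact hh
    intro u v δ hδ
    have key := hDEN G K {x : K | ∃ (g : G) (u : E), x = P g (ι u)} hD
      (fun h => (normSeminorm ℝ ℝ).comp (innerSL ℝ (P h u) : K →ₗ[ℝ] ℝ)) ‖u‖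
      (fun h w => by
        have e : ((normSeminorm ℝ ℝ).comp (innerSL ℝ (P h u) : K →ₗ[ℝ] ℝ)) w =
          ‖⟪P h u, w⟫_ℝ‖ := rfl
        rw [e, Real.norm_eq_abs]
        calc |⟪P h u, w⟫_ℝ| ≤ ‖P h u‖ * ‖w‖ := abs_real_inner_le_norm _ _
          _ = ‖u‖ * ‖w‖ := by rw [LinearIsometryEquiv.norm_map])
      Set.Finite Set.finite_empty (fun s t hst ht => ht.subset hst)
      (fun s t hs ht => hs.union ht)
      (fun w hw δ' hδ' => by
        obtain ⟨g₂, v₂, rfl⟩ := hw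
        refine (hA g₂ v₂ u δ' hδ').subset ?_
        intro h hh
        exact hh)
    refine (key v δ hδ).subset ?_
    intro h hh
    exact hh
  · obtain ⟨p, hp2, hp1, -, -, -⟩ := hPQ G K P a Z μ hB
    have key := hDEN G K {x : K | ∃ (g : G) (u : E), x = P g (ι u)} hD
      (fun h => p.comp ((P h).toLinearEquiv : K →ₗ[ℝ] K)) 1
      (fun h u => by
        have e : (p.comp ((P h).toLinearEquiv : K →ₗ[ℝ] K)) u = p (P h u) := rfl
        rw [e, one_mul]
        exact (hp1 _).trans (LinearIsometryEquiv.norm_map _ _).le)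
      (fun s => ∃ T : Finset G, ∀ h ∈ s, ∃ m : ℤ, ∃ x ∈ T, h = a ^ m * x)
      ⟨∅, fun h hh => absurd hh (Set.notMem_empty h)⟩
      (fun s t hst ht => by
        obtain ⟨T, hT⟩ := ht
        exact ⟨T, fun h hh => hT h (hst hh)⟩)
      (fun s t hs ht => by
        classical
        obtain ⟨T, hT⟩ := hs
        obtain ⟨T', hT'⟩ := ht
        refine ⟨T ∪ T', fun h hh => ?_⟩
        rcases hh with hh | hh
        · obtain ⟨m, x, hx, e⟩ := hT h hh
          exact ⟨m, x, Finset.mem_union_left _ hx, e⟩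
        · obtain ⟨m, x, hx, e⟩ := hT' h hh
          exact ⟨m, x, Finset.mem_union_right _ hx, e⟩)
      (fun u hu δ hδ => by
        classical
        obtain ⟨g₁, u₁, rfl⟩ := hu
        obtain ⟨T, hT⟩ := hdec u₁ (δ ^ 2) (by positivity)
        refine ⟨T.image (fun x => x * g₁⁻¹), fun h hh => ?_⟩
        have hh' : δ ≤ p (P h (P g₁ (ι u₁))) := hh
        rw [← KGB_mul] at hh'
        have h2 : δ ^ 2 ≤ pq P a μ (P (h * g₁) (ι u₁)) := by
          rw [← hp2]
          exact pow_le_pow_left₀ hδ.le hh' 2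
        obtain ⟨m, x, hx, e⟩ := hT (h * g₁) h2
        refine ⟨m, x * g₁⁻¹, Finset.mem_image_of_mem _ hx, ?_⟩
        rw [← mul_assoc, ← e, mul_inv_cancel_right])
    intro u δ hδ
    obtain ⟨T, hT⟩ := key u (Real.sqrt δ) (Real.sqrt_pos.2 hδ)
    refine ⟨T, fun h hh => hT h ?_⟩
    change Real.sqrt δ ≤ p (P h u)
    rw [← hp2] at hh
    calc Real.sqrt δ ≤ Real.sqrt (p (P h u) ^ 2) := Real.sqrt_le_sqrt hh
      _ = p (P h u) := Real.sqrt_sq (apply_nonneg p _)

end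

end HGP
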