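import Pool.Agent.HGP.Targets

/-!
# HGP: decay on the HNN extension (target LC)
-/

open scoped InnerProductSpace ENNReal
open HNNExtension HNNExtension.NormalWord

namespace HGP

noncomputable section

/-- the claim for the elements of length `n` -/
lemma LC_level (hSP : T_SP) (hDECR : T_DECR) (hLN : T_LN) (H : Type) [Group H]
    (A B : Subgroup H) (φ : A ≃* B) (E : Type)
    [NormedAddCommGroup E] [InnerProductSpace ℝ E] [CompleteSpace E] (π : H →* (E ≃ₗᵢ[ℝ] E))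
    (V : E →L[ℝ] E) (W : HNNExtension H A B φ → (E →L[ℝ] E)) (hS : Sys φ π V W)
    (hV1 : ‖V‖ < 1)
    (hA : ∀ (u : E) (δ : ℝ), 0 < δ → ∃ T : Finset H, ∀ h : H, δ ≤ ‖V (π h u)‖ →
      ∃ a ∈ A, ∃ x ∈ T, h = a * x)
    (hB : ∀ (u : E) (δ : ℝ), 0 < δ → ∃ T : Finset H, ∀ h : H,
      δ ≤ ‖ContinuousLinearMap.adjoint V (π h u)‖ → ∃ b ∈ B, ∃ x ∈ T, h = b * x)
    (p : Seminorm ℝ E) (C : Subgroup H) (hp : ∀ u, p u ≤ ‖u‖)
    (hC : ∀ (u : E) (δ : ℝ), 0 < δ → ∃ T : Finset H, ∀ h : H, δ ≤ p (π h u) →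
      ∃ c ∈ C, ∃ x ∈ T, h = c * x) (n : ℕ) :
    ∀ (u : E) (δ : ℝ), 0 < δ → ∃ T : Finset (HNNExtension H A B φ),
      ∀ g : HNNExtension H A B φ, len φ g = n → δ ≤ p (W g u) →
        ∃ c ∈ C, ∃ x ∈ T, g = of c * x := by
  classical
  obtain ⟨hof, -, -, hright, -, hcat, -, hnorm, hadj⟩ := hSP H A B φ E π V W hS
  obtain ⟨-, hlr, -, hl0, -, -⟩ := hLN H A B φ
  induction n with
  | zero =>
    intro u δ hδ
    obtain ⟨T, hT⟩ := hC u δ hδ
    refine ⟨T.image of, fun g hg hle => ?_⟩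
    obtain ⟨h, rfl⟩ := hl0 g hg
    rw [hof] at hle
    obtain ⟨c, hc, x, hx, rfl⟩ := hT h hle
    exact ⟨c, hc, of x, Finset.mem_image_of_mem _ hx, map_mul _ _ _⟩
  | succ n ih =>
    intro u δ hδ
    obtain ⟨T₁, hT₁⟩ := hA u δ hδ
    obtain ⟨T₂, hT₂⟩ := hB u δ hδ
    choose F₁ hF₁ using fun x : H => ih (V (π x u)) δ hδ
    choose F₂ hF₂ using fun x : H => ih (ContinuousLinearMap.adjoint V (π x u)) δ hδ
    refine ⟨(T₁.biUnion fun x => (F₁ x).image fun y => y * t * of x) ∪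
      (T₂.biUnion fun x => (F₂ x).image fun y => y * t⁻¹ * of x), fun g hg hle => ?_⟩
    obtain ⟨x, v, h, hgx, hlen, hlen'⟩ := hDECR H A B φ g (by omega)
    have hWg : W g u = W x (vu V (ContinuousLinearMap.adjoint V) v (π h u)) := by
      rw [hgx, hright, hcat v x hlen']
      rfl
    have hWx : ‖W x‖ ≤ 1 := (hnorm x).trans (pow_le_one₀ (norm_nonneg _) hV1.le)
    have hlenx : len φ x = n := by omega
    have hle2 : δ ≤ ‖vu V (ContinuousLinearMap.adjoint V) v (π h u)‖ := by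
      refine hle.trans ((hp _).trans ?_)
      rw [hWg]
      refine ((W x).le_opNorm _).trans ?_
      exact mul_le_of_le_one_left (norm_nonneg _) hWx
    rcases Int.units_eq_one_or v with rfl | rfl
    · have hvu : vu V (ContinuousLinearMap.adjoint V) 1 = V := by simp [vu]
      rw [hvu] at hle2 hWg
      obtain ⟨a, ha, y, hy, rfl⟩ := hT₁ h hle2
      have h1 : V (π (a * y) u) = π (φ ⟨a, ha⟩ : H) (V (π y u)) := by
        rw [map_mul]
        exact hS.tw ⟨a, ha⟩ (π y u)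
      rw [h1, ← hright] at hWg
      rw [hWg] at hle
      obtain ⟨c, hc, z, hz, hcz⟩ := hF₁ y (x * of (φ ⟨a, ha⟩ : H)) (by rw [hlr, hlenx]) hle
      refine ⟨c, hc, z * t * of y, ?_, ?_⟩
      · exact Finset.mem_union_left _ (Finset.mem_biUnion.2 ⟨y, hy, Finset.mem_image_of_mem _ hz⟩)
      · have h2 : (t : HNNExtension H A B φ) * of a = of (φ ⟨a, ha⟩ : H) * t :=
          t_mul_of ⟨a, ha⟩
        rw [hgx, map_mul, Units.val_one, zpow_one]
        calc x * t * (of a * of y) = x * (t * of a) * of y := by group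
          _ = (x * of (φ ⟨a, ha⟩ : H)) * t * of y := by rw [h2]; group
          _ = of c * (z * t * of y) := by rw [hcz]; group
    · have hvu : vu V (ContinuousLinearMap.adjoint V) (-1) = ContinuousLinearMap.adjoint V := by
        simp [vu]
      rw [hvu] at hle2 hWg
      obtain ⟨b, hb, y, hy, rfl⟩ := hT₂ h hle2
      have h1 : ContinuousLinearMap.adjoint V (π (b * y) u) =
          π (φ.symm ⟨b, hb⟩ : H) (ContinuousLinearMap.adjoint V (π y u)) := by
        rw [map_mul]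
        exact hadj ⟨b, hb⟩ (π y u)
      rw [h1, ← hright] at hWg
      rw [hWg] at hle
      obtain ⟨c, hc, z, hz, hcz⟩ := hF₂ y (x * of (φ.symm ⟨b, hb⟩ : H))
        (by rw [hlr, hlenx]) hle
      refine ⟨c, hc, z * t⁻¹ * of y, ?_, ?_⟩
      · exact Finset.mem_union_right _ (Finset.mem_biUnion.2 ⟨y, hy, Finset.mem_image_of_mem _ hz⟩)
      · have h2 : (t⁻¹ : HNNExtension H A B φ) * of b = of (φ.symm ⟨b, hb⟩ : H) * t⁻¹ :=
          inv_t_mul_of ⟨b, hb⟩
        rw [hgx, map_mul, Units.val_neg, Units.val_one, zpow_neg, zpow_one]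
        calc x * t⁻¹ * (of b * of y) = x * (t⁻¹ * of b) * of y := by group
          _ = (x * of (φ.symm ⟨b, hb⟩ : H)) * t⁻¹ * of y := by rw [h2]; group
          _ = of c * (z * t⁻¹ * of y) := by rw [hcz]; group

theorem p_LC (hSP : T_SP) (hDECR : T_DECR) (hLN : T_LN) : T_LC := by
  classical
  intro H _ A B φ E _ _ _ π V W hS hV1 hA hB p C hp _ hC u δ hδ
  have hnorm := (hSP H A B φ E π V W hS).2.2.2.2.2.2.2.1
  choose F hF using fun n : ℕ =>
    LC_level hSP hDECR hLN H A B φ E π V W hS hV1 hA hB p C hp hC n u δ hδ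
  obtain ⟨N, hN⟩ : ∃ N : ℕ, ‖V‖ ^ N * ‖u‖ < δ := by
    rcases eq_or_lt_of_le (norm_nonneg u) with h0 | h0
    · exact ⟨0, by rw [← h0, mul_zero]; exact hδ⟩
    · obtain ⟨N, hN⟩ := exists_pow_lt_of_lt_one (div_pos hδ h0) hV1
      exact ⟨N, (lt_div_iff₀ h0).1 hN⟩
  refine ⟨(Finset.range N).biUnion F, fun g hg => ?_⟩
  have hlt : len φ g < N := by
    by_contra hcon
    have h1 : ‖V‖ ^ (len φ g) ≤ ‖V‖ ^ N :=
      pow_le_pow_of_le_one (norm_nonneg _) hV1.le (not_lt.1 hcon)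
    have h2 : p (W g u) ≤ ‖V‖ ^ N * ‖u‖ :=
      (hp _).trans (((W g).le_opNorm u).trans
        (mul_le_mul_of_nonneg_right ((hnorm g).trans h1) (norm_nonneg _)))
    linarith
  obtain ⟨c, hc, x, hx, hgx⟩ := hF (len φ g) g rfl hg
  exact ⟨c, hc, x, Finset.mem_biUnion.2 ⟨_, Finset.mem_range.2 hlt, hx⟩, hgx⟩

end

end HGP
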