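import Pool.Agent.HGP.Targets

/-!
# HGP, target T_LEN: the length of a reduced word
-/

open HNNExtension HNNExtension.NormalWord

namespace HGP

theorem p_LEN : T_LEN := by
  intro H _ A B φ w
  obtain ⟨w', h1, h2, -⟩ := ReducedWord.exists_normalWord_prod_eq φ
    (Classical.choice (TransversalPair.nonempty H A B)) w
  have h3 : (NormalWord.equiv φ (Classical.choice (TransversalPair.nonempty H A B)))
      (w.prod φ) = w' := by
    rw [← h1]
    exact (NormalWord.equiv φ _).right_inv w'
  unfold len
  rw [h3]
  have h4 := congrArg List.length h2
  rwa [List.length_map, List.length_map] at h4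

end HGP
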