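import Pool.Agent.HGP.Targets

/-!
# HGP: orthogonality of levels
-/

open scoped InnerProductSpace ENNReal

namespace HGP

noncomputable section

lemma LEV_zero {Y E : Type} [NormedAddCommGroup E] [InnerProductSpace ℝ E] {i j : ℕ} (hij : i ≠ j)
    (f g : L2 (Ix Y) E) (hf : ∀ n l, l.length ≠ i → f (n, l) = 0)
    (hg : ∀ n l, l.length ≠ j → g (n, l) = 0) : ⟪f, g⟫_ℝ = 0 := by
  rw [lp.inner_eq_tsum]
  have h : ∀ x : Ix Y, ⟪f x, g x⟫_ℝ = 0 := by
    intro x
    obtain ⟨n, l⟩ := x
    by_cases h : l.length = i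
    · have h' : l.length ≠ j := fun hh => hij (h.symm.trans hh)
      rw [hg n l h', inner_zero_right]
    · rw [hf n l h, inner_zero_left]
  rw [tsum_congr h, tsum_zero]

/-- orthogonality of levels -/
theorem p_LEV : T_LEV := by
  intro Y E _ _ J f g hf hg
  rw [sum_inner]
  refine Finset.sum_congr rfl fun i hi => ?_
  rw [inner_sum]
  rw [Finset.sum_eq_single i]
  · intro j _ hj
    exact LEV_zero (Ne.symm hj) (f i) (g j) (hf i) (hg j)
  · intro h
    exact absurd hi h

end

end HGP
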