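import Pool.Agent.HGP.Targets

/-!
# HGP: elementary properties of the length (target T_LN)
-/

open HNNExtension HNNExtension.NormalWord

namespace HGP

noncomputable section

section ln

variable {H : Type} [Group H] {A B : Subgroup H} (φ : A ≃* B)

lemma LN_ex (g : HNNExtension H A B φ) : ∃ w : ReducedWord H A B, w.prod φ = g :=
  ⟨((NormalWord.equiv φ (Classical.choice (TransversalPair.nonempty H A B))) g).toReducedWord,
    (NormalWord.equiv φ (Classical.choice (TransversalPair.nonempty H A B))).symm_apply_apply g⟩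

/-- conjugation by a power of the stable letter -/
lemma LN_conj (u : ℤˣ) (a : H) (ha : a ∈ toSubgroup A B u) :
    ∃ b : H, (t ^ (u : ℤ) * of a * t ^ ((-u : ℤˣ) : ℤ) : HNNExtension H A B φ) = of b := by
  rcases Int.units_eq_one_or u with rfl | rfl
  · refine ⟨φ ⟨a, ha⟩, ?_⟩
    rw [equiv_eq_conj]
    simp
  · refine ⟨φ.symm ⟨a, ha⟩, ?_⟩
    rw [equiv_symm_eq_conj]
    simp

lemma LN_ne (u v : ℤˣ) (h : u ≠ v) : v = -u := by
  rcases Int.units_eq_one_or u with rfl | rfl <;> rcases Int.units_eq_one_or v with rfl | rfl <;>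
    simp_all

/-- the product of the letters of a list -/
def LN_pr (l : List (ℤˣ × H)) : HNNExtension H A B φ :=
  (l.map (fun x => t ^ (x.1 : ℤ) * of x.2)).prod

lemma LN_prod (w : ReducedWord H A B) : w.prod φ = of w.head * LN_pr φ w.toList := rfl

lemma LN_pr_nil : LN_pr φ ([] : List (ℤˣ × H)) = 1 := by simp [LN_pr]

lemma LN_pr_cons (x : ℤˣ × H) (l : List (ℤˣ × H)) :
    LN_pr φ (x :: l) = t ^ (x.1 : ℤ) * of x.2 * LN_pr φ l := by simp [LN_pr]

lemma LN_pr_append (l l' : List (ℤˣ × H)) :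
    LN_pr φ (l ++ l') = LN_pr φ l * LN_pr φ l' := by simp [LN_pr]

lemma LN_left (h1 : T_LEN) (h : H) (g : HNNExtension H A B φ) :
    len φ (of h * g) = len φ g := by
  obtain ⟨w, rfl⟩ := LN_ex φ g
  have e : of h * w.prod φ = ReducedWord.prod φ ⟨h * w.head, w.toList, w.chain⟩ := by
    rw [LN_prod, LN_prod, map_mul, mul_assoc]
  rw [e, h1, h1]

lemma LN_t (h1 : T_LEN) (u : ℤˣ) (g : HNNExtension H A B φ) :
    len φ (t ^ (u : ℤ) * g) = len φ g + 1 ∨ len φ g = len φ (t ^ (u : ℤ) * g) + 1 := by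
  obtain ⟨w, rfl⟩ := LN_ex φ g
  rcases w with ⟨x, l, c⟩
  by_cases hc : ((u, x) :: l).IsChain (fun a b => a.2 ∈ toSubgroup A B a.1 → a.1 = b.1)
  · left
    have e : t ^ (u : ℤ) * ReducedWord.prod φ ⟨x, l, c⟩ =
        ReducedWord.prod φ ⟨1, (u, x) :: l, hc⟩ := by
      rw [LN_prod, LN_prod]
      simp only
      rw [LN_pr_cons, map_one, one_mul, mul_assoc]
    rw [e, h1, h1]
    rfl
  · right
    cases l with
    | nil => exact absurd (List.isChain_singleton _) hc
    | cons y l =>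
      have hx : ¬ (x ∈ toSubgroup A B u → u = y.1) := by
        intro h
        exact hc (List.isChain_cons_cons.2 ⟨h, c⟩)
      obtain ⟨hx1, hx2⟩ := Classical.not_imp.1 hx
      have hy := LN_ne _ _ hx2
      obtain ⟨b, hb⟩ := LN_conj φ u x hx1
      have e : t ^ (u : ℤ) * ReducedWord.prod φ ⟨x, y :: l, c⟩ =
          ReducedWord.prod φ ⟨b * y.2, l, (List.isChain_cons.1 c).2⟩ := by
        rw [LN_prod, LN_prod]
        simp only
        rw [LN_pr_cons, map_mul, ← hb, hy]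
        simp only [mul_assoc]
      rw [e, h1, h1]
      rfl

lemma LN_of (h1 : T_LEN) (h : H) : len φ (of h : HNNExtension H A B φ) = 0 := by
  have e : (of h : HNNExtension H A B φ) = ReducedWord.prod φ ⟨h, [], List.isChain_nil⟩ := by
    rw [LN_prod]
    simp only
    rw [LN_pr_nil, mul_one]
  rw [e, h1]
  rfl

lemma LN_pri (h1 : T_LEN) (l : List (ℤˣ × H)) (k : H) :
    len φ ((LN_pr φ l)⁻¹ * of k) ≤ l.length := by
  induction l using List.reverseRecOn with
  | nil => rw [LN_pr_nil, inv_one, one_mul, LN_of φ h1]; exact Nat.zero_le _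
  | append_singleton l y ih =>
    have e : (LN_pr φ (l ++ [y]))⁻¹ * of k =
        of (y.2)⁻¹ * (t ^ ((-y.1 : ℤˣ) : ℤ) * ((LN_pr φ l)⁻¹ * of k)) := by
      rw [LN_pr_append, LN_pr_cons, LN_pr_nil, Units.val_neg, zpow_neg, map_inv]
      simp only [mul_inv_rev, mul_assoc, mul_one]
    rw [e, LN_left φ h1, List.length_append, List.length_singleton]
    rcases LN_t φ h1 (-y.1) ((LN_pr φ l)⁻¹ * of k) with h | h
    · omega
    · omega

lemma LN_inv_le (h1 : T_LEN) (g : HNNExtension H A B φ) : len φ g⁻¹ ≤ len φ g := by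
  obtain ⟨w, rfl⟩ := LN_ex φ g
  have e : (w.prod φ)⁻¹ = (LN_pr φ w.toList)⁻¹ * of (w.head)⁻¹ := by
    rw [LN_prod, mul_inv_rev, map_inv]
  rw [e, h1]
  exact LN_pri φ h1 _ _

lemma LN_inv (h1 : T_LEN) (g : HNNExtension H A B φ) : len φ g⁻¹ = len φ g := by
  refine le_antisymm (LN_inv_le φ h1 g) ?_
  have h := LN_inv_le φ h1 g⁻¹
  rwa [inv_inv] at h

end ln

theorem p_LN (h1 : T_LEN) : T_LN := by
  intro H _ A B φ
  refine ⟨LN_left φ h1, ?_, LN_inv φ h1, ?_, LN_of φ h1, LN_t φ h1⟩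
  · intro h g
    have e : g * of h = (of h⁻¹ * g⁻¹)⁻¹ := by
      rw [mul_inv_rev, inv_inv, map_inv, inv_inv]
    rw [e, LN_inv φ h1, LN_left φ h1, LN_inv φ h1]
  · intro g hg
    obtain ⟨w, rfl⟩ := LN_ex φ g
    rcases w with ⟨x, l, c⟩
    rw [h1] at hg
    have hl : l = [] := List.eq_nil_of_length_eq_zero hg
    subst hl
    refine ⟨x, ?_⟩
    rw [LN_prod]
    simp only
    rw [LN_pr_nil, mul_one]

end

end HGP
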