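import Pool.Agent.HGP.Targets

/-!
# HGP: the evaluation of the inverse
-/

open HNNExtension HNNExtension.NormalWord

namespace HGP

noncomputable section

variable {H : Type} [Group H]

/-- the reversed word: head -/
def WI_h : H → List (ℤˣ × H) → H
  | h, [] => h⁻¹
  | _, (x :: l) => WI_h x.2 l

/-- the reversed word: list -/
def WI_l : H → List (ℤˣ × H) → List (ℤˣ × H)
  | _, [] => []
  | h, (x :: l) => WI_l x.2 l ++ [(-x.1, h⁻¹)]

lemma WI_eval {M : Type} [Monoid M] [StarMul M] (p : H → M) (v : ℤˣ → M)
    (hp : ∀ h, star (p h) = p h⁻¹) (hv : ∀ u, star (v u) = v (-u)) (l : List (ℤˣ × H)) :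
    ∀ h : H, p (WI_h h l) * ((WI_l h l).map (fun x => v x.1 * p x.2)).prod =
      star (p h * (l.map (fun x => v x.1 * p x.2)).prod) := by
  induction l with
  | nil => intro h; simp [WI_h, WI_l, hp]
  | cons x l ih =>
    intro h
    have h1 := ih x.2
    simp only [WI_h, WI_l, List.map_append, List.prod_append, List.map_cons, List.map_nil,
      List.prod_cons, List.prod_nil, mul_one, star_mul, hp, hv] at h1 ⊢
    rw [← mul_assoc, h1]
    simp only [mul_assoc]

lemma WI_inv {A B : Subgroup H} (φ : A ≃* B) (l : List (ℤˣ × H)) :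
    ∀ h : H, (of (WI_h h l) : HNNExtension H A B φ) *
      ((WI_l h l).map (fun x => t ^ (x.1 : ℤ) * of x.2)).prod =
      (of h * (l.map (fun x => t ^ (x.1 : ℤ) * of x.2)).prod)⁻¹ := by
  induction l with
  | nil => intro h; simp [WI_h, WI_l]
  | cons x l ih =>
    intro h
    have h1 := ih x.2
    simp only [WI_h, WI_l, List.map_append, List.prod_append, List.map_cons, List.map_nil,
      List.prod_cons, List.prod_nil, mul_one, mul_inv_rev, Units.val_neg, zpow_neg,
      map_inv] at h1 ⊢
    rw [← mul_assoc, h1]
    simp only [mul_assoc]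

lemma WI_chain (A B : Subgroup H) (l : List (ℤˣ × H)) : ∀ h : H,
    l.IsChain (fun a b => a.2 ∈ toSubgroup A B a.1 → a.1 = b.1) →
    (WI_l h l).IsChain (fun a b => a.2 ∈ toSubgroup A B a.1 → a.1 = b.1) := by
  induction l with
  | nil => intro h _; simp [WI_l]
  | cons x l ih =>
    intro h hc
    have hc' : l.IsChain (fun a b => a.2 ∈ toSubgroup A B a.1 → a.1 = b.1) :=
      (List.isChain_cons.1 hc).2
    have h1 := ih x.2 hc'
    simp only [WI_l]
    rw [List.isChain_append]
    refine ⟨h1, by simp, ?_⟩
    intro y hy z hz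
    cases l with
    | nil => simp [WI_l] at hy
    | cons x' l' =>
      simp only [WI_l, List.getLast?_append, List.getLast?_singleton] at hy
      simp only [List.head?_cons, Option.mem_def, Option.some.injEq] at hz
      simp only [Option.some_or, Option.mem_def, Option.some.injEq] at hy
      subst hy
      subst hz
      intro hmem
      have h2 := (List.isChain_cons_cons.1 hc).1
      simp only at hmem ⊢
      rw [neg_inj]
      by_contra hne
      have h3 : -x'.1 = x.1 := by
        rcases Int.units_eq_one_or x'.1 with h | h <;>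
        rcases Int.units_eq_one_or x.1 with h' | h'
        · exact absurd (h.trans h'.symm) hne
        · rw [h, h']
        · rw [h, h', neg_neg]
        · exact absurd (h.trans h'.symm) hne
      rw [h3, inv_mem_iff] at hmem
      exact hne (h2 hmem).symm

/-- the evaluation of the inverse -/
theorem p_WI : T_WI := by
  intro H _ A B φ M _ _ π V hπ W hW g
  let d : TransversalPair H A B := Classical.choice (TransversalPair.nonempty H A B)
  obtain ⟨w, hw⟩ : ∃ w : ReducedWord H A B, w.prod φ = g := by
    refine ⟨(g • (empty : NormalWord d)).toReducedWord, ?_⟩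
    rw [prod_smul, prod_empty, mul_one]
  let w' : ReducedWord H A B := ⟨WI_h w.head w.toList, WI_l w.head w.toList,
    WI_chain A B w.toList w.head w.chain⟩
  have h1 : w'.prod φ = g⁻¹ := by
    rw [← hw]
    exact WI_inv φ w.toList w.head
  rw [← h1, hW w', ← hw, hW w]
  unfold ev
  apply WI_eval (fun h => π h) (fun u => vu V (star V) u) hπ
  intro u
  rcases Int.units_eq_one_or u with rfl | rfl
  · simp [vu]
  · simp [vu]

end

end HGP
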