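import Pool.Agent.HGP.P_CAT
import Pool.Agent.HGP.P_WI

/-!
# HGP: elementary properties of the length
-/

open HNNExtension HNNExtension.NormalWord

namespace HGP

noncomputable section

lemma LNX_len {H : Type} [Group H] (l : List (ℤˣ × H)) :
    ∀ h : H, (WI_l h l).length = l.length := by
  induction l with
  | nil => intro h; rfl
  | cons x l ih => intro h; simp [WI_l, ih x.2]

theorem LNX (hLEN : T_LEN) : T_LN := by
  intro H _ A B φ
  have hl := hLEN H A B φ
  have c1 : ∀ (h : H) (g : HNNExtension H A B φ), len φ (of h * g) = len φ g := by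
    intro h g
    obtain ⟨w, rfl⟩ := CAT_exists φ g
    have e : of h * w.prod φ =
        (⟨h * w.head, w.toList, w.chain⟩ : ReducedWord H A B).prod φ := by
      rw [CAT_prod, CAT_prod]
      simp [mul_assoc]
    rw [e, hl, hl]
  have c3 : ∀ g : HNNExtension H A B φ, len φ g⁻¹ = len φ g := by
    intro g
    obtain ⟨w, rfl⟩ := CAT_exists φ g
    have e : (w.prod φ)⁻¹ = (⟨WI_h w.head w.toList, WI_l w.head w.toList,
        WI_chain A B w.toList w.head w.chain⟩ : ReducedWord H A B).prod φ := by
      have := WI_inv φ w.toList w.head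
      exact this.symm
    rw [e, hl, hl]
    exact LNX_len _ _
  have c2 : ∀ (h : H) (g : HNNExtension H A B φ), len φ (g * of h) = len φ g := by
    intro h g
    rw [← c3, mul_inv_rev, ← map_inv, c1, c3]
  refine ⟨c1, c2, c3, ?_, ?_, ?_⟩
  · intro g hg
    obtain ⟨w, rfl⟩ := CAT_exists φ g
    rw [hl, List.length_eq_zero_iff] at hg
    refine ⟨w.head, ?_⟩
    rw [CAT_prod, hg, CAT_pr_nil, mul_one]
  · intro h
    have e : (of h : HNNExtension H A B φ) =
        (⟨h, [], List.isChain_nil⟩ : ReducedWord H A B).prod φ := by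
      rw [CAT_prod, CAT_pr_nil, mul_one]
    rw [e, hl]; rfl
  · intro u g
    obtain ⟨w, rfl⟩ := CAT_exists φ g
    by_cases hc : ((u, w.head) :: w.toList).IsChain
        (fun a b => a.2 ∈ toSubgroup A B a.1 → a.1 = b.1)
    · left
      have e : t ^ (u : ℤ) * w.prod φ =
          (⟨1, (u, w.head) :: w.toList, hc⟩ : ReducedWord H A B).prod φ := by
        rw [CAT_prod, CAT_prod, CAT_pr_cons, map_one, one_mul, mul_assoc]
      rw [e, hl, hl]; rfl
    · right
      rcases w with ⟨h0, l, hch⟩
      cases l with
      | nil => exact absurd (by simp) hc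
      | cons x l =>
        have h1 : ¬ (h0 ∈ toSubgroup A B u → u = x.1) := by
          intro h2
          exact hc (List.isChain_cons_cons.2 ⟨h2, hch⟩)
        push_neg at h1
        obtain ⟨hmem, hne⟩ := h1
        have hx : x.1 = -u := by
          rcases Int.units_eq_one_or x.1 with h | h <;>
          rcases Int.units_eq_one_or u with h' | h'
          · exact absurd (h'.trans h.symm) hne
          · rw [h, h', neg_neg]
          · rw [h, h']
          · exact absurd (h'.trans h.symm) hne
        have hch' : l.IsChain (fun a b => a.2 ∈ toSubgroup A B a.1 → a.1 = b.1) :=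
          (List.isChain_cons.1 hch).2
        have e : t ^ (u : ℤ) * (⟨h0, x :: l, hch⟩ : ReducedWord H A B).prod φ =
            (⟨(toSubgroupEquiv φ u ⟨h0, hmem⟩ : H) * x.2, l, hch'⟩ :
              ReducedWord H A B).prod φ := by
          rw [CAT_prod, CAT_prod, CAT_pr_cons, map_mul, ← CAT_conj]
          simp only [hx, mul_assoc]
        rw [e, hl, hl]
        rfl

end

end HGP
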