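import Pool.Agent.HGP.TargetsF

/-!
# HGP: target MOV (isomorphisms of one-relator groups)
-/

namespace HGP

noncomputable section

/-- an automorphism of the free group carrying normal closures into each other -/
lemma MOV_iso {n : ℕ} (r s : FreeGroup (Fin n)) (f : FreeGroup (Fin n) ≃* FreeGroup (Fin n))
    (h1 : f r ∈ Subgroup.normalClosure ({s} : Set (FreeGroup (Fin n))))
    (h2 : f.symm s ∈ Subgroup.normalClosure ({r} : Set (FreeGroup (Fin n)))) :
    ∃ e : OR r ≃* OR s, ∀ w : FreeGroup (Fin n),
      e (PresentedGroup.mk {r} w) = PresentedGroup.mk {s} (f w) := by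
  have key : ∀ (r s : FreeGroup (Fin n)) (f : FreeGroup (Fin n) ≃* FreeGroup (Fin n)),
      f r ∈ Subgroup.normalClosure ({s} : Set (FreeGroup (Fin n))) →
      ∃ e : OR r →* OR s, ∀ w : FreeGroup (Fin n),
        e (PresentedGroup.mk {r} w) = PresentedGroup.mk {s} (f w) := by
    intro r s f h
    have hF : FreeGroup.lift (fun k => PresentedGroup.mk {s} (f (FreeGroup.of k))) =
        (PresentedGroup.mk {s}).comp f.toMonoidHom := by
      refine FreeGroup.ext_hom _ _ fun k => ?_
      simp only [FreeGroup.lift_apply_of, MonoidHom.comp_apply]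
      rfl
    have hr : ∀ x ∈ ({r} : Set (FreeGroup (Fin n))),
        FreeGroup.lift (fun k => PresentedGroup.mk {s} (f (FreeGroup.of k))) x = 1 := by
      intro x hx
      rw [Set.mem_singleton_iff] at hx
      rw [hx, hF]
      exact PresentedGroup.mk_eq_one_iff.2 h
    refine ⟨PresentedGroup.toGroup hr, fun w => ?_⟩
    have : (PresentedGroup.toGroup hr).comp (PresentedGroup.mk {r}) =
        (PresentedGroup.mk {s}).comp f.toMonoidHom := by
      refine FreeGroup.ext_hom _ _ fun k => ?_
      exact PresentedGroup.toGroup.of hr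
    exact DFunLike.congr_fun this w
  obtain ⟨e, he⟩ := key r s f h1
  obtain ⟨e', he'⟩ := key s r f.symm h2
  refine ⟨MulEquiv.mk' ⟨e, e', fun x => ?_, fun x => ?_⟩ (fun a b => map_mul e a b), he⟩
  · obtain ⟨w, rfl⟩ := PresentedGroup.mk_surjective _ x
    rw [he, he', f.symm_apply_apply]
  · obtain ⟨w, rfl⟩ := PresentedGroup.mk_surjective _ x
    rw [he', he, f.apply_symm_apply]

theorem p_MOV : T_MOV := by
  refine ⟨fun n r f => ?_, fun n r g => ?_, fun n r => ?_⟩
  · refine MOV_iso r (f r) f ?_ ?_
    · exact Subgroup.subset_normalClosure (Set.mem_singleton _)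
    · rw [f.symm_apply_apply]
      exact Subgroup.subset_normalClosure (Set.mem_singleton _)
  · have h : (g * r * g⁻¹) ∈ Subgroup.normalClosure ({r} : Set (FreeGroup (Fin n))) :=
      Subgroup.normalClosure_normal.conj_mem _
        (Subgroup.subset_normalClosure (Set.mem_singleton _)) _
    have h' : r ∈ Subgroup.normalClosure ({g * r * g⁻¹} : Set (FreeGroup (Fin n))) := by
      have := Subgroup.normalClosure_normal.conj_mem (g * r * g⁻¹)
        (Subgroup.subset_normalClosure (Set.mem_singleton (g * r * g⁻¹))) g⁻¹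
      have e : g⁻¹ * (g * r * g⁻¹) * g⁻¹⁻¹ = r := by group
      rwa [e] at this
    obtain ⟨e, he⟩ := MOV_iso r (g * r * g⁻¹) (MulEquiv.refl _) h' h
    exact ⟨e, fun i => he _⟩
  · have h : r⁻¹ ∈ Subgroup.normalClosure ({r} : Set (FreeGroup (Fin n))) :=
      inv_mem (Subgroup.subset_normalClosure (Set.mem_singleton _))
    have h' : r ∈ Subgroup.normalClosure ({r⁻¹} : Set (FreeGroup (Fin n))) := by
      have := inv_mem (Subgroup.subset_normalClosure (s := ({r⁻¹} : Set (FreeGroup (Fin n))))
        (Set.mem_singleton r⁻¹))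
      rwa [inv_inv] at this
    obtain ⟨e, he⟩ := MOV_iso r r⁻¹ (MulEquiv.refl _) h' h
    exact ⟨e, fun i => he _⟩

end

end HGP
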