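import Pool.Agent.HGP.Targets

/-!
# HGP: square sums for the family `mu`
-/

open scoped InnerProductSpace ENNReal

namespace HGP

noncomputable section

/-- index map: the nonempty lists -/
def MU_g (Y : Type) (j : ℤ × (Y × Ix Y)) : ℤ × List (Y × ℤ) :=
  (j.1, (j.2.1, j.2.2.1) :: j.2.2.2)

lemma MU_g_inj (Y : Type) : Function.Injective (MU_g Y) := by
  rintro ⟨m, y, n, l⟩ ⟨m', y', n', l'⟩ h
  simp only [MU_g, Prod.mk.injEq, List.cons.injEq] at h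
  obtain ⟨h1, ⟨h2, h3⟩, h4⟩ := h
  rw [h1, h2, h3, h4]

lemma MU_range {Y : Type} (i : ℤ × List (Y × ℤ)) (h : i ∉ Set.range (MU_g Y)) : i.2 = [] := by
  obtain ⟨m, l⟩ := i
  cases l with
  | nil => rfl
  | cons q l => exact absurd ⟨(m, (q.1, (q.2, l))), rfl⟩ h

lemma MU_mu {E : Type} [NormedAddCommGroup E] [InnerProductSpace ℝ E] {Y : Type} (lam : Y → E)
    (j : ℤ × (Y × Ix Y)) : mu lam (MU_g Y j).2 = lamI lam j.2 := by
  obtain ⟨m, y, n, l⟩ := j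
  simp only [MU_g, mu, lamI]
  congr
  exact Subsingleton.elim _ _

theorem p_MU (h1 : T_PQT) : T_MU := by
  intro H _ E _ _ _ π a Y lam β hB
  obtain ⟨hA, hS, hC⟩ := h1 H E π a Y lam (Ix Y) ((sh (List (Y × ℤ))).comp β) hB
  have hR : pR (List (Y × ℤ)) β π = permRep ((sh (List (Y × ℤ))).comp β) π := rfl
  rw [hR]
  set ρ := permRep ((sh (List (Y × ℤ))).comp β) π with hρ
  have hz : ∀ (u : L2 (Ix Y) E) (i : ℤ × List (Y × ℤ)), i ∉ Set.range (MU_g Y) →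
      ⟪ρ (a ^ i.1) u, mu lam i.2⟫_ℝ ^ 2 = 0 := by
    intro u i hi
    rw [MU_range i hi]
    show ⟪ρ (a ^ i.1) u, (0 : L2 (Ix Y) E)⟫_ℝ ^ 2 = 0
    rw [inner_zero_right]
    norm_num
  have hpq : ∀ u : L2 (Ix Y) E, pq ρ a (mu lam) u = pq ρ a (lamI (I := Ix Y) lam) u := by
    intro u
    unfold pq
    rw [← (MU_g_inj Y).tsum_eq (f := fun i : ℤ × List (Y × ℤ) =>
      ⟪ρ (a ^ i.1) u, mu lam i.2⟫_ℝ ^ 2)]
    · refine tsum_congr fun c => ?_
      rw [MU_mu lam c]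
      rfl
    · intro i hi
      by_contra hcon
      exact hi (hz u i hcon)
  refine ⟨?_, ?_, ?_⟩
  · intro u s
    rw [← Finset.sum_preimage (MU_g Y) s (MU_g_inj Y).injOn
      (fun i : ℤ × List (Y × ℤ) => ⟪ρ (a ^ i.1) u, mu lam i.2⟫_ℝ ^ 2)
      (fun i _ hi => hz u i hi)]
    refine le_trans (le_of_eq ?_) (hA u (s.preimage (MU_g Y) (MU_g_inj Y).injOn))
    refine Finset.sum_congr rfl fun c _ => ?_
    rw [MU_mu lam c]
    rfl
  · intro f
    refine ⟨(hS f).1, ?_⟩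
    rw [hpq f]
    exact (hS f).2
  · intro hc u δ hδ
    obtain ⟨T, hT⟩ := hC hc u δ hδ
    refine ⟨T, fun h hh => hT h ?_⟩
    rw [← hpq]
    exact hh

end

end HGP
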