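import Pool.Agent.HGP.TargetsF

/-!
# HGP: one step of the induction (`T_NST`)
-/

open HNNExtension HNNExtension.NormalWord

namespace HGP

noncomputable section

/-- the common last step: from the base group to the nested presentation -/
theorem NST_fin (hSUR : T_SUR) (hTRA : T_TRA) (hSBL : T_SBL) (n : ℕ)
    (r : FreeGroup (Fin n)) (j : Fin n) (G : Type) [Group G] (x : Fin n → G) (s : G)
    (hs : ∃ β : G →* Multiplicative ℤ, β s ≠ 1)
    (e : OR r ≃* G) (hx : ∀ k, k ≠ j → e (gl r k) = x k)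
    (hj : e (gl r j) = s) (l : List G) (hxl : ∀ k, x k ∈ l) (hG : QF G l) : Gdn r := by
  obtain ⟨β, hβ⟩ := hs
  have h1 : QF G (s :: l) := hSUR G s β hβ l hG
  have h2 : QF G (List.ofFn (fun k => e (gl r k))) := by
    refine hSBL G (s :: l) _ ?_ h1
    intro c hc
    rw [List.mem_ofFn] at hc
    obtain ⟨k, rfl⟩ := hc
    by_cases hk : k = j
    · subst hk
      rw [hj]
      exact List.mem_cons_self
    · rw [hx k hk]
      exact List.mem_cons_of_mem _ (hxl k)
  have h3 := hTRA G (OR r) e.symm _ h2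
  have h4 : (List.ofFn (fun k => e (gl r k))).map e.symm = List.ofFn (gl r) := by
    rw [List.map_ofFn]
    congr 1
    funext k
    simp
  rw [h4] at h3
  exact h3

theorem NST_pow_ne (x : Multiplicative ℤ) (hx : x ≠ 1) (p : ℤ) (hp : p ≠ 0) : x ^ p ≠ 1 := by
  intro h
  apply hx
  have h1 : Multiplicative.toAdd (x ^ p) = 0 := by
    rw [h]; rfl
  rw [toAdd_zpow, smul_eq_mul] at h1
  rcases mul_eq_zero.1 h1 with h2 | h2
  · exact absurd h2 hp
  · exact Multiplicative.toAdd.injective h2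

theorem p_NST (hPRE : T_PRE) (hPRS : T_PRS) (hINH : T_INH) (hPOW : T_POW) (hSUR : T_SUR)
    (hSVT : T_SVT) (hRK : T_RK) (hTRA : T_TRA) (hSBL : T_SBL) (hQINF : T_QINF) : T_NST := by
  intro n r i j p hij hp hr
  have hr' : QF (OR r) (List.ofFn (gl r)) := hr
  have hmem : ∀ k, gl r k ∈ List.ofFn (gl r) := fun k => (List.mem_ofFn).2 ⟨k, rfl⟩
  have hfi : ¬ IsOfFinOrder (gl r i) := hQINF _ _ hr' _ (hmem i)
  have hfj : ¬ IsOfFinOrder (gl r j) := hQINF _ _ hr' _ (hmem j)
  rcases hRK n r i j hij with ⟨β, hβ⟩ | ⟨β, hβ⟩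
  · -- the letter `x_i` survives: edge `x_j → x_i ^ p`
    obtain ⟨θ, hθ, e, he1, he2⟩ := hPRS n r i j p hij hp hfi hfj
    have h1 := hINH (OR r) (gl r j) (gl r i ^ p) β (by
      rw [map_zpow]
      exact NST_pow_ne _ hβ p hp) (List.ofFn (gl r)) (hmem j) hr' θ hθ
    refine NST_fin hSUR hTRA hSBL n _ j _ (fun k => of (gl r k)) _ ?_ e he1 he2 _ ?_ h1
    · obtain ⟨β', hβ', -⟩ := hSVT (OR r) (Subgroup.zpowers (gl r j))
        (Subgroup.zpowers (gl r i ^ p)) θ
      refine ⟨β', ?_⟩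
      rw [map_inv]
      exact inv_ne_one.2 hβ'
    · intro k
      exact List.mem_map.2 ⟨gl r k, hmem k, rfl⟩
  · -- the letter `x_j` survives: edge `x_i ^ p → x_j`
    obtain ⟨θ, hθ, e, he1, he2⟩ := hPRE n r i j p hij hp hfi hfj
    have h00 : QF (OR r) (gl r i :: List.ofFn (gl r)) := by
      refine hSBL (OR r) (List.ofFn (gl r)) _ ?_ hr'
      intro c hc
      rcases List.mem_cons.1 hc with h | h
      · rw [h]; exact hmem i
      · exact h
    have h0 : QF (OR r) (gl r i ^ p :: gl r i :: List.ofFn (gl r)) := hPOW _ _ p _ hp h00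
    have h1 := hINH (OR r) (gl r i ^ p) (gl r j) β hβ _ (List.mem_cons_self) h0 θ hθ
    refine NST_fin hSUR hTRA hSBL n _ j _ (fun k => of (gl r k)) _ ?_ e he1 he2 _ ?_ h1
    · obtain ⟨β', hβ', -⟩ := hSVT (OR r) (Subgroup.zpowers (gl r i ^ p))
        (Subgroup.zpowers (gl r j)) θ
      exact ⟨β', hβ'⟩
    · intro k
      exact List.mem_map.2 ⟨gl r k, List.mem_cons_of_mem _ (List.mem_cons_of_mem _ (hmem k)), rfl⟩

end

end HGP
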