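import Pool.Agent.HGP.P_SP

/-!
# HGP: target T_POS (positivity of the operator valued function)
-/

open scoped InnerProductSpace
open HNNExtension HNNExtension.NormalWord

namespace HGP

set_option maxHeartbeats 4000000

section pos

variable {E : Type} [NormedAddCommGroup E] [InnerProductSpace ℝ E]

lemma POS_sum_inner {k : ℕ} (y z : Fin k → E) :
    ∑ i, ∑ j, ⟪y j, z i⟫_ℝ = ⟪∑ j, y j, ∑ i, z i⟫_ℝ := by
  rw [inner_sum]
  refine Finset.sum_congr rfl (fun i _ => ?_)
  rw [sum_inner]

lemma POS_sum_self {k : ℕ} (y : Fin k → E) :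
    ∑ i, ∑ j, ⟪y j, y i⟫_ℝ = ‖∑ i, y i‖ ^ 2 := by
  rw [POS_sum_inner, real_inner_self_eq_norm_sq]

lemma POS_contr [CompleteSpace E] (U : E →L[ℝ] E) (hU : ‖U‖ ≤ 1) {k : ℕ} (y : Fin k → E) :
    0 ≤ ∑ i, ∑ j, (⟪y j, y i⟫_ℝ -
      ⟪ContinuousLinearMap.adjoint U (y j), ContinuousLinearMap.adjoint U (y i)⟫_ℝ) := by
  simp only [Finset.sum_sub_distrib]
  rw [POS_sum_self, POS_sum_self (fun i => ContinuousLinearMap.adjoint U (y i)), ← map_sum]
  have h1 : ‖ContinuousLinearMap.adjoint U (∑ i, y i)‖ ≤ ‖∑ i, y i‖ := by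
    refine (ContinuousLinearMap.le_opNorm _ _).trans ?_
    have h2 : ‖ContinuousLinearMap.adjoint U‖ ≤ 1 := by
      rw [LinearIsometryEquiv.norm_map]; exact hU
    calc ‖ContinuousLinearMap.adjoint U‖ * ‖∑ i, y i‖ ≤ 1 * ‖∑ i, y i‖ :=
          mul_le_mul_of_nonneg_right h2 (norm_nonneg _)
      _ = _ := one_mul _
  have h3 := pow_le_pow_left₀ (norm_nonneg _) h1 2
  linarith

end pos

theorem p_POS (hSP : T_SP) (hTREE : T_TREE) (hDECL : T_DECL) (hLN : T_LN) : T_POS := by
  intro H _ A B φ E _ _ _ π V W hS k g f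
  obtain ⟨ln1, ln2, ln3, ln4, ln5, ln6⟩ := hLN H A B φ
  obtain ⟨s1, s2, s3, s4, s5, s6, s7, s8, s9⟩ := hSP H A B φ E π V W hS
  obtain ⟨hd, tu, tr, hdec⟩ := hDECL H A B φ
  have htree := hTREE H A B φ
  generalize hN : ∑ i, len φ (g i) = N
  induction N using Nat.strong_induction_on generalizing g f with
  | _ N ih =>
  by_cases h0 : ∀ i, len φ (g i) = 0
  · choose h hh using fun i => ln4 (g i) (h0 i)
    have key : ∀ i j, ⟪W (g i * (g j)⁻¹) (f j), f i⟫_ℝ =
        ⟪π (h j)⁻¹ (f j), π (h i)⁻¹ (f i)⟫_ℝ := by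
      intro i j
      have e1 : g i * (g j)⁻¹ = of (h i) * of (h j)⁻¹ := by
        rw [hh i, hh j, map_inv]
      rw [e1, s3, s1, SP_inner]
    simp only [key]
    rw [POS_sum_self]
    positivity
  · push Not at h0
    obtain ⟨i1, hi1⟩ := h0
    obtain ⟨j0, -, hj0⟩ := Finset.exists_max_image Finset.univ (fun i => len φ (g i))
      ⟨i1, Finset.mem_univ _⟩
    have hj1 : len φ (g j0) ≠ 0 := by
      have := hj0 i1 (Finset.mem_univ _)
      omega
    obtain ⟨d1, d2, d3⟩ := hdec (g j0) hj1
    set u : ℤˣ := tu (g j0) with hu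
    set r : HNNExtension H A B φ := tr (g j0) with hr
    set U : E →L[ℝ] E := vu V (ContinuousLinearMap.adjoint V) u with hUdef
    have hU : ‖U‖ ≤ 1 := by
      rw [hUdef, SP_norm_vu]; exact hS.norm
    have hlr : len φ (t ^ (u : ℤ) * r) = len φ r + 1 := by
      rw [← d2]
      conv_rhs => rw [d1]
      rw [ln1]
    -- the elements of the coset
    have hC : ∀ i, (∃ h : H, g i = of h * g j0) → g i = of (hd (g i)) * (t ^ (u : ℤ) * r) ∧
        len φ (g i) = len φ r + 1 := by
      rintro i ⟨h, hh⟩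
      obtain ⟨c1, c2, c3⟩ := d3 h
      have hl : len φ (g i) = len φ (g j0) := by rw [hh, ln1]
      have hne : len φ (g i) ≠ 0 := by rw [hl]; exact hj1
      obtain ⟨e1, e2, -⟩ := hdec (g i) hne
      have e3 : tu (g i) = u := by rw [hh, c2]
      have e4 : tr (g i) = r := by rw [hh, c3]
      rw [e3, e4] at e1
      rw [e4] at e2
      exact ⟨e1, e2⟩
    -- the formula for mixed pairs
    have hmix : ∀ i j, (∃ h : H, g i = of h * g j0) → (¬ ∃ h : H, g j = of h * g j0) →
        ∀ v, W (g i * (g j)⁻¹) v = π (hd (g i)) (U (W (r * (g j)⁻¹) v)) := by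
      intro i j hi hj v
      obtain ⟨e1, e2⟩ := hC i hi
      have hlj : len φ (g j) ≤ len φ r + 1 := by
        have := hj0 j (Finset.mem_univ _)
        omega
      have hnj : ¬ ∃ h : H, g j = of h * (t ^ (u : ℤ) * r) := by
        rintro ⟨h, hh⟩
        refine hj ⟨h * (hd (g j0))⁻¹, ?_⟩
        have e5 : of (h * (hd (g j0))⁻¹) * (of (hd (g j0)) * (t ^ (u : ℤ) * r)) =
            of h * (t ^ (u : ℤ) * r) := by
          rw [map_mul, map_inv]
          group
        rw [hh, ← e5, ← d1]
      have htr := htree u r (g j) hlr hlj hnj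
      have e3 : g i * (g j)⁻¹ = of (hd (g i)) * (t ^ (u : ℤ) * (r * (g j)⁻¹)) := by
        conv_lhs => rw [e1]
        group
      rw [e3, s3, s5 u _ htr]
      rfl
    classical
    set g' : Fin k → HNNExtension H A B φ :=
      fun i => if ∃ h : H, g i = of h * g j0 then r else g i with hg'
    set f' : Fin k → E := fun i => if ∃ h : H, g i = of h * g j0 then
      ContinuousLinearMap.adjoint U (π (hd (g i))⁻¹ (f i)) else f i with hf'
    set y : Fin k → E := fun i => if ∃ h : H, g i = of h * g j0 then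
      π (hd (g i))⁻¹ (f i) else 0 with hy
    have hj0C : ∃ h : H, g j0 = of h * g j0 := ⟨1, by rw [map_one, one_mul]⟩
    have hdecr : ∑ i, len φ (g' i) < N := by
      rw [← hN]
      refine Finset.sum_lt_sum (fun i _ => ?_) ⟨j0, Finset.mem_univ _, ?_⟩
      · by_cases hi : ∃ h : H, g i = of h * g j0
        · simp only [hg', if_pos hi]
          rw [(hC i hi).2]
          omega
        · simp only [hg', if_neg hi]
          exact le_refl _
      · simp only [hg', if_pos hj0C]
        rw [(hC j0 hj0C).2]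
        omega
    have hnew := ih _ hdecr g' f' rfl
    have key : ∀ i j, ⟪W (g i * (g j)⁻¹) (f j), f i⟫_ℝ =
        ⟪W (g' i * (g' j)⁻¹) (f' j), f' i⟫_ℝ + (⟪y j, y i⟫_ℝ -
          ⟪ContinuousLinearMap.adjoint U (y j), ContinuousLinearMap.adjoint U (y i)⟫_ℝ) := by
      intro i j
      by_cases hi : ∃ h : H, g i = of h * g j0
      · by_cases hj : ∃ h : H, g j = of h * g j0
        · simp only [hg', hf', hy, if_pos hi, if_pos hj]
          have e1 : g i * (g j)⁻¹ = of (hd (g i)) * of (hd (g j))⁻¹ := by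
            conv_lhs => rw [(hC i hi).1, (hC j hj).1]
            rw [map_inv]
            group
          have e2 : W (r * r⁻¹) = 1 := by
            ext v
            rw [mul_inv_cancel]
            have := s1 1 v
            rw [map_one, map_one] at this
            exact this
          rw [e1, s3, s1, SP_inner, e2]
          simp
        · simp only [hg', hf', hy, if_pos hi, if_neg hj]
          rw [hmix i j hi hj, SP_inner, map_zero, inner_zero_left, inner_zero_left, sub_zero,
            add_zero, ContinuousLinearMap.adjoint_inner_right]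
      · by_cases hj : ∃ h : H, g j = of h * g j0
        · simp only [hg', hf', hy, if_neg hi, if_pos hj]
          have e1 : g i * (g j)⁻¹ = (g j * (g i)⁻¹)⁻¹ := by group
          have e2 : g i * r⁻¹ = (r * (g i)⁻¹)⁻¹ := by group
          rw [e1, e2, s7, s7, ContinuousLinearMap.adjoint_inner_left,
            ContinuousLinearMap.adjoint_inner_left, hmix j i hj hi]
          rw [real_inner_comm, SP_inner, map_zero, inner_zero_right, inner_zero_right, sub_zero,
            add_zero, ContinuousLinearMap.adjoint_inner_left, real_inner_comm]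
        · simp only [hg', hf', hy, if_neg hi, if_neg hj]
          simp
    simp only [key, Finset.sum_add_distrib]
    have h9 := POS_contr U hU y
    linarith

end HGP
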