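import Pool.Agent.HGP.Targets

set_option autoImplicit false

/-!
# HGP: targets POW, SBL, TRA, RES, QINF
-/

open scoped InnerProductSpace

namespace HGP

noncomputable section

/-! ## Sublists -/

theorem p_SBL : T_SBL := by
  intro H _ l l' h hQ S ε hε
  obtain ⟨E, i1, i2, i3, π, Y, lam, ξ, h0, h1, h2, h3, h4, h5⟩ := hQ S ε hε
  exact ⟨E, i1, i2, i3, π, Y, lam, ξ, h0, fun c hc => h1 c (h c hc), h2, h3, h4,
    fun c hc => h5 c (h c hc)⟩

/-! ## Restriction -/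

section res

variable {H H' : Type} [Group H] [Group H'] {E : Type} [NormedAddCommGroup E]
  [InnerProductSpace ℝ E]

theorem RES_pq (f : H →* H') (π : H' →* (E ≃ₗᵢ[ℝ] E)) (c : H) {Z : Type} (μ : Z → E) (u : E) :
    pq (π.comp f) c μ u = pq π (f c) μ u := by
  unfold pq
  simp only [MonoidHom.comp_apply, map_zpow]

theorem RES_Bes (f : H →* H') (π : H' →* (E ≃ₗᵢ[ℝ] E)) (c : H) {Z : Type} (μ : Z → E)
    (h : Bes π (f c) μ) : Bes (π.comp f) c μ := by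
  intro u s
  have := h u s
  have e : ∀ i : ℤ × Z, (π.comp f) (c ^ i.1) = π (f c ^ i.1) := fun i => by
    rw [MonoidHom.comp_apply, map_zpow]
  simp only [e]
  exact this

theorem RES_C0A (f : H →* H') (hf : Function.Injective f) (π : H' →* (E ≃ₗᵢ[ℝ] E)) (c : H)
    {Z : Type} (μ : Z → E) (h : C0A π (f c) μ) : C0A (π.comp f) c μ := by
  classical
  intro u δ hδ
  obtain ⟨T, hT⟩ := h u δ hδ
  refine ⟨T.preimage f hf.injOn, fun g hg => ?_⟩
  rw [RES_pq] at hg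
  obtain ⟨m, x, hx, he⟩ := hT (f g) hg
  have hx' : x = f (c ^ (-m) * g) := by
    rw [map_mul, map_zpow, he, zpow_neg, inv_mul_cancel_left]
  refine ⟨m, c ^ (-m) * g, ?_, ?_⟩
  · rw [Finset.mem_preimage, ← hx']
    exact hx
  · rw [zpow_neg, mul_inv_cancel_left]

theorem RES_C0 (f : H →* H') (hf : Function.Injective f) (π : H' →* (E ≃ₗᵢ[ℝ] E))
    (h : C0 π) : C0 (π.comp f) := by
  intro u v δ hδ
  have h1 : {g : H | δ ≤ |⟪(π.comp f) g u, v⟫_ℝ|} = f ⁻¹' {g | δ ≤ |⟪π g u, v⟫_ℝ|} := rfl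
  rw [h1]
  exact (h u v δ hδ).preimage hf.injOn

end res

theorem p_RES : T_RES := by
  classical
  intro H H' _ _ f hf l hQ S ε hε
  obtain ⟨E, i1, i2, i3, π, Y, lam, ξ, h0, h1, h2, h3, h4, h5⟩ := hQ (S.image f) ε hε
  have hm : ∀ c ∈ l, f c ∈ l.map f := fun c hc => List.mem_map_of_mem hc
  refine ⟨E, i1, i2, i3, π.comp f, fun c => Y (f c), fun c => lam (f c), ξ, RES_C0 f hf π h0,
    fun c hc => ⟨RES_Bes f π c _ (h1 _ (hm c hc)).1, RES_C0A f hf π c _ (h1 _ (hm c hc)).2⟩,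
    h2, h3, fun s hs => h4 (f s) (Finset.mem_image_of_mem f hs), fun c hc => ?_⟩
  rw [RES_pq]
  exact h5 _ (hm c hc)

theorem p_TRA : T_TRA := by
  intro H H' _ _ e l hQ
  refine p_RES H' H e.symm.toMonoidHom e.symm.injective (l.map e) ?_
  have : (l.map e).map e.symm.toMonoidHom = l := by
    rw [List.map_map]
    have h2 : (⇑e.symm.toMonoidHom ∘ ⇑e) = id := by
      funext x
      simp
    rw [h2, List.map_id]
  rw [this]
  exact hQ

/-! ## Elements of finite order -/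

theorem QINF_zero {H : Type} [Group H] {E : Type} [NormedAddCommGroup E] [InnerProductSpace ℝ E]
    (π : H →* (E ≃ₗᵢ[ℝ] E)) (a : H) {Z : Type} (μ : Z → E) (h : Bes π a μ) {n : ℕ} (hn : 0 < n)
    (ha : a ^ n = 1) (u : E) (m : ℤ) (y : Z) : ⟪π (a ^ m) u, μ y⟫_ℝ = 0 := by
  classical
  set t := ⟪π (a ^ m) u, μ y⟫_ℝ with ht
  have hs : ∀ N : ℕ, (N : ℝ) * t ^ 2 ≤ ‖u‖ ^ 2 := by
    intro N
    have hinj : Function.Injective fun k : ℕ => ((m + k * n, y) : ℤ × Z) := by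
      intro k k' hk
      simp only [Prod.mk.injEq, and_true, add_right_inj] at hk
      have hn' : (n : ℤ) ≠ 0 := by exact_mod_cast hn.ne'
      exact_mod_cast mul_right_cancel₀ hn' hk
    have h1 := h u ((Finset.range N).map ⟨_, hinj⟩)
    rw [Finset.sum_map] at h1
    simp only [Function.Embedding.coeFn_mk] at h1
    have h2 : ∀ k : ℕ, a ^ (m + k * n : ℤ) = a ^ m := by
      intro k
      have h3 : a ^ ((k : ℤ) * (n : ℤ)) = 1 := by
        rw [← Nat.cast_mul, zpow_natCast, mul_comm, pow_mul, ha, one_pow]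
      rw [zpow_add, h3, mul_one]
    simp only [h2] at h1
    rw [Finset.sum_const, Finset.card_range, nsmul_eq_mul] at h1
    exact h1
  by_contra hcon
  have ht2 : 0 < t ^ 2 := by positivity
  obtain ⟨N, hN⟩ := exists_nat_gt (‖u‖ ^ 2 / t ^ 2)
  rw [div_lt_iff₀ ht2] at hN
  exact absurd (hs N) (not_le.2 hN)

theorem p_QINF : T_QINF := by
  intro H _ l hQ a ha hfin
  obtain ⟨n, hn, han⟩ := isOfFinOrder_iff_pow_eq_one.1 hfin
  obtain ⟨E, i1, i2, i3, π, Y, lam, ξ, h0, h1, h2, h3, h4, h5⟩ := hQ ∅ (1 / 2) (by norm_num)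
  have h6 := h5 a ha
  have h7 : pq π a (lam a) ξ = 0 := by
    unfold pq
    simp only [QINF_zero π a (lam a) (h1 a ha).1 hn han]
    simp
  rw [h7] at h6
  norm_num at h6

/-! ## Powers -/

/-- division with remainder -/
def POW_e (p : ℤ) (hp : p ≠ 0) (Z : Type) : ℤ × (Z × Fin p.natAbs) ≃ ℤ × Z where
  toFun q := (p * q.1 + (q.2.2 : ℕ), q.2.1)
  invFun q := (q.1 / p, (q.2, ⟨(q.1 % p).toNat, by
    have h1 := Int.emod_nonneg q.1 hp
    have h2 := Int.emod_lt_abs q.1 hp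
    rw [Int.abs_eq_natAbs] at h2
    omega⟩))
  left_inv := by
    rintro ⟨m, y, i⟩
    have hi : ((i : ℕ) : ℤ) < |p| := by
      rw [Int.abs_eq_natAbs]
      exact_mod_cast i.2
    have h0 : (0 : ℤ) ≤ (i : ℕ) := Int.natCast_nonneg _
    have h1 : (p * m + (i : ℕ)) / p = m := by
      rw [Int.mul_add_ediv_left _ _ hp]
      have : ((i : ℕ) : ℤ) / p = 0 := by
        rcases lt_or_gt_of_ne hp with h | h
        · rw [abs_of_neg h] at hi
          have := Int.ediv_eq_zero_of_lt h0 hi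
          rw [Int.ediv_neg] at this
          omega
        · rw [abs_of_pos h] at hi
          exact Int.ediv_eq_zero_of_lt h0 hi
      omega
    have h2 : (p * m + (i : ℕ)) % p = (i : ℕ) := by
      have := Int.emod_add_mul_ediv (p * m + (i : ℕ)) p
      rw [h1] at this
      linarith
    simp only [h1, h2, Int.toNat_natCast]
  right_inv := by
    rintro ⟨m, y⟩
    have h1 := Int.emod_nonneg m hp
    have h2 : (((m % p).toNat : ℕ) : ℤ) = m % p := Int.toNat_of_nonneg h1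
    simp only [h2]
    rw [add_comm, Int.emod_add_mul_ediv]

section pow

variable {H : Type} [Group H] {E : Type} [NormedAddCommGroup E] [InnerProductSpace ℝ E]

/-- the family for the power -/
def POW_mu (π : H →* (E ≃ₗᵢ[ℝ] E)) (a : H) (p : ℤ) {Z : Type} (μ : Z → E) :
    Z × Fin p.natAbs → E := fun q => π (a ^ (-((q.2 : ℕ) : ℤ))) (μ q.1)

theorem POW_term (π : H →* (E ≃ₗᵢ[ℝ] E)) (a : H) (p : ℤ) (hp : p ≠ 0) {Z : Type} (μ : Z → E)
    (u : E) (i : ℤ × (Z × Fin p.natAbs)) :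
    ⟪π ((a ^ p) ^ i.1) u, POW_mu π a p μ i.2⟫_ℝ =
      ⟪π (a ^ (POW_e p hp Z i).1) u, μ (POW_e p hp Z i).2⟫_ℝ := by
  have h1 : a ^ (POW_e p hp Z i).1 = a ^ ((i.2.2 : ℕ) : ℤ) * (a ^ p) ^ i.1 := by
    show a ^ (p * i.1 + ((i.2.2 : ℕ) : ℤ)) = _
    rw [add_comm, zpow_add, zpow_mul]
  have h2 : (POW_e p hp Z i).2 = i.2.1 := rfl
  rw [h1, h2, map_mul]
  unfold POW_mu
  rw [zpow_neg, map_inv]
  have h3 : ∀ (T : E ≃ₗᵢ[ℝ] E) (x y : E), ⟪x, (T⁻¹ : E ≃ₗᵢ[ℝ] E) y⟫_ℝ = ⟪T x, y⟫_ℝ := by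
    intro T x y
    have h4 : T ((T⁻¹ : E ≃ₗᵢ[ℝ] E) y) = y := T.apply_symm_apply y
    rw [← T.inner_map_map x, h4]
  rw [h3]
  rfl

theorem POW_pq (π : H →* (E ≃ₗᵢ[ℝ] E)) (a : H) (p : ℤ) (hp : p ≠ 0) {Z : Type} (μ : Z → E)
    (u : E) : pq π (a ^ p) (POW_mu π a p μ) u = pq π a μ u := by
  unfold pq
  simp only [POW_term π a p hp μ u]
  exact (POW_e p hp Z).tsum_eq (fun i : ℤ × Z => ⟪π (a ^ i.1) u, μ i.2⟫_ℝ ^ 2)

theorem POW_Bes (π : H →* (E ≃ₗᵢ[ℝ] E)) (a : H) (p : ℤ) (hp : p ≠ 0) {Z : Type} (μ : Z → E)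
    (h : Bes π a μ) : Bes π (a ^ p) (POW_mu π a p μ) := by
  intro u s
  have h1 := h u (s.map (POW_e p hp Z).toEmbedding)
  rw [Finset.sum_map] at h1
  simp only [POW_term π a p hp μ u]
  exact h1

theorem POW_C0A (π : H →* (E ≃ₗᵢ[ℝ] E)) (a : H) (p : ℤ) (hp : p ≠ 0) {Z : Type} (μ : Z → E)
    (h : C0A π a μ) : C0A π (a ^ p) (POW_mu π a p μ) := by
  classical
  intro u δ hδ
  obtain ⟨T, hT⟩ := h u δ hδ
  refine ⟨(Finset.univ ×ˢ T).image
    (fun q : Fin p.natAbs × H => a ^ (((q.1 : Fin p.natAbs) : ℕ) : ℤ) * q.2), fun g hg => ?_⟩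
  rw [POW_pq π a p hp] at hg
  obtain ⟨m, x, hx, he⟩ := hT g hg
  obtain ⟨⟨q, y, i⟩, hq⟩ := (POW_e p hp Unit).surjective (m, ())
  have hm : m = ((i : ℕ) : ℤ) + p * q := by
    have h1 := congrArg Prod.fst hq
    have h2 : p * q + ((i : ℕ) : ℤ) = m := h1
    rw [← h2, add_comm]
  refine ⟨q, a ^ ((i : ℕ) : ℤ) * x, ?_, ?_⟩
  · exact Finset.mem_image.2 ⟨(i, x), by simp [hx], rfl⟩
  · rw [he, hm, add_comm, zpow_add, zpow_mul, mul_assoc]

end pow

theorem p_POW : T_POW := by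
  intro H _ a p l hp hQ S ε hε
  obtain ⟨E, i1, i2, i3, π, Y, lam, ξ, h0, h1, h2, h3, h4, h5⟩ := hQ S ε hε
  have key : ∀ c : H, ∃ (Z : Type) (μ : Z → E), c ∈ (a ^ p :: a :: l) →
      (Bes π c μ ∧ C0A π c μ) ∧ 1 - ε ≤ pq π c μ ξ := by
    intro c
    by_cases hc : c = a ^ p
    · have ha : a ∈ a :: l := List.mem_cons_self
      refine ⟨Y a × Fin p.natAbs, POW_mu π a p (lam a), fun _ => ?_⟩
      rw [hc]
      refine ⟨⟨POW_Bes π a p hp _ (h1 a ha).1, POW_C0A π a p hp _ (h1 a ha).2⟩, ?_⟩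
      rw [POW_pq π a p hp]
      exact h5 a ha
    · refine ⟨Y c, lam c, fun hcl => ?_⟩
      have hcl' : c ∈ a :: l := (List.mem_cons.1 hcl).resolve_left hc
      exact ⟨h1 c hcl', h5 c hcl'⟩
  choose Z μ hμ using key
  exact ⟨E, i1, i2, i3, π, Z, μ, ξ, h0, fun c hc => (hμ c hc).1, h2, h3, h4,
    fun c hc => (hμ c hc).2⟩

end

end HGP
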