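import Pool.Agent.HGP.Targets

/-!
# HGP: the square sum is the square of a seminorm
-/

open scoped InnerProductSpace ENNReal

namespace HGP

noncomputable section

section pqx

variable {H : Type} [Group H] {E : Type} [NormedAddCommGroup E] [InnerProductSpace ℝ E]
  {Y : Type} {π : H →* (E ≃ₗᵢ[ℝ] E)} {a : H} {lam : Y → E}

lemma PQ_summable (hB : Bes π a lam) (u : E) :
    Summable (fun i : ℤ × Y => ⟪π (a ^ i.1) u, lam i.2⟫_ℝ ^ 2) :=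
  summable_of_sum_le (fun _ => sq_nonneg _) (hB u)

lemma PQ_le (hB : Bes π a lam) (u : E) : pq π a lam u ≤ ‖u‖ ^ 2 :=
  (PQ_summable hB u).tsum_le_of_sum_le (hB u)

lemma PQ_mem (hB : Bes π a lam) (u : E) :
    Memℓp (fun i : ℤ × Y => ⟪π (a ^ i.1) u, lam i.2⟫_ℝ) 2 := by
  rw [mem2]
  refine (PQ_summable hB u).congr fun i => ?_
  rw [Real.norm_eq_abs, sq_abs]

/-- the family of coefficients -/
def PQ_map (hB : Bes π a lam) : E →ₗ[ℝ] L2 (ℤ × Y) ℝ where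
  toFun u := ⟨fun i => ⟪π (a ^ i.1) u, lam i.2⟫_ℝ, PQ_mem hB u⟩
  map_add' u v := by
    ext i
    show ⟪π (a ^ i.1) (u + v), lam i.2⟫_ℝ =
      ⟪π (a ^ i.1) u, lam i.2⟫_ℝ + ⟪π (a ^ i.1) v, lam i.2⟫_ℝ
    rw [map_add, inner_add_left]
  map_smul' c u := by
    ext i
    show ⟪π (a ^ i.1) (c • u), lam i.2⟫_ℝ = c * ⟪π (a ^ i.1) u, lam i.2⟫_ℝ
    rw [map_smul, real_inner_smul_left]

lemma PQ_map_norm (hB : Bes π a lam) (u : E) : ‖PQ_map hB u‖ ^ 2 = pq π a lam u := by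
  rw [norm_sq_lp]
  unfold pq
  refine tsum_congr fun i => ?_
  show ‖⟪π (a ^ i.1) u, lam i.2⟫_ℝ‖ ^ 2 = _
  rw [Real.norm_eq_abs, sq_abs]

lemma PQ_shift (m : ℤ) (u : E) : pq π a lam (π (a ^ m) u) = pq π a lam u := by
  unfold pq
  rw [← ((Equiv.addRight m).prodCongr (Equiv.refl Y)).tsum_eq
    (fun i : ℤ × Y => ⟪π (a ^ i.1) u, lam i.2⟫_ℝ ^ 2)]
  refine tsum_congr fun i => ?_
  have h : π (a ^ (i.1 + m)) u = π (a ^ i.1) (π (a ^ m) u) := by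
    rw [zpow_add, map_mul]
    rfl
  show ⟪π (a ^ i.1) (π (a ^ m) u), lam i.2⟫_ℝ ^ 2 = ⟪π (a ^ (i.1 + m)) u, lam i.2⟫_ℝ ^ 2
  rw [h]

lemma PQ_lam (hB : Bes π a lam) (y : Y) : ‖lam y‖ ≤ 1 := by
  have h := hB (lam y) {(0, y)}
  rw [Finset.sum_singleton] at h
  have h0 : π (a ^ (((0 : ℤ), y) : ℤ × Y).1) (lam y) = lam y := by
    show π (a ^ (0 : ℤ)) (lam y) = lam y
    rw [zpow_zero, map_one]
    rfl
  rw [h0, real_inner_self_eq_norm_sq] at h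
  by_contra hc
  have h1 : 1 < ‖lam y‖ := not_le.1 hc
  nlinarith [h, h1, mul_pos (sub_pos.2 h1) (sub_pos.2 h1)]

end pqx

theorem p_PQ : T_PQ := by
  intro H _ E _ _ π a Y lam hB
  refine ⟨(normSeminorm ℝ (L2 (ℤ × Y) ℝ)).comp (PQ_map hB), ?_, ?_, ?_, PQ_summable hB,
    PQ_lam hB⟩
  · intro u
    exact PQ_map_norm hB u
  · intro u
    have h1 : ‖PQ_map hB u‖ ^ 2 ≤ ‖u‖ ^ 2 := by
      rw [PQ_map_norm]
      exact PQ_le hB u
    exact (pow_le_pow_iff_left₀ (norm_nonneg _) (norm_nonneg _) two_ne_zero).1 h1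
  · intro m u
    have h1 : ‖PQ_map hB (π (a ^ m) u)‖ ^ 2 = ‖PQ_map hB u‖ ^ 2 := by
      rw [PQ_map_norm, PQ_map_norm, PQ_shift]
    exact (pow_left_inj₀ (norm_nonneg _) (norm_nonneg _) two_ne_zero).1 h1

end

end HGP
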