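import Pool.Agent.HGP.Targets

/-!
# HGP: square sums for the permutation tensor representation
-/

open scoped InnerProductSpace ENNReal

namespace HGP

noncomputable section

section one

variable {H : Type} [Group H] {E : Type} [NormedAddCommGroup E] [InnerProductSpace ℝ E]
  {Y : Type} {π : H →* (E ≃ₗᵢ[ℝ] E)} {a : H} {lam : Y → E}

lemma PQT_summable (hB : Bes π a lam) (u : E) :
    Summable (fun i : ℤ × Y => ⟪π (a ^ i.1) u, lam i.2⟫_ℝ ^ 2) :=
  summable_of_sum_le (fun _ => sq_nonneg _) (fun s => hB u s)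

lemma PQT_le (hB : Bes π a lam) (u : E) : pq π a lam u ≤ ‖u‖ ^ 2 :=
  (PQT_summable hB u).tsum_le_of_sum_le (fun s => hB u s)

lemma PQT_nonneg (u : E) : 0 ≤ pq π a lam u := tsum_nonneg fun _ => sq_nonneg _

end one

section two

variable {H : Type} [Group H] {E : Type} [NormedAddCommGroup E] [InnerProductSpace ℝ E]
  {Y : Type} {π : H →* (E ≃ₗᵢ[ℝ] E)} {a : H} {lam : Y → E}
  {I : Type} {σ : H →* Equiv.Perm I}

lemma PQT_coeff (f : L2 I E) (m : ℤ) (y : Y) (i : I) :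
    ⟪permRep σ π (a ^ m) f, lamI lam (y, i)⟫_ℝ =
      ⟪π (a ^ m) (f (σ (a ^ m)⁻¹ i)), lam y⟫_ℝ := by
  classical
  unfold lamI
  have h := lp.inner_single_right (𝕜 := ℝ) (G := fun _ : I => E) i (lam y)
    (permRep σ π (a ^ m) f)
  rw [permRep_apply] at h
  rw [← h]

/-- reindexing of the triples -/
def PQT_eq (σ : H →* Equiv.Perm I) (a : H) (Y : Type) : ℤ × (Y × I) ≃ I × (ℤ × Y) where
  toFun q := (σ (a ^ q.1)⁻¹ q.2.2, (q.1, q.2.1))
  invFun q := (q.2.1, (q.2.2, σ (a ^ q.2.1) q.1))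
  left_inv q := by
    obtain ⟨m, y, i⟩ := q
    have : σ (a ^ m) (σ (a ^ m)⁻¹ i) = i := by
      rw [map_inv]
      exact Equiv.apply_symm_apply (σ (a ^ m)) i
    simp only [this]
  right_inv q := by
    obtain ⟨k, m, y⟩ := q
    have : σ (a ^ m)⁻¹ (σ (a ^ m) k) = k := by
      rw [map_inv]
      exact Equiv.symm_apply_apply (σ (a ^ m)) k
    simp only [this]

lemma PQT_sum (hB : Bes π a lam) (f : L2 I E) : Summable (fun i => pq π a lam (f i)) :=
  Summable.of_nonneg_of_le (fun _ => PQT_nonneg _) (fun i => PQT_le hB (f i)) (summable_sq_lp f)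

lemma PQT_big (hB : Bes π a lam) (f : L2 I E) :
    Summable (fun q : I × (ℤ × Y) => ⟪π (a ^ q.2.1) (f q.1), lam q.2.2⟫_ℝ ^ 2) := by
  rw [summable_prod_of_nonneg (fun _ => sq_nonneg _)]
  exact ⟨fun k => PQT_summable hB (f k), PQT_sum hB f⟩

lemma PQT_fun (f : L2 I E) :
    (fun q : ℤ × (Y × I) => ⟪permRep σ π (a ^ q.1) f, lamI lam q.2⟫_ℝ ^ 2) =
      (fun q : I × (ℤ × Y) => ⟪π (a ^ q.2.1) (f q.1), lam q.2.2⟫_ℝ ^ 2) ∘ PQT_eq σ a Y := by
  funext q
  obtain ⟨m, y, i⟩ := q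
  exact congrArg (· ^ 2) (PQT_coeff f m y i)

lemma PQT_summable' (hB : Bes π a lam) (f : L2 I E) :
    Summable (fun q : ℤ × (Y × I) => ⟪permRep σ π (a ^ q.1) f, lamI lam q.2⟫_ℝ ^ 2) := by
  rw [PQT_fun]
  exact (PQT_eq σ a Y).summable_iff.2 (PQT_big hB f)

lemma PQT_tsum (hB : Bes π a lam) (f : L2 I E) :
    pq (permRep σ π) a (lamI lam) f = ∑' i, pq π a lam (f i) := by
  have h1 : pq (permRep σ π) a (lamI lam) f =
      ∑' q : I × (ℤ × Y), ⟪π (a ^ q.2.1) (f q.1), lam q.2.2⟫_ℝ ^ 2 := by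
    unfold pq
    rw [PQT_fun]
    exact (PQT_eq σ a Y).tsum_eq
      (fun q : I × (ℤ × Y) => ⟪π (a ^ q.2.1) (f q.1), lam q.2.2⟫_ℝ ^ 2)
  rw [h1, (PQT_big hB f).tsum_prod]
  rfl

lemma PQT_bes (hB : Bes π a lam) : Bes (permRep σ π) a (lamI (I := I) lam) := by
  intro f s
  have h1 := (PQT_summable' (σ := σ) hB f).sum_le_tsum s (fun _ _ => sq_nonneg _)
  refine h1.trans ?_
  have h2 := PQT_tsum (σ := σ) hB f
  unfold pq at h2
  rw [h2, norm_sq_lp]
  exact (PQT_sum hB f).tsum_le_tsum (fun i => PQT_le hB (f i)) (summable_sq_lp f)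

lemma PQT_c0 (hB : Bes π a lam) (hC : C0A π a lam) :
    C0A (permRep σ π) a (lamI (I := I) lam) := by
  classical
  intro f δ hδ
  have hN := summable_sq_lp f
  obtain ⟨s, hs⟩ : ∃ s : Finset I, ∑' i, ‖f i‖ ^ 2 - δ / 2 < ∑ i ∈ s, ‖f i‖ ^ 2 := by
    have h1 : ∑' i, ‖f i‖ ^ 2 - δ / 2 < ∑' i, ‖f i‖ ^ 2 := by linarith
    have h2 := hN.hasSum.eventually_const_lt h1
    exact h2.exists
  have hc : (0 : ℝ) < δ / (2 * (s.card + 1)) := by positivity
  choose T hT using fun k => hC (f k) (δ / (2 * (s.card + 1))) hc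
  refine ⟨s.biUnion T, ?_⟩
  intro h hh
  rw [PQT_tsum hB] at hh
  have h3 : ∑' i, pq π a lam (permRep σ π h f i) = ∑' k, pq π a lam (π h (f k)) := by
    have h4 : (fun i => pq π a lam (permRep σ π h f i)) =
        (fun k => pq π a lam (π h (f k))) ∘ (σ h⁻¹) := by
      funext i
      rw [permRep_apply]
      rfl
    rw [h4]
    exact (σ h⁻¹).tsum_eq (fun k => pq π a lam (π h (f k)))
  rw [h3] at hh
  have hle : ∀ k, pq π a lam (π h (f k)) ≤ ‖f k‖ ^ 2 := by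
    intro k
    have := PQT_le hB (π h (f k))
    rwa [LinearIsometryEquiv.norm_map] at this
  have hP : Summable (fun k => pq π a lam (π h (f k))) :=
    Summable.of_nonneg_of_le (fun _ => PQT_nonneg _) hle hN
  have h5 := (hN.sub hP).sum_le_tsum s (fun k _ => sub_nonneg.2 (hle k))
  rw [hN.tsum_sub hP, Finset.sum_sub_distrib] at h5
  have h6 : δ / 2 ≤ ∑ k ∈ s, pq π a lam (π h (f k)) := by linarith
  obtain ⟨k, hk, hk'⟩ : ∃ k ∈ s, δ / (2 * (s.card + 1)) ≤ pq π a lam (π h (f k)) := by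
    by_contra hcon
    push Not at hcon
    have h7 : ∑ k ∈ s, pq π a lam (π h (f k)) ≤ s.card • (δ / (2 * (s.card + 1))) :=
      Finset.sum_le_card_nsmul _ _ _ (fun k hk => (hcon k hk).le)
    rw [nsmul_eq_mul] at h7
    have h8 : (s.card : ℝ) * (δ / (2 * (s.card + 1))) < δ / 2 := by
      have e1 : δ / 2 = ((s.card : ℝ) + 1) * (δ / (2 * (s.card + 1))) := by
        field_simp
      rw [e1]
      exact mul_lt_mul_of_pos_right (by linarith) hc
    linarith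
  obtain ⟨m, x, hx, e⟩ := hT k h hk'
  exact ⟨m, x, Finset.mem_biUnion.2 ⟨k, hk, hx⟩, e⟩

end two

theorem p_PQT : T_PQT := by
  intro H _ E _ _ _ π a Y lam I σ hB
  exact ⟨PQT_bes hB, fun f => ⟨PQT_sum hB f, PQT_tsum hB f⟩, PQT_c0 hB⟩

end

end HGP
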