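import Pool.Agent.HGP.TargetsF

/-!
# HGP: targets PRE, PRS (presentations as HNN extensions)
-/

open HNNExtension

namespace HGP

noncomputable section

lemma PRE_lift_sb {n : ℕ} {G : Type} [Group G] (F : Fin n → G) (j : Fin n)
    (v r : FreeGroup (Fin n)) :
    FreeGroup.lift F (sb j v r) = FreeGroup.lift (Function.update F j (FreeGroup.lift F v)) r := by
  have h : (FreeGroup.lift F).comp (FreeGroup.lift (Function.update FreeGroup.of j v)) =
      FreeGroup.lift (Function.update F j (FreeGroup.lift F v)) := by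
    refine FreeGroup.ext_hom _ _ fun k => ?_
    by_cases hk : k = j
    · subst hk; simp
    · simp [Function.update_of_ne hk]
  rw [← h]; rfl

lemma PRE_rel {n : ℕ} {G : Type} [Group G] (r : FreeGroup (Fin n)) (ψ : OR r →* G) :
    FreeGroup.lift (fun k => ψ (gl r k)) r = 1 := by
  have h : FreeGroup.lift (fun k => ψ (gl r k)) = ψ.comp (PresentedGroup.mk {r}) := by
    refine FreeGroup.ext_hom _ _ fun k => ?_
    simp only [FreeGroup.lift_apply_of, MonoidHom.comp_apply]
    rfl
  rw [h, MonoidHom.comp_apply, PresentedGroup.one_of_mem (Set.mem_singleton r), map_one]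

/-- homomorphisms out of a one-relator group -/
lemma PRE_hom {n : ℕ} {G : Type} [Group G] (r : FreeGroup (Fin n)) (F : Fin n → G)
    (h : FreeGroup.lift F r = 1) : ∃ f : OR r →* G, ∀ k, f (gl r k) = F k := by
  refine ⟨PresentedGroup.toGroup (f := F) (rels := {r}) ?_, fun k => ?_⟩
  · intro x hx
    rw [Set.mem_singleton_iff] at hx
    rw [hx]; exact h
  · exact PresentedGroup.toGroup.of _

lemma PRE_ext {n : ℕ} {G : Type} [Group G] (r : FreeGroup (Fin n)) (f g : OR r →* G)
    (h : ∀ k, f (gl r k) = g (gl r k)) : f = g := PresentedGroup.ext h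

/-- the new relator -/
abbrev PRE_nr {n : ℕ} (r : FreeGroup (Fin n)) (i j : Fin n) (p : ℤ) : FreeGroup (Fin n) :=
  sb j (FreeGroup.of j * FreeGroup.of i ^ p * (FreeGroup.of j)⁻¹) r

lemma PRE_to {n : ℕ} {G : Type} [Group G] (r : FreeGroup (Fin n)) (i j : Fin n) (p : ℤ)
    (hij : i ≠ j) (ι : OR r →* G) (s : G) (hs : s * ι (gl r i) ^ p * s⁻¹ = ι (gl r j)) :
    ∃ f : OR (PRE_nr r i j p) →* G, (∀ k, k ≠ j → f (gl _ k) = ι (gl r k)) ∧ f (gl _ j) = s := by
  obtain ⟨f, hf⟩ := PRE_hom (PRE_nr r i j p) (Function.update (fun k => ι (gl r k)) j s) (by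
    rw [PRE_lift_sb]
    have h : Function.update (Function.update (fun k => ι (gl r k)) j s) j
        (FreeGroup.lift (Function.update (fun k => ι (gl r k)) j s)
          (FreeGroup.of j * FreeGroup.of i ^ p * (FreeGroup.of j)⁻¹)) =
        fun k => ι (gl r k) := by
      rw [Function.update_idem]
      funext k
      by_cases hk : k = j
      · subst hk
        simp only [Function.update_self, map_mul, map_zpow, map_inv, FreeGroup.lift_apply_of,
          Function.update_of_ne hij]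
        exact hs
      · simp only [Function.update_of_ne hk]
    rw [h]
    exact PRE_rel r ι)
  refine ⟨f, fun k hk => ?_, ?_⟩
  · rw [hf, Function.update_of_ne hk]
  · rw [hf, Function.update_self]

lemma PRE_from {n : ℕ} (r : FreeGroup (Fin n)) (i j : Fin n) (p : ℤ) :
    ∃ f : OR r →* OR (PRE_nr r i j p), (∀ k, k ≠ j → f (gl r k) = gl _ k) ∧
      f (gl r j) = gl _ j * gl _ i ^ p * (gl _ j)⁻¹ := by
  obtain ⟨f, hf⟩ := PRE_hom r (Function.update (fun k => gl (PRE_nr r i j p) k) j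
    (gl _ j * gl _ i ^ p * (gl _ j)⁻¹)) (by
    have h := PRE_rel (PRE_nr r i j p) (MonoidHom.id _)
    simp only [MonoidHom.id_apply] at h
    rw [PRE_lift_sb] at h
    simp only [map_mul, map_zpow, map_inv, FreeGroup.lift_apply_of] at h
    exact h)
  refine ⟨f, fun k hk => ?_, ?_⟩
  · rw [hf, Function.update_of_ne hk]
  · rw [hf, Function.update_self]

/-- two infinite cyclic groups -/
lemma PRE_theta {G : Type} [Group G] (a b : G) (ha : ¬ IsOfFinOrder a) (hb : ¬ IsOfFinOrder b) :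
    ∃ θ : Subgroup.zpowers a ≃* Subgroup.zpowers b,
      ∀ m : ℤ, (θ ⟨a ^ m, Subgroup.zpow_mem_zpowers a m⟩ : G) = b ^ m := by
  have ha' : Function.Injective (fun m : ℤ => a ^ m) := injective_zpow_iff_not_isOfFinOrder.2 ha
  have hb' : Function.Injective (fun m : ℤ => b ^ m) := injective_zpow_iff_not_isOfFinOrder.2 hb
  have key : ∀ c : G, Function.Injective (fun m : ℤ => c ^ m) →
      Function.Bijective (fun m : Multiplicative ℤ =>
        (⟨c ^ (Multiplicative.toAdd m), Subgroup.zpow_mem_zpowers c _⟩ :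
          Subgroup.zpowers c)) := by
    intro c hc
    constructor
    · intro m m' h
      have h1 : c ^ (Multiplicative.toAdd m) = c ^ (Multiplicative.toAdd m') := congrArg Subtype.val h
      exact hc h1
    · rintro ⟨x, hx⟩
      obtain ⟨m, rfl⟩ := Subgroup.mem_zpowers_iff.1 hx
      exact ⟨Multiplicative.ofAdd m, rfl⟩
  let fa : Multiplicative ℤ →* Subgroup.zpowers a :=
    { toFun := fun m => ⟨a ^ (Multiplicative.toAdd m), Subgroup.zpow_mem_zpowers a _⟩
      map_one' := by ext; simp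
      map_mul' := fun m m' => by ext; simp [zpow_add] }
  let fb : Multiplicative ℤ →* Subgroup.zpowers b :=
    { toFun := fun m => ⟨b ^ (Multiplicative.toAdd m), Subgroup.zpow_mem_zpowers b _⟩
      map_one' := by ext; simp
      map_mul' := fun m m' => by ext; simp [zpow_add] }
  let ea := MulEquiv.ofBijective fa (key a ha')
  let eb := MulEquiv.ofBijective fb (key b hb')
  refine ⟨ea.symm.trans eb, fun m => ?_⟩
  have h : (⟨a ^ m, Subgroup.zpow_mem_zpowers a m⟩ : Subgroup.zpowers a) =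
      ea (Multiplicative.ofAdd m) := rfl
  rw [h, MulEquiv.trans_apply, MulEquiv.symm_apply_apply]
  rfl

lemma PRE_pow {G : Type} [Group G] (a : G) (p : ℤ) (hp : p ≠ 0) (ha : ¬ IsOfFinOrder a) :
    ¬ IsOfFinOrder (a ^ p) := by
  rw [← injective_zpow_iff_not_isOfFinOrder] at ha ⊢
  intro m m' h
  have h1 : a ^ (p * m) = a ^ (p * m') := by
    rw [zpow_mul, zpow_mul]; exact h
  exact mul_left_cancel₀ hp (ha h1)

/-- the isomorphism, both orientations at once -/
lemma PRE_equiv {n : ℕ} (r : FreeGroup (Fin n)) (i j : Fin n) (p : ℤ) (hij : i ≠ j)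
    {G : Type} [Group G] (ι : OR r →* G) (s : G) (hs : s * ι (gl r i) ^ p * s⁻¹ = ι (gl r j))
    (back : ∀ (Q : Type) [Group Q] (f : OR r →* Q) (q : Q),
      q * f (gl r i) ^ p * q⁻¹ = f (gl r j) → ∃ F : G →* Q, F.comp ι = f ∧ F s = q)
    (gen : ∀ (F F' : G →* G), F.comp ι = F'.comp ι → F s = F' s → F = F') :
    ∃ e : OR (PRE_nr r i j p) ≃* G, (∀ k, k ≠ j → e (gl _ k) = ι (gl r k)) ∧
      e (gl _ j) = s := by
  obtain ⟨f, hf1, hf2⟩ := PRE_to r i j p hij ι s hs
  obtain ⟨g, hg1, hg2⟩ := PRE_from r i j p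
  obtain ⟨F, hF1, hF2⟩ := back (OR (PRE_nr r i j p)) g (gl _ j) (by
    rw [hg1 i hij, hg2])
  have hF : ∀ x, F (ι x) = g x := fun x => by rw [← hF1]; rfl
  have h1 : F.comp f = MonoidHom.id _ := by
    refine PRE_ext _ _ _ fun k => ?_
    by_cases hk : k = j
    · subst hk
      simp only [MonoidHom.comp_apply, MonoidHom.id_apply, hf2, hF2]
    · simp only [MonoidHom.comp_apply, MonoidHom.id_apply, hf1 k hk, hF, hg1 k hk]
  have h2 : f.comp F = MonoidHom.id _ := by
    refine gen _ _ ?_ ?_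
    · refine PRE_ext _ _ _ fun k => ?_
      by_cases hk : k = j
      · subst hk
        simp only [MonoidHom.comp_apply, MonoidHom.id_apply, hF, hg2, map_mul, map_zpow, map_inv,
          hf2, hf1 i hij]
        exact hs
      · simp only [MonoidHom.comp_apply, MonoidHom.id_apply, hF, hg1 k hk, hf1 k hk]
    · simp only [MonoidHom.comp_apply, MonoidHom.id_apply, hF2, hf2]
  refine ⟨MulEquiv.mk' ⟨f, F, fun x => ?_, fun x => ?_⟩ (fun a b => map_mul f a b), ?_, ?_⟩
  · exact DFunLike.congr_fun h1 x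
  · exact DFunLike.congr_fun h2 x
  · intro k hk; exact hf1 k hk
  · exact hf2

theorem p_PRE : T_PRE := by
  intro n r i j p hij hp hi hj
  obtain ⟨θ, hθ⟩ := PRE_theta (gl r i ^ p) (gl r j) (PRE_pow _ p hp hi) hj
  have hθ1 : (θ ⟨gl r i ^ p, Subgroup.mem_zpowers _⟩ : OR r) = gl r j := by
    have h := hθ 1
    simpa using h
  refine ⟨θ, hθ1, ?_⟩
  refine PRE_equiv r i j p hij (of (φ := θ)) t ?_ ?_ ?_
  · have h := equiv_eq_conj (φ := θ) ⟨gl r i ^ p, Subgroup.mem_zpowers _⟩
    rw [hθ1] at h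
    rw [h, map_zpow]
  · intro Q _ f q hq
    refine ⟨lift f q ?_, ?_, ?_⟩
    · rintro ⟨a, ha⟩
      obtain ⟨m, rfl⟩ := Subgroup.mem_zpowers_iff.1 ha
      have h1 : (θ ⟨(gl r i ^ p) ^ m, ha⟩ : OR r) = gl r j ^ m := hθ m
      rw [h1]
      simp only [map_zpow]
      rw [← hq]
      rw [← map_zpow, ← map_zpow]
      have : ∀ x : Q, (q * x * q⁻¹) ^ m = q * x ^ m * q⁻¹ := fun x => by
        rw [← MulAut.conj_apply, ← MulAut.conj_apply, map_zpow]
      rw [map_zpow f, this]
      simp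
    · refine MonoidHom.ext fun x => ?_
      simp
    · simp
  · intro F F' h1 h2
    exact hom_ext h1 h2

theorem p_PRS : T_PRS := by
  intro n r i j p hij hp hi hj
  obtain ⟨θ, hθ⟩ := PRE_theta (gl r j) (gl r i ^ p) hj (PRE_pow _ p hp hi)
  have hθ1 : (θ ⟨gl r j, Subgroup.mem_zpowers _⟩ : OR r) = gl r i ^ p := by
    have h := hθ 1
    simpa using h
  refine ⟨θ, hθ1, ?_⟩
  refine PRE_equiv r i j p hij (of (φ := θ)) t⁻¹ ?_ ?_ ?_
  · have h := equiv_eq_conj (φ := θ) ⟨gl r j, Subgroup.mem_zpowers _⟩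
    rw [hθ1, map_zpow] at h
    rw [h]
    group
  · intro Q _ f q hq
    refine ⟨lift f q⁻¹ ?_, ?_, ?_⟩
    · rintro ⟨a, ha⟩
      obtain ⟨m, rfl⟩ := Subgroup.mem_zpowers_iff.1 ha
      have h1 : (θ ⟨gl r j ^ m, ha⟩ : OR r) = (gl r i ^ p) ^ m := hθ m
      rw [h1]
      simp only [map_zpow]
      rw [← hq]
      have : ∀ x : Q, (q * x * q⁻¹) ^ m = q * x ^ m * q⁻¹ := fun x => by
        rw [← MulAut.conj_apply, ← MulAut.conj_apply, map_zpow]
      rw [this]
      group
    · refine MonoidHom.ext fun x => ?_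
      simp
    · simp
  · intro F F' h1 h2
    refine hom_ext h1 ?_
    rw [map_inv, map_inv] at h2
    exact inv_injective h2

end

end HGP
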