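import Pool.Agent.HGP.TargetsF

/-!
# HGP: one of two letters survives in a homomorphism to the integers (`T_RK`)
-/

open HNNExtension HNNExtension.NormalWord

namespace HGP

noncomputable section

/-- the exponent sum of the letter `i` -/
def RK_s {n : ℕ} (i : Fin n) : FreeGroup (Fin n) →* Multiplicative ℤ :=
  FreeGroup.lift (fun k => if k = i then Multiplicative.ofAdd 1 else 1)

theorem RK_s_self {n : ℕ} (i : Fin n) :
    RK_s i (FreeGroup.of i) = Multiplicative.ofAdd (1 : ℤ) := by
  simp [RK_s]

theorem RK_s_ne {n : ℕ} (i k : Fin n) (h : k ≠ i) : RK_s i (FreeGroup.of k) = 1 := by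
  simp [RK_s, h]

/-- a homomorphism which kills the relator descends -/
theorem RK_desc {n : ℕ} (r : FreeGroup (Fin n)) (ψ : FreeGroup (Fin n) →* Multiplicative ℤ)
    (h : ψ r = 1) : ∃ β : OR r →* Multiplicative ℤ, ∀ k, β (gl r k) = ψ (FreeGroup.of k) := by
  have h1 : FreeGroup.lift (fun k => ψ (FreeGroup.of k)) = ψ := by
    ext k
    simp
  have h2 : ∀ w ∈ ({r} : Set (FreeGroup (Fin n))),
      FreeGroup.lift (fun k => ψ (FreeGroup.of k)) w = 1 := by
    intro w hw
    rw [Set.mem_singleton_iff] at hw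
    subst hw
    rw [h1]
    exact h
  refine ⟨PresentedGroup.toGroup h2, ?_⟩
  intro k
  exact PresentedGroup.toGroup.of h2

theorem RK_ofAdd_ne (m : ℤ) (h : m ≠ 0) : Multiplicative.ofAdd m ≠ 1 := by
  intro h1
  apply h
  exact Multiplicative.ofAdd.injective h1

theorem p_RK : T_RK := by
  intro n r i j hij
  by_cases hi : RK_s i r = 1
  · left
    obtain ⟨β, hβ⟩ := RK_desc r (RK_s i) hi
    refine ⟨β, ?_⟩
    rw [hβ, RK_s_self]
    exact RK_ofAdd_ne 1 one_ne_zero
  · by_cases hj : RK_s j r = 1
    · right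
      obtain ⟨β, hβ⟩ := RK_desc r (RK_s j) hj
      refine ⟨β, ?_⟩
      rw [hβ, RK_s_self]
      exact RK_ofAdd_ne 1 one_ne_zero
    · left
      obtain ⟨β, hβ⟩ := RK_desc r
        (((zpowGroupHom (Multiplicative.toAdd (RK_s j r))).comp (RK_s i)) *
          ((zpowGroupHom (-(Multiplicative.toAdd (RK_s i r)))).comp (RK_s j))) (by
          rw [MonoidHom.mul_apply, MonoidHom.comp_apply, MonoidHom.comp_apply,
            zpowGroupHom_apply, zpowGroupHom_apply]
          apply Multiplicative.toAdd.injective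
          rw [toAdd_mul, toAdd_zpow, toAdd_zpow, toAdd_one, smul_eq_mul, smul_eq_mul]
          ring)
      refine ⟨β, ?_⟩
      rw [hβ, MonoidHom.mul_apply, MonoidHom.comp_apply, MonoidHom.comp_apply,
        zpowGroupHom_apply, zpowGroupHom_apply, RK_s_self, RK_s_ne j i hij, one_zpow, mul_one]
      intro h1
      apply hj
      apply Multiplicative.toAdd.injective
      have h2 := congrArg Multiplicative.toAdd h1
      rw [toAdd_zpow, toAdd_ofAdd, toAdd_one, smul_eq_mul, mul_one] at h2
      rw [h2, toAdd_one]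

end

end HGP
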