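import Pool.Agent.HGP.Targets

/-!
# HGP: roots
-/

open scoped InnerProductSpace ENNReal

namespace HGP

noncomputable section

section one

variable {H : Type} [Group H] {E : Type} [NormedAddCommGroup E] [InnerProductSpace ℝ E]

/-- the reindexing -/
def ROO_e (n : ℕ) [NeZero n] (Y0 : Type) : Fin n × (ℤ × Y0) ≃ ℤ × Y0 :=
  (Equiv.prodAssoc (Fin n) ℤ Y0).symm.trans
    (Equiv.prodCongr ((Equiv.prodComm (Fin n) ℤ).trans (Int.divModEquiv n).symm) (Equiv.refl Y0))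

lemma ROO_e_apply (n : ℕ) [NeZero n] (Y0 : Type) (i : Fin n) (k : ℤ) (y : Y0) :
    ROO_e n Y0 (i, (k, y)) = (k * n + (i : ℕ), y) := by
  simp [ROO_e, Int.divModEquiv]

lemma ROO_sum (hPQ : T_PQ) (π : H →* (E ≃ₗᵢ[ℝ] E)) (a : H) (n : ℕ) [NeZero n] {Y0 : Type}
    (lam0 : Y0 → E) (hB : Bes π (a ^ (n : ℤ)) lam0) (u : E) :
    HasSum (fun x : ℤ × Y0 => ⟪π (a ^ x.1) u, (√(n : ℝ))⁻¹ • lam0 x.2⟫_ℝ ^ 2)
      ((n : ℝ)⁻¹ * ∑ i : Fin n, pq π (a ^ (n : ℤ)) lam0 (π (a ^ ((i : ℕ) : ℤ)) u)) := by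
  obtain ⟨P, hP1, hP2, hP3, hP4, hP5⟩ := hPQ H E π (a ^ (n : ℤ)) Y0 lam0 hB
  set F : Fin n × (ℤ × Y0) → ℝ := fun z =>
    ⟪π ((a ^ (n : ℤ)) ^ z.2.1) (π (a ^ ((z.1 : ℕ) : ℤ)) u), lam0 z.2.2⟫_ℝ ^ 2 with hF
  have hsum : Summable F := by
    rw [summable_prod_of_nonneg (fun z => sq_nonneg _)]
    refine ⟨fun i => hP4 (π (a ^ ((i : ℕ) : ℤ)) u), Summable.of_finite⟩
  have htsum : ∑' z, F z = ∑ i : Fin n, pq π (a ^ (n : ℤ)) lam0 (π (a ^ ((i : ℕ) : ℤ)) u) := by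
    rw [hsum.tsum_prod, tsum_fintype]
    rfl
  have h1 : HasSum F (∑ i : Fin n, pq π (a ^ (n : ℤ)) lam0 (π (a ^ ((i : ℕ) : ℤ)) u)) := by
    rw [← htsum]; exact hsum.hasSum
  have h2 : HasSum (fun x : ℤ × Y0 => ⟪π (a ^ x.1) u, lam0 x.2⟫_ℝ ^ 2)
      (∑ i : Fin n, pq π (a ^ (n : ℤ)) lam0 (π (a ^ ((i : ℕ) : ℤ)) u)) := by
    rw [← (ROO_e n Y0).hasSum_iff]
    convert h1 using 1
    funext z
    obtain ⟨i, k, y⟩ := z
    simp only [Function.comp_apply, ROO_e_apply, hF]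
    have : a ^ (k * n + ((i : ℕ) : ℤ)) = (a ^ (n : ℤ)) ^ k * a ^ ((i : ℕ) : ℤ) := by
      rw [zpow_add, mul_comm k, zpow_mul]
    rw [this, map_mul]
    rfl
  have h3 := h2.mul_left ((n : ℝ)⁻¹)
  have h4 : (fun x : ℤ × Y0 => ⟪π (a ^ x.1) u, (√(n : ℝ))⁻¹ • lam0 x.2⟫_ℝ ^ 2) =
      fun x : ℤ × Y0 => (n : ℝ)⁻¹ * ⟪π (a ^ x.1) u, lam0 x.2⟫_ℝ ^ 2 := by
    funext x
    rw [inner_smul_right, mul_pow, inv_pow, Real.sq_sqrt (Nat.cast_nonneg n)]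
  rw [h4]
  exact h3

lemma ROO_bes (hPQ : T_PQ) (π : H →* (E ≃ₗᵢ[ℝ] E)) (a : H) (n : ℕ) [NeZero n] {Y0 : Type}
    (lam0 : Y0 → E) (hB : Bes π (a ^ (n : ℤ)) lam0) :
    Bes π a (fun y => (√(n : ℝ))⁻¹ • lam0 y) := by
  obtain ⟨P, hP1, hP2, hP3, hP4, hP5⟩ := hPQ H E π (a ^ (n : ℤ)) Y0 lam0 hB
  intro u s
  have hn : (0 : ℝ) < n := by exact_mod_cast Nat.pos_of_ne_zero (NeZero.ne n)
  have h := ROO_sum hPQ π a n lam0 hB u
  have h1 := sum_le_hasSum s (fun x _ => sq_nonneg _) h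
  refine h1.trans ?_
  have h2 : ∀ i : Fin n, pq π (a ^ (n : ℤ)) lam0 (π (a ^ ((i : ℕ) : ℤ)) u) ≤ ‖u‖ ^ 2 := by
    intro i
    rw [← hP1]
    have h3 := hP2 (π (a ^ ((i : ℕ) : ℤ)) u)
    rw [LinearIsometryEquiv.norm_map] at h3
    exact pow_le_pow_left₀ (apply_nonneg P _) h3 2
  have h4 : ∑ i : Fin n, pq π (a ^ (n : ℤ)) lam0 (π (a ^ ((i : ℕ) : ℤ)) u) ≤ n * ‖u‖ ^ 2 := by
    refine (Finset.sum_le_sum fun i _ => h2 i).trans ?_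
    simp
  calc (n : ℝ)⁻¹ * ∑ i : Fin n, pq π (a ^ (n : ℤ)) lam0 (π (a ^ ((i : ℕ) : ℤ)) u)
      ≤ (n : ℝ)⁻¹ * (n * ‖u‖ ^ 2) := mul_le_mul_of_nonneg_left h4 (by positivity)
    _ = ‖u‖ ^ 2 := by field_simp

lemma ROO_pq (hPQ : T_PQ) (π : H →* (E ≃ₗᵢ[ℝ] E)) (a : H) (n : ℕ) [NeZero n] {Y0 : Type}
    (lam0 : Y0 → E) (hB : Bes π (a ^ (n : ℤ)) lam0) (u : E) :
    pq π a (fun y => (√(n : ℝ))⁻¹ • lam0 y) u =
      (n : ℝ)⁻¹ * ∑ i : Fin n, pq π (a ^ (n : ℤ)) lam0 (π (a ^ ((i : ℕ) : ℤ)) u) :=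
  (ROO_sum hPQ π a n lam0 hB u).tsum_eq

lemma ROO_c0a (hPQ : T_PQ) (π : H →* (E ≃ₗᵢ[ℝ] E)) (a : H) (n : ℕ) [NeZero n] {Y0 : Type}
    (lam0 : Y0 → E) (hB : Bes π (a ^ (n : ℤ)) lam0) (hC : C0A π (a ^ (n : ℤ)) lam0) :
    C0A π a (fun y => (√(n : ℝ))⁻¹ • lam0 y) := by
  have hn : (0 : ℝ) < n := by exact_mod_cast Nat.pos_of_ne_zero (NeZero.ne n)
  intro u δ hδ
  obtain ⟨T, hT⟩ := hC u δ hδ
  refine ⟨T, fun h hh => ?_⟩
  rw [ROO_pq hPQ π a n lam0 hB] at hh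
  have h1 : ∃ i : Fin n, δ ≤ pq π (a ^ (n : ℤ)) lam0 (π (a ^ ((i : ℕ) : ℤ)) (π h u)) := by
    by_contra hcon
    push Not at hcon
    have h2 : ∑ i : Fin n, pq π (a ^ (n : ℤ)) lam0 (π (a ^ ((i : ℕ) : ℤ)) (π h u)) <
        ∑ _i : Fin n, δ :=
      Finset.sum_lt_sum_of_nonempty Finset.univ_nonempty fun i _ => hcon i
    rw [Finset.sum_const, Finset.card_univ, Fintype.card_fin, nsmul_eq_mul] at h2
    have h3 := mul_lt_mul_of_pos_left h2 (inv_pos.2 hn)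
    rw [inv_mul_cancel_left₀ hn.ne'] at h3
    linarith
  obtain ⟨i, hi⟩ := h1
  have h4 : π (a ^ ((i : ℕ) : ℤ)) (π h u) = π (a ^ ((i : ℕ) : ℤ) * h) u := by
    rw [map_mul]; rfl
  rw [h4] at hi
  obtain ⟨m, x, hx, hmx⟩ := hT _ hi
  refine ⟨-((i : ℕ) : ℤ) + n * m, x, hx, ?_⟩
  rw [zpow_add, zpow_neg, zpow_mul, mul_assoc, ← hmx, inv_mul_cancel_left]

lemma ROO_ai (hPQ : T_PQ) (π : H →* (E ≃ₗᵢ[ℝ] E)) (a : H) (n : ℕ) [NeZero n] {Y0 : Type}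
    (lam0 : Y0 → E) (hB : Bes π (a ^ (n : ℤ)) lam0) (ξ : E) (ε : ℝ) (hε : 0 ≤ ε) (hε2 : 2 * ε ≤ 1)
    (h1 : 1 - ε ≤ pq π (a ^ (n : ℤ)) lam0 ξ)
    (h2 : ∀ i : Fin n, ‖π (a ^ ((i : ℕ) : ℤ)) ξ - ξ‖ ≤ ε) :
    1 - 4 * ε ≤ pq π a (fun y => (√(n : ℝ))⁻¹ • lam0 y) ξ := by
  have hn : (0 : ℝ) < n := by exact_mod_cast Nat.pos_of_ne_zero (NeZero.ne n)
  obtain ⟨P, hP1, hP2, hP3, hP4, hP5⟩ := hPQ H E π (a ^ (n : ℤ)) Y0 lam0 hB
  rw [ROO_pq hPQ π a n lam0 hB]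
  have h3 : 1 - ε ≤ P ξ := by
    rw [← hP1] at h1
    by_contra hcon
    push Not at hcon
    have h0 := apply_nonneg P ξ
    nlinarith
  have h4 : ∀ i : Fin n, 1 - 4 * ε ≤ pq π (a ^ (n : ℤ)) lam0 (π (a ^ ((i : ℕ) : ℤ)) ξ) := by
    intro i
    rw [← hP1]
    have h5 : P ξ ≤ P (π (a ^ ((i : ℕ) : ℤ)) ξ) + P (π (a ^ ((i : ℕ) : ℤ)) ξ - ξ) := by
      have h6 := map_sub_le_add P (π (a ^ ((i : ℕ) : ℤ)) ξ) (π (a ^ ((i : ℕ) : ℤ)) ξ - ξ)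
      rwa [sub_sub_cancel] at h6
    have h7 := (hP2 (π (a ^ ((i : ℕ) : ℤ)) ξ - ξ)).trans (h2 i)
    have h8 : 1 - 2 * ε ≤ P (π (a ^ ((i : ℕ) : ℤ)) ξ) := by linarith
    nlinarith
  have h9 : n * (1 - 4 * ε) ≤
      ∑ i : Fin n, pq π (a ^ (n : ℤ)) lam0 (π (a ^ ((i : ℕ) : ℤ)) ξ) := by
    have h10 := Finset.sum_le_sum (s := Finset.univ) fun (i : Fin n) _ => h4 i
    rw [Finset.sum_const, Finset.card_univ, Fintype.card_fin, nsmul_eq_mul] at h10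
    exact h10
  calc 1 - 4 * ε = (n : ℝ)⁻¹ * (n * (1 - 4 * ε)) := by field_simp
    _ ≤ _ := mul_le_mul_of_nonneg_left h9 (by positivity)

lemma ROO_inv (π : H →* (E ≃ₗᵢ[ℝ] E)) (b : H) {Y0 : Type} (lam0 : Y0 → E) :
    (∀ u, pq π b⁻¹ lam0 u = pq π b lam0 u) ∧ (Bes π b⁻¹ lam0 → Bes π b lam0) ∧
      (C0A π b⁻¹ lam0 → C0A π b lam0) := by
  have h1 : ∀ u, pq π b⁻¹ lam0 u = pq π b lam0 u := by
    intro u
    unfold pq
    rw [← (Equiv.prodCongr (Equiv.neg ℤ) (Equiv.refl Y0)).tsum_eq]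
    refine tsum_congr fun x => ?_
    simp
  refine ⟨h1, ?_, ?_⟩
  · intro h u s
    classical
    have h2 := h u (s.map (Equiv.prodCongr (Equiv.neg ℤ) (Equiv.refl Y0)).toEmbedding)
    rw [Finset.sum_map] at h2
    simpa using h2
  · intro h u δ hδ
    obtain ⟨T, hT⟩ := h u δ hδ
    refine ⟨T, fun g hg => ?_⟩
    rw [← h1] at hg
    obtain ⟨m, x, hx, hmx⟩ := hT g hg
    refine ⟨-m, x, hx, ?_⟩
    rw [hmx, inv_zpow, zpow_neg]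

end one

/-- roots -/
theorem p_ROO (hPQ : T_PQ) : T_ROO := by
  classical
  intro H _ a p l hp hQ S ε hε
  have hn0 : p.natAbs ≠ 0 := Int.natAbs_ne_zero.2 hp
  have hne : NeZero p.natAbs := ⟨hn0⟩
  set n := p.natAbs with hn
  set ε' : ℝ := min ε 1 / 4 with hε'
  have hε'0 : 0 < ε' := by rw [hε']; positivity
  have hm1 : min ε 1 ≤ ε := min_le_left _ _
  have hm2 : min ε 1 ≤ 1 := min_le_right _ _
  have he1 : ε' ≤ ε := by rw [hε']; linarith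
  have he2 : 2 * ε' ≤ 1 := by rw [hε']; linarith
  have he3 : 4 * ε' ≤ ε := by rw [hε']; linarith
  obtain ⟨E, i1, i2, i3, π, Y, lam, ξ, hC0, hfam, hA1, hA2, hA3, hA4⟩ :=
    hQ (S ∪ (Finset.range n).image fun i => a ^ ((i : ℕ) : ℤ)) ε' hε'0
  obtain ⟨q, hqa, hqc⟩ : ∃ q : H → H, q a = a ^ p ∧ ∀ c, c ≠ a → q c = c :=
    ⟨fun c => if c = a then a ^ p else c, by simp, fun c hc => by simp [hc]⟩
  have hmem : q a ∈ a ^ p :: l := by rw [hqa]; exact List.mem_cons_self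
  have hb1 : Bes π (a ^ p) (lam (q a)) := by
    have := (hfam (q a) hmem).1
    rw [← hqa]; exact this
  have hb2 : C0A π (a ^ p) (lam (q a)) := by
    have := (hfam (q a) hmem).2
    rw [← hqa]; exact this
  have hb3 : 1 - ε' ≤ pq π (a ^ p) (lam (q a)) ξ := by
    have := hA4 (q a) hmem
    rw [← hqa]; exact this
  have hc : Bes π (a ^ (n : ℤ)) (lam (q a)) ∧ C0A π (a ^ (n : ℤ)) (lam (q a)) ∧
      1 - ε' ≤ pq π (a ^ (n : ℤ)) (lam (q a)) ξ := by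
    rcases Int.natAbs_eq p with h | h
    · rw [← hn] at h
      rw [← h]; exact ⟨hb1, hb2, hb3⟩
    · rw [← hn] at h
      have h' : a ^ p = (a ^ (n : ℤ))⁻¹ := by rw [h, zpow_neg]
      rw [h'] at hb1 hb2 hb3
      obtain ⟨g1, g2, g3⟩ := ROO_inv π (a ^ (n : ℤ)) (lam (q a))
      refine ⟨g2 hb1, g3 hb2, ?_⟩
      rw [← g1]; exact hb3
  obtain ⟨hc1, hc2, hc3⟩ := hc
  refine ⟨E, i1, i2, i3, π, fun c => Y (q c),
    fun c y => (if c = a then (√(n : ℝ))⁻¹ else 1) • lam (q c) y, ξ, hC0, ?_, hA1, by linarith,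
    fun s hs => (hA3 s (Finset.mem_union_left _ hs)).trans he1, ?_⟩
  · intro c hcl
    by_cases hca : c = a
    · subst hca
      simp only [if_true]
      exact ⟨ROO_bes hPQ π c n _ hc1, ROO_c0a hPQ π c n _ hc1 hc2⟩
    · have hcl' : c ∈ l := by
        rcases List.mem_cons.1 hcl with h | h
        · exact absurd h hca
        · exact h
      have h1 := hfam c (List.mem_cons_of_mem _ hcl')
      simp only [hca, if_false, one_smul]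
      have h2 : ∀ b, b = c → Bes π c (lam b) ∧ C0A π c (lam b) := by
        intro b hb; subst hb; exact h1
      exact h2 (q c) (hqc c hca)
  · intro c hcl
    by_cases hca : c = a
    · subst hca
      simp only [if_true]
      have h1 := ROO_ai hPQ π c n (lam (q c)) hc1 ξ ε' hε'0.le he2 hc3 (fun i => by
        apply hA3
        apply Finset.mem_union_right
        rw [Finset.mem_image]
        exact ⟨i, Finset.mem_range.2 i.2, rfl⟩)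
      linarith
    · have hcl' : c ∈ l := by
        rcases List.mem_cons.1 hcl with h | h
        · exact absurd h hca
        · exact h
      have h1 := hA4 c (List.mem_cons_of_mem _ hcl')
      simp only [hca, if_false, one_smul]
      have h2 : ∀ b, b = c → 1 - ε ≤ pq π c (lam b) ξ := by
        intro b hb; subst hb; linarith
      exact h2 (q c) (hqc c hca)

end

end HGP
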