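import Pool.Agent.HGP.TargetsF

/-!
# HGP: adjoining a root to a generator, a retract of an HNN extension of a free product
-/

open HNNExtension HNNExtension.NormalWord

namespace HGP

noncomputable section

/-- two elements of infinite order generate isomorphic subgroups -/
lemma RTP_theta {K : Type} [Group K] (x y : K) (hx : ¬ IsOfFinOrder x) (hy : ¬ IsOfFinOrder y) :
    ∃ θ : Subgroup.zpowers x ≃* Subgroup.zpowers y,
      (θ ⟨x, Subgroup.mem_zpowers x⟩ : K) = y := by
  have gen : ∀ w : K, ∀ z : Subgroup.zpowers w,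
      z ∈ Subgroup.zpowers (⟨w, Subgroup.mem_zpowers w⟩ : Subgroup.zpowers w) := by
    rintro w ⟨z, m, rfl⟩
    exact ⟨m, by ext; simp⟩
  have ho : orderOf (⟨x, Subgroup.mem_zpowers x⟩ : Subgroup.zpowers x) =
      orderOf (⟨y, Subgroup.mem_zpowers y⟩ : Subgroup.zpowers y) := by
    rw [Subgroup.orderOf_mk, Subgroup.orderOf_mk, orderOf_eq_zero hx, orderOf_eq_zero hy]
  exact ⟨mulEquivOfOrderOfEq (gen x) (gen y) ho, by rw [mulEquivOfOrderOfEq_apply_gen]⟩

/-- a nonzero power of the stable letter has infinite order -/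
lemma RTP_tinf {P : Type} [Group P] {A B : Subgroup P} (φ : A ≃* B) (k : ℤ) (hk : k ≠ 0) :
    ¬ IsOfFinOrder ((t : HNNExtension P A B φ) ^ k) := by
  intro h
  let β : HNNExtension P A B φ →* Multiplicative ℤ :=
    HNNExtension.lift (1 : P →* Multiplicative ℤ) (Multiplicative.ofAdd 1) (by simp)
  have h1 : IsOfFinOrder (β (t ^ k)) := MonoidHom.isOfFinOrder β h
  have h2 : β (t ^ k) = Multiplicative.ofAdd k := by
    rw [map_zpow]
    have : β t = Multiplicative.ofAdd 1 := HNNExtension.lift_t _ _ _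
    rw [this, ← ofAdd_zsmul]
    simp
  rw [h2, isOfFinOrder_iff_pow_eq_one] at h1
  obtain ⟨m, hm, h3⟩ := h1
  rw [← ofAdd_nsmul, ← ofAdd_zero] at h3
  have h4 : m • k = 0 := Multiplicative.ofAdd.injective h3
  rw [nsmul_eq_mul, mul_eq_zero] at h4
  rcases h4 with h4 | h4
  · exact hm.ne' (by exact_mod_cast h4)
  · exact hk h4

theorem p_RTP : T_RTP := by
  intro n r i k hk hr φ
  have hg : ¬ IsOfFinOrder (of (gl r i) : HNNExtension (OR r) ⊥ ⊥ φ) := by
    intro h
    exact hr (((HNNExtension.of_injective φ).isOfFinOrder_iff (f := of)).1 h)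
  obtain ⟨θ, hθ⟩ := RTP_theta (of (gl r i) : HNNExtension (OR r) ⊥ ⊥ φ)
    ((t : HNNExtension (OR r) ⊥ ⊥ φ) ^ k) hg (RTP_tinf φ k hk)
  refine ⟨θ, hθ, ?_⟩
  -- the target
  let G' := HNNExtension (HNNExtension (OR r) ⊥ ⊥ φ) (Subgroup.zpowers (of (gl r i)))
    (Subgroup.zpowers (t ^ k)) θ
  let r' : FreeGroup (Fin n) := sb i (FreeGroup.of i ^ k) r
  let F : Fin n → G' := Function.update (fun l => t * of (of (gl r l)) * t⁻¹) i (of t)
  have hFi : F i = of t := Function.update_self _ _ _
  have hFl : ∀ l, l ≠ i → F l = t * of (of (gl r l)) * t⁻¹ := fun l hl =>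
    Function.update_of_ne hl _ _
  have hkey : (of t : G') ^ k = t * of (of (gl r i)) * t⁻¹ := by
    have h := HNNExtension.equiv_eq_conj (φ := θ) ⟨of (gl r i), Subgroup.mem_zpowers _⟩
    rw [hθ, map_zpow] at h
    exact h
  let c : FreeGroup (Fin n) →* G' := (MulAut.conj (t : G')).toMonoidHom.comp
    ((of : HNNExtension (OR r) ⊥ ⊥ φ →* G').comp
      ((of : OR r →* HNNExtension (OR r) ⊥ ⊥ φ).comp (PresentedGroup.mk {r})))
  have hc : (FreeGroup.lift F).comp
      (FreeGroup.lift (Function.update FreeGroup.of i (FreeGroup.of i ^ k))) = c := by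
    ext l
    by_cases hl : l = i
    · subst hl
      rw [MonoidHom.comp_apply, FreeGroup.lift_apply_of, Function.update_self, map_zpow,
        FreeGroup.lift_apply_of, hFi, hkey]
      rfl
    · rw [MonoidHom.comp_apply, FreeGroup.lift_apply_of, Function.update_of_ne hl,
        FreeGroup.lift_apply_of, hFl l hl]
      rfl
  have hrel : ∀ s ∈ ({r'} : Set (FreeGroup (Fin n))), FreeGroup.lift F s = 1 := by
    intro s hs
    rw [Set.mem_singleton_iff] at hs
    subst hs
    have h1 : FreeGroup.lift F r' = c r := by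
      rw [← hc]
      rfl
    rw [h1]
    have h2 : PresentedGroup.mk {r} r = 1 := PresentedGroup.one_of_mem (Set.mem_singleton r)
    show (MulAut.conj (t : G')) (of (of (PresentedGroup.mk {r} r))) = 1
    rw [h2, map_one, map_one, map_one]
  -- the retraction
  let gl' : Fin n → OR r' := gl r'
  have hrel0 : ∀ s ∈ ({r} : Set (FreeGroup (Fin n))),
      FreeGroup.lift (Function.update gl' i (gl' i ^ k)) s = 1 := by
    intro s hs
    rw [Set.mem_singleton_iff] at hs
    subst hs
    have h1 : (FreeGroup.lift (Function.update gl' i (gl' i ^ k))) =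
        (PresentedGroup.mk {r'}).comp
          (FreeGroup.lift (Function.update FreeGroup.of i (FreeGroup.of i ^ k))) := by
      ext l
      by_cases hl : l = i
      · subst hl
        rw [MonoidHom.comp_apply, FreeGroup.lift_apply_of, Function.update_self,
          FreeGroup.lift_apply_of, Function.update_self, map_zpow]
        rfl
      · rw [MonoidHom.comp_apply, FreeGroup.lift_apply_of, Function.update_of_ne hl,
          FreeGroup.lift_apply_of, Function.update_of_ne hl]
        rfl
    rw [h1]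
    exact PresentedGroup.one_of_mem (Set.mem_singleton r')
  let R00 : OR r →* OR r' := PresentedGroup.toGroup hrel0
  have hR00i : R00 (gl r i) = gl' i ^ k := by
    show PresentedGroup.toGroup hrel0 (PresentedGroup.of i) = _
    rw [PresentedGroup.toGroup.of, Function.update_self]
  have hR00l : ∀ l, l ≠ i → R00 (gl r l) = gl' l := by
    intro l hl
    show PresentedGroup.toGroup hrel0 (PresentedGroup.of l) = _
    rw [PresentedGroup.toGroup.of, Function.update_of_ne hl]
  let R0 : HNNExtension (OR r) ⊥ ⊥ φ →* OR r' := HNNExtension.lift R00 (gl' i) (by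
    rintro ⟨a, ha⟩
    have h1 : a = 1 := Subgroup.mem_bot.1 ha
    subst h1
    have h2 : φ ⟨1, ha⟩ = 1 := map_one φ
    rw [h2]
    simp)
  have hR0t : R0 t = gl' i := HNNExtension.lift_t _ _ _
  have hR0o : ∀ g, R0 (of g) = R00 g := fun g => HNNExtension.lift_of _ _ _ g
  let R : G' →* OR r' := HNNExtension.lift R0 1 (by
    rintro ⟨a, m, rfl⟩
    have h1 : (⟨(fun x => (of (gl r i) : HNNExtension (OR r) ⊥ ⊥ φ) ^ x) m, ⟨m, rfl⟩⟩ :
        Subgroup.zpowers (of (gl r i) : HNNExtension (OR r) ⊥ ⊥ φ)) =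
        ⟨of (gl r i), Subgroup.mem_zpowers _⟩ ^ m := by
      ext
      simp
    have h2 : (θ ⟨(fun x => (of (gl r i) : HNNExtension (OR r) ⊥ ⊥ φ) ^ x) m, ⟨m, rfl⟩⟩ :
        HNNExtension (OR r) ⊥ ⊥ φ) = (t ^ k) ^ m := by
      rw [h1, map_zpow, Subgroup.coe_zpow, hθ]
    rw [h2]
    simp only [one_mul, mul_one, map_zpow, hR0t, hR0o, hR00i])
  have hRt : R t = 1 := HNNExtension.lift_t _ _ _
  have hRo : ∀ g, R (of g) = R0 g := fun g => HNNExtension.lift_of _ _ _ g
  let f : OR r' →* G' := PresentedGroup.toGroup hrel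
  have hfo : ∀ l, f (gl r' l) = F l := by
    intro l
    show PresentedGroup.toGroup hrel (PresentedGroup.of l) = _
    rw [PresentedGroup.toGroup.of]
  have hRf : R.comp f = MonoidHom.id _ := by
    apply PresentedGroup.ext
    intro l
    show R (f (gl r' l)) = gl r' l
    rw [hfo]
    by_cases hl : l = i
    · subst hl
      rw [hFi, hRo, hR0t]
    · rw [hFl l hl, map_mul, map_mul, map_inv, hRt, hRo, hR0o, hR00l l hl]
      simp [gl']
  refine ⟨f, ?_, ?_, ?_⟩
  · intro a b hab
    have h1 := congrArg R hab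
    have h2 : ∀ x, R (f x) = x := fun x => DFunLike.congr_fun hRf x
    rwa [h2, h2] at h1
  · rw [hfo i, hFi]
  · intro l hl
    rw [hfo l, hFl l hl]

end

end HGP
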