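import Pool.Agent.HGP.TargetsF

/-!
# HGP, item RTS: adjoining a root
-/

open scoped InnerProductSpace ENNReal
open HNNExtension HNNExtension.NormalWord

namespace HGP

noncomputable section

/-- the integers are torsion free -/
lemma RTS_pow_ne_one (x : Multiplicative ℤ) (hx : x ≠ 1) (k : ℤ) (hk : k ≠ 0) : x ^ k ≠ 1 := by
  intro h
  apply hx
  have h1 : Multiplicative.toAdd (x ^ k) = 0 := by rw [h]; rfl
  rw [toAdd_zpow, smul_eq_mul] at h1
  have h2 : Multiplicative.toAdd x = 0 := by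
    rcases mul_eq_zero.1 h1 with h3 | h3
    · exact absurd h3 hk
    · exact h3
  exact Multiplicative.toAdd.injective h2

theorem p_RTS (hRTP : T_RTP) (hIN0 : T_IN0) (hINH : T_INH) (hSVT : T_SVT) (hTRA : T_TRA)
    (hRES : T_RES) (hROO : T_ROO) (hSBL : T_SBL) (hQINF : T_QINF) : T_RTS := by
  intro n r i k hk hG
  unfold Gdn at hG
  have hmem : gl r i ∈ List.ofFn (gl r) := (List.mem_ofFn' (gl r) (gl r i)).2 ⟨i, rfl⟩
  have hinf : ¬ IsOfFinOrder (gl r i) := hQINF (OR r) _ hG _ hmem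
  have h0 := hIN0 (OR r) (MulEquiv.refl _) _ hG
  obtain ⟨θ, hθ, f, hf, hfi, hfl⟩ := hRTP n r i k hk hinf (MulEquiv.refl _)
  obtain ⟨β, hβ, -⟩ := hSVT (OR r) ⊥ ⊥ (MulEquiv.refl _)
  have hβk : β (t ^ k) ≠ 1 := by
    rw [map_zpow]
    exact RTS_pow_ne_one _ hβ k hk
  have h1 := hINH _ (of (gl r i)) (t ^ k) β hβk _ (List.mem_map_of_mem hmem) h0 θ hθ
  have h2 := hTRA _ _ (MulAut.conj (t : HNNExtension (HNNExtension (OR r) ⊥ ⊥ (MulEquiv.refl _))
    (Subgroup.zpowers (of (gl r i))) (Subgroup.zpowers (t ^ k)) θ)) _ h1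
  have hconj : (MulAut.conj (t : HNNExtension (HNNExtension (OR r) ⊥ ⊥ (MulEquiv.refl _))
      (Subgroup.zpowers (of (gl r i))) (Subgroup.zpowers (t ^ k)) θ)) (of (of (gl r i))) =
      (of t) ^ k := by
    rw [MulAut.conj_apply]
    have e := HNNExtension.equiv_eq_conj (φ := θ)
      (⟨of (gl r i), Subgroup.mem_zpowers _⟩ : Subgroup.zpowers (of (gl r i)))
    rw [hθ] at e
    rw [← map_zpow]
    exact e.symm
  have hmemk : ((of t) ^ k : HNNExtension (HNNExtension (OR r) ⊥ ⊥ (MulEquiv.refl _))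
      (Subgroup.zpowers (of (gl r i))) (Subgroup.zpowers (t ^ k)) θ) ∈
      (((List.ofFn (gl r)).map of).map of).map (MulAut.conj (t : HNNExtension
        (HNNExtension (OR r) ⊥ ⊥ (MulEquiv.refl _))
        (Subgroup.zpowers (of (gl r i))) (Subgroup.zpowers (t ^ k)) θ)) := by
    rw [← hconj]
    exact List.mem_map_of_mem (List.mem_map_of_mem (List.mem_map_of_mem hmem))
  have h3 := hROO _ (of t) k _ hk (hSBL _ _ (((of t) ^ k) :: _) (fun c hc => by
    rcases List.mem_cons.1 hc with rfl | hc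
    · exact hmemk
    · exact hc) h2)
  refine hRES _ _ f hf _ (hSBL _ _ _ (fun c hc => ?_) h3)
  rw [List.mem_map] at hc
  obtain ⟨x, hx, rfl⟩ := hc
  obtain ⟨l, rfl⟩ := (List.mem_ofFn' _ x).1 hx
  by_cases hl : l = i
  · subst hl
    rw [hfi]
    exact List.mem_cons_self
  · rw [hfl l hl]
    refine List.mem_cons_of_mem _ ?_
    have e : t * of (of (gl r l)) * t⁻¹ = (MulAut.conj (t : HNNExtension (HNNExtension (OR r) ⊥ ⊥
        (MulEquiv.refl _)) (Subgroup.zpowers (of (gl r i))) (Subgroup.zpowers (t ^ k)) θ))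
        (of (of (gl r l))) := by
      rw [MulAut.conj_apply]
    rw [e]
    exact List.mem_map_of_mem (List.mem_map_of_mem (List.mem_map_of_mem
      ((List.mem_ofFn' (gl r) (gl r l)).2 ⟨l, rfl⟩)))

end

end HGP
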