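import Pool.Agent.HGP.Targets

/-!
# HGP: the Haagerup property gives `C_0` representations with almost invariant vectors
-/

open scoped InnerProductSpace ENNReal

namespace HGP

noncomputable section

/-- the Gaussian of the displacement of the origin -/
def SCH_f {G : Type} [Group G] {E : Type} [NormedAddCommGroup E] [InnerProductSpace ℝ E]
    (ρ : G →* (E ≃ᵃⁱ[ℝ] E)) (s : ℝ) (g : G) : ℝ := Real.exp (-(s * ‖ρ g 0‖ ^ 2))

section

variable {G : Type} [Group G] {E : Type} [NormedAddCommGroup E] [InnerProductSpace ℝ E]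
  (ρ : G →* (E ≃ᵃⁱ[ℝ] E)) (s : ℝ)

theorem SCH_dist (g h : G) : ‖ρ (g * h⁻¹) 0‖ = ‖ρ g⁻¹ 0 - ρ h⁻¹ 0‖ := by
  have h1 : ρ (g * h⁻¹) 0 = ρ g (ρ h⁻¹ 0) := by rw [map_mul]; rfl
  have h2 : ρ g (ρ g⁻¹ 0) = 0 := by
    have : ρ g (ρ g⁻¹ 0) = (ρ g * ρ g⁻¹) 0 := rfl
    rw [this, ← map_mul, mul_inv_cancel, map_one]; rfl
  calc ‖ρ (g * h⁻¹) 0‖ = dist (ρ g (ρ h⁻¹ 0)) (ρ g (ρ g⁻¹ 0)) := by
        rw [h1, h2, dist_zero_right]
    _ = dist (ρ h⁻¹ 0) (ρ g⁻¹ 0) := (ρ g).dist_map _ _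
    _ = ‖ρ g⁻¹ 0 - ρ h⁻¹ 0‖ := by rw [dist_eq_norm, norm_sub_rev]

theorem SCH_one : SCH_f ρ s 1 = 1 := by
  have : (ρ 1) 0 = 0 := by rw [map_one]; rfl
  unfold SCH_f
  rw [this]; simp

theorem SCH_inv (g : G) : SCH_f ρ s g⁻¹ = SCH_f ρ s g := by
  have h := SCH_dist ρ 1 g
  have h0 : (ρ (1 : G)⁻¹) 0 = 0 := by rw [inv_one, map_one]; rfl
  have h' := SCH_dist ρ g 1
  have h2 := SCH_dist ρ g⁻¹ 1
  rw [h0] at h' h2
  unfold SCH_f
  rw [inv_inv] at h2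
  have e1 : g⁻¹ * (1 : G)⁻¹ = g⁻¹ := by simp
  have e2 : g * (1 : G)⁻¹ = g := by simp
  rw [e1, sub_zero] at h2
  rw [e2, sub_zero] at h'
  rw [h2]

theorem SCH_pos (hEXP : T_EXP) (hs : 0 < s) (k : ℕ) (g : Fin k → G) (f : Fin k → ℝ) :
    0 ≤ ∑ i, ∑ j, f i * f j * SCH_f ρ s (g i * (g j)⁻¹) := by
  have h := hEXP E s hs k (fun i => ρ (g i)⁻¹ 0) f
  refine le_of_le_of_eq h (Finset.sum_congr rfl fun i _ => Finset.sum_congr rfl fun j _ => ?_)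
  unfold SCH_f
  rw [SCH_dist]

theorem SCH_fin (hs : 0 < s) (hρ : ∀ B : Set E, Bornology.IsBounded B →
      {g : G | ((fun v => ρ g v) '' B ∩ B).Nonempty}.Finite) (δ : ℝ) (hδ : 0 < δ) :
    {g : G | δ ≤ SCH_f ρ s g}.Finite := by
  have hB : Bornology.IsBounded (Metric.closedBall (0 : E) (|Real.log δ| / s + 1)) :=
    Metric.isBounded_closedBall
  refine (hρ _ hB).subset fun g hg => ?_
  have hg' : δ ≤ Real.exp (-(s * ‖ρ g 0‖ ^ 2)) := hg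
  have h1 : Real.log δ ≤ -(s * ‖ρ g 0‖ ^ 2) := (Real.log_le_iff_le_exp hδ).2 hg'
  have h2 : ‖ρ g 0‖ ^ 2 ≤ |Real.log δ| / s := by
    rw [le_div_iff₀ hs]
    have := neg_abs_le (Real.log δ)
    nlinarith [neg_le_abs (Real.log δ)]
  have h3 : ‖ρ g 0‖ ≤ |Real.log δ| / s + 1 := by
    have h0 : 0 ≤ |Real.log δ| / s := by positivity
    nlinarith [norm_nonneg (ρ g 0), sq_nonneg (‖ρ g 0‖ - 1)]
  have h0 : (0 : E) ∈ Metric.closedBall (0 : E) (|Real.log δ| / s + 1) := by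
    rw [Metric.mem_closedBall, dist_self]
    positivity
  refine ⟨ρ g 0, ⟨0, h0, rfl⟩, ?_⟩
  rw [Metric.mem_closedBall, dist_zero_right]
  exact h3

end

theorem p_SCH (hEXP : T_EXP) (hGNS : T_GNS) (hKGB : T_KGB) : T_SCH := by
  intro G _ hG S ε hε
  obtain ⟨E, i1, i2, i3, ρ, hρ⟩ := hG
  set N : ℝ := ∑ g ∈ S, ‖ρ g 0‖ ^ 2 with hN
  have hN0 : 0 ≤ N := Finset.sum_nonneg fun _ _ => by positivity
  set s : ℝ := ε ^ 2 / (2 * (N + 1)) with hs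
  have hs0 : 0 < s := by positivity
  set W : G → (ℝ →L[ℝ] ℝ) := fun g => SCH_f ρ s g • ContinuousLinearMap.id ℝ ℝ with hW
  have hWa : ∀ (g : G) (u v : ℝ), ⟪W g u, v⟫_ℝ = SCH_f ρ s g * u * v := by
    intro g u v
    simp [hW, mul_comm, mul_left_comm]
  obtain ⟨K, j1, j2, j3, P, ι, hP, hD⟩ := hGNS G ℝ W
    (by simp only [hW, SCH_one, one_smul]; rfl)
    (by
      intro g
      refine (ContinuousLinearMap.eq_adjoint_iff _ _).2 fun u v => ?_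
      rw [hWa, SCH_inv, real_inner_comm, hWa]
      ring)
    (by
      intro k g f
      have h := SCH_pos ρ s hEXP hs0 k g f
      refine le_of_le_of_eq h
        (Finset.sum_congr rfl fun i _ => Finset.sum_congr rfl fun j _ => ?_)
      rw [hWa]; ring)
  have hC : C0 P := by
    refine (hKGB G ℝ W K P ι hP hD).1 fun u v δ hδ => ?_
    have hc : 0 < |u * v| + 1 := by positivity
    refine (SCH_fin ρ s hs0 hρ (δ / (|u * v| + 1)) (by positivity)).subset fun g hg => ?_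
    have hg' : δ ≤ |⟪W g u, v⟫_ℝ| := hg
    have hf : 0 < SCH_f ρ s g := Real.exp_pos _
    rw [hWa, mul_assoc, abs_mul, abs_of_pos hf] at hg'
    have h1 : SCH_f ρ s g * |u * v| ≤ SCH_f ρ s g * (|u * v| + 1) := by
      apply mul_le_mul_of_nonneg_left _ hf.le
      linarith
    show δ / (|u * v| + 1) ≤ SCH_f ρ s g
    rw [div_le_iff₀ hc]
    linarith
  have hn : ‖ι (1 : ℝ)‖ = 1 := by rw [ι.norm_map]; simp
  refine ⟨K, j1, j2, j3, P, fun _ => PEmpty, fun _ y => y.elim, ι 1, hC, by simp, ?_, ?_, ?_,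
    by simp⟩
  · rw [hn]
  · rw [hn]; linarith
  · intro g hg
    have hPn : ‖P g (ι 1)‖ = 1 := by rw [LinearIsometryEquiv.norm_map, hn]
    have h1 : ‖P g (ι 1) - ι 1‖ ^ 2 = 2 - 2 * SCH_f ρ s g := by
      rw [norm_sub_sq_real, hPn, hn, hP, hWa]
      ring
    have h2 : 1 - s * ‖ρ g 0‖ ^ 2 ≤ SCH_f ρ s g := by
      have := Real.add_one_le_exp (-(s * ‖ρ g 0‖ ^ 2))
      unfold SCH_f
      linarith
    have h3 : ‖ρ g 0‖ ^ 2 ≤ N :=
      Finset.single_le_sum (f := fun g => ‖ρ g 0‖ ^ 2) (fun _ _ => by positivity) hg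
    have h4 : 2 * (s * ‖ρ g 0‖ ^ 2) ≤ ε ^ 2 := by
      have h5 : s * ‖ρ g 0‖ ^ 2 ≤ s * (N + 1) :=
        mul_le_mul_of_nonneg_left (by linarith) hs0.le
      have h6 : s * (N + 1) = ε ^ 2 / 2 := by
        rw [hs]; field_simp
      linarith
    have h7 : ‖P g (ι 1) - ι 1‖ ^ 2 ≤ ε ^ 2 := by rw [h1]; linarith
    exact (pow_le_pow_iff_left₀ (norm_nonneg _) hε.le two_ne_zero).1 h7

end

end HGP
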