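import Pool.Agent.HGP.Targets

/-!
# HGP: target T_SP (all properties of the operator valued function)
-/

open scoped InnerProductSpace
open HNNExtension HNNExtension.NormalWord

namespace HGP

set_option maxHeartbeats 4000000

section sp

variable {H : Type} [Group H] {E : Type} [NormedAddCommGroup E] [InnerProductSpace ℝ E]

lemma SP_cl_apply (π : H →* (E ≃ₗᵢ[ℝ] E)) (h : H) (u : E) : cl π h u = π h u := rfl

lemma SP_norm_cl (π : H →* (E ≃ₗᵢ[ℝ] E)) (h : H) : ‖cl π h‖ ≤ 1 := by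
  refine ContinuousLinearMap.opNorm_le_bound _ zero_le_one (fun u => ?_)
  rw [SP_cl_apply, LinearIsometryEquiv.norm_map, one_mul]

lemma SP_mul_inv (π : H →* (E ≃ₗᵢ[ℝ] E)) (h : H) (u : E) : π h (π h⁻¹ u) = u := by
  have h1 : (π h * π h⁻¹) u = u := by rw [← map_mul, mul_inv_cancel, map_one]; rfl
  exact h1

lemma SP_inv_mul (π : H →* (E ≃ₗᵢ[ℝ] E)) (h : H) (u : E) : π h⁻¹ (π h u) = u := by
  have h1 : (π h⁻¹ * π h) u = u := by rw [← map_mul, inv_mul_cancel, map_one]; rfl
  exact h1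

lemma SP_inner (π : H →* (E ≃ₗᵢ[ℝ] E)) (h : H) (u v : E) :
    ⟪π h u, v⟫_ℝ = ⟪u, π h⁻¹ v⟫_ℝ := by
  have h1 : ⟪π h u, π h (π h⁻¹ v)⟫_ℝ = ⟪u, π h⁻¹ v⟫_ℝ :=
    LinearIsometryEquiv.inner_map_map (π h) u (π h⁻¹ v)
  rwa [SP_mul_inv] at h1

variable [CompleteSpace E]

lemma SP_star (π : H →* (E ≃ₗᵢ[ℝ] E)) (h : H) : star (cl π h) = cl π h⁻¹ := by
  ext u
  refine ext_inner_right ℝ (fun v => ?_)
  rw [ContinuousLinearMap.star_eq_adjoint, ContinuousLinearMap.adjoint_inner_left,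
    SP_cl_apply, SP_cl_apply, SP_inner, inv_inv]

lemma SP_adj_tw {A B : Subgroup H} (φ : A ≃* B) (π : H →* (E ≃ₗᵢ[ℝ] E)) (V : E →L[ℝ] E)
    (tw : ∀ (a : A) (u : E), V (π (a : H) u) = π (φ a : H) (V u)) (b : B) (u : E) :
    ContinuousLinearMap.adjoint V (π (b : H) u) =
      π (φ.symm b : H) (ContinuousLinearMap.adjoint V u) := by
  refine ext_inner_right ℝ (fun v => ?_)
  rw [ContinuousLinearMap.adjoint_inner_left, SP_inner, SP_inner,
    ContinuousLinearMap.adjoint_inner_left]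
  have h1 := tw (φ.symm b)⁻¹ v
  rw [map_inv, MulEquiv.apply_symm_apply] at h1
  simp only [Subgroup.coe_inv] at h1
  rw [h1]

lemma SP_norm_vu (V : E →L[ℝ] E) (v : ℤˣ) :
    ‖vu V (ContinuousLinearMap.adjoint V) v‖ = ‖V‖ := by
  unfold vu
  split_ifs
  · rfl
  · exact LinearIsometryEquiv.norm_map _ V

end sp

theorem p_SP (hWP : T_WP) (hWI : T_WI) (hLN : T_LN) (hDECL : T_DECL) : T_SP := by
  intro H _ A B φ E _ _ _ π V W hS
  obtain ⟨ln1, ln2, ln3, ln4, ln5, ln6⟩ := hLN H A B φ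
  have hV : ∀ a : A, V * cl π a = cl π (φ a) * V := by
    intro a
    ext u
    exact hS.tw a u
  have hadj := SP_adj_tw φ π V hS.tw
  have hV' : ∀ b : B, ContinuousLinearMap.adjoint V * cl π b =
      cl π (φ.symm b) * ContinuousLinearMap.adjoint V := by
    intro b
    ext u
    exact hadj b u
  obtain ⟨w1, w2, w3, w4, w5⟩ := hWP H A B φ (E →L[ℝ] E) (cl π) V
    (ContinuousLinearMap.adjoint V) hV hV' W hS.evp
  have w6 := hWI H A B φ (E →L[ℝ] E) (cl π) V (SP_star π) W hS.evp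
  refine ⟨?_, ?_, ?_, ?_, w4, w5, w6, ?_, hadj⟩
  · intro h u
    rw [w1 h]; rfl
  · intro u
    have e1 : (t : HNNExtension H A B φ) = t ^ ((1 : ℤˣ) : ℤ) * 1 := by simp
    have l1 : len φ (1 : HNNExtension H A B φ) = 0 := by
      have := ln5 1
      rwa [map_one] at this
    have l2 : len φ (t ^ ((1 : ℤˣ) : ℤ) * (1 : HNNExtension H A B φ)) =
        len φ (1 : HNNExtension H A B φ) + 1 := by
      rcases ln6 1 1 with h | h
      · exact h
      · rw [l1] at h
        omega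
    have e2 := w4 1 1 l2
    rw [← e1] at e2
    have e3 : W 1 = 1 := by
      have := w1 1
      rwa [map_one, map_one] at this
    rw [e2, e3, mul_one]
    unfold vu
    rw [if_pos rfl]
  · intro h g u
    rw [w2 h g]; rfl
  · intro h g u
    rw [w3 h g]; rfl
  · intro g
    obtain ⟨hd, tu, tr, hdec⟩ := hDECL H A B φ
    generalize hn : len φ g = n
    induction n generalizing g with
    | zero =>
      obtain ⟨h, rfl⟩ := ln4 g hn
      rw [w1 h, pow_zero]
      exact SP_norm_cl π h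
    | succ n ih =>
      obtain ⟨h1, h2, -⟩ := hdec g (by omega)
      have h3 : len φ (tr g) = n := by omega
      have h4 : len φ (t ^ (tu g : ℤ) * tr g) = len φ (tr g) + 1 := by
        rw [← h2]
        conv_rhs => rw [h1]
        rw [ln1]
      have h5 : W g = cl π (hd g) * (vu V (ContinuousLinearMap.adjoint V) (tu g) * W (tr g)) := by
        conv_lhs => rw [h1]
        rw [w2, w4 _ _ h4]
      have h6 := ih (tr g) h3
      rw [h5]
      calc ‖cl π (hd g) * (vu V (ContinuousLinearMap.adjoint V) (tu g) * W (tr g))‖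
          ≤ ‖cl π (hd g)‖ * ‖vu V (ContinuousLinearMap.adjoint V) (tu g) * W (tr g)‖ :=
            norm_mul_le _ _
        _ ≤ 1 * (‖V‖ * ‖V‖ ^ n) := by
            refine mul_le_mul (SP_norm_cl π _) ?_ (norm_nonneg _) zero_le_one
            refine (norm_mul_le _ _).trans ?_
            rw [SP_norm_vu]
            exact mul_le_mul_of_nonneg_left h6 (norm_nonneg _)
        _ = ‖V‖ ^ (n + 1) := by ring

end HGP
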