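import Pool.Agent.HGP.Targets

/-!
# HGP: the almost invariant vectors, one step (helper76)
-/

set_option autoImplicit false

open scoped InnerProductSpace ENNReal

namespace HGP

noncomputable section

section STEP

variable {H : Type} [Group H] {E : Type} [NormedAddCommGroup E] [InnerProductSpace ℝ E]

theorem STEP_pq_smul {Y : Type} (π : H →* (E ≃ₗᵢ[ℝ] E)) (a : H) (lam : Y → E) (c : ℝ) (u : E) :
    pq π a lam (c • u) = c ^ 2 * pq π a lam u := by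
  unfold pq
  rw [← tsum_mul_left]
  refine tsum_congr fun i => ?_
  rw [map_smul, real_inner_smul_left, mul_pow]

theorem STEP_pq_nonneg {Y : Type} (π : H →* (E ≃ₗᵢ[ℝ] E)) (a : H) (lam : Y → E) (u : E) :
    0 ≤ pq π a lam u := tsum_nonneg fun _ => sq_nonneg _

theorem STEP_pq_le {Y : Type} (π : H →* (E ≃ₗᵢ[ℝ] E)) (a : H) (lam : Y → E)
    (hB : Bes π a lam) (u : E) : pq π a lam u ≤ ‖u‖ ^ 2 :=
  Real.tsum_le_of_sum_le (fun _ => sq_nonneg _) (hB u)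

/-- the shift by `k` -/
def STEP_Sk (Z : Type) (k : ℤ) : L2 (ℤ × Z) ℝ ≃ₗᵢ[ℝ] L2 (ℤ × Z) ℝ :=
  rei (sh Z (Multiplicative.ofAdd k)) (LinearIsometryEquiv.refl ℝ ℝ)

theorem STEP_Sk_apply (Z : Type) (k : ℤ) (f : L2 (ℤ × Z) ℝ) (n : ℤ) (z : Z) :
    STEP_Sk Z k f (n, z) = f (n - k, z) := rfl

theorem STEP_Sk_zero (Z : Type) (f : L2 (ℤ × Z) ℝ) : STEP_Sk Z 0 f = f := by
  ext ⟨n, z⟩
  rw [STEP_Sk_apply, sub_zero]

theorem STEP_Sk_succ (Z : Type) (m : ℤ) (f : L2 (ℤ × Z) ℝ) :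
    STEP_Sk Z (m + 1) f = S1 Z (STEP_Sk Z m f) := by
  ext ⟨n, z⟩
  rw [S1_apply, STEP_Sk_apply, STEP_Sk_apply]
  have : n - (m + 1) = n - 1 - m := by ring
  rw [this]

theorem STEP_Sk_neg (Z : Type) (m : ℤ) (f : L2 (ℤ × Z) ℝ) :
    STEP_Sk Z m (STEP_Sk Z (-m) f) = f := by
  ext ⟨n, z⟩
  rw [STEP_Sk_apply, STEP_Sk_apply]
  have : n - m - -m = n := by ring
  rw [this]

theorem STEP_Sk_nat (Z : Type) (m : ℕ) (f : L2 (ℤ × Z) ℝ) :
    ‖STEP_Sk Z (m : ℤ) f - f‖ ≤ m * ‖S1 Z f - f‖ := by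
  induction m with
  | zero => simp [STEP_Sk_zero]
  | succ m ih =>
    have e : STEP_Sk Z ((m + 1 : ℕ) : ℤ) f = S1 Z (STEP_Sk Z (m : ℤ) f) := by
      push_cast
      exact STEP_Sk_succ Z m f
    have e2 : S1 Z (STEP_Sk Z (m : ℤ) f) - f =
        S1 Z (STEP_Sk Z (m : ℤ) f - f) + (S1 Z f - f) := by
      rw [map_sub]
      abel
    rw [e, e2]
    refine (norm_add_le _ _).trans ?_
    rw [LinearIsometryEquiv.norm_map]
    push_cast
    linarith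

theorem STEP_Sk_int (Z : Type) (k : ℤ) (f : L2 (ℤ × Z) ℝ) :
    ‖STEP_Sk Z k f - f‖ ≤ |(k : ℝ)| * ‖S1 Z f - f‖ := by
  obtain ⟨m, rfl | rfl⟩ := k.eq_nat_or_neg
  · have := STEP_Sk_nat Z m f
    rwa [Int.cast_natCast, abs_of_nonneg (by positivity)]
  · have h1 := STEP_Sk_nat Z m f
    have h2 : ‖STEP_Sk Z (-(m : ℤ)) f - f‖ = ‖STEP_Sk Z (m : ℤ) f - f‖ := by
      rw [← LinearIsometryEquiv.norm_map (STEP_Sk Z (m : ℤ)) (STEP_Sk Z (-(m : ℤ)) f - f),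
        map_sub, STEP_Sk_neg, norm_sub_rev]
    rw [h2, Int.cast_neg, abs_neg, Int.cast_natCast, abs_of_nonneg (by positivity)]
    exact h1

/-- the representation on an elementary tensor -/
theorem STEP_pR_tens (Z : Type) (β : H →* Multiplicative ℤ) (π : H →* (E ≃ₗᵢ[ℝ] E)) (h : H)
    (η : L2 (ℤ × Z) ℝ) (w : E) :
    pR Z β π h (tens η w) = tens (STEP_Sk Z (Multiplicative.toAdd (β h)) η) (π h w) := by
  ext ⟨n, z⟩
  rw [pR_apply, tens_apply, tens_apply, STEP_Sk_apply, map_smul]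

theorem STEP_shift (Z : Type) (β : H →* Multiplicative ℤ) (π : H →* (E ≃ₗᵢ[ℝ] E)) (h : H)
    (η : L2 (ℤ × Z) ℝ) (w : E) (hw : ‖w‖ ≤ 1) (hη : ‖η‖ ≤ 1) :
    ‖pR Z β π h (tens η w) - tens η w‖ ≤ ‖π h w - w‖ +
      |((Multiplicative.toAdd (β h) : ℤ) : ℝ)| * ‖S1 Z η - η‖ := by
  rw [STEP_pR_tens]
  set k := Multiplicative.toAdd (β h) with hk
  have e : tens (STEP_Sk Z k η) (π h w) - tens η w =
      tens (STEP_Sk Z k η) (π h w - w) + tens (STEP_Sk Z k η - η) w := by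
    rw [tens_sub_right, tens_sub_left]
    abel
  rw [e]
  refine (norm_add_le _ _).trans ?_
  rw [norm_tens, norm_tens, LinearIsometryEquiv.norm_map]
  have h1 := STEP_Sk_int Z k η
  have h2 : ‖η‖ * ‖π h w - w‖ ≤ 1 * ‖π h w - w‖ :=
    mul_le_mul_of_nonneg_right hη (norm_nonneg _)
  have h3 : ‖STEP_Sk Z k η - η‖ * ‖w‖ ≤ ‖STEP_Sk Z k η - η‖ * 1 :=
    mul_le_mul_of_nonneg_left hw (norm_nonneg _)
  linarith

/-- norm bound for a family with a small tail -/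
theorem STEP_tail {I : Type} (η : L2 I ℝ) (hη : ‖η‖ ≤ 1) (ε : ℝ) (hε : 0 < ε) :
    ∃ F : Finset I, ∀ D : L2 I E, (∀ i, ‖D i‖ ≤ 2 * |η i|) →
      (∀ i ∈ F, ‖D i‖ ≤ ε / 2 * |η i|) → ‖D‖ ≤ ε := by
  classical
  have hs : Summable (fun i => ‖η i‖ ^ 2) := summable_sq_lp η
  have hn : ‖η‖ ^ 2 = ∑' i, ‖η i‖ ^ 2 := norm_sq_lp η
  obtain ⟨F, hF⟩ : ∃ F : Finset I, ‖η‖ ^ 2 - ε ^ 2 / 8 < ∑ i ∈ F, ‖η i‖ ^ 2 := by
    have h1 := hs.hasSum
    rw [← hn] at h1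
    have h2 : ∀ᶠ F in Filter.atTop, ‖η‖ ^ 2 - ε ^ 2 / 8 < ∑ i ∈ F, ‖η i‖ ^ 2 := by
      have h3 : Filter.Tendsto (fun F : Finset I => ∑ i ∈ F, ‖η i‖ ^ 2) Filter.atTop
          (nhds (‖η‖ ^ 2)) := h1
      refine h3.eventually (lt_mem_nhds ?_)
      have : 0 < ε ^ 2 := by positivity
      linarith
    exact h2.exists
  refine ⟨F, fun D h1 h2 => ?_⟩
  have key : ‖D‖ ^ 2 ≤ ε ^ 2 := by
    rw [norm_sq_lp]
    refine Real.tsum_le_of_sum_le (fun _ => sq_nonneg _) fun s => ?_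
    have hη2 : ‖η‖ ^ 2 ≤ 1 := pow_le_one₀ (norm_nonneg _) hη
    have b1 : ∑ i ∈ s ∩ F, ‖D i‖ ^ 2 ≤ ε ^ 2 / 4 := by
      calc ∑ i ∈ s ∩ F, ‖D i‖ ^ 2 ≤ ∑ i ∈ s ∩ F, ε ^ 2 / 4 * ‖η i‖ ^ 2 := by
            refine Finset.sum_le_sum fun i hi => ?_
            have := h2 i (Finset.mem_inter.1 hi).2
            have h4 := pow_le_pow_left₀ (norm_nonneg _) this 2
            rw [Real.norm_eq_abs]
            calc ‖D i‖ ^ 2 ≤ (ε / 2 * |η i|) ^ 2 := h4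
              _ = ε ^ 2 / 4 * |η i| ^ 2 := by ring
        _ = ε ^ 2 / 4 * ∑ i ∈ s ∩ F, ‖η i‖ ^ 2 := by rw [Finset.mul_sum]
        _ ≤ ε ^ 2 / 4 * 1 := by
            refine mul_le_mul_of_nonneg_left ?_ (by positivity)
            refine le_trans ?_ hη2
            rw [hn]
            exact hs.sum_le_tsum _ (fun _ _ => sq_nonneg _)
        _ = ε ^ 2 / 4 := by ring
    have b2 : ∑ i ∈ s \ F, ‖D i‖ ^ 2 ≤ ε ^ 2 / 2 := by
      have b3 : ∑ i ∈ s \ F, ‖η i‖ ^ 2 + ∑ i ∈ F, ‖η i‖ ^ 2 ≤ ‖η‖ ^ 2 := by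
        rw [← Finset.sum_union Finset.sdiff_disjoint, hn]
        exact hs.sum_le_tsum _ (fun _ _ => sq_nonneg _)
      calc ∑ i ∈ s \ F, ‖D i‖ ^ 2 ≤ ∑ i ∈ s \ F, 4 * ‖η i‖ ^ 2 := by
            refine Finset.sum_le_sum fun i hi => ?_
            have h4 := pow_le_pow_left₀ (norm_nonneg _) (h1 i) 2
            rw [Real.norm_eq_abs]
            calc ‖D i‖ ^ 2 ≤ (2 * |η i|) ^ 2 := h4
              _ = 4 * |η i| ^ 2 := by ring
        _ = 4 * ∑ i ∈ s \ F, ‖η i‖ ^ 2 := by rw [Finset.mul_sum]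
        _ ≤ ε ^ 2 / 2 := by linarith
    have b4 : ∑ i ∈ s, ‖D i‖ ^ 2 = ∑ i ∈ s ∩ F, ‖D i‖ ^ 2 + ∑ i ∈ s \ F, ‖D i‖ ^ 2 := by
      rw [Finset.sum_inter_add_sum_sdiff]
    rw [b4]
    have : 0 < ε ^ 2 := by positivity
    linarith
  exact (sq_le_sq₀ (norm_nonneg _) hε.le).1 key

end STEP

theorem p_STEP (hCF : T_CF) (hMU : T_MU) : T_STEP := by
  classical
  intro H _ E _ _ _ π a b β r hr hβb Y lam hB j w η hw hη hsup
  obtain ⟨hBmu, hpq, -⟩ := hMU H E π a Y lam β hB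
  obtain ⟨C, hC1, hC2, hC3⟩ :=
    hCF H (L2 (Ix Y) E) (pR (List (Y × ℤ)) β π) a r hr (List (Y × ℤ)) (mu lam) hBmu
  have hs0 : ∀ n l, l.length ≠ j + 1 → C (tens η w) (n, l) = 0 := by
    intro n l hl
    rw [hC1]
    cases l with
    | nil => simp [mu]
    | cons q l' =>
      have hl' : l'.length ≠ j := fun h => hl (by simp [h])
      have : ⟪pR (List (Y × ℤ)) β π (a ^ (-(n / (r : ℤ)))) (tens η w),
          mu lam (q :: l')⟫_ℝ = 0 := by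
        unfold mu
        rw [lp.inner_single_right, pR_apply, tens_apply, hsup _ _ hl', zero_smul, map_zero,
          inner_zero_left]
      rw [this, mul_zero]
  have hn2 : ‖C (tens η w)‖ ^ 2 = ‖η‖ ^ 2 * pq π a lam w := by
    rw [hC2, (hpq _).2, norm_sq_lp, ← tsum_mul_right]
    refine tsum_congr fun i => ?_
    rw [tens_apply, STEP_pq_smul, Real.norm_eq_abs, sq_abs]
  have hn1 : ‖C (tens η w)‖ ≤ 1 := by
    have h1 : pq π a lam w ≤ 1 := (STEP_pq_le π a lam hB w).trans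
      (pow_le_one₀ (norm_nonneg _) hw)
    have h2 : ‖η‖ ^ 2 ≤ 1 := pow_le_one₀ (norm_nonneg _) hη
    have h3 : ‖C (tens η w)‖ ^ 2 ≤ 1 ^ 2 := by
      rw [hn2, one_pow]
      exact mul_le_one₀ h2 (STEP_pq_nonneg π a lam w) h1
    exact (sq_le_sq₀ (norm_nonneg _) zero_le_one).1 h3
  refine ⟨C (tens η w), hs0, hn1, hn2, (hC3 _).trans (STEP_shift _ β π a η w hw hη), ?_⟩
  intro ε hε
  obtain ⟨F, hF⟩ := STEP_tail (E := E) (C (tens η w)) hn1 ε hε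
  refine ⟨F.image (fun i => b ^ (i.1 / (r : ℤ))), ε / 2, by positivity, ?_⟩
  intro w' hw' hS ω V hω hV
  have hD : ∀ n l, (V (tens η w) - tens (C (tens η w)) w') (n, l) =
      C (tens η w) (n, l) • (π (b ^ (n / (r : ℤ))) w' - w') := by
    intro n l
    have e1 : (V (tens η w) - tens (C (tens η w)) w') (n, l) =
        V (tens η w) (n, l) - tens (C (tens η w)) w' (n, l) := rfl
    rw [e1, hV, ← hC1, tens_apply, smul_sub]
    by_cases hl : l.length = j + 1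
    · rw [hω l hl]
    · rw [hs0 n l hl, zero_smul, zero_smul, zero_smul]
  refine hF _ ?_ ?_
  · rintro ⟨n, l⟩
    rw [hD, norm_smul, Real.norm_eq_abs, mul_comm]
    refine mul_le_mul_of_nonneg_right ?_ (abs_nonneg _)
    refine (norm_sub_le _ _).trans ?_
    rw [LinearIsometryEquiv.norm_map]
    linarith
  · rintro ⟨n, l⟩ hi
    rw [hD, norm_smul, Real.norm_eq_abs, mul_comm]
    refine mul_le_mul_of_nonneg_right ?_ (abs_nonneg _)
    exact hS _ (Finset.mem_image_of_mem (fun i : Ix Y => b ^ (i.1 / (r : ℤ))) hi)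

end

end HGP
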