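import Pool.Agent.HGP.Targets

/-!
# HGP: elements which survive in the first cohomology can be added to the list
-/

open scoped InnerProductSpace ENNReal

namespace HGP

noncomputable section

section SUR

variable {H : Type} [Group H] {E : Type} [NormedAddCommGroup E] [InnerProductSpace ℝ E]

/-- coordinates -/
def SUR_e (q : ℕ) [NeZero q] : ℤ × Fin q ≃ ℤ × Unit :=
  (((Equiv.neg ℤ).prodCongr (Equiv.refl (Fin q))).trans (Int.divModEquiv q).symm).trans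
    (Equiv.prodPUnit ℤ).symm

lemma SUR_e_apply (q : ℕ) [NeZero q] (m : ℤ) (i : Fin q) :
    SUR_e q (m, i) = (-m * q + ((i : ℕ) : ℤ), ()) := rfl

/-- the family for `a` -/
def SUR_lam (q : ℕ) (ξ : E) (i : Fin q) : L2 (ℤ × Unit) E :=
  lp.single 2 (((i : ℕ) : ℤ), ()) ξ

lemma SUR_inner (β : H →* Multiplicative ℤ) (π : H →* (E ≃ₗᵢ[ℝ] E)) (a : H) (q : ℕ) [NeZero q]
    (hq : Multiplicative.toAdd (β a) = (q : ℤ)) (ξ : E) (u : L2 (ℤ × Unit) E)
    (p : ℤ × Fin q) :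
    ⟪pR Unit β π (a ^ p.1) u, SUR_lam q ξ p.2⟫_ℝ = ⟪π (a ^ p.1) (u (SUR_e q p)), ξ⟫_ℝ := by
  obtain ⟨m, i⟩ := p
  unfold SUR_lam
  rw [lp.inner_single_right, pR_apply, SUR_e_apply]
  have : ((i : ℕ) : ℤ) - Multiplicative.toAdd (β (a ^ m)) = -m * q + ((i : ℕ) : ℤ) := by
    rw [map_zpow, toAdd_zpow, hq, smul_eq_mul]; ring
  rw [this]

lemma SUR_bound (β : H →* Multiplicative ℤ) (π : H →* (E ≃ₗᵢ[ℝ] E)) (a : H) (q : ℕ) [NeZero q]
    (hq : Multiplicative.toAdd (β a) = (q : ℤ)) {ξ : E} (hξ : ‖ξ‖ ≤ 1) (u : L2 (ℤ × Unit) E)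
    (p : ℤ × Fin q) :
    ⟪pR Unit β π (a ^ p.1) u, SUR_lam q ξ p.2⟫_ℝ ^ 2 ≤ ‖u (SUR_e q p)‖ ^ 2 := by
  rw [SUR_inner β π a q hq]
  have h := abs_real_inner_le_norm (π (a ^ p.1) (u (SUR_e q p))) ξ
  rw [LinearIsometryEquiv.norm_map] at h
  have h2 := h.trans (mul_le_of_le_one_right (norm_nonneg _) hξ)
  rw [← sq_abs]
  exact pow_le_pow_left₀ (abs_nonneg _) h2 2

lemma SUR_bes (β : H →* Multiplicative ℤ) (π : H →* (E ≃ₗᵢ[ℝ] E)) (a : H) (q : ℕ) [NeZero q]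
    (hq : Multiplicative.toAdd (β a) = (q : ℤ)) {ξ : E} (hξ : ‖ξ‖ ≤ 1) :
    Bes (pR Unit β π) a (SUR_lam q ξ) := by
  intro u s
  have hs : Summable (fun p => ‖u (SUR_e q p)‖ ^ 2) :=
    (SUR_e q).summable_iff.2 (summable_sq_lp u)
  calc ∑ p ∈ s, ⟪pR Unit β π (a ^ p.1) u, SUR_lam q ξ p.2⟫_ℝ ^ 2
      ≤ ∑ p ∈ s, ‖u (SUR_e q p)‖ ^ 2 :=
        Finset.sum_le_sum fun p _ => SUR_bound β π a q hq hξ u p
    _ ≤ ∑' p, ‖u (SUR_e q p)‖ ^ 2 := hs.sum_le_tsum s (fun _ _ => sq_nonneg _)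
    _ = ‖u‖ ^ 2 := by
        rw [norm_sq_lp]
        exact (SUR_e q).tsum_eq (fun i => ‖u i‖ ^ 2)

lemma SUR_single (β : H →* Multiplicative ℤ) (π : H →* (E ≃ₗᵢ[ℝ] E)) (a : H) (q : ℕ) [NeZero q]
    (hq : Multiplicative.toAdd (β a) = (q : ℤ)) (ξ : E) (h : H) (k : ℤ × Unit) (v : E) :
    pq (pR Unit β π) a (SUR_lam q ξ) (pR Unit β π h (lp.single 2 k v)) =
      ⟪π (a ^ ((SUR_e q).symm (k.1 + Multiplicative.toAdd (β h), ())).1 * h) v, ξ⟫_ℝ ^ 2 := by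
  unfold pq
  rw [tsum_eq_single ((SUR_e q).symm (k.1 + Multiplicative.toAdd (β h), ()))]
  · rw [SUR_inner β π a q hq, Equiv.apply_symm_apply, pR_apply]
    have : (k.1 + Multiplicative.toAdd (β h) - Multiplicative.toAdd (β h), ()) = k := by
      ext
      simp
    rw [this, lp.single_apply_self, map_mul]
    rfl
  · intro p hp
    rw [SUR_inner β π a q hq]
    have hk : SUR_e q p ≠ (k.1 + Multiplicative.toAdd (β h), ()) := by
      intro h1
      apply hp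
      rw [← h1, Equiv.symm_apply_apply]
    have h2 : pR Unit β π h (lp.single 2 k v) (SUR_e q p) = 0 := by
      have h3 : SUR_e q p = ((SUR_e q p).1, ()) := rfl
      rw [h3, pR_apply, lp.single_apply_ne, map_zero]
      intro h4
      apply hk
      rw [h3, ← h4]
      simp
    rw [h2, map_zero, inner_zero_left]
    norm_num

lemma SUR_c0a (h1 : T_PQ) (h2 : T_DEN) (β : H →* Multiplicative ℤ) (π : H →* (E ≃ₗᵢ[ℝ] E))
    (a : H) (q : ℕ) [NeZero q] (hq : Multiplicative.toAdd (β a) = (q : ℤ)) {ξ : E}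
    (hξ : ‖ξ‖ ≤ 1) (hC : C0 π) : C0A (pR Unit β π) a (SUR_lam q ξ) := by
  have hB := SUR_bes β π a q hq hξ
  obtain ⟨p, hp, hpn, -, -, -⟩ := h1 H (L2 (ℤ × Unit) E) (pR Unit β π) a (Fin q) _ hB
  have key := h2 H (L2 (ℤ × Unit) E) {w | ∃ k v, w = lp.single 2 k v} ?_
    (fun h => p.comp ((pR Unit β π h).toLinearEquiv : L2 (ℤ × Unit) E →ₗ[ℝ] L2 (ℤ × Unit) E)) 1
    ?_ (fun s => ∃ T : Finset H, ∀ h ∈ s, ∃ m : ℤ, ∃ x ∈ T, h = a ^ m * x) ?_ ?_ ?_ ?_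
  · intro u δ hδ
    obtain ⟨T, hT⟩ := key u (Real.sqrt δ) (Real.sqrt_pos.2 hδ)
    refine ⟨T, fun h hh => hT h ?_⟩
    show Real.sqrt δ ≤ p (pR Unit β π h u)
    rw [Real.sqrt_le_left (apply_nonneg _ _), hp]
    exact hh
  · -- density
    intro u
    have hsum := lp.hasSum_single (E := fun _ : ℤ × Unit => E) (p := 2) (by norm_num) u
    refine mem_closure_of_tendsto hsum (Filter.Eventually.of_forall fun s => ?_)
    refine Submodule.sum_mem _ fun k _ => Submodule.subset_span ⟨k, u k, rfl⟩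
  · intro h u
    show p (pR Unit β π h u) ≤ 1 * ‖u‖
    refine (hpn _).trans ?_
    rw [LinearIsometryEquiv.norm_map, one_mul]
  · exact ⟨∅, fun h hh => hh.elim⟩
  · rintro s t hst ⟨T, hT⟩
    exact ⟨T, fun h hh => hT h (hst hh)⟩
  · classical
    rintro s t ⟨T, hT⟩ ⟨T', hT'⟩
    refine ⟨T ∪ T', ?_⟩
    rintro h (hh | hh)
    · obtain ⟨m, x, hx, e⟩ := hT h hh
      exact ⟨m, x, Finset.mem_union_left _ hx, e⟩
    · obtain ⟨m, x, hx, e⟩ := hT' h hh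
      exact ⟨m, x, Finset.mem_union_right _ hx, e⟩
  · rintro u ⟨k, v, rfl⟩ δ hδ
    refine ⟨(hC v ξ δ hδ).toFinset, fun h hh => ?_⟩
    have h3 : δ ≤ p (pR Unit β π h (lp.single 2 k v)) := hh
    have h4 := SUR_single β π a q hq ξ h k v
    rw [← hp] at h4
    set m := ((SUR_e q).symm (k.1 + Multiplicative.toAdd (β h), ())).1 with hm
    refine ⟨-m, a ^ m * h, ?_, ?_⟩
    · rw [Set.Finite.mem_toFinset]
      show δ ≤ |⟪π (a ^ m * h) v, ξ⟫_ℝ|
      have h5 : p (pR Unit β π h (lp.single 2 k v)) = |⟪π (a ^ m * h) v, ξ⟫_ℝ| := by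
        have h6 := (sq_eq_sq_iff_abs_eq_abs _ _).1 h4
        rwa [abs_of_nonneg (apply_nonneg p _)] at h6
      rw [← h5]
      exact h3
    · rw [zpow_neg, inv_mul_cancel_left]

/-- the averaging function -/
def SUR_f (L : ℕ) : L2 (ℤ × Unit) ℝ :=
  ⟨fun i => if 0 ≤ i.1 ∧ i.1 < L then (Real.sqrt L)⁻¹ else 0, by
    show Memℓp _ 2
    rw [mem2]
    refine summable_of_ne_finset_zero (s := Finset.Ico (0 : ℤ) L ×ˢ {()}) ?_
    rintro ⟨n, u⟩ hn
    have : ¬ (0 ≤ n ∧ n < L) := by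
      intro h
      exact hn (by simp [h.1, h.2])
    simp [this]⟩

lemma SUR_f_apply (L : ℕ) (i : ℤ × Unit) :
    SUR_f L i = if 0 ≤ i.1 ∧ i.1 < L then (Real.sqrt L)⁻¹ else 0 := rfl

lemma SUR_f_norm {L : ℕ} (hL : 0 < L) : ‖SUR_f L‖ = 1 := by
  have h : ‖SUR_f L‖ ^ 2 = 1 := by
    rw [norm_sq_lp, tsum_eq_sum (s := Finset.Ico (0 : ℤ) L ×ˢ {()})]
    · rw [Finset.sum_product]
      have : ∀ n ∈ Finset.Ico (0 : ℤ) L, ∑ y ∈ ({()} : Finset Unit), ‖SUR_f L (n, y)‖ ^ 2 =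
          (L : ℝ)⁻¹ := by
        intro n hn
        rw [Finset.mem_Ico] at hn
        rw [Finset.sum_singleton, SUR_f_apply, if_pos hn, norm_inv, Real.norm_eq_abs, inv_pow,
          sq_abs, Real.sq_sqrt (Nat.cast_nonneg L)]
      rw [Finset.sum_congr rfl this, Finset.sum_const, Int.card_Ico]
      have hL' : (L : ℝ) ≠ 0 := by positivity
      simp [hL']
    · rintro ⟨n, u⟩ hn
      have : ¬ (0 ≤ n ∧ n < L) := by
        intro h
        exact hn (by simp [h.1, h.2])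
      rw [SUR_f_apply, if_neg this]
      simp
  have h2 : ‖SUR_f L‖ ^ 2 = 1 ^ 2 := by rw [h]; norm_num
  exact (pow_left_inj₀ (norm_nonneg _) zero_le_one two_ne_zero).1 h2

/-- the shifted averaging function -/
def SUR_fs (L : ℕ) (k : Multiplicative ℤ) : L2 (ℤ × Unit) ℝ :=
  rei (sh Unit k) (LinearIsometryEquiv.refl ℝ ℝ) (SUR_f L)

lemma SUR_fs_apply (L : ℕ) (k : Multiplicative ℤ) (n : ℤ) (z : Unit) :
    SUR_fs L k (n, z) = SUR_f L (n - Multiplicative.toAdd k, z) := rfl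

lemma SUR_fs_norm {L : ℕ} (hL : 0 < L) (k : Multiplicative ℤ) : ‖SUR_fs L k‖ = 1 := by
  unfold SUR_fs
  rw [LinearIsometryEquiv.norm_map, SUR_f_norm hL]

lemma SUR_diff {L : ℕ} (hL : 0 < L) (k : Multiplicative ℤ) :
    ‖SUR_fs L k - SUR_f L‖ ^ 2 ≤ 2 * |((Multiplicative.toAdd k : ℤ) : ℝ)| / L := by
  set κ := Multiplicative.toAdd k with hκ
  set A : Finset (ℤ × Unit) := (Finset.Ico (min 0 κ) (max 0 κ) ∪
    Finset.Ico (L + min 0 κ) (L + max 0 κ)) ×ˢ {()} with hA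
  have hv : ∀ i : ℤ × Unit, ‖(SUR_fs L k - SUR_f L) i‖ ^ 2 ≤ (L : ℝ)⁻¹ := by
    rintro ⟨n, u⟩
    have h0 : (SUR_fs L k - SUR_f L) (n, u) = SUR_f L (n - κ, u) - SUR_f L (n, u) := rfl
    have h1 : (0 : ℝ) ≤ (L : ℝ)⁻¹ := by positivity
    have h2 : ‖(Real.sqrt L)⁻¹‖ ^ 2 = (L : ℝ)⁻¹ := by
      rw [norm_inv, Real.norm_eq_abs, inv_pow, sq_abs, Real.sq_sqrt (Nat.cast_nonneg L)]
    rw [h0, SUR_f_apply, SUR_f_apply]
    split_ifs
    · simp
    · rw [sub_zero, h2]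
    · rw [zero_sub, norm_neg, h2]
    · simp
  have hz : ∀ i ∉ A, ‖(SUR_fs L k - SUR_f L) i‖ ^ 2 = 0 := by
    rintro ⟨n, u⟩ hn
    have h0 : (SUR_fs L k - SUR_f L) (n, u) = SUR_f L (n - κ, u) - SUR_f L (n, u) := rfl
    have h1 : ¬ ((min 0 κ ≤ n ∧ n < max 0 κ) ∨ ((L : ℤ) + min 0 κ ≤ n ∧ n < L + max 0 κ)) := by
      intro h
      apply hn
      rw [hA, Finset.mem_product, Finset.mem_union, Finset.mem_Ico, Finset.mem_Ico]
      exact ⟨h, by simp⟩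
    have h2 : (0 ≤ n - κ ∧ n - κ < L) ↔ (0 ≤ n ∧ n < L) := by
      push Not at h1
      rcases le_total 0 κ with h | h
      · rw [min_eq_left h, max_eq_right h] at h1
        omega
      · rw [min_eq_right h, max_eq_left h] at h1
        omega
    rw [h0, SUR_f_apply, SUR_f_apply]
    simp only [h2]
    simp
  have hcard : (A.card : ℝ) ≤ 2 * |(κ : ℝ)| := by
    have h1 : A.card ≤ (κ.natAbs + κ.natAbs) := by
      rw [hA, Finset.card_product, Finset.card_singleton, mul_one]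
      refine (Finset.card_union_le _ _).trans ?_
      rw [Int.card_Ico, Int.card_Ico]
      rcases le_total 0 κ with h | h
      · rw [min_eq_left h, max_eq_right h]
        omega
      · rw [min_eq_right h, max_eq_left h]
        omega
    have h2 : ((κ.natAbs : ℕ) : ℝ) = |(κ : ℝ)| := by
      rw [← Int.cast_abs, Int.abs_eq_natAbs]
      rfl
    have h3 : (A.card : ℝ) ≤ ((κ.natAbs + κ.natAbs : ℕ) : ℝ) := by exact_mod_cast h1
    rw [Nat.cast_add, h2] at h3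
    linarith
  rw [norm_sq_lp, tsum_eq_sum (s := A) hz]
  calc ∑ i ∈ A, ‖(SUR_fs L k - SUR_f L) i‖ ^ 2 ≤ A.card • (L : ℝ)⁻¹ :=
        Finset.sum_le_card_nsmul _ _ _ fun i _ => hv i
    _ = A.card * (L : ℝ)⁻¹ := by rw [nsmul_eq_mul]
    _ ≤ 2 * |(κ : ℝ)| * (L : ℝ)⁻¹ := mul_le_mul_of_nonneg_right hcard (by positivity)
    _ = 2 * |(κ : ℝ)| / L := by rw [div_eq_mul_inv]

lemma SUR_act (β : H →* Multiplicative ℤ) (π : H →* (E ≃ₗᵢ[ℝ] E)) (L : ℕ) (s : H) (ξ : E) :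
    pR Unit β π s (tens (SUR_f L) ξ) = tens (SUR_fs L (β s)) (π s ξ) := by
  ext i
  obtain ⟨n, z⟩ := i
  rw [pR_apply, tens_apply, tens_apply, SUR_fs_apply, map_smul]

lemma SUR_inv (β : H →* Multiplicative ℤ) (π : H →* (E ≃ₗᵢ[ℝ] E)) {L : ℕ} (hL : 0 < L) (s : H)
    {ξ : E} (hξ : ‖ξ‖ ≤ 1) :
    ‖pR Unit β π s (tens (SUR_f L) ξ) - tens (SUR_f L) ξ‖ ≤ ‖π s ξ - ξ‖ +
      Real.sqrt (2 * |((Multiplicative.toAdd (β s) : ℤ) : ℝ)| / L) := by
  have h1 : pR Unit β π s (tens (SUR_f L) ξ) - tens (SUR_f L) ξ =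
      tens (SUR_fs L (β s)) (π s ξ - ξ) + tens (SUR_fs L (β s) - SUR_f L) ξ := by
    rw [SUR_act, tens_sub_left, tens_sub_right]
    abel
  rw [h1]
  refine (norm_add_le _ _).trans ?_
  rw [norm_tens, norm_tens, SUR_fs_norm hL, one_mul]
  refine add_le_add le_rfl ?_
  refine (mul_le_of_le_one_right (norm_nonneg _) hξ).trans ?_
  exact Real.le_sqrt_of_sq_le (SUR_diff hL _)

lemma SUR_pq (β : H →* Multiplicative ℤ) (π : H →* (E ≃ₗᵢ[ℝ] E)) (a : H) (q : ℕ) [NeZero q]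
    (hq : Multiplicative.toAdd (β a) = (q : ℤ)) {ξ : E} (hξ : ‖ξ‖ ≤ 1) {L : ℕ} (hL : 0 < L)
    (c : ℝ) (hc : ∀ m : ℤ, |m| ≤ L → c ≤ ⟪π (a ^ m) ξ, ξ⟫_ℝ ^ 2) :
    c ≤ pq (pR Unit β π) a (SUR_lam q ξ) (tens (SUR_f L) ξ) := by
  have hsum : Summable (fun p : ℤ × Fin q => SUR_f L (SUR_e q p) ^ 2) := by
    have h := (SUR_e q).summable_iff.2 (summable_sq_lp (SUR_f L))
    refine h.congr fun p => ?_
    simp [Function.comp]
  have h1 : ∑' p : ℤ × Fin q, SUR_f L (SUR_e q p) ^ 2 = 1 := by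
    have h := (SUR_e q).tsum_eq (fun i => ‖SUR_f L i‖ ^ 2)
    rw [← norm_sq_lp, SUR_f_norm hL] at h
    rw [← one_pow (M := ℝ) 2, ← h]
    refine tsum_congr fun p => ?_
    rw [Real.norm_eq_abs, sq_abs]
  have hsum2 : Summable (fun p : ℤ × Fin q =>
      ⟪pR Unit β π (a ^ p.1) (tens (SUR_f L) ξ), SUR_lam q ξ p.2⟫_ℝ ^ 2) := by
    refine Summable.of_nonneg_of_le (fun _ => sq_nonneg _)
      (fun p => SUR_bound β π a q hq hξ _ p) ?_
    exact (SUR_e q).summable_iff.2 (summable_sq_lp (tens (SUR_f L) ξ))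
  calc c = ∑' p : ℤ × Fin q, c * SUR_f L (SUR_e q p) ^ 2 := by
        rw [tsum_mul_left, h1, mul_one]
    _ ≤ ∑' p : ℤ × Fin q,
      ⟪pR Unit β π (a ^ p.1) (tens (SUR_f L) ξ), SUR_lam q ξ p.2⟫_ℝ ^ 2 := by
        refine (hsum.mul_left c).tsum_le_tsum (fun p => ?_) hsum2
        rw [SUR_inner β π a q hq, tens_apply, map_smul, real_inner_smul_left, mul_pow]
        by_cases h0 : SUR_f L (SUR_e q p) = 0
        · rw [h0]; simp
        · rw [mul_comm c]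
          refine mul_le_mul_of_nonneg_left (hc _ ?_) (sq_nonneg _)
          obtain ⟨m, i⟩ := p
          rw [SUR_e_apply, SUR_f_apply] at h0
          have h2 : 0 ≤ -m * (q : ℤ) + ((i : ℕ) : ℤ) ∧ -m * (q : ℤ) + ((i : ℕ) : ℤ) < L := by
            by_contra hcon
            exact h0 (if_neg hcon)
          have h3 : ((i : ℕ) : ℤ) < q := by exact_mod_cast i.2
          have h4 : (0 : ℤ) ≤ ((i : ℕ) : ℤ) := by positivity
          have h5 : (1 : ℤ) ≤ L := by exact_mod_cast hL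
          show |m| ≤ L
          rw [abs_le]
          constructor
          · nlinarith
          · by_contra hcon
            push Not at hcon
            nlinarith
    _ = pq (pR Unit β π) a (SUR_lam q ξ) (tens (SUR_f L) ξ) := rfl

end SUR

/-- the positive case -/
lemma SUR_pos (h1 : T_PQ) (h2 : T_DEN) (h3 : T_PQT) (h4 : T_C0T) (H : Type) [Group H] (a : H)
    (β : H →* Multiplicative ℤ) (q : ℕ) [NeZero q]
    (hq : Multiplicative.toAdd (β a) = (q : ℤ)) (l : List H) (hl : QF H l) :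
    QF H (a :: l) := by
  classical
  intro S ε hε
  -- the length
  obtain ⟨L, hL1, hL2⟩ : ∃ L : ℕ, 0 < L ∧ ∀ s ∈ S,
      Real.sqrt (2 * |((Multiplicative.toAdd (β s) : ℤ) : ℝ)| / L) ≤ ε / 2 := by
    obtain ⟨N, hN⟩ := exists_nat_gt ((2 * ∑ s ∈ S, |((Multiplicative.toAdd (β s) : ℤ) : ℝ)|) /
      (ε / 2) ^ 2)
    refine ⟨N + 1, Nat.succ_pos N, fun s hs => ?_⟩
    have hpos : (0 : ℝ) < ((N + 1 : ℕ) : ℝ) := by positivity
    rw [Real.sqrt_le_left (by positivity), div_le_iff₀ hpos]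
    rw [div_lt_iff₀ (by positivity)] at hN
    have h5 : |((Multiplicative.toAdd (β s) : ℤ) : ℝ)| ≤
        ∑ s ∈ S, |((Multiplicative.toAdd (β s) : ℤ) : ℝ)| :=
      Finset.single_le_sum (f := fun s => |((Multiplicative.toAdd (β s) : ℤ) : ℝ)|)
        (fun _ _ => abs_nonneg _) hs
    push_cast
    nlinarith [sq_nonneg (ε / 2)]
  set e := min ε 1 / 8 with he
  have he0 : 0 < e := by positivity
  have he1 : e ≤ ε / 8 := by
    have := min_le_left ε 1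
    linarith
  have he2 : e ≤ 1 / 8 := by
    have := min_le_right ε 1
    linarith
  obtain ⟨E, i1, i2, i3, π, Y, lam, ξ, hC, hl', hA1, hA2, hA3, hA4⟩ :=
    hl (S ∪ (Finset.Icc (-(L : ℤ)) L).image fun m => a ^ m) e he0
  have hPi : pR Unit β π = permRep ((sh Unit).comp β) π := rfl
  have hfam : ∀ c : H, ∃ (Yc : Type) (lamc : Yc → L2 (ℤ × Unit) E), c ∈ a :: l →
      (Bes (pR Unit β π) c lamc ∧ C0A (pR Unit β π) c lamc) ∧
        1 - ε ≤ pq (pR Unit β π) c lamc (tens (SUR_f L) ξ) := by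
    intro c
    by_cases hca : c = a
    · subst hca
      refine ⟨Fin q, SUR_lam q ξ, fun _ => ⟨⟨SUR_bes β π c q hq hA1,
        SUR_c0a h1 h2 β π c q hq hA1 hC⟩, SUR_pq β π c q hq hA1 hL1 (1 - ε) ?_⟩⟩
      intro m hm
      have k1 := hA3 (c ^ m) (Finset.mem_union_right _ (Finset.mem_image.2
        ⟨m, Finset.mem_Icc.2 (abs_le.1 hm), rfl⟩))
      have k2 : ⟪π (c ^ m) ξ, ξ⟫_ℝ = ‖ξ‖ ^ 2 + ⟪π (c ^ m) ξ - ξ, ξ⟫_ℝ := by
        rw [inner_sub_left, real_inner_self_eq_norm_sq]; ring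
      have k3 := abs_real_inner_le_norm (π (c ^ m) ξ - ξ) ξ
      have k4 : ‖π (c ^ m) ξ - ξ‖ * ‖ξ‖ ≤ e * 1 :=
        mul_le_mul k1 hA1 (norm_nonneg _) he0.le
      have k5 : -e ≤ ⟪π (c ^ m) ξ - ξ, ξ⟫_ℝ := by
        have := neg_abs_le ⟪π (c ^ m) ξ - ξ, ξ⟫_ℝ
        linarith
      have k6 : (1 - e) ^ 2 ≤ ‖ξ‖ ^ 2 := pow_le_pow_left₀ (by linarith) hA2 2
      have k7 : 1 - 3 * e ≤ ⟪π (c ^ m) ξ, ξ⟫_ℝ := by
        rw [k2]; nlinarith
      have k8 : (1 - 3 * e) ^ 2 ≤ ⟪π (c ^ m) ξ, ξ⟫_ℝ ^ 2 :=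
        pow_le_pow_left₀ (by linarith) k7 2
      nlinarith
    · by_cases hcl : c ∈ l
      · obtain ⟨p1, p2, p3⟩ := h3 H E π c (Y c) (lam c) (ℤ × Unit) ((sh Unit).comp β)
          (hl' c hcl).1
        refine ⟨_, _, fun _ => ⟨⟨p1, p3 (hl' c hcl).2⟩, ?_⟩⟩
        have p4 := (p2 (tens (SUR_f L) ξ)).2
        rw [hPi, p4]
        have p5 : ∀ i : ℤ × Unit, pq π c (lam c) (tens (SUR_f L) ξ i) =
            ‖SUR_f L i‖ ^ 2 * pq π c (lam c) ξ := by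
          intro i
          unfold pq
          rw [← tsum_mul_left]
          refine tsum_congr fun j => ?_
          rw [tens_apply, map_smul, real_inner_smul_left, mul_pow, Real.norm_eq_abs, sq_abs]
        rw [tsum_congr p5, tsum_mul_right, ← norm_sq_lp, SUR_f_norm hL1]
        have p6 := hA4 c hcl
        linarith
      · refine ⟨PEmpty, fun x => x.elim, fun hcon => ?_⟩
        rcases List.mem_cons.1 hcon with h | h
        · exact absurd h hca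
        · exact absurd h hcl
  choose Y' lam' hY' using hfam
  refine ⟨L2 (ℤ × Unit) E, inferInstance, inferInstance, inferInstance, pR Unit β π, Y', lam',
    tens (SUR_f L) ξ, ?_, fun c hc => (hY' c hc).1, ?_, ?_, ?_, fun c hc => (hY' c hc).2⟩
  · rw [hPi]
    exact h4 H E π _ _ hC
  · rw [norm_tens, SUR_f_norm hL1, one_mul]
    exact hA1
  · rw [norm_tens, SUR_f_norm hL1, one_mul]
    linarith
  · intro s hs
    have k1 := SUR_inv β π hL1 s hA1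
    have k2 := hA3 s (Finset.mem_union_left _ hs)
    have k3 := hL2 s hs
    linarith

theorem p_SUR (h1 : T_PQ) (h2 : T_DEN) (h3 : T_PQT) (h4 : T_C0T) : T_SUR := by
  intro H _ a β hβ l hl
  have h0 : Multiplicative.toAdd (β a) ≠ 0 := by
    intro h
    exact hβ (Multiplicative.toAdd.injective h)
  rcases lt_or_gt_of_ne h0 with h | h
  · have : NeZero (Multiplicative.toAdd (β a)).natAbs := ⟨by omega⟩
    refine SUR_pos h1 h2 h3 h4 H a β⁻¹ (Multiplicative.toAdd (β a)).natAbs ?_ l hl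
    rw [MonoidHom.inv_apply, toAdd_inv]
    omega
  · have : NeZero (Multiplicative.toAdd (β a)).natAbs := ⟨by omega⟩
    refine SUR_pos h1 h2 h3 h4 H a β (Multiplicative.toAdd (β a)).natAbs ?_ l hl
    omega

end

end HGP
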