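import Pool.Agent.HGP.Targets

/-!
# HGP: existence of the operator valued function on an HNN extension (helper82)
-/

set_option autoImplicit false

open scoped InnerProductSpace ENNReal
open HNNExtension HNNExtension.NormalWord

namespace HGP

noncomputable section

section SYS

variable {H : Type} [Group H] {A B : Subgroup H} (φ : A ≃* B)
  {E : Type} [NormedAddCommGroup E] [InnerProductSpace ℝ E] [CompleteSpace E]

omit [CompleteSpace E] in
theorem SYS_cl_apply (π : H →* (E ≃ₗᵢ[ℝ] E)) (h : H) (u : E) : cl π h u = π h u := rfl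

omit [CompleteSpace E] in
theorem SYS_inv (π : H →* (E ≃ₗᵢ[ℝ] E)) (h : H) (u v : E) :
    ⟪π h u, v⟫_ℝ = ⟪u, π h⁻¹ v⟫_ℝ := by
  have e : π h (π h⁻¹ v) = v := by
    have : (π h * π h⁻¹) v = v := by rw [← map_mul, mul_inv_cancel, map_one]; rfl
    exact this
  calc ⟪π h u, v⟫_ℝ = ⟪π h u, π h (π h⁻¹ v)⟫_ℝ := by rw [e]
    _ = ⟪u, π h⁻¹ v⟫_ℝ := LinearIsometryEquiv.inner_map_map _ _ _

theorem SYS_adj (π : H →* (E ≃ₗᵢ[ℝ] E)) (V : E →L[ℝ] E)
    (tw : ∀ (a : A) (u : E), V (π (a : H) u) = π (φ a : H) (V u)) (b : B) (u : E) :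
    ContinuousLinearMap.adjoint V (π (b : H) u) =
      π (φ.symm b : H) (ContinuousLinearMap.adjoint V u) := by
  refine ext_inner_right ℝ fun v => ?_
  rw [ContinuousLinearMap.adjoint_inner_left, SYS_inv, SYS_inv,
    ContinuousLinearMap.adjoint_inner_left]
  have h := tw (φ.symm b)⁻¹ v
  have e1 : (((φ.symm b)⁻¹ : A) : H) = (φ.symm b : H)⁻¹ := rfl
  have e2 : ((φ (φ.symm b)⁻¹ : B) : H) = (b : H)⁻¹ := by
    rw [map_inv, MulEquiv.apply_symm_apply]; rfl
  rw [e1, e2] at h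
  rw [h]

end SYS

/-- the target `T_SYS` -/
theorem p_SYS (hEV : T_EV) : T_SYS := by
  intro H _ A B φ E _ _ _ π V hV tw
  obtain ⟨W, hW⟩ := hEV H A B φ (E →L[ℝ] E) (cl π) V (ContinuousLinearMap.adjoint V)
    (fun a => by
      ext u
      exact tw a u)
    (fun b => by
      ext u
      exact SYS_adj φ π V tw b u)
  exact ⟨W, ⟨hV, tw, hW⟩⟩

end

end HGP
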