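import Pool.Agent.HGP.Targets

/-!
# HGP: the tree lemma
-/

namespace HGP

open HNNExtension

theorem p_TREE (h1 : T_CAT) (h2 : T_LN) : T_TREE := by
  intro H _ A B φ u r g h3 h4 h5
  obtain ⟨a1, a2, a3, a4, a5, a6⟩ := h2 H A B φ
  rcases a6 u (r * g⁻¹) with h | h
  · exact h
  exfalso
  set z := t ^ (u : ℤ) * (r * g⁻¹) with hz
  have hg : z⁻¹ * t ^ (u : ℤ) * r = g := by
    rw [hz]; group
  have hz1 : len φ (z⁻¹ * t ^ (u : ℤ)) = len φ z⁻¹ + 1 := by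
    have e1 : z⁻¹ * t ^ (u : ℤ) = (r * g⁻¹)⁻¹ := by
      rw [hz]; group
    rw [e1, a3, a3, h]
  have h6 := h1 H A B φ u z⁻¹ r hz1 h3
  rw [hg, a3] at h6
  have h7 : len φ z = 0 := by omega
  obtain ⟨k, hk⟩ := a4 z h7
  refine h5 ⟨k⁻¹, ?_⟩
  rw [map_inv, ← hk, ← mul_assoc, hg]

end HGP
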