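import Pool.Agent.HGP.Targets

/-!
# HGP: the property (Q) with one representation
-/

open scoped InnerProductSpace ENNReal

namespace HGP

noncomputable section

set_option maxHeartbeats 4000000

section diag

variable {I : Type} {F : I → Type} [∀ i, NormedAddCommGroup (F i)]
  [∀ i, InnerProductSpace ℝ (F i)]

/-- diagonal map on a Hilbert sum -/
def UNV_map (T : ∀ i, F i ≃ₗᵢ[ℝ] F i) (f : lp F 2) : lp F 2 :=
  ⟨fun i => T i (f i), by
    show Memℓp _ 2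
    rw [mem2]
    simp only [LinearIsometryEquiv.norm_map]
    exact summable_sq_lp f⟩

@[simp] lemma UNV_map_apply (T : ∀ i, F i ≃ₗᵢ[ℝ] F i) (f : lp F 2) (i : I) :
    UNV_map T f i = T i (f i) := rfl

lemma UNV_map_norm (T : ∀ i, F i ≃ₗᵢ[ℝ] F i) (f : lp F 2) : ‖UNV_map T f‖ = ‖f‖ := by
  have h : ‖UNV_map T f‖ ^ 2 = ‖f‖ ^ 2 := by
    rw [norm_sq_lp, norm_sq_lp]
    simp only [UNV_map_apply, LinearIsometryEquiv.norm_map]
  exact (pow_left_inj₀ (norm_nonneg _) (norm_nonneg _) two_ne_zero).1 h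

/-- diagonal isometry -/
def UNV_eqv (T : ∀ i, F i ≃ₗᵢ[ℝ] F i) : lp F 2 ≃ₗᵢ[ℝ] lp F 2 where
  toFun := UNV_map T
  invFun := UNV_map (fun i => (T i).symm)
  left_inv f := by ext i; simp
  right_inv f := by ext i; simp
  map_add' f g := by ext i; simp
  map_smul' c f := by ext i; simp
  norm_map' f := UNV_map_norm T f

lemma UNV_eqv_apply (T : ∀ i, F i ≃ₗᵢ[ℝ] F i) (f : lp F 2) (i : I) :
    UNV_eqv T f i = T i (f i) := rfl

variable {H : Type} [Group H]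

/-- diagonal representation -/
def UNV_rep (π : ∀ i, H →* (F i ≃ₗᵢ[ℝ] F i)) : H →* (lp F 2 ≃ₗᵢ[ℝ] lp F 2) where
  toFun h := UNV_eqv (fun i => π i h)
  map_one' := by
    ext f i
    simp only [map_one, UNV_eqv_apply]
    rfl
  map_mul' a b := by
    ext f i
    simp only [map_mul, UNV_eqv_apply]
    rfl

lemma UNV_rep_apply (π : ∀ i, H →* (F i ≃ₗᵢ[ℝ] F i)) (h : H) (f : lp F 2) (i : I) :
    UNV_rep π h f i = π i h (f i) := rfl

variable {Y : I → Type}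

open Classical in
/-- the family of the sum -/
def UNV_lam (lam : ∀ i, Y i → F i) : (Σ i, Y i) → lp F 2 :=
  fun q => lp.single 2 q.1 (lam q.1 q.2)

variable {π : ∀ i, H →* (F i ≃ₗᵢ[ℝ] F i)} {a : H} {lam : ∀ i, Y i → F i}

lemma UNV_coeff (f : lp F 2) (m : ℤ) (i : I) (y : Y i) :
    ⟪UNV_rep π (a ^ m) f, UNV_lam lam ⟨i, y⟩⟫_ℝ = ⟪π i (a ^ m) (f i), lam i y⟫_ℝ := by
  classical
  unfold UNV_lam
  have h := lp.inner_single_right (𝕜 := ℝ) (G := F) i (lam i y) (UNV_rep π (a ^ m) f)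
  rw [UNV_rep_apply] at h
  rw [← h]

/-- reindexing -/
def UNV_idx (Y : I → Type) : ℤ × (Σ i, Y i) ≃ Σ i, ℤ × Y i where
  toFun q := ⟨q.2.1, (q.1, q.2.2)⟩
  invFun q := (q.2.1, ⟨q.1, q.2.2⟩)
  left_inv q := by
    obtain ⟨m, i, y⟩ := q
    rfl
  right_inv q := by
    obtain ⟨i, m, y⟩ := q
    rfl

lemma UNV_summable1 {E : Type} [NormedAddCommGroup E] [InnerProductSpace ℝ E] {Z : Type}
    {ρ : H →* (E ≃ₗᵢ[ℝ] E)} {μ : Z → E} (hB : Bes ρ a μ) (u : E) :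
    Summable (fun i : ℤ × Z => ⟪ρ (a ^ i.1) u, μ i.2⟫_ℝ ^ 2) :=
  summable_of_sum_le (fun _ => sq_nonneg _) (fun s => hB u s)

lemma UNV_le1 {E : Type} [NormedAddCommGroup E] [InnerProductSpace ℝ E] {Z : Type}
    {ρ : H →* (E ≃ₗᵢ[ℝ] E)} {μ : Z → E} (hB : Bes ρ a μ) (u : E) : pq ρ a μ u ≤ ‖u‖ ^ 2 :=
  (UNV_summable1 hB u).tsum_le_of_sum_le (fun s => hB u s)

lemma UNV_nonneg1 {E : Type} [NormedAddCommGroup E] [InnerProductSpace ℝ E] {Z : Type}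
    {ρ : H →* (E ≃ₗᵢ[ℝ] E)} {μ : Z → E} (u : E) : 0 ≤ pq ρ a μ u :=
  tsum_nonneg fun _ => sq_nonneg _

lemma UNV_sum (hB : ∀ i, Bes (π i) a (lam i)) (f : lp F 2) :
    Summable (fun i => pq (π i) a (lam i) (f i)) :=
  Summable.of_nonneg_of_le (fun _ => UNV_nonneg1 _) (fun i => UNV_le1 (hB i) (f i))
    (summable_sq_lp f)

lemma UNV_big (hB : ∀ i, Bes (π i) a (lam i)) (f : lp F 2) :
    Summable (fun q : Σ i, ℤ × Y i => ⟪π q.1 (a ^ q.2.1) (f q.1), lam q.1 q.2.2⟫_ℝ ^ 2) := by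
  rw [summable_sigma_of_nonneg (fun _ => sq_nonneg _)]
  exact ⟨fun k => UNV_summable1 (hB k) (f k), UNV_sum hB f⟩

lemma UNV_fun (f : lp F 2) :
    (fun q : ℤ × (Σ i, Y i) => ⟪UNV_rep π (a ^ q.1) f, UNV_lam lam q.2⟫_ℝ ^ 2) =
      (fun q : Σ i, ℤ × Y i => ⟪π q.1 (a ^ q.2.1) (f q.1), lam q.1 q.2.2⟫_ℝ ^ 2) ∘
        UNV_idx Y := by
  funext q
  obtain ⟨m, i, y⟩ := q
  exact congrArg (· ^ 2) (UNV_coeff f m i y)

lemma UNV_tsum (hB : ∀ i, Bes (π i) a (lam i)) (f : lp F 2) :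
    pq (UNV_rep π) a (UNV_lam lam) f = ∑' i, pq (π i) a (lam i) (f i) := by
  have h1 : pq (UNV_rep π) a (UNV_lam lam) f =
      ∑' q : Σ i, ℤ × Y i, ⟪π q.1 (a ^ q.2.1) (f q.1), lam q.1 q.2.2⟫_ℝ ^ 2 := by
    unfold pq
    rw [UNV_fun]
    exact (UNV_idx Y).tsum_eq
      (fun q : Σ i, ℤ × Y i => ⟪π q.1 (a ^ q.2.1) (f q.1), lam q.1 q.2.2⟫_ℝ ^ 2)
  rw [h1, (UNV_big hB f).tsum_sigma]
  rfl

lemma UNV_bes (hB : ∀ i, Bes (π i) a (lam i)) : Bes (UNV_rep π) a (UNV_lam lam) := by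
  intro f s
  have h0 : Summable (fun q : ℤ × (Σ i, Y i) =>
      ⟪UNV_rep π (a ^ q.1) f, UNV_lam lam q.2⟫_ℝ ^ 2) := by
    rw [UNV_fun]
    exact (UNV_idx Y).summable_iff.2 (UNV_big hB f)
  refine (h0.sum_le_tsum s (fun _ _ => sq_nonneg _)).trans ?_
  have h2 := UNV_tsum hB f
  unfold pq at h2
  rw [h2, norm_sq_lp]
  exact (UNV_sum hB f).tsum_le_tsum (fun i => UNV_le1 (hB i) (f i)) (summable_sq_lp f)

lemma UNV_c0a (hB : ∀ i, Bes (π i) a (lam i)) (hC : ∀ i, C0A (π i) a (lam i)) :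
    C0A (UNV_rep π) a (UNV_lam lam) := by
  classical
  intro f δ hδ
  have hN := summable_sq_lp f
  obtain ⟨s, hs⟩ : ∃ s : Finset I, ∑' i, ‖f i‖ ^ 2 - δ / 2 < ∑ i ∈ s, ‖f i‖ ^ 2 := by
    have h1 : ∑' i, ‖f i‖ ^ 2 - δ / 2 < ∑' i, ‖f i‖ ^ 2 := by linarith
    have h2 := hN.hasSum.eventually_const_lt h1
    exact h2.exists
  have hc : (0 : ℝ) < δ / (2 * (s.card + 1)) := by positivity
  choose T hT using fun k => hC k (f k) (δ / (2 * (s.card + 1))) hc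
  refine ⟨s.biUnion T, ?_⟩
  intro h hh
  rw [UNV_tsum hB] at hh
  have hh' : δ ≤ ∑' k, pq (π k) a (lam k) (π k h (f k)) := hh
  have hle : ∀ k, pq (π k) a (lam k) (π k h (f k)) ≤ ‖f k‖ ^ 2 := by
    intro k
    have := UNV_le1 (hB k) (π k h (f k))
    rwa [LinearIsometryEquiv.norm_map] at this
  have hP : Summable (fun k => pq (π k) a (lam k) (π k h (f k))) :=
    Summable.of_nonneg_of_le (fun _ => UNV_nonneg1 _) hle hN
  have h5 := (hN.sub hP).sum_le_tsum s (fun k _ => sub_nonneg.2 (hle k))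
  rw [hN.tsum_sub hP, Finset.sum_sub_distrib] at h5
  have h6 : δ / 2 ≤ ∑ k ∈ s, pq (π k) a (lam k) (π k h (f k)) := by linarith
  obtain ⟨k, hk, hk'⟩ : ∃ k ∈ s, δ / (2 * (s.card + 1)) ≤
      pq (π k) a (lam k) (π k h (f k)) := by
    by_contra hcon
    push Not at hcon
    have h7 : ∑ k ∈ s, pq (π k) a (lam k) (π k h (f k)) ≤
        s.card • (δ / (2 * (s.card + 1))) :=
      Finset.sum_le_card_nsmul _ _ _ (fun k hk => (hcon k hk).le)
    rw [nsmul_eq_mul] at h7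
    have h8 : (s.card : ℝ) * (δ / (2 * (s.card + 1))) < δ / 2 := by
      have e1 : δ / 2 = ((s.card : ℝ) + 1) * (δ / (2 * (s.card + 1))) := by
        field_simp
      rw [e1]
      exact mul_lt_mul_of_pos_right (by linarith) hc
    linarith
  obtain ⟨m, x, hx, e⟩ := hT k h hk'
  exact ⟨m, x, Finset.mem_biUnion.2 ⟨k, hk, hx⟩, e⟩

lemma UNV_rep_single [DecidableEq I] (h : H) (i : I) (u : F i) :
    UNV_rep π h (lp.single 2 i u : lp F 2) = lp.single 2 i (π i h u) := by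
  ext k
  rw [UNV_rep_apply]
  by_cases hk : k = i
  · subst hk
    simp
  · rw [lp.single_apply, lp.single_apply, Pi.single_eq_of_ne hk, Pi.single_eq_of_ne hk,
      map_zero]

lemma UNV_pq_single [DecidableEq I] (hB : ∀ i, Bes (π i) a (lam i)) (i : I) (u : F i) :
    pq (UNV_rep π) a (UNV_lam lam) (lp.single 2 i u : lp F 2) = pq (π i) a (lam i) u := by
  rw [UNV_tsum hB, tsum_eq_single i]
  · simp
  · intro k hk
    rw [lp.single_apply, Pi.single_eq_of_ne hk]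
    unfold pq
    simp

lemma UNV_c0 (hC : ∀ i, C0 (π i)) : C0 (UNV_rep π) := by
  classical
  intro u v δ hδ
  -- finitely many coordinates of `u` and `v` suffice
  have hN := summable_sq_lp u
  have hM := summable_sq_lp v
  have hdom : ∀ h : H, ∀ i, |⟪π i h (u i), v i⟫_ℝ| ≤ ‖u i‖ ^ 2 + ‖v i‖ ^ 2 := by
    intro h i
    refine (abs_real_inner_le_norm _ _).trans ?_
    rw [(π i h).norm_map]
    nlinarith [sq_nonneg (‖u i‖ - ‖v i‖), sq_nonneg ‖u i‖, sq_nonneg ‖v i‖]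
  have hS := hN.add hM
  obtain ⟨s, hs⟩ : ∃ s : Finset I, ∑' i, (‖u i‖ ^ 2 + ‖v i‖ ^ 2) - δ / 2 <
      ∑ i ∈ s, (‖u i‖ ^ 2 + ‖v i‖ ^ 2) := by
    have h1 : ∑' i, (‖u i‖ ^ 2 + ‖v i‖ ^ 2) - δ / 2 < ∑' i, (‖u i‖ ^ 2 + ‖v i‖ ^ 2) := by
      linarith
    have h2 := hS.hasSum.eventually_const_lt h1
    exact h2.exists
  have hc : (0 : ℝ) < δ / (2 * (s.card + 1)) := by positivity
  have hfin : (⋃ i ∈ s, {h : H | δ / (2 * (s.card + 1)) ≤
      |⟪π i h (u i), v i⟫_ℝ|}).Finite :=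
    s.finite_toSet.biUnion fun i _ => hC i (u i) (v i) _ hc
  refine hfin.subset fun h hh => ?_
  have hh' : δ ≤ |⟪UNV_rep π h u, v⟫_ℝ| := hh
  have hP : Summable (fun i => |⟪π i h (u i), v i⟫_ℝ|) :=
    Summable.of_nonneg_of_le (fun _ => abs_nonneg _) (hdom h) hS
  have e0 : ⟪UNV_rep π h u, v⟫_ℝ = ∑' i, ⟪π i h (u i), v i⟫_ℝ := by
    rw [lp.inner_eq_tsum]
    rfl
  have e1 : |⟪UNV_rep π h u, v⟫_ℝ| ≤ ∑' i, |⟪π i h (u i), v i⟫_ℝ| := by
    rw [e0]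
    have := norm_tsum_le_tsum_norm (f := fun i => ⟪π i h (u i), v i⟫_ℝ) hP
    exact this
  have h5 := (hS.sub hP).sum_le_tsum s (fun k _ => sub_nonneg.2 (hdom h k))
  rw [hS.tsum_sub hP, Finset.sum_sub_distrib] at h5
  have h6 : δ / 2 ≤ ∑ i ∈ s, |⟪π i h (u i), v i⟫_ℝ| := by linarith
  by_contra hcon
  have hcon' : ∀ i ∈ s, |⟪π i h (u i), v i⟫_ℝ| < δ / (2 * (s.card + 1)) := by
    intro i hi
    by_contra hlt
    push Not at hlt
    exact hcon (Set.mem_biUnion hi hlt)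
  have h7 : ∑ i ∈ s, |⟪π i h (u i), v i⟫_ℝ| ≤ s.card • (δ / (2 * (s.card + 1))) :=
    Finset.sum_le_card_nsmul _ _ _ (fun k hk => (hcon' k hk).le)
  rw [nsmul_eq_mul] at h7
  have h8 : (s.card : ℝ) * (δ / (2 * (s.card + 1))) < δ / 2 := by
    have e1 : δ / 2 = ((s.card : ℝ) + 1) * (δ / (2 * (s.card + 1))) := by
      field_simp
    rw [e1]
    exact mul_lt_mul_of_pos_right (by linarith) hc
  linarith

end diag

/-- the target `T_UNV` -/
theorem p_UNV : T_UNV := by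
  classical
  intro H _ l hQ
  choose F i1 i2 i3 π Y lam ξ hC0 hB hAI using
    fun i : Finset H × ℕ => hQ i.1 (1 / ((i.2 : ℝ) + 1)) (by positivity)
  refine ⟨lp F 2, inferInstance, inferInstance, inferInstance, UNV_rep π,
    fun c => Σ i, Y i c, fun c => UNV_lam (fun i => lam i c), UNV_c0 hC0, ?_, ?_⟩
  · intro c hc
    exact ⟨UNV_bes fun i => (hB i c hc).1,
      UNV_c0a (fun i => (hB i c hc).1) fun i => (hB i c hc).2⟩
  · intro S ε hε
    obtain ⟨n, hn⟩ := exists_nat_one_div_lt hε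
    have hA := hAI (S, n)
    obtain ⟨h1, h2, h3, h4⟩ := hA
    have hn' : 1 / ((((S, n) : Finset H × ℕ).2 : ℝ) + 1) < ε := hn
    refine ⟨lp.single 2 (S, n) (ξ (S, n)), ?_, ?_, ?_, ?_⟩
    · show ‖(lp.single 2 (S, n) (ξ (S, n)) : lp F 2)‖ ≤ 1
      rw [lp.norm_single (by norm_num)]
      exact h1
    · rw [lp.norm_single (by norm_num)]
      linarith
    · intro s hs
      rw [UNV_rep_single, ← lp.single_sub, lp.norm_single (by norm_num)]
      exact (h3 s hs).trans hn'.le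
    · intro c hc
      show 1 - ε ≤ pq (UNV_rep π) c (UNV_lam (fun i => lam i c))
        (lp.single 2 (S, n) (ξ (S, n)) : lp F 2)
      rw [UNV_pq_single fun i => (hB i c hc).1]
      have := h4 c hc
      linarith

end

end HGP
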