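import Pool.Agent.HGP.Targets

/-!
# HGP: decay of the adjoint of `V`
-/

open scoped InnerProductSpace ENNReal

namespace HGP

noncomputable section

/-- elementary families span a dense subspace -/
lemma VAD_dense (I E : Type) [DecidableEq I] [NormedAddCommGroup E] [InnerProductSpace ℝ E] :
    Dense (Submodule.span ℝ {x : L2 I E | ∃ (i : I) (u : E), x = lp.single 2 i u} :
      Set (L2 I E)) := by
  intro f
  have h := lp.hasSum_single (E := fun _ : I => E) (p := 2) (by norm_num) f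
  refine mem_closure_of_tendsto h (Filter.Eventually.of_forall fun s => ?_)
  refine Submodule.sum_mem _ fun i _ => Submodule.subset_span ⟨i, f i, rfl⟩

lemma VAD_inner (I E : Type) [DecidableEq I] [NormedAddCommGroup E] [InnerProductSpace ℝ E] (i : I) (u : E)
    (g : L2 I E) : ⟪(lp.single 2 i u : L2 I E), g⟫_ℝ = ⟪u, g i⟫_ℝ :=
  lp.inner_single_left i u g

lemma VAD_pR {H : Type} [Group H] {E : Type} [NormedAddCommGroup E] [InnerProductSpace ℝ E]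
    (Z : Type) [DecidableEq Z] (β : H →* Multiplicative ℤ) (π : H →* (E ≃ₗᵢ[ℝ] E)) (h : H) (n : ℤ) (z : Z)
    (u : E) : pR Z β π h (lp.single 2 (n, z) u) =
      lp.single 2 (n + Multiplicative.toAdd (β h), z) (π h u) := by
  ext q
  obtain ⟨k, y⟩ := q
  rw [pR_apply]
  by_cases hq : (k, y) = (n + Multiplicative.toAdd (β h), z)
  · simp only [Prod.mk.injEq] at hq
    obtain ⟨h1, h2⟩ := hq
    subst h1 h2
    have e : n + Multiplicative.toAdd (β h) - Multiplicative.toAdd (β h) = n := by ring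
    rw [e]
    have e1 : (lp.single 2 (n, y) u : L2 (ℤ × Z) E) (n, y) = u :=
      lp.single_apply_self (E := fun _ : ℤ × Z => E) 2 (n, y) u
    have e2 : (lp.single 2 (n + Multiplicative.toAdd (β h), y) (π h u) : L2 (ℤ × Z) E)
        (n + Multiplicative.toAdd (β h), y) = π h u :=
      lp.single_apply_self (E := fun _ : ℤ × Z => E) 2 (n + Multiplicative.toAdd (β h), y) (π h u)
    exact (congrArg (π h) e1).trans e2.symm
  · have hq2 : (k - Multiplicative.toAdd (β h), y) ≠ (n, z) := by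
      intro hc
      apply hq
      simp only [Prod.mk.injEq] at hc ⊢
      exact ⟨by omega, hc.2⟩
    have e1 : (lp.single 2 (n, z) u : L2 (ℤ × Z) E) (k - Multiplicative.toAdd (β h), y) = 0 :=
      lp.single_apply_ne (E := fun _ : ℤ × Z => E) 2 (n, z) u hq2
    have e2 : (lp.single 2 (n + Multiplicative.toAdd (β h), z) (π h u) : L2 (ℤ × Z) E)
        (k, y) = 0 :=
      lp.single_apply_ne (E := fun _ : ℤ × Z => E) 2 (n + Multiplicative.toAdd (β h), z)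
        (π h u) hq
    exact ((congrArg (π h) e1).trans (map_zero (π h))).trans e2.symm

lemma VAD_mu {H : Type} [Group H] {K : Type} [NormedAddCommGroup K] [InnerProductSpace ℝ K]
    (πK : H →* (K ≃ₗᵢ[ℝ] K)) (a : H) {Z : Type} (μ : Z → K) (hB : Bes πK a μ) (z : Z) :
    ‖μ z‖ ≤ 1 := by
  have h := hB (μ z) {(0, z)}
  simp only [Finset.sum_singleton, zpow_zero, map_one] at h
  have h1 : ⟪(1 : K ≃ₗᵢ[ℝ] K) (μ z), μ z⟫_ℝ = ‖μ z‖ ^ 2 := by
    rw [← real_inner_self_eq_norm_sq]; rfl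
  rw [h1] at h
  by_contra hc
  have hc' : 1 < ‖μ z‖ := not_le.1 hc
  have h2 : 1 < ‖μ z‖ ^ 2 := one_lt_pow₀ hc' two_ne_zero
  nlinarith

lemma VAD_bound {H : Type} [Group H] {K : Type} [NormedAddCommGroup K] [InnerProductSpace ℝ K]
    [CompleteSpace K] {E : Type} [NormedAddCommGroup E] [InnerProductSpace ℝ E] [CompleteSpace E]
    (πK : H →* (K ≃ₗᵢ[ℝ] K)) (π : H →* (E ≃ₗᵢ[ℝ] E)) (a b : H) (r : ℕ) (hr : 0 < r) {Z : Type}
    [DecidableEq Z] (μ : Z → K) (ω : Z → E) (hB : Bes πK a μ) (V : K →L[ℝ] L2 (ℤ × Z) E)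
    (hV : VForm πK π a b r μ ω V) (n : ℤ) (z : Z) (u : E) :
    ‖ContinuousLinearMap.adjoint V (lp.single 2 (n, z) u)‖ ≤
      |⟪u, π (b ^ (n / (r : ℤ))) (ω z)⟫_ℝ| := by
  set w := ContinuousLinearMap.adjoint V (lp.single 2 (n, z) u) with hw
  have h1 : ⟪w, w⟫_ℝ = ⟪u, V w (n, z)⟫_ℝ := by
    rw [hw, ContinuousLinearMap.adjoint_inner_left]
    exact VAD_inner (ℤ × Z) E (n, z) u _
  rw [hV w n z, real_inner_smul_right, real_inner_self_eq_norm_sq] at h1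
  have hr1 : (1 : ℝ) ≤ Real.sqrt r := by
    rw [Real.one_le_sqrt]
    exact_mod_cast hr
  have hr2 : (Real.sqrt r)⁻¹ ≤ 1 := inv_le_one_of_one_le₀ hr1
  have hr3 : 0 ≤ (Real.sqrt r)⁻¹ := by positivity
  have h2 : |⟪πK (a ^ (-(n / (r : ℤ)))) w, μ z⟫_ℝ| ≤ ‖w‖ := by
    calc |⟪πK (a ^ (-(n / (r : ℤ)))) w, μ z⟫_ℝ|
        ≤ ‖πK (a ^ (-(n / (r : ℤ)))) w‖ * ‖μ z‖ := abs_real_inner_le_norm _ _
      _ ≤ ‖w‖ * 1 := by
          rw [LinearIsometryEquiv.norm_map]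
          exact mul_le_mul_of_nonneg_left (VAD_mu πK a μ hB z) (norm_nonneg _)
      _ = ‖w‖ := mul_one _
  have h3 : ‖w‖ ^ 2 ≤ ‖w‖ * |⟪u, π (b ^ (n / (r : ℤ))) (ω z)⟫_ℝ| := by
    rw [h1]
    refine le_trans (le_abs_self _) ?_
    rw [abs_mul, abs_mul, abs_of_nonneg hr3]
    refine mul_le_mul_of_nonneg_right ?_ (abs_nonneg _)
    calc (Real.sqrt r)⁻¹ * |⟪πK (a ^ (-(n / (r : ℤ)))) w, μ z⟫_ℝ|
        ≤ 1 * ‖w‖ := mul_le_mul hr2 h2 (abs_nonneg _) zero_le_one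
      _ = ‖w‖ := one_mul _
  rcases eq_or_lt_of_le (norm_nonneg w) with h0 | h0
  · rw [← h0]; exact abs_nonneg _
  · have h4 : ‖w‖ * ‖w‖ ≤ ‖w‖ * |⟪u, π (b ^ (n / (r : ℤ))) (ω z)⟫_ℝ| := by
      rw [← pow_two]; exact h3
    exact le_of_mul_le_mul_left h4 h0

lemma VAD_move {H : Type} [Group H] {E : Type} [NormedAddCommGroup E] [InnerProductSpace ℝ E]
    (π : H →* (E ≃ₗᵢ[ℝ] E)) (g h : H) (u v : E) :
    ⟪π h u, π g v⟫_ℝ = ⟪π (g⁻¹ * h) u, v⟫_ℝ := by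
  rw [← LinearIsometryEquiv.inner_map_map (π g) (π (g⁻¹ * h) u) v]
  congr 1
  have : π g (π (g⁻¹ * h) u) = π (g * (g⁻¹ * h)) u := by
    rw [map_mul π g (g⁻¹ * h)]; rfl
  rw [this, mul_inv_cancel_left]

theorem p_VAD (hDEN : T_DEN) : T_VAD := by
  classical
  intro H _ K _ _ _ E _ _ _ πK π a b β r hr hβ Z μ ω hB hω hC V hV hVn f δ hδ
  have key := hDEN H (L2 (ℤ × Z) E)
    {x : L2 (ℤ × Z) E | ∃ (i : ℤ × Z) (u : E), x = lp.single 2 i u}
    (VAD_dense (ℤ × Z) E)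
    (fun h => (normSeminorm ℝ K).comp
      ((ContinuousLinearMap.adjoint V : L2 (ℤ × Z) E →L[ℝ] K).toLinearMap ∘ₗ
        ((pR Z β π h).toLinearEquiv : L2 (ℤ × Z) E →ₗ[ℝ] L2 (ℤ × Z) E)))
    1 ?_
    (fun s => ∃ T : Finset H, ∀ h ∈ s, ∃ m : ℤ, ∃ x ∈ T, h = b ^ m * x)
    ⟨∅, fun h hh => absurd hh (Set.notMem_empty h)⟩ ?_ ?_ ?_ f δ hδ
  · obtain ⟨T, hT⟩ := key
    exact ⟨T, fun h hh => hT h hh⟩
  · intro h u
    show ‖ContinuousLinearMap.adjoint V (pR Z β π h u)‖ ≤ 1 * ‖u‖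
    refine le_trans (ContinuousLinearMap.le_opNorm _ _) ?_
    rw [LinearIsometryEquiv.norm_map, LinearIsometryEquiv.norm_map]
    exact mul_le_mul_of_nonneg_right hVn (norm_nonneg _)
  · rintro s t hst ⟨T, hT⟩
    exact ⟨T, fun h hh => hT h (hst hh)⟩
  · rintro s t ⟨T, hT⟩ ⟨T', hT'⟩
    refine ⟨T ∪ T', fun h hh => ?_⟩
    rcases hh with hh | hh
    · obtain ⟨m, x, hx, e⟩ := hT h hh
      exact ⟨m, x, Finset.mem_union_left _ hx, e⟩
    · obtain ⟨m, x, hx, e⟩ := hT' h hh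
      exact ⟨m, x, Finset.mem_union_right _ hx, e⟩
  · rintro _ ⟨⟨n, z⟩, u, rfl⟩ δ hδ
    refine ⟨(hC u (ω z) δ hδ).toFinset, fun h hh => ?_⟩
    have hh' : δ ≤ ‖ContinuousLinearMap.adjoint V (pR Z β π h (lp.single 2 (n, z) u))‖ := hh
    rw [VAD_pR] at hh'
    have h1 := hh'.trans (VAD_bound πK π a b r hr μ ω hB V hV _ z (π h u))
    rw [VAD_move] at h1
    refine ⟨(n + Multiplicative.toAdd (β h)) / (r : ℤ),
      (b ^ ((n + Multiplicative.toAdd (β h)) / (r : ℤ)))⁻¹ * h, ?_, ?_⟩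
    · rw [Set.Finite.mem_toFinset]
      exact h1
    · rw [mul_inv_cancel_left]

end

end HGP
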