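import Pool.Agent.HGP.Targets

/-!
# HGP: existence of the operator `V`
-/

open scoped InnerProductSpace ENNReal
open HNNExtension HNNExtension.NormalWord

namespace HGP

noncomputable section

/-- multiply a square summable scalar family by a bounded family of vectors (the function) -/
def VOP_F {I E : Type} [NormedAddCommGroup E] [InnerProductSpace ℝ E] (v : I → E)
    (hv : ∀ i, ‖v i‖ ≤ 1) (g : L2 I ℝ) : L2 I E :=
  ⟨fun i => g i • v i, by
    show Memℓp _ 2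
    rw [mem2]
    refine Summable.of_nonneg_of_le (fun i => by positivity) (fun i => ?_)
      (summable_sq_lp g)
    rw [norm_smul, mul_pow]
    have h1 : ‖v i‖ ^ 2 ≤ 1 := pow_le_one₀ (norm_nonneg _) (hv i)
    have h2 : 0 ≤ ‖g i‖ ^ 2 := by positivity
    nlinarith⟩

lemma VOP_F_apply {I E : Type} [NormedAddCommGroup E] [InnerProductSpace ℝ E] (v : I → E)
    (hv : ∀ i, ‖v i‖ ≤ 1) (g : L2 I ℝ) (i : I) : VOP_F v hv g i = g i • v i := rfl

lemma VOP_F_norm {I E : Type} [NormedAddCommGroup E] [InnerProductSpace ℝ E] (v : I → E)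
    (hv : ∀ i, ‖v i‖ ≤ 1) (g : L2 I ℝ) : ‖VOP_F v hv g‖ ≤ ‖g‖ := by
  refine (pow_le_pow_iff_left₀ (norm_nonneg _) (norm_nonneg _) two_ne_zero).1 ?_
  rw [norm_sq_lp, norm_sq_lp]
  refine Summable.tsum_le_tsum (fun i => ?_) (summable_sq_lp _) (summable_sq_lp g)
  rw [VOP_F_apply, norm_smul, mul_pow]
  have h1 : ‖v i‖ ^ 2 ≤ 1 := pow_le_one₀ (norm_nonneg _) (hv i)
  have h2 : 0 ≤ ‖g i‖ ^ 2 := by positivity
  nlinarith

/-- multiply a square summable scalar family by a bounded family of vectors -/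
def VOP_M {I E : Type} [NormedAddCommGroup E] [InnerProductSpace ℝ E] (v : I → E)
    (hv : ∀ i, ‖v i‖ ≤ 1) : L2 I ℝ →L[ℝ] L2 I E :=
  LinearMap.mkContinuous
    { toFun := VOP_F v hv
      map_add' := fun g g' => by
        ext i
        rw [lp.coeFn_add, Pi.add_apply]
        simp only [VOP_F_apply, lp.coeFn_add, Pi.add_apply, add_smul]
      map_smul' := fun c g => by
        ext i
        rw [RingHom.id_apply, lp.coeFn_smul, Pi.smul_apply]
        simp only [VOP_F_apply, lp.coeFn_smul, Pi.smul_apply, smul_eq_mul, mul_smul] } 1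
    (fun g => by rw [one_mul]; exact VOP_F_norm v hv g)

lemma VOP_M_apply {I E : Type} [NormedAddCommGroup E] [InnerProductSpace ℝ E] (v : I → E)
    (hv : ∀ i, ‖v i‖ ≤ 1) (g : L2 I ℝ) (i : I) : VOP_M v hv g i = g i • v i := rfl

lemma VOP_M_norm {I E : Type} [NormedAddCommGroup E] [InnerProductSpace ℝ E] (v : I → E)
    (hv : ∀ i, ‖v i‖ ≤ 1) (g : L2 I ℝ) : ‖VOP_M v hv g‖ ≤ ‖g‖ := VOP_F_norm v hv g

theorem p_VOP (hCF : T_CF) : T_VOP := by
  intro H _ K _ _ _ E _ _ _ πK π a b β r hr hβ Z μ ω hB hω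
  obtain ⟨C, hC1, hC2, -⟩ := hCF H K πK a r hr Z μ hB
  have hv : ∀ i : ℤ × Z, ‖π (b ^ (i.1 / (r : ℤ))) (ω i.2)‖ ≤ 1 := by
    intro i
    rw [LinearIsometryEquiv.norm_map]
    exact hω i.2
  have hV : VForm πK π a b r μ ω ((VOP_M _ hv).comp C) := by
    intro f n z
    rw [ContinuousLinearMap.comp_apply, VOP_M_apply, hC1]
  refine ⟨(VOP_M _ hv).comp C, hV, ?_, ?_⟩
  · intro f
    rw [← hC2, ContinuousLinearMap.comp_apply]
    exact pow_le_pow_left₀ (norm_nonneg _) (VOP_M_norm _ hv _) 2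
  · intro f
    ext i
    obtain ⟨n, z⟩ := i
    have hr0 : (r : ℤ) ≠ 0 := by exact_mod_cast hr.ne'
    rw [hV, pR_apply, hV, hβ]
    have e1 : (n - (r : ℤ)) / (r : ℤ) = n / (r : ℤ) - 1 := by
      rw [Int.sub_ediv_of_dvd _ (dvd_refl _), Int.ediv_self hr0]
    rw [e1, map_smul]
    have e2 : πK (a ^ (-(n / (r : ℤ)))) (πK a f) = πK (a ^ (-(n / (r : ℤ) - 1))) f := by
      have : a ^ (-(n / (r : ℤ) - 1)) = a ^ (-(n / (r : ℤ))) * a := by
        rw [show -(n / (r : ℤ) - 1) = -(n / (r : ℤ)) + 1 by ring, zpow_add, zpow_one]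
      rw [this, map_mul]; rfl
    have e3 : π (b ^ (n / (r : ℤ))) (ω z) = π b (π (b ^ (n / (r : ℤ) - 1)) (ω z)) := by
      have : b ^ (n / (r : ℤ)) = b * b ^ (n / (r : ℤ) - 1) := by
        rw [← zpow_one_add]; congr 1; ring
      rw [this, map_mul]; rfl
    rw [e2, e3]

end

end HGP
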