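import Pool.Agent.HGP.Targets

/-!
# HGP: consequences for an evaluation of reduced words (T_WP)
-/

open HNNExtension HNNExtension.NormalWord

namespace HGP

noncomputable section

section wp

variable {H : Type} [Group H] {A B : Subgroup H} (φ : A ≃* B)

lemma WP_ex (g : HNNExtension H A B φ) : ∃ w : ReducedWord H A B, w.prod φ = g :=
  ⟨((NormalWord.equiv φ (Classical.choice (TransversalPair.nonempty H A B))) g).toReducedWord,
    (NormalWord.equiv φ _).symm_apply_apply g⟩

/-- conjugation by a power of the stable letter -/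
lemma WP_conj (u : ℤˣ) (a : H) (ha : a ∈ toSubgroup A B u) :
    ∃ b : H, (t ^ (u : ℤ) * of a * t ^ ((-u : ℤˣ) : ℤ) : HNNExtension H A B φ) = of b := by
  rcases Int.units_eq_one_or u with rfl | rfl
  · refine ⟨φ ⟨a, ha⟩, ?_⟩
    rw [equiv_eq_conj]
    simp
  · refine ⟨φ.symm ⟨a, ha⟩, ?_⟩
    rw [equiv_symm_eq_conj]
    simp

lemma WP_ne (u v : ℤˣ) (h : u ≠ v) : v = -u := by
  rcases Int.units_eq_one_or u with rfl | rfl <;> rcases Int.units_eq_one_or v with rfl | rfl <;>
    simp_all

/-- the product of the letters of a list -/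
def WP_pr (l : List (ℤˣ × H)) : HNNExtension H A B φ :=
  (l.map (fun x => t ^ (x.1 : ℤ) * of x.2)).prod

lemma WP_prod (w : ReducedWord H A B) : w.prod φ = of w.head * WP_pr φ w.toList := rfl

lemma WP_pr_nil : WP_pr φ ([] : List (ℤˣ × H)) = 1 := by simp [WP_pr]

lemma WP_pr_cons (x : ℤˣ × H) (l : List (ℤˣ × H)) :
    WP_pr φ (x :: l) = t ^ (x.1 : ℤ) * of x.2 * WP_pr φ l := by simp [WP_pr]

lemma WP_pr_append (l l' : List (ℤˣ × H)) :
    WP_pr φ (l ++ l') = WP_pr φ l * WP_pr φ l' := by simp [WP_pr]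

/-- the relation between neighbours in a reduced word -/
abbrev WP_R (A B : Subgroup H) : (ℤˣ × H) → (ℤˣ × H) → Prop :=
  fun a b => a.2 ∈ toSubgroup A B a.1 → a.1 = b.1

variable {M : Type} [Monoid M]

/-- the evaluation of a list -/
def WP_ep (π : H →* M) (V V' : M) (l : List (ℤˣ × H)) : M :=
  (l.map (fun x => vu V V' x.1 * π x.2)).prod

lemma WP_ev (π : H →* M) (V V' : M) (w : ReducedWord H A B) :
    ev π V V' w = π w.head * WP_ep π V V' w.toList := rfl

lemma WP_ep_nil (π : H →* M) (V V' : M) : WP_ep π V V' [] = 1 := by simp [WP_ep]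

lemma WP_ep_cons (π : H →* M) (V V' : M) (x : ℤˣ × H) (l : List (ℤˣ × H)) :
    WP_ep π V V' (x :: l) = vu V V' x.1 * π x.2 * WP_ep π V V' l := by simp [WP_ep]

lemma WP_ep_append (π : H →* M) (V V' : M) (l l' : List (ℤˣ × H)) :
    WP_ep π V V' (l ++ l') = WP_ep π V V' l * WP_ep π V V' l' := by simp [WP_ep]

/-- the head of a reduced word before which a letter does not cancel -/
lemma WP_left (h1 : T_LEN) (w : ReducedWord H A B) (u : ℤˣ)
    (hl : len φ (t ^ (u : ℤ) * w.prod φ) = len φ (w.prod φ) + 1) :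
    ((u, w.head) :: w.toList).IsChain (WP_R A B) := by
  rcases w with ⟨x, l, c⟩
  rw [h1] at hl
  cases l with
  | nil => exact List.isChain_singleton _
  | cons y l =>
    refine List.isChain_cons_cons.2 ⟨?_, c⟩
    intro hx
    by_contra hne
    have hy := WP_ne _ _ hne
    obtain ⟨b, hb⟩ := WP_conj φ u x hx
    have e : t ^ (u : ℤ) * ReducedWord.prod φ ⟨x, y :: l, c⟩ =
        ReducedWord.prod φ ⟨b * y.2, l, (List.isChain_cons.1 c).2⟩ := by
      rw [WP_prod, WP_prod]
      simp only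
      rw [WP_pr_cons, map_mul, ← hb, hy]
      simp only [mul_assoc]
    rw [e, h1] at hl
    simp at hl
    omega

lemma WP_right (h1 : T_LEN) (h2 : T_LN) (w : ReducedWord H A B) (u : ℤˣ)
    (hl : len φ (w.prod φ * t ^ (u : ℤ)) = len φ (w.prod φ) + 1) :
    (w.toList ++ [(u, 1)]).IsChain (WP_R A B) := by
  rcases w with ⟨x, l, c⟩
  rw [h1] at hl
  rcases List.eq_nil_or_concat' l with rfl | ⟨l, y, rfl⟩
  · exact List.isChain_singleton _
  · refine List.isChain_append.2 ⟨c, List.isChain_singleton _, ?_⟩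
    intro p hp q hq hx
    simp only [List.getLast?_append, List.getLast?_singleton, Option.some_or,
      Option.mem_some_iff] at hp
    simp only [List.head?_cons, Option.mem_some_iff] at hq
    subst hp; subst hq
    by_contra hne
    have hy := WP_ne _ _ hne
    simp only at hy
    obtain ⟨b, hb⟩ := WP_conj φ y.1 y.2 hx
    have e : ReducedWord.prod φ ⟨x, l ++ [y], c⟩ * t ^ (u : ℤ) =
        ReducedWord.prod φ ⟨x, l, (List.isChain_append.1 c).1⟩ * of b := by
      rw [WP_prod, WP_prod]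
      simp only
      rw [WP_pr_append, WP_pr_cons, WP_pr_nil, ← hb, hy]
      simp only [mul_assoc, mul_one]
    rw [e, (h2 H A B φ).2.1, h1] at hl
    simp at hl
    omega

end wp

theorem p_WP (h1 : T_LEN) (h2 : T_LN) : T_WP := by
  intro H _ A B φ M _ π V V' hV hV' W hW
  have hof : ∀ h : H, W (of h) = π h := by
    intro h
    have := hW ⟨h, [], List.isChain_nil⟩
    simpa [WP_prod, WP_pr_nil, WP_ev, WP_ep_nil] using this
  refine ⟨hof, ?_, ?_, ?_, ?_⟩
  · intro h g
    obtain ⟨w, rfl⟩ := WP_ex φ g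
    have e := hW ⟨h * w.head, w.toList, w.chain⟩
    rw [hW, WP_ev]
    rw [WP_prod, WP_ev] at e
    simp only [map_mul, mul_assoc] at e ⊢
    exact e
  · intro h g
    obtain ⟨w, rfl⟩ := WP_ex φ g
    rcases w with ⟨x, l, c⟩
    rcases List.eq_nil_or_concat' l with rfl | ⟨l, y, rfl⟩
    · have e := hW ⟨x * h, [], List.isChain_nil⟩
      rw [hW, WP_ev]
      rw [WP_prod, WP_ev] at e
      simp only [WP_prod, WP_pr_nil, WP_ep_nil, map_mul, mul_one] at e ⊢
      exact e
    · have c' : (l ++ [(y.1, y.2 * h)]).IsChain (WP_R A B) := by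
        have cc := List.isChain_append.1 c
        refine List.isChain_append.2 ⟨cc.1, List.isChain_singleton _, ?_⟩
        intro p hp q hq
        simp only [List.head?_cons, Option.mem_some_iff] at hq
        subst hq
        exact cc.2.2 p hp y (by simp)
      have e := hW ⟨x, l ++ [(y.1, y.2 * h)], c'⟩
      rw [hW, WP_ev]
      rw [WP_prod, WP_ev] at e
      simp only [WP_prod, WP_pr_nil, WP_ep_nil, WP_pr_append, WP_pr_cons, WP_ep_append,
        WP_ep_cons, map_mul, mul_one, mul_assoc] at e ⊢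
      exact e
  · intro u g hl
    obtain ⟨w, rfl⟩ := WP_ex φ g
    have e := hW ⟨1, (u, w.head) :: w.toList, WP_left φ h1 w u hl⟩
    rw [hW, WP_ev]
    rw [WP_prod, WP_ev] at e
    simp only [WP_prod, WP_pr_cons, WP_ep_cons, map_one, one_mul, mul_assoc] at e ⊢
    exact e
  · intro u g hl
    obtain ⟨w, rfl⟩ := WP_ex φ g
    have e := hW ⟨w.head, w.toList ++ [(u, 1)], WP_right φ h1 h2 w u hl⟩
    rw [hW, WP_ev]
    rw [WP_prod, WP_ev] at e
    simp only [WP_prod, WP_pr_append, WP_pr_cons, WP_pr_nil, WP_ep_append, WP_ep_cons,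
      WP_ep_nil, map_one, mul_one, mul_assoc] at e ⊢
    exact e

end

end HGP
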