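import Pool.Agent.HGP.Targets

/-!
# HGP: the sequence of almost invariant vectors
-/

open scoped InnerProductSpace ENNReal

namespace HGP

noncomputable section

/-- dependent choice -/
theorem XI_dc {α : Type} (P : ℕ → α → Prop) (R : ℕ → α → α → Prop) (h0 : ∃ x, P 0 x)
    (hs : ∀ n x, P n x → ∃ y, P (n + 1) y ∧ R n x y) :
    ∃ f : ℕ → α, (∀ n, P n (f n)) ∧ ∀ n, R n (f n) (f (n + 1)) := by
  classical
  choose! s hs1 hs2 using hs
  obtain ⟨x0, hx0⟩ := h0
  let f : ℕ → α := fun n => Nat.rec x0 (fun k y => s k y) n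
  have hf : ∀ n, P n (f n) := by
    intro n
    induction n with
    | zero => exact hx0
    | succ n ih => exact hs1 n _ ih
  exact ⟨f, hf, fun n => hs2 n _ (hf n)⟩

theorem XI_iter_nat {K : Type} [NormedAddCommGroup K] [InnerProductSpace ℝ K]
    (T : K ≃ₗᵢ[ℝ] K) (x : K) (n : ℕ) : ‖(T ^ n) x - x‖ ≤ n * ‖T x - x‖ := by
  induction n with
  | zero => simp
  | succ n ih =>
    have h1 : (T ^ (n + 1)) x - x = (T ^ n) (T x - x) + ((T ^ n) x - x) := by
      rw [pow_succ, LinearIsometryEquiv.coe_mul, Function.comp_apply, map_sub]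
      abel
    rw [h1]
    refine (norm_add_le _ _).trans ?_
    rw [LinearIsometryEquiv.norm_map]
    push_cast
    linarith

theorem XI_iter {K : Type} [NormedAddCommGroup K] [InnerProductSpace ℝ K]
    (T : K ≃ₗᵢ[ℝ] K) (x : K) (k : ℤ) : ‖(T ^ k) x - x‖ ≤ |(k : ℝ)| * ‖T x - x‖ := by
  obtain ⟨n, rfl | rfl⟩ := k.eq_nat_or_neg
  · simpa using XI_iter_nat T x n
  · have h1 : (T ^ (-(n : ℤ))) x - x = (T ^ (-(n : ℤ))) (x - (T ^ n) x) := by
      rw [map_sub]
      congr 1
      have h2 : (T ^ (-(n : ℤ))) ((T ^ n) x) = (T ^ (-(n : ℤ)) * T ^ n) x := rfl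
      rw [h2, zpow_neg, zpow_natCast, inv_mul_cancel]
      rfl
    rw [h1, LinearIsometryEquiv.norm_map, norm_sub_rev]
    have := XI_iter_nat T x n
    simpa using this

theorem XI_S1_nat (Z : Type) (f : L2 (ℤ × Z) ℝ) (k : ℕ) (n : ℤ) (z : Z) :
    (S1 Z ^ k) f (n, z) = f (n - k, z) := by
  induction k generalizing n with
  | zero => simp
  | succ k ih =>
    rw [pow_succ', LinearIsometryEquiv.coe_mul, Function.comp_apply, S1_apply, ih]
    have h1 : n - 1 - (k : ℤ) = n - ((k + 1 : ℕ) : ℤ) := by push_cast; ring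
    rw [h1]

theorem XI_S1 (Z : Type) (f : L2 (ℤ × Z) ℝ) (k : ℤ) (n : ℤ) (z : Z) :
    (S1 Z ^ k) f (n, z) = f (n - k, z) := by
  obtain ⟨m, rfl | rfl⟩ := k.eq_nat_or_neg
  · simpa using XI_S1_nat Z f m n z
  · have h2 : (S1 Z ^ m) ((S1 Z ^ (-(m : ℤ))) f) = f := by
      have h3 : (S1 Z ^ m) ((S1 Z ^ (-(m : ℤ))) f) = (S1 Z ^ m * S1 Z ^ (-(m : ℤ))) f := rfl
      rw [h3, zpow_neg, zpow_natCast, mul_inv_cancel]
      rfl
    have h4 := XI_S1_nat Z ((S1 Z ^ (-(m : ℤ))) f) m (n + m) z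
    rw [h2] at h4
    have h5 : n + (m : ℤ) - m = n := by ring
    rw [h5] at h4
    rw [← h4]
    have h6 : n - -(m : ℤ) = n + m := by ring
    rw [h6]

theorem XI_pR {H : Type} [Group H] {E : Type} [NormedAddCommGroup E] [InnerProductSpace ℝ E]
    (Z : Type) (β : H →* Multiplicative ℤ) (π : H →* (E ≃ₗᵢ[ℝ] E)) (s : H)
    (η : L2 (ℤ × Z) ℝ) (w : E) :
    pR Z β π s (tens η w) = tens ((S1 Z ^ (Multiplicative.toAdd (β s))) η) (π s w) := by
  ext ⟨n, z⟩
  rw [pR_apply, tens_apply, tens_apply, XI_S1, map_smul]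

theorem XI_move {H : Type} [Group H] {E : Type} [NormedAddCommGroup E] [InnerProductSpace ℝ E]
    (Z : Type) (β : H →* Multiplicative ℤ) (π : H →* (E ≃ₗᵢ[ℝ] E)) (s : H)
    (η : L2 (ℤ × Z) ℝ) (w : E) (hη : ‖η‖ ≤ 1) (hw : ‖w‖ ≤ 1) :
    ‖pR Z β π s (tens η w) - tens η w‖ ≤ ‖π s w - w‖ +
      |((Multiplicative.toAdd (β s) : ℤ) : ℝ)| * ‖S1 Z η - η‖ := by
  rw [XI_pR]
  have h1 : tens ((S1 Z ^ (Multiplicative.toAdd (β s))) η) (π s w) - tens η w
      = tens ((S1 Z ^ (Multiplicative.toAdd (β s))) η - η) (π s w) +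
        tens η (π s w - w) := by
    rw [tens_sub_left, tens_sub_right]
    abel
  rw [h1]
  refine (norm_add_le _ _).trans ?_
  rw [norm_tens, norm_tens, LinearIsometryEquiv.norm_map]
  have h2 := XI_iter (S1 Z) η (Multiplicative.toAdd (β s))
  have h3 : ‖(S1 Z ^ (Multiplicative.toAdd (β s))) η - η‖ * ‖w‖ ≤
      |((Multiplicative.toAdd (β s) : ℤ) : ℝ)| * ‖S1 Z η - η‖ := by
    calc ‖(S1 Z ^ (Multiplicative.toAdd (β s))) η - η‖ * ‖w‖
        ≤ ‖(S1 Z ^ (Multiplicative.toAdd (β s))) η - η‖ * 1 :=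
          mul_le_mul_of_nonneg_left hw (norm_nonneg _)
      _ ≤ _ := by rw [mul_one]; exact h2
  have h4 : ‖η‖ * ‖π s w - w‖ ≤ ‖π s w - w‖ := by
    calc ‖η‖ * ‖π s w - w‖ ≤ 1 * ‖π s w - w‖ :=
          mul_le_mul_of_nonneg_right hη (norm_nonneg _)
      _ = _ := one_mul _
  linarith

/-- invariants of the construction -/
structure XI_Inv {H : Type} [Group H] {E : Type} [NormedAddCommGroup E] [InnerProductSpace ℝ E]
    (π : H →* (E ≃ₗᵢ[ℝ] E)) (l : List H) (Y : H → Type) (lam : ∀ c : H, Y c → E) (a : H)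
    (S : Finset H) (e k : ℝ) (j : ℕ) (p : E × L2 (Ix (Y a)) ℝ) : Prop where
  ai : AI π l Y lam S e p.1
  n1 : ‖p.2‖ ≤ 1
  sup : ∀ n z, z.length ≠ j → p.2 (n, z) = 0
  low : (1 - e) ^ j ≤ ‖p.2‖ ^ 2
  dev : ‖S1 (List (Y a × ℤ)) p.2 - p.2‖ ≤ e * (j + 1) * (k + 1) ^ j

theorem p_XI (h1 : T_STEP) (h2 : T_ET0) : T_XI := by
  classical
  intro H _ E _ _ _ π a b β r hr hβ l Y lam hal hBes hAI J S ε hε
  set k : ℝ := |((Multiplicative.toAdd (β a) : ℤ) : ℝ)| with hk
  have hk0 : 0 ≤ k := abs_nonneg _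
  set M : ℝ := ∑ s ∈ S, |((Multiplicative.toAdd (β s) : ℤ) : ℝ)| with hM
  have hM0 : 0 ≤ M := Finset.sum_nonneg fun s _ => abs_nonneg _
  have hMs : ∀ s ∈ S, |((Multiplicative.toAdd (β s) : ℤ) : ℝ)| ≤ M := fun s hs =>
    Finset.single_le_sum (f := fun s => |((Multiplicative.toAdd (β s) : ℤ) : ℝ)|)
      (fun i _ => abs_nonneg _) hs
  set C : ℝ := 1 + M * ((J + 1) * (k + 1) ^ J) + J with hC
  have hC1 : 1 ≤ C := by
    rw [hC]
    have : 0 ≤ M * ((J + 1) * (k + 1) ^ J) := by positivity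
    have : (0 : ℝ) ≤ J := Nat.cast_nonneg _
    linarith
  have hC0 : 0 < C := by linarith
  set e : ℝ := min ε 1 / C with he
  have he0 : 0 < e := div_pos (lt_min hε one_pos) hC0
  have heC : e * C = min ε 1 := by rw [he]; field_simp
  have he1 : e ≤ min ε 1 := by
    calc e = e * 1 := (mul_one _).symm
      _ ≤ e * C := mul_le_mul_of_nonneg_left hC1 he0.le
      _ = _ := heC
  have heε : e ≤ ε := he1.trans (min_le_left _ _)
  have he1' : e ≤ 1 := he1.trans (min_le_right _ _)
  set S' : Finset H := insert a S with hS'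
  let P : ℕ → E × L2 (Ix (Y a)) ℝ → Prop := fun j p => XI_Inv π l Y lam a S' e k j p
  let R : ℕ → E × L2 (Ix (Y a)) ℝ → E × L2 (Ix (Y a)) ℝ → Prop := fun j p p' =>
    ∀ (ω : List (Y a × ℤ) → E) (V : L2 (Ix (Y a)) E →L[ℝ] L2 (Ix (Y a)) E),
      (∀ z, z.length = j + 1 → ω z = p'.1) →
      VForm (pR (List (Y a × ℤ)) β π) π a b r (mu (lam a)) ω V →
      ‖V (tens p.2 p.1) - tens p'.2 p'.1‖ ≤ ε
  have h0 : ∃ p, P 0 p := by
    obtain ⟨w, hw⟩ := hAI S' e he0
    obtain ⟨η, hη1, hη2, hη3⟩ := h2 (Y a) e he0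
    refine ⟨(w, η), ?_⟩
    exact
      { ai := hw
        n1 := hη1.le
        sup := hη2
        low := by simp [hη1]
        dev := by simpa using hη3 }
  have hs : ∀ j p, P j p → ∃ p', P (j + 1) p' ∧ R j p p' := by
    intro j p hp
    obtain ⟨hw1, hw2, hw3, hw4⟩ := hp.ai
    obtain ⟨η', hs1, hs2, hs3, hs4, hs5⟩ := h1 H E π a b β r hr hβ (Y a) (lam a) hBes j p.1 p.2
      hw1 hp.n1 hp.sup
    obtain ⟨T, ε₁, hε₁, hT⟩ := hs5 ε hε
    obtain ⟨w', hw'⟩ := hAI (S' ∪ T) (min e ε₁) (lt_min he0 hε₁)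
    obtain ⟨g1, g2, g3, g4⟩ := hw'
    refine ⟨(w', η'), ?_, ?_⟩
    · exact
        { ai := by
            refine ⟨g1, ?_, ?_, ?_⟩
            · have := min_le_left e ε₁
              linarith
            · intro s hs
              exact (g3 s (Finset.mem_union_left _ hs)).trans (min_le_left _ _)
            · intro c hc
              have := g4 c hc
              have := min_le_left e ε₁
              linarith
          n1 := hs2
          sup := hs1
          low := by
            show (1 - e) ^ (j + 1) ≤ ‖η'‖ ^ 2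
            rw [hs3, pow_succ]
            have hq := hw4 a hal
            have := hp.low
            exact mul_le_mul this hq (by linarith) (sq_nonneg _)
          dev := by
            show ‖S1 (List (Y a × ℤ)) η' - η'‖ ≤ e * ((j + 1 : ℕ) + 1) * (k + 1) ^ (j + 1)
            refine hs4.trans ?_
            have hd := hp.dev
            have hwa := hw3 a (Finset.mem_insert_self _ _)
            have hkk : (1 : ℝ) ≤ (k + 1) ^ j := one_le_pow₀ (by linarith)
            have hkk' : (1 : ℝ) ≤ (k + 1) ^ (j + 1) := one_le_pow₀ (by linarith)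
            have h5 : k * ‖S1 (List (Y a × ℤ)) p.2 - p.2‖ ≤
                k * (e * (j + 1) * (k + 1) ^ j) := mul_le_mul_of_nonneg_left hd hk0
            have h6 : k * (e * (j + 1) * (k + 1) ^ j) ≤
                (k + 1) * (e * (j + 1) * (k + 1) ^ j) := by
              apply mul_le_mul_of_nonneg_right (by linarith)
              positivity
            have h7 : e ≤ e * (k + 1) ^ (j + 1) := by
              calc e = e * 1 := (mul_one _).symm
                _ ≤ _ := mul_le_mul_of_nonneg_left hkk' he0.le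
            have h8 : e * (((j + 1 : ℕ) : ℝ) + 1) * (k + 1) ^ (j + 1) =
                e * (k + 1) ^ (j + 1) + (k + 1) * (e * (j + 1) * (k + 1) ^ j) := by
              push_cast
              ring
            rw [h8]
            linarith }
    · intro ω V hω hV
      refine hT w' g1 ?_ ω V hω hV
      intro s hs
      exact (g3 s (Finset.mem_union_right _ hs)).trans (min_le_right _ _)
  obtain ⟨f, hf, hfR⟩ := XI_dc P R h0 hs
  refine ⟨fun j => (f j).1, fun j => (f j).2, fun j => (hf j).ai.1, fun j => (hf j).n1,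
    fun j n z hz => (hf j).sup n z hz, ?_, ?_⟩
  · intro j hj
    obtain ⟨g1, g2, g3, g4⟩ := (hf j).ai
    have hjJ : (j : ℝ) ≤ J := by exact_mod_cast hj
    refine ⟨?_, by linarith, fun c hc => by have := g4 c hc; linarith, ?_⟩
    · have h3 := (hf j).low
      have h4 := (hf j).n1
      have h5 : 1 - (j : ℝ) * e ≤ (1 - e) ^ j := by
        have := one_add_mul_le_pow (a := -e) (by linarith) j
        calc 1 - (j : ℝ) * e = 1 + j * (-e) := by ring
          _ ≤ (1 + -e) ^ j := this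
          _ = _ := by rw [← sub_eq_add_neg]
      have h6 : ‖(f j).2‖ ^ 2 ≤ ‖(f j).2‖ := by
        have := norm_nonneg (f j).2
        nlinarith
      have h7 : (j : ℝ) * e ≤ ε := by
        calc (j : ℝ) * e ≤ J * e := mul_le_mul_of_nonneg_right hjJ he0.le
          _ ≤ C * e := by
            apply mul_le_mul_of_nonneg_right _ he0.le
            rw [hC]
            have : 0 ≤ M * ((J + 1) * (k + 1) ^ J) := by positivity
            linarith
          _ = min ε 1 := by rw [mul_comm]; exact heC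
          _ ≤ ε := min_le_left _ _
      linarith
    · intro s hs
      refine (XI_move _ β π s (f j).2 (f j).1 (hf j).n1 g1).trans ?_
      have h3 := g3 s (Finset.mem_insert_of_mem hs)
      have h4 := (hf j).dev
      have h5 : e * (j + 1) * (k + 1) ^ j ≤ e * ((J + 1) * (k + 1) ^ J) := by
        rw [mul_assoc]
        apply mul_le_mul_of_nonneg_left _ he0.le
        apply mul_le_mul (by linarith) _ (by positivity) (by positivity)
        exact pow_le_pow_right₀ (by linarith) hj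
      have h6 : |((Multiplicative.toAdd (β s) : ℤ) : ℝ)| *
          ‖S1 (List (Y a × ℤ)) (f j).2 - (f j).2‖ ≤ M * (e * ((J + 1) * (k + 1) ^ J)) := by
        apply mul_le_mul (hMs s hs) (h4.trans h5) (norm_nonneg _) hM0
      have h7 : e + M * (e * ((J + 1) * (k + 1) ^ J)) ≤ ε := by
        calc e + M * (e * ((J + 1) * (k + 1) ^ J))
            = e * (1 + M * ((J + 1) * (k + 1) ^ J)) := by ring
          _ ≤ e * C := by
            apply mul_le_mul_of_nonneg_left _ he0.le
            rw [hC]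
            have : (0 : ℝ) ≤ J := Nat.cast_nonneg _
            linarith
          _ = min ε 1 := heC
          _ ≤ ε := min_le_left _ _
      linarith
  · intro j hj V hV
    refine hfR j _ V ?_ hV
    intro z hz
    show (f z.length).1 = (f (j + 1)).1
    rw [hz]

end

end HGP
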