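import Pool.Agent.HGP.Targets

/-!
# HGP, target T_ZAM: the infinite cyclic group
-/

open HNNExtension HNNExtension.NormalWord

namespace HGP

/-- an infinite cyclic group is amenable -/
lemma ZAM_cyc {G : Type} [Group G] (g₀ : G) (h0 : ¬ IsOfFinOrder g₀)
    (hg : ∀ g : G, ∃ k : ℤ, g₀ ^ k = g) : IsAmenable G := by
  intro S ε hε
  have hinj : Function.Injective (fun k : ℤ => g₀ ^ k) := injective_zpow_iff_not_isOfFinOrder.2 h0
  choose kk hkk using hg
  obtain ⟨K, hK⟩ : ∃ K : ℕ, ∀ s ∈ S, (kk s).natAbs ≤ K :=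
    ⟨S.sup fun s => (kk s).natAbs, fun s hs =>
      Finset.le_sup (f := fun s => (kk s).natAbs) hs⟩
  set N : ℕ := ⌈(K : ℝ) / ε⌉₊ + 1 with hN
  have hN1 : (K : ℝ) ≤ ε * N := by
    have h1 := Nat.le_ceil ((K : ℝ) / ε)
    rw [div_le_iff₀ hε] at h1
    rw [hN]
    push_cast
    nlinarith
  have hcard : ((fun k : ℤ => g₀ ^ k) '' (Finset.Ico (0 : ℤ) N : Set ℤ)).ncard = N := by
    rw [Set.ncard_image_of_injective _ hinj, Set.ncard_coe_finset, Int.card_Ico]
    simp
  refine ⟨(fun k : ℤ => g₀ ^ k) '' (Finset.Ico (0 : ℤ) N : Set ℤ),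
    (Finset.finite_toSet _).image _, ?_, ?_⟩
  · refine ⟨g₀ ^ (0 : ℤ), 0, ?_, rfl⟩
    rw [Finset.mem_coe, Finset.mem_Ico]
    exact ⟨le_refl _, by rw [hN]; positivity⟩
  · intro s hs
    rw [hcard]
    refine le_trans ?_ hN1
    have h2 := hK s hs
    suffices h3 : ((fun x => s * x) '' ((fun k : ℤ => g₀ ^ k) '' (Finset.Ico (0 : ℤ) N : Set ℤ)) \
        ((fun k : ℤ => g₀ ^ k) '' (Finset.Ico (0 : ℤ) N : Set ℤ))).ncard ≤ (kk s).natAbs by
      exact_mod_cast h3.trans h2
    have key : ∀ T : Finset ℤ, (∀ j : ℤ, 0 ≤ j → j < N → ¬ (0 ≤ kk s + j ∧ kk s + j < N) →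
        kk s + j ∈ T) → ((fun x => s * x) '' ((fun k : ℤ => g₀ ^ k) ''
        (Finset.Ico (0 : ℤ) N : Set ℤ)) \
        ((fun k : ℤ => g₀ ^ k) '' (Finset.Ico (0 : ℤ) N : Set ℤ))).ncard ≤ T.card := by
      intro T hT
      have h4 : ((fun x => s * x) '' ((fun k : ℤ => g₀ ^ k) '' (Finset.Ico (0 : ℤ) N : Set ℤ)) \
        ((fun k : ℤ => g₀ ^ k) '' (Finset.Ico (0 : ℤ) N : Set ℤ))) ⊆
          (fun k : ℤ => g₀ ^ k) '' (T : Set ℤ) := by
        rintro x ⟨⟨y, ⟨j, hj, rfl⟩, rfl⟩, hx⟩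
        rw [Finset.mem_coe, Finset.mem_Ico] at hj
        have h5 : s * g₀ ^ j = g₀ ^ (kk s + j) := by rw [zpow_add, hkk]
        refine ⟨kk s + j, ?_, h5.symm⟩
        refine hT j hj.1 hj.2 fun h6 => hx ⟨kk s + j, ?_, h5.symm⟩
        rw [Finset.mem_coe, Finset.mem_Ico]
        exact h6
      have h7 := Set.ncard_le_ncard h4 ((Finset.finite_toSet T).image _)
      rwa [Set.ncard_image_of_injective _ hinj, Set.ncard_coe_finset] at h7
    rcases le_or_gt 0 (kk s) with h | h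
    · refine (key (Finset.Ico (N : ℤ) (kk s + N)) ?_).trans ?_
      · intro j h5 h6 h7
        rw [Finset.mem_Ico]
        omega
      · rw [Int.card_Ico]; omega
    · refine (key (Finset.Ico (kk s) 0) ?_).trans ?_
      · intro j h5 h6 h7
        rw [Finset.mem_Ico]
        omega
      · rw [Int.card_Ico]; omega

theorem p_ZAM : T_ZAM := by
  intro n hn
  set w : FreeGroup (Fin 2) := ly * lx ^ (-n) with hw
  -- the homomorphism to the integers
  obtain ⟨β, hx, hy⟩ : ∃ β : OneRel w →* Multiplicative ℤ,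
      β (gx w) = Multiplicative.ofAdd 1 ∧ β (gy w) = Multiplicative.ofAdd n := by
    refine ⟨PresentedGroup.toGroup (f := ![Multiplicative.ofAdd 1, Multiplicative.ofAdd n]) ?_,
      ?_, ?_⟩
    · intro r hr
      rw [Set.mem_singleton_iff] at hr
      rw [hr, hw]
      simp [← ofAdd_zsmul]
    · simp [gx, PresentedGroup.toGroup.of]
    · simp [gy, PresentedGroup.toGroup.of]
  have hrel : gy w = gx w ^ n := by
    have h1 : PresentedGroup.mk ({w} : Set (FreeGroup (Fin 2))) w = 1 :=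
      PresentedGroup.one_of_mem (Set.mem_singleton w)
    have h2 : PresentedGroup.mk ({w} : Set (FreeGroup (Fin 2))) w = gy w * gx w ^ (-n) := by
      have h3 : ∀ M : FreeGroup (Fin 2) →* OneRel w, M w = M ly * M lx ^ (-n) := by
        intro M
        conv_lhs => arg 2; rw [hw]
        rw [map_mul, map_zpow]
      exact h3 (PresentedGroup.mk ({w} : Set (FreeGroup (Fin 2))))
    rw [h2] at h1
    rw [zpow_neg] at h1
    exact mul_inv_eq_one.1 h1
  have hfx : ¬ IsOfFinOrder (gx w) := by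
    intro h
    have h1 := β.isOfFinOrder h
    rw [hx, isOfFinOrder_iff_pow_eq_one] at h1
    obtain ⟨k, hk, hk2⟩ := h1
    rw [← ofAdd_nsmul] at hk2
    have h3 : k • (1 : ℤ) = 0 := Multiplicative.ofAdd.injective hk2
    simp at h3
    omega
  have hfy : ¬ IsOfFinOrder (gy w) := by
    intro h
    have h1 := β.isOfFinOrder h
    rw [hy, isOfFinOrder_iff_pow_eq_one] at h1
    obtain ⟨k, hk, hk2⟩ := h1
    rw [← ofAdd_nsmul] at hk2
    have h3 : k • n = 0 := Multiplicative.ofAdd.injective hk2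
    rw [nsmul_eq_mul, mul_eq_zero] at h3
    rcases h3 with h3 | h3
    · have : k = 0 := by exact_mod_cast h3
      omega
    · exact hn h3
  refine ⟨ZAM_cyc (gx w) hfx ?_, hfx, hfy⟩
  intro g
  have h1 : g ∈ Subgroup.closure (Set.range (PresentedGroup.of :
      Fin 2 → PresentedGroup ({w} : Set (FreeGroup (Fin 2))))) := by
    rw [PresentedGroup.closure_range_of]
    exact Subgroup.mem_top g
  have h2 : Subgroup.closure (Set.range (PresentedGroup.of :
      Fin 2 → PresentedGroup ({w} : Set (FreeGroup (Fin 2))))) ≤ Subgroup.zpowers (gx w) := by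
    rw [Subgroup.closure_le]
    rintro _ ⟨i, rfl⟩
    fin_cases i
    · exact Subgroup.mem_zpowers (gx w)
    · show gy w ∈ Subgroup.zpowers (gx w)
      rw [hrel]
      exact Subgroup.zpow_mem_zpowers (gx w) n
  exact Subgroup.mem_zpowers_iff.1 (h2 h1)

end HGP
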