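import Pool.Agent.HGP.Base

/-!
# HGP: targets (statements only; proofs in `Blueprint.md`)
-/

open scoped InnerProductSpace ENNReal
open HNNExtension HNNExtension.NormalWord

namespace HGP

noncomputable section

/-! ## A. Words in HNN extensions -/

def T_LEN : Prop := ∀ (H : Type) [Group H] (A B : Subgroup H) (φ : A ≃* B)
  (w : ReducedWord H A B), len φ (w.prod φ) = w.toList.length

/-- elementary properties of the length -/
def T_LN : Prop := ∀ (H : Type) [Group H] (A B : Subgroup H) (φ : A ≃* B),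
  (∀ (h : H) (g : HNNExtension H A B φ), len φ (of h * g) = len φ g) ∧
  (∀ (h : H) (g : HNNExtension H A B φ), len φ (g * of h) = len φ g) ∧
  (∀ g : HNNExtension H A B φ, len φ g⁻¹ = len φ g) ∧
  (∀ g : HNNExtension H A B φ, len φ g = 0 → ∃ h : H, g = of h) ∧
  (∀ h : H, len φ (of h) = 0) ∧
  (∀ (u : ℤˣ) (g : HNNExtension H A B φ), len φ (t ^ (u : ℤ) * g) = len φ g + 1 ∨
    len φ g = len φ (t ^ (u : ℤ) * g) + 1)

/-- concatenation of reduced words -/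
def T_CAT : Prop := ∀ (H : Type) [Group H] (A B : Subgroup H) (φ : A ≃* B) (u : ℤˣ)
  (z r : HNNExtension H A B φ), len φ (z * t ^ (u : ℤ)) = len φ z + 1 →
  len φ (t ^ (u : ℤ) * r) = len φ r + 1 →
  len φ (z * t ^ (u : ℤ) * r) = len φ z + 1 + len φ r

/-- the tree lemma -/
def T_TREE : Prop := ∀ (H : Type) [Group H] (A B : Subgroup H) (φ : A ≃* B) (u : ℤˣ)
  (r g : HNNExtension H A B φ), len φ (t ^ (u : ℤ) * r) = len φ r + 1 →
  len φ g ≤ len φ r + 1 → (¬ ∃ h : H, g = of h * (t ^ (u : ℤ) * r)) →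
  len φ (t ^ (u : ℤ) * (r * g⁻¹)) = len φ (r * g⁻¹) + 1

/-- decomposition from the left, constant on the cosets of the base group -/
def T_DECL : Prop := ∀ (H : Type) [Group H] (A B : Subgroup H) (φ : A ≃* B),
  ∃ (hd : HNNExtension H A B φ → H) (tu : HNNExtension H A B φ → ℤˣ)
    (tr : HNNExtension H A B φ → HNNExtension H A B φ),
    ∀ g, len φ g ≠ 0 → g = of (hd g) * (t ^ (tu g : ℤ) * tr g) ∧ len φ g = len φ (tr g) + 1 ∧
      ∀ h : H, hd (of h * g) = h * hd g ∧ tu (of h * g) = tu g ∧ tr (of h * g) = tr g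

/-- decomposition from the right -/
def T_DECR : Prop := ∀ (H : Type) [Group H] (A B : Subgroup H) (φ : A ≃* B)
  (g : HNNExtension H A B φ), len φ g ≠ 0 → ∃ (x : HNNExtension H A B φ) (u : ℤˣ) (h : H),
    g = x * t ^ (u : ℤ) * of h ∧ len φ g = len φ x + 1 ∧ len φ (x * t ^ (u : ℤ)) = len φ x + 1

/-- existence of the evaluation -/
def T_EV : Prop := ∀ (H : Type) [Group H] (A B : Subgroup H) (φ : A ≃* B) (M : Type) [Monoid M]
  (π : H →* M) (V V' : M), (∀ a : A, V * π a = π (φ a) * V) →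
  (∀ b : B, V' * π b = π (φ.symm b) * V') →
  ∃ W : HNNExtension H A B φ → M, ∀ w : ReducedWord H A B, W (w.prod φ) = ev π V V' w

/-- consequences for an evaluation -/
def T_WP : Prop := ∀ (H : Type) [Group H] (A B : Subgroup H) (φ : A ≃* B) (M : Type) [Monoid M]
  (π : H →* M) (V V' : M), (∀ a : A, V * π a = π (φ a) * V) →
  (∀ b : B, V' * π b = π (φ.symm b) * V') →
  ∀ W : HNNExtension H A B φ → M, (∀ w : ReducedWord H A B, W (w.prod φ) = ev π V V' w) →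
  (∀ h : H, W (of h) = π h) ∧
  (∀ (h : H) (g : HNNExtension H A B φ), W (of h * g) = π h * W g) ∧
  (∀ (h : H) (g : HNNExtension H A B φ), W (g * of h) = W g * π h) ∧
  (∀ (u : ℤˣ) (g : HNNExtension H A B φ), len φ (t ^ (u : ℤ) * g) = len φ g + 1 →
    W (t ^ (u : ℤ) * g) = vu V V' u * W g) ∧
  (∀ (u : ℤˣ) (g : HNNExtension H A B φ), len φ (g * t ^ (u : ℤ)) = len φ g + 1 →
    W (g * t ^ (u : ℤ)) = W g * vu V V' u)

/-- the evaluation of the inverse -/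
def T_WI : Prop := ∀ (H : Type) [Group H] (A B : Subgroup H) (φ : A ≃* B) (M : Type) [Monoid M]
  [StarMul M] (π : H →* M) (V : M), (∀ h : H, star (π h) = π h⁻¹) →
  ∀ W : HNNExtension H A B φ → M, (∀ w : ReducedWord H A B, W (w.prod φ) = ev π V (star V) w) →
  ∀ g, W g⁻¹ = star (W g)

/-- existence of the operator valued function -/
def T_SYS : Prop := ∀ (H : Type) [Group H] (A B : Subgroup H) (φ : A ≃* B) (E : Type)
  [NormedAddCommGroup E] [InnerProductSpace ℝ E] [CompleteSpace E] (π : H →* (E ≃ₗᵢ[ℝ] E))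
  (V : E →L[ℝ] E), ‖V‖ ≤ 1 → (∀ (a : A) (u : E), V (π (a : H) u) = π (φ a : H) (V u)) →
  ∃ W, Sys φ π V W

/-- all properties of the operator valued function -/
def T_SP : Prop := ∀ (H : Type) [Group H] (A B : Subgroup H) (φ : A ≃* B) (E : Type)
  [NormedAddCommGroup E] [InnerProductSpace ℝ E] [CompleteSpace E] (π : H →* (E ≃ₗᵢ[ℝ] E))
  (V : E →L[ℝ] E) (W : HNNExtension H A B φ → (E →L[ℝ] E)), Sys φ π V W →
  (∀ (h : H) (u : E), W (of h) u = π h u) ∧ (∀ u : E, W t u = V u) ∧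
  (∀ (h : H) (g : HNNExtension H A B φ) (u : E), W (of h * g) u = π h (W g u)) ∧
  (∀ (h : H) (g : HNNExtension H A B φ) (u : E), W (g * of h) u = W g (π h u)) ∧
  (∀ (v : ℤˣ) (g : HNNExtension H A B φ), len φ (t ^ (v : ℤ) * g) = len φ g + 1 →
    W (t ^ (v : ℤ) * g) = vu V (ContinuousLinearMap.adjoint V) v * W g) ∧
  (∀ (v : ℤˣ) (g : HNNExtension H A B φ), len φ (g * t ^ (v : ℤ)) = len φ g + 1 →
    W (g * t ^ (v : ℤ)) = W g * vu V (ContinuousLinearMap.adjoint V) v) ∧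
  (∀ g, W g⁻¹ = ContinuousLinearMap.adjoint (W g)) ∧
  (∀ g, ‖W g‖ ≤ ‖V‖ ^ (len φ g)) ∧
  (∀ (b : B) (u : E), ContinuousLinearMap.adjoint V (π (b : H) u) =
    π (φ.symm b : H) (ContinuousLinearMap.adjoint V u))

/-! ## B. Positivity, Hilbert space, decay -/

/-- positivity -/
def T_POS : Prop := ∀ (H : Type) [Group H] (A B : Subgroup H) (φ : A ≃* B) (E : Type)
  [NormedAddCommGroup E] [InnerProductSpace ℝ E] [CompleteSpace E] (π : H →* (E ≃ₗᵢ[ℝ] E))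
  (V : E →L[ℝ] E) (W : HNNExtension H A B φ → (E →L[ℝ] E)), Sys φ π V W →
  ∀ (k : ℕ) (g : Fin k → HNNExtension H A B φ) (f : Fin k → E),
    0 ≤ ∑ i, ∑ j, ⟪W (g i * (g j)⁻¹) (f j), f i⟫_ℝ

/-- the Hilbert space of an operator valued positive definite function -/
def T_GNS : Prop := ∀ (G : Type) [Group G] (E : Type) [NormedAddCommGroup E]
  [InnerProductSpace ℝ E] [CompleteSpace E] (W : G → (E →L[ℝ] E)), W 1 = 1 →
  (∀ g, W g⁻¹ = ContinuousLinearMap.adjoint (W g)) →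
  (∀ (k : ℕ) (g : Fin k → G) (f : Fin k → E),
    0 ≤ ∑ i, ∑ j, ⟪W (g i * (g j)⁻¹) (f j), f i⟫_ℝ) →
  ∃ (K : Type) (_ : NormedAddCommGroup K) (_ : InnerProductSpace ℝ K) (_ : CompleteSpace K)
    (P : G →* (K ≃ₗᵢ[ℝ] K)) (ι : E →ₗᵢ[ℝ] K),
    (∀ (g : G) (u v : E), ⟪P g (ι u), ι v⟫_ℝ = ⟪W g u, v⟫_ℝ) ∧
    Dense (Submodule.span ℝ {x : K | ∃ (g : G) (u : E), x = P g (ι u)} : Set K)

/-- density argument for decay -/
def T_DEN : Prop := ∀ (H : Type) (K : Type) [NormedAddCommGroup K] [NormedSpace ℝ K]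
  (D : Set K), Dense (Submodule.span ℝ D : Set K) → ∀ (F : H → Seminorm ℝ K) (c : ℝ),
  (∀ h u, F h u ≤ c * ‖u‖) → ∀ small : Set H → Prop, small ∅ →
  (∀ s t, s ⊆ t → small t → small s) → (∀ s t, small s → small t → small (s ∪ t)) →
  (∀ u ∈ D, ∀ δ : ℝ, 0 < δ → small {h | δ ≤ F h u}) →
  ∀ (u : K) (δ : ℝ), 0 < δ → small {h | δ ≤ F h u}

/-- decay on the HNN extension -/
def T_LC : Prop := ∀ (H : Type) [Group H] (A B : Subgroup H) (φ : A ≃* B) (E : Type)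
  [NormedAddCommGroup E] [InnerProductSpace ℝ E] [CompleteSpace E] (π : H →* (E ≃ₗᵢ[ℝ] E))
  (V : E →L[ℝ] E) (W : HNNExtension H A B φ → (E →L[ℝ] E)), Sys φ π V W → ‖V‖ < 1 →
  (∀ (u : E) (δ : ℝ), 0 < δ → ∃ T : Finset H, ∀ h : H, δ ≤ ‖V (π h u)‖ →
    ∃ a ∈ A, ∃ x ∈ T, h = a * x) →
  (∀ (u : E) (δ : ℝ), 0 < δ → ∃ T : Finset H, ∀ h : H,
    δ ≤ ‖ContinuousLinearMap.adjoint V (π h u)‖ → ∃ b ∈ B, ∃ x ∈ T, h = b * x) →
  ∀ (p : Seminorm ℝ E) (C : Subgroup H), (∀ u, p u ≤ ‖u‖) →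
  (∀ c ∈ C, ∀ u, p (π c u) = p u) →
  (∀ (u : E) (δ : ℝ), 0 < δ → ∃ T : Finset H, ∀ h : H, δ ≤ p (π h u) →
    ∃ c ∈ C, ∃ x ∈ T, h = c * x) →
  ∀ (u : E) (δ : ℝ), 0 < δ → ∃ T : Finset (HNNExtension H A B φ),
    ∀ g : HNNExtension H A B φ, δ ≤ p (W g u) → ∃ c ∈ C, ∃ x ∈ T, g = of c * x

/-! ## C. Square sums -/

/-- the square sum is the square of a seminorm -/
def T_PQ : Prop := ∀ (H : Type) [Group H] (E : Type) [NormedAddCommGroup E]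
  [InnerProductSpace ℝ E] (π : H →* (E ≃ₗᵢ[ℝ] E)) (a : H) (Y : Type) (lam : Y → E),
  Bes π a lam → ∃ p : Seminorm ℝ E, (∀ u, p u ^ 2 = pq π a lam u) ∧ (∀ u, p u ≤ ‖u‖) ∧
    (∀ (m : ℤ) (u : E), p (π (a ^ m) u) = p u) ∧
    (∀ u, Summable (fun i : ℤ × Y => ⟪π (a ^ i.1) u, lam i.2⟫_ℝ ^ 2)) ∧
    (∀ y, ‖lam y‖ ≤ 1)

/-- square sums for the permutation tensor representation -/
def T_PQT : Prop := ∀ (H : Type) [Group H] (E : Type) [NormedAddCommGroup E]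
  [InnerProductSpace ℝ E] [CompleteSpace E] (π : H →* (E ≃ₗᵢ[ℝ] E)) (a : H) (Y : Type)
  (lam : Y → E) (I : Type) (σ : H →* Equiv.Perm I), Bes π a lam →
  Bes (permRep σ π) a (lamI (I := I) lam) ∧
  (∀ f : L2 I E, Summable (fun i => pq π a lam (f i)) ∧
    pq (permRep σ π) a (lamI lam) f = ∑' i, pq π a lam (f i)) ∧
  (C0A π a lam → C0A (permRep σ π) a (lamI (I := I) lam))

/-- coefficients for the permutation tensor representation -/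
def T_C0T : Prop := ∀ (H : Type) [Group H] (E : Type) [NormedAddCommGroup E]
  [InnerProductSpace ℝ E] [CompleteSpace E] (π : H →* (E ≃ₗᵢ[ℝ] E)) (I : Type)
  (σ : H →* Equiv.Perm I), C0 π → C0 (permRep σ π)

/-- the same for the family `mu` -/
def T_MU : Prop := ∀ (H : Type) [Group H] (E : Type) [NormedAddCommGroup E]
  [InnerProductSpace ℝ E] [CompleteSpace E] (π : H →* (E ≃ₗᵢ[ℝ] E)) (a : H) (Y : Type)
  (lam : Y → E) (β : H →* Multiplicative ℤ), Bes π a lam →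
  Bes (pR (List (Y × ℤ)) β π) a (mu lam) ∧
  (∀ f : L2 (Ix Y) E, Summable (fun i => pq π a lam (f i)) ∧
    pq (pR (List (Y × ℤ)) β π) a (mu lam) f = ∑' i, pq π a lam (f i)) ∧
  (C0A π a lam → C0A (pR (List (Y × ℤ)) β π) a (mu lam))

/-- the coefficient operator -/
def T_CF : Prop := ∀ (H : Type) [Group H] (K : Type) [NormedAddCommGroup K]
  [InnerProductSpace ℝ K] [CompleteSpace K] (πK : H →* (K ≃ₗᵢ[ℝ] K)) (a : H) (r : ℕ), 0 < r →
  ∀ (Z : Type) (μ : Z → K), Bes πK a μ →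
  ∃ C : K →L[ℝ] L2 (ℤ × Z) ℝ,
    (∀ f n z, C f (n, z) = (Real.sqrt r)⁻¹ * ⟪πK (a ^ (-(n / (r : ℤ)))) f, μ z⟫_ℝ) ∧
    (∀ f, ‖C f‖ ^ 2 = pq πK a μ f) ∧
    (∀ f, ‖S1 Z (C f) - C f‖ ≤ ‖πK a f - f‖)

/-- the formula for `V` -/
def VForm {H : Type} [Group H] {K : Type} [NormedAddCommGroup K] [InnerProductSpace ℝ K]
    {E : Type} [NormedAddCommGroup E] [InnerProductSpace ℝ E] {Z : Type}
    (πK : H →* (K ≃ₗᵢ[ℝ] K)) (π : H →* (E ≃ₗᵢ[ℝ] E)) (a b : H) (r : ℕ) (μ : Z → K) (ω : Z → E)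
    (V : K →L[ℝ] L2 (ℤ × Z) E) : Prop :=
  ∀ f n z, V f (n, z) = ((Real.sqrt r)⁻¹ * ⟪πK (a ^ (-(n / (r : ℤ)))) f, μ z⟫_ℝ) •
    π (b ^ (n / (r : ℤ))) (ω z)

/-- existence of `V`, contraction, intertwining -/
def T_VOP : Prop := ∀ (H : Type) [Group H] (K : Type) [NormedAddCommGroup K]
  [InnerProductSpace ℝ K] [CompleteSpace K] (E : Type) [NormedAddCommGroup E]
  [InnerProductSpace ℝ E] [CompleteSpace E] (πK : H →* (K ≃ₗᵢ[ℝ] K)) (π : H →* (E ≃ₗᵢ[ℝ] E))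
  (a b : H) (β : H →* Multiplicative ℤ) (r : ℕ), 0 < r → Multiplicative.toAdd (β b) = (r : ℤ) →
  ∀ (Z : Type) (μ : Z → K) (ω : Z → E), Bes πK a μ → (∀ z, ‖ω z‖ ≤ 1) →
  ∃ V : K →L[ℝ] L2 (ℤ × Z) E, VForm πK π a b r μ ω V ∧
    (∀ f, ‖V f‖ ^ 2 ≤ pq πK a μ f) ∧ (∀ f, V (πK a f) = pR Z β π b (V f))

/-- the adjoint of `V` on elementary families, and its decay -/
def T_VAD : Prop := ∀ (H : Type) [Group H] (K : Type) [NormedAddCommGroup K]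
  [InnerProductSpace ℝ K] [CompleteSpace K] (E : Type) [NormedAddCommGroup E]
  [InnerProductSpace ℝ E] [CompleteSpace E] (πK : H →* (K ≃ₗᵢ[ℝ] K)) (π : H →* (E ≃ₗᵢ[ℝ] E))
  (a b : H) (β : H →* Multiplicative ℤ) (r : ℕ), 0 < r → Multiplicative.toAdd (β b) = (r : ℤ) →
  ∀ (Z : Type) (μ : Z → K) (ω : Z → E), Bes πK a μ → (∀ z, ‖ω z‖ ≤ 1) → C0 π →
  ∀ V : K →L[ℝ] L2 (ℤ × Z) E, VForm πK π a b r μ ω V → ‖V‖ ≤ 1 →
  ∀ (f : L2 (ℤ × Z) E) (δ : ℝ), 0 < δ → ∃ T : Finset H, ∀ h : H,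
    δ ≤ ‖ContinuousLinearMap.adjoint V (pR Z β π h f)‖ → ∃ m : ℤ, ∃ x ∈ T, h = b ^ m * x

/-- the almost invariant vectors: one step -/
def T_STEP : Prop := ∀ (H : Type) [Group H] (E : Type) [NormedAddCommGroup E]
  [InnerProductSpace ℝ E] [CompleteSpace E] (π : H →* (E ≃ₗᵢ[ℝ] E)) (a b : H)
  (β : H →* Multiplicative ℤ) (r : ℕ), 0 < r → Multiplicative.toAdd (β b) = (r : ℤ) →
  ∀ (Y : Type) (lam : Y → E), Bes π a lam →
  ∀ (j : ℕ) (w : E) (η : L2 (Ix Y) ℝ), ‖w‖ ≤ 1 → ‖η‖ ≤ 1 →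
    (∀ n l, l.length ≠ j → η (n, l) = 0) →
  ∃ η' : L2 (Ix Y) ℝ, (∀ n l, l.length ≠ j + 1 → η' (n, l) = 0) ∧ ‖η'‖ ≤ 1 ∧
    ‖η'‖ ^ 2 = ‖η‖ ^ 2 * pq π a lam w ∧
    ‖S1 (List (Y × ℤ)) η' - η'‖ ≤ ‖π a w - w‖ +
      |((Multiplicative.toAdd (β a) : ℤ) : ℝ)| * ‖S1 (List (Y × ℤ)) η - η‖ ∧
    ∀ ε : ℝ, 0 < ε → ∃ (S : Finset H) (ε₁ : ℝ), 0 < ε₁ ∧ ∀ w' : E, ‖w'‖ ≤ 1 →
      (∀ s ∈ S, ‖π s w' - w'‖ ≤ ε₁) →
      ∀ (ω : List (Y × ℤ) → E) (V : L2 (Ix Y) E →L[ℝ] L2 (Ix Y) E),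
        (∀ l, l.length = j + 1 → ω l = w') →
        VForm (pR (List (Y × ℤ)) β π) π a b r (mu lam) ω V →
        ‖V (tens η w) - tens η' w'‖ ≤ ε

/-- the base vectors -/
def T_ET0 : Prop := ∀ (Y : Type) (ε : ℝ), 0 < ε → ∃ η : L2 (Ix Y) ℝ, ‖η‖ = 1 ∧
  (∀ n l, l.length ≠ 0 → η (n, l) = 0) ∧ ‖S1 (List (Y × ℤ)) η - η‖ ≤ ε

/-- the sequence of almost invariant vectors -/
def T_XI : Prop := ∀ (H : Type) [Group H] (E : Type) [NormedAddCommGroup E]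
  [InnerProductSpace ℝ E] [CompleteSpace E] (π : H →* (E ≃ₗᵢ[ℝ] E)) (a b : H)
  (β : H →* Multiplicative ℤ) (r : ℕ), 0 < r → Multiplicative.toAdd (β b) = (r : ℤ) →
  ∀ (l : List H) (Y : H → Type) (lam : ∀ c : H, Y c → E), a ∈ l → Bes π a (lam a) →
  (∀ (S : Finset H) (ε : ℝ), 0 < ε → ∃ ξ : E, AI π l Y lam S ε ξ) →
  ∀ (J : ℕ) (S : Finset H) (ε : ℝ), 0 < ε →
  ∃ (w : ℕ → E) (η : ℕ → L2 (Ix (Y a)) ℝ), (∀ j, ‖w j‖ ≤ 1) ∧ (∀ j, ‖η j‖ ≤ 1) ∧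
    (∀ j n z, z.length ≠ j → η j (n, z) = 0) ∧
    (∀ j ≤ J, 1 - ε ≤ ‖η j‖ ∧ 1 - ε ≤ ‖w j‖ ∧ (∀ c ∈ l, 1 - ε ≤ pq π c (lam c) (w j)) ∧
      ∀ s ∈ S, ‖pR (List (Y a × ℤ)) β π s (tens (η j) (w j)) - tens (η j) (w j)‖ ≤ ε) ∧
    (∀ j < J, ∀ V : L2 (Ix (Y a)) E →L[ℝ] L2 (Ix (Y a)) E,
      VForm (pR (List (Y a × ℤ)) β π) π a b r (mu (lam a)) (fun z => w z.length) V →
      ‖V (tens (η j) (w j)) - tens (η (j + 1)) (w (j + 1))‖ ≤ ε)

/-! ## D. The inheritance theorem -/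

/-- orthogonality of levels -/
def T_LEV : Prop := ∀ (Y E : Type) [NormedAddCommGroup E] [InnerProductSpace ℝ E] (J : ℕ)
  (f g : ℕ → L2 (Ix Y) E), (∀ j n l, l.length ≠ j → f j (n, l) = 0) →
  (∀ j n l, l.length ≠ j → g j (n, l) = 0) →
  ⟪∑ j ∈ Finset.range (J + 1), f j, ∑ j ∈ Finset.range (J + 1), g j⟫_ℝ =
    ∑ j ∈ Finset.range (J + 1), ⟪f j, g j⟫_ℝ

/-- an operator `V` on a representation, ready for the HNN extension of `H` along `A`, `B` -/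
def OpData (H : Type) [Group H] (A B : Subgroup H) (φ : A ≃* B) (l : List H) (S : Finset H)
    (ε : ℝ) : Prop :=
  ∃ (E : Type) (_ : NormedAddCommGroup E) (_ : InnerProductSpace ℝ E) (_ : CompleteSpace E)
    (π : H →* (E ≃ₗᵢ[ℝ] E)) (Y : H → Type) (lam : ∀ c : H, Y c → E) (V : E →L[ℝ] E) (ξ : E),
    C0 π ∧ (∀ c ∈ l, Bes π c (lam c) ∧ C0A π c (lam c)) ∧
    ‖V‖ ≤ 1 ∧ (∀ (a : A) (u : E), V (π (a : H) u) = π (φ a : H) (V u)) ∧
    (∀ (u : E) (δ : ℝ), 0 < δ → ∃ T : Finset H, ∀ h : H, δ ≤ ‖V (π h u)‖ →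
      ∃ a ∈ A, ∃ x ∈ T, h = a * x) ∧
    (∀ (u : E) (δ : ℝ), 0 < δ → ∃ T : Finset H, ∀ h : H,
      δ ≤ ‖ContinuousLinearMap.adjoint V (π h u)‖ → ∃ b ∈ B, ∃ x ∈ T, h = b * x) ∧
    AI π l Y lam S ε ξ ∧ 1 - ε ≤ ⟪V ξ, ξ⟫_ℝ

/-- all data on the big space together -/
def T_BIG : Prop := ∀ (H : Type) [Group H] (a b : H) (β : H →* Multiplicative ℤ) (r : ℕ),
  0 < r → Multiplicative.toAdd (β b) = (r : ℤ) → ∀ l : List H, a ∈ l → UF H l →
  ∀ θ : Subgroup.zpowers a ≃* Subgroup.zpowers b,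
  (θ ⟨a, Subgroup.mem_zpowers a⟩ : H) = b →
  ∀ (S : Finset H) (ε : ℝ), 0 < ε → OpData H (Subgroup.zpowers a) (Subgroup.zpowers b) θ l S ε

/-- operator data for trivial edge groups -/
def T_BI0 : Prop := ∀ (H : Type) [Group H] (φ : (⊥ : Subgroup H) ≃* (⊥ : Subgroup H))
  (l : List H), QF H l → ∀ (S : Finset H) (ε : ℝ), 0 < ε → OpData H ⊥ ⊥ φ l S ε

/-- the assembly: operator data give the property for the HNN extension -/
def T_ASM : Prop := ∀ (H : Type) [Group H] (A B : Subgroup H) (φ : A ≃* B) (l : List H),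
  (∀ (S : Finset H) (ε : ℝ), 0 < ε → OpData H A B φ l S ε) →
  QF (HNNExtension H A B φ) (l.map of)

/-- almost invariance under the base group and `t` gives almost invariance -/
def T_AW : Prop := ∀ (H : Type) [Group H] (A B : Subgroup H) (φ : A ≃* B)
  (S' : Finset (HNNExtension H A B φ)) (ε : ℝ), 0 < ε → ∃ (S : Finset H) (ε₁ : ℝ), 0 < ε₁ ∧
  ∀ (K : Type) [NormedAddCommGroup K] [InnerProductSpace ℝ K]
    (P : HNNExtension H A B φ →* (K ≃ₗᵢ[ℝ] K)) (x : K),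
    (∀ s ∈ S, ‖P (of s) x - x‖ ≤ ε₁) → ‖P t x - x‖ ≤ ε₁ → ∀ g ∈ S', ‖P g x - x‖ ≤ ε

/-- the Hilbert space of `W` and the localisation -/
def T_KGA : Prop := ∀ (H : Type) [Group H] (A B : Subgroup H) (φ : A ≃* B) (E : Type)
  [NormedAddCommGroup E] [InnerProductSpace ℝ E] [CompleteSpace E] (π : H →* (E ≃ₗᵢ[ℝ] E))
  (V : E →L[ℝ] E) (W : HNNExtension H A B φ → (E →L[ℝ] E)), Sys φ π V W →
  ∀ (K : Type) [NormedAddCommGroup K] [InnerProductSpace ℝ K] [CompleteSpace K]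
    (P : HNNExtension H A B φ →* (K ≃ₗᵢ[ℝ] K)) (ι : E →ₗᵢ[ℝ] K),
    (∀ (g : HNNExtension H A B φ) (u v : E), ⟪P g (ι u), ι v⟫_ℝ = ⟪W g u, v⟫_ℝ) →
    (∀ (h : H) (u : E), P (of h) (ι u) = ι (π h u)) ∧
    ∀ (a : H) (Z : Type) (μ : Z → E), Bes π a μ →
      Bes P (of a) (fun z => ι (μ z)) ∧
      ∀ (g : HNNExtension H A B φ) (u : E),
        pq P (of a) (fun z => ι (μ z)) (P g (ι u)) = pq π a μ (W g u)

/-- decay of coefficients of the big representation -/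
def T_KGB : Prop := ∀ (G : Type) [Group G] (E : Type)
  [NormedAddCommGroup E] [InnerProductSpace ℝ E] [CompleteSpace E] (W : G → (E →L[ℝ] E))
  (K : Type) [NormedAddCommGroup K] [InnerProductSpace ℝ K] [CompleteSpace K]
  (P : G →* (K ≃ₗᵢ[ℝ] K)) (ι : E →ₗᵢ[ℝ] K),
  (∀ (g : G) (u v : E), ⟪P g (ι u), ι v⟫_ℝ = ⟪W g u, v⟫_ℝ) →
  Dense (Submodule.span ℝ {x : K | ∃ (g : G) (u : E), x = P g (ι u)} : Set K) →
  ((∀ (u v : E) (δ : ℝ), 0 < δ → {g : G | δ ≤ |⟪W g u, v⟫_ℝ|}.Finite) → C0 P) ∧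
  ∀ (a : G) (Z : Type) (μ : Z → K), Bes P a μ →
    (∀ (u : E) (δ : ℝ), 0 < δ → ∃ T : Finset G, ∀ g : G, δ ≤ pq P a μ (P g (ι u)) →
      ∃ m : ℤ, ∃ x ∈ T, g = a ^ m * x) → C0A P a μ

/-- the inheritance theorem -/
def T_INH : Prop := ∀ (H : Type) [Group H] (a b : H) (β : H →* Multiplicative ℤ), β b ≠ 1 →
  ∀ l : List H, a ∈ l → QF H l → ∀ θ : Subgroup.zpowers a ≃* Subgroup.zpowers b,
  (θ ⟨a, Subgroup.mem_zpowers a⟩ : H) = b →
  QF (HNNExtension H (Subgroup.zpowers a) (Subgroup.zpowers b) θ) (l.map of)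

/-- free product with an infinite cyclic group -/
def T_IN0 : Prop := ∀ (H : Type) [Group H] (φ : (⊥ : Subgroup H) ≃* (⊥ : Subgroup H))
  (l : List H), QF H l → QF (HNNExtension H ⊥ ⊥ φ) (l.map of)

/-! ## E. Permanence properties and first examples -/

def T_UNV : Prop := ∀ (H : Type) [Group H] (l : List H), QF H l → UF H l

/-- amenable groups -/
def T_AMN : Prop := ∀ (H : Type) [Group H] (l : List H), IsAmenable H →
  (∀ a ∈ l, ¬ IsOfFinOrder a) → QF H l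

/-- Haagerup property -/
def T_HAA : Prop := ∀ (G : Type) [Group G] [Countable G], QF G [] → HasHaagerup G

/-- sublists -/
def T_SBL : Prop := ∀ (H : Type) [Group H] (l l' : List H), (∀ c ∈ l', c ∈ l) → QF H l → QF H l'

/-- powers -/
def T_POW : Prop := ∀ (H : Type) [Group H] (a : H) (p : ℤ) (l : List H), p ≠ 0 →
  QF H (a :: l) → QF H (a ^ p :: a :: l)

/-- roots -/
def T_ROO : Prop := ∀ (H : Type) [Group H] (a : H) (p : ℤ) (l : List H), p ≠ 0 →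
  QF H (a ^ p :: l) → QF H (a :: l)

/-- transport -/
def T_TRA : Prop := ∀ (H H' : Type) [Group H] [Group H'] (e : H ≃* H') (l : List H), QF H l →
  QF H' (l.map e)

/-- restriction to a subgroup -/
def T_RES : Prop := ∀ (H H' : Type) [Group H] [Group H'] (f : H →* H'), Function.Injective f →
  ∀ l : List H, QF H' (l.map f) → QF H l

def T_QINF : Prop := ∀ (H : Type) [Group H] (l : List H), QF H l → ∀ a ∈ l, ¬ IsOfFinOrder a

/-- elements which survive in a homomorphism to the integers -/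
def T_SUR : Prop := ∀ (H : Type) [Group H] (a : H) (β : H →* Multiplicative ℤ), β a ≠ 1 →
  ∀ l : List H, QF H l → QF H (a :: l)

/-- Haagerup gives `C_0` representations with almost invariant vectors -/
def T_SCH : Prop := ∀ (G : Type) [Group G], HasHaagerup G → QF G []

/-- the Gaussian kernel is positive semidefinite -/
def T_EXP : Prop := ∀ (E : Type) [NormedAddCommGroup E] [InnerProductSpace ℝ E] (s : ℝ), 0 < s →
  ∀ (n : ℕ) (x : Fin n → E) (c : Fin n → ℝ),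
    0 ≤ ∑ i, ∑ j, c i * c j * Real.exp (-(s * ‖x i - x j‖ ^ 2))

/-! ## F. Presentations: see `TargetsF.lean` -/

/-- the infinite cyclic group `⟨x, y | y x^{-n}⟩` -/
def T_ZAM : Prop := ∀ n : ℤ, n ≠ 0 → IsAmenable (OneRel (ly * lx ^ (-n))) ∧
  ¬ IsOfFinOrder (gx (ly * lx ^ (-n))) ∧ ¬ IsOfFinOrder (gy (ly * lx ^ (-n)))

/-- countability -/
def T_CNT : Prop := ∀ (H : Type) [Group H] [Countable H] (A B : Subgroup H) (φ : A ≃* B),
  Countable (HNNExtension H A B φ)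

/-! ## G. Final statements (see also `TargetsF.lean`) -/

def T_M2 : Prop := ∀ (n : ℤ) (ps : List ℤ), n ≠ 0 → (∀ p ∈ ps, p ≠ 0) →
  HasHaagerup (OneRel (nest (ly * lx ^ (-n)) ps))

def T_M3 : Prop := ∀ (H : Type) [Group H] [Countable H] (a b : H)
  (β : H →* Multiplicative ℤ), IsAmenable H → ¬ IsOfFinOrder a → β b ≠ 1 →
  ∀ θ : Subgroup.zpowers a ≃* Subgroup.zpowers b,
  (θ ⟨a, Subgroup.mem_zpowers a⟩ : H) = b →
  HasHaagerup (HNNExtension H (Subgroup.zpowers a) (Subgroup.zpowers b) θ)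

end

end HGP
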