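import Pool.Agent.HGP.Targets

/-!
# HGP, part F: one-relator groups with any number of letters (definitions and targets)

This replaces T_PRE, T_PRS, T_BET, T_RK, T_MOV, T_NST, T_RTS, T_CLS, T_M0 of `Targets.lean`.
-/

open scoped InnerProductSpace ENNReal
open HNNExtension HNNExtension.NormalWord

namespace HGP

noncomputable section

/-- the one-relator group `⟨x_0, ..., x_{n-1} | r⟩` -/
abbrev OR {n : ℕ} (r : FreeGroup (Fin n)) : Type := PresentedGroup ({r} : Set (FreeGroup (Fin n)))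

/-- the generators of `OR r` -/
def gl {n : ℕ} (r : FreeGroup (Fin n)) (i : Fin n) : OR r := PresentedGroup.of i

/-- substitute `v` for the letter `j` -/
def sb {n : ℕ} (j : Fin n) (v : FreeGroup (Fin n)) (r : FreeGroup (Fin n)) : FreeGroup (Fin n) :=
  FreeGroup.lift (Function.update FreeGroup.of j v) r

/-- the class of relators: generated by the relators of amenable groups (generators of infinite
order) and of groups with the Haagerup property in which all generators survive in the free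
abelianization, under conjugation, inversion, a new free letter, automorphisms `f` for which
every new letter survives or is a conjugate of a power of an old letter,
`x_j -> x_j x_i^p x_j^{-1}` (HNN extension along a cyclic subgroup), and `x_i -> x_i^k` -/
inductive Cln : (n : ℕ) → FreeGroup (Fin n) → Prop
  | amen (n : ℕ) (r : FreeGroup (Fin n)) : IsAmenable (OR r) →
      (∀ i, ¬ IsOfFinOrder (gl r i)) → Cln n r
  | haag (n : ℕ) (r : FreeGroup (Fin n)) : HasHaagerup (OR r) →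
      (∀ i, ∃ β : OR r →* Multiplicative ℤ, β (gl r i) ≠ 1) → Cln n r
  | conj (n : ℕ) (r g : FreeGroup (Fin n)) : Cln n r → Cln n (g * r * g⁻¹)
  | inv (n : ℕ) (r : FreeGroup (Fin n)) : Cln n r → Cln n r⁻¹
  | add (n : ℕ) (r : FreeGroup (Fin n)) : Cln n r → Cln (n + 1) (FreeGroup.map Fin.castSucc r)
  | aut (n : ℕ) (r : FreeGroup (Fin n)) (f : FreeGroup (Fin n) ≃* FreeGroup (Fin n)) :
      Cln n r →
      (∀ i, (∃ β : OR (f r) →* Multiplicative ℤ, β (gl (f r) i) ≠ 1) ∨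
        ∃ (j : Fin n) (k : ℤ) (g : FreeGroup (Fin n)), k ≠ 0 ∧
          f.symm (FreeGroup.of i) = g * FreeGroup.of j ^ k * g⁻¹) → Cln n (f r)
  | hnn (n : ℕ) (r : FreeGroup (Fin n)) (i j : Fin n) (p : ℤ) : i ≠ j → p ≠ 0 → Cln n r →
      Cln n (sb j (FreeGroup.of j * FreeGroup.of i ^ p * (FreeGroup.of j)⁻¹) r)
  | root (n : ℕ) (r : FreeGroup (Fin n)) (i : Fin n) (k : ℤ) : k ≠ 0 → Cln n r →
      Cln n (sb i (FreeGroup.of i ^ k) r)

/-- the property carried through the induction -/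
def Gdn {n : ℕ} (r : FreeGroup (Fin n)) : Prop := QF (OR r) (List.ofFn (gl r))

/-! ## Presentations -/

/-- the substitution `x_j -> x_j x_i^p x_j^{-1}` is an HNN extension -/
def T_PRE : Prop := ∀ (n : ℕ) (r : FreeGroup (Fin n)) (i j : Fin n) (p : ℤ), i ≠ j → p ≠ 0 →
  ¬ IsOfFinOrder (gl r i) → ¬ IsOfFinOrder (gl r j) →
  ∃ θ : Subgroup.zpowers (gl r i ^ p) ≃* Subgroup.zpowers (gl r j),
    (θ ⟨gl r i ^ p, Subgroup.mem_zpowers _⟩ : OR r) = gl r j ∧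
    ∃ e : OR (sb j (FreeGroup.of j * FreeGroup.of i ^ p * (FreeGroup.of j)⁻¹) r) ≃*
      HNNExtension (OR r) (Subgroup.zpowers (gl r i ^ p)) (Subgroup.zpowers (gl r j)) θ,
      (∀ k, k ≠ j → e (gl _ k) = of (gl r k)) ∧ e (gl _ j) = t

/-- the same with the edge groups exchanged -/
def T_PRS : Prop := ∀ (n : ℕ) (r : FreeGroup (Fin n)) (i j : Fin n) (p : ℤ), i ≠ j → p ≠ 0 →
  ¬ IsOfFinOrder (gl r i) → ¬ IsOfFinOrder (gl r j) →
  ∃ θ : Subgroup.zpowers (gl r j) ≃* Subgroup.zpowers (gl r i ^ p),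
    (θ ⟨gl r j, Subgroup.mem_zpowers _⟩ : OR r) = gl r i ^ p ∧
    ∃ e : OR (sb j (FreeGroup.of j * FreeGroup.of i ^ p * (FreeGroup.of j)⁻¹) r) ≃*
      HNNExtension (OR r) (Subgroup.zpowers (gl r j)) (Subgroup.zpowers (gl r i ^ p)) θ,
      (∀ k, k ≠ j → e (gl _ k) = of (gl r k)) ∧ e (gl _ j) = t⁻¹

/-- a new free letter -/
def T_ADD : Prop := ∀ (n : ℕ) (r : FreeGroup (Fin n)),
  ∃ (φ : (⊥ : Subgroup (OR r)) ≃* (⊥ : Subgroup (OR r)))
    (e : OR (FreeGroup.map Fin.castSucc r) ≃* HNNExtension (OR r) ⊥ ⊥ φ),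
    (∀ i : Fin n, e (gl _ (Fin.castSucc i)) = of (gl r i)) ∧ e (gl _ (Fin.last n)) = t

/-- the stable letter survives -/
def T_SVT : Prop := ∀ (H : Type) [Group H] (A B : Subgroup H) (φ : A ≃* B),
  ∃ β : HNNExtension H A B φ →* Multiplicative ℤ, β t ≠ 1 ∧ ∀ h : H, β (of h) = 1

/-- one of two letters survives in a homomorphism to the integers -/
def T_RK : Prop := ∀ (n : ℕ) (r : FreeGroup (Fin n)) (i j : Fin n), i ≠ j →
  (∃ β : OR r →* Multiplicative ℤ, β (gl r i) ≠ 1) ∨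
  (∃ β : OR r →* Multiplicative ℤ, β (gl r j) ≠ 1)

/-- automorphisms, conjugation, inversion give isomorphisms -/
def T_MOV : Prop :=
  (∀ (n : ℕ) (r : FreeGroup (Fin n)) (f : FreeGroup (Fin n) ≃* FreeGroup (Fin n)),
    ∃ e : OR r ≃* OR (f r), ∀ w : FreeGroup (Fin n),
      e (PresentedGroup.mk {r} w) = PresentedGroup.mk {f r} (f w)) ∧
  (∀ (n : ℕ) (r g : FreeGroup (Fin n)), ∃ e : OR r ≃* OR (g * r * g⁻¹),
    ∀ i, e (gl r i) = gl _ i) ∧
  (∀ (n : ℕ) (r : FreeGroup (Fin n)), ∃ e : OR r ≃* OR r⁻¹, ∀ i, e (gl r i) = gl _ i)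

/-- adjoining a root: a retract of an HNN extension of a free product; `G' → P` retracts
`P → G'` -/
def T_RTP : Prop := ∀ (n : ℕ) (r : FreeGroup (Fin n)) (i : Fin n) (k : ℤ), k ≠ 0 →
  ¬ IsOfFinOrder (gl r i) → ∀ φ : (⊥ : Subgroup (OR r)) ≃* (⊥ : Subgroup (OR r)),
  ∃ θ : Subgroup.zpowers (of (gl r i) : HNNExtension (OR r) ⊥ ⊥ φ) ≃*
      Subgroup.zpowers ((t : HNNExtension (OR r) ⊥ ⊥ φ) ^ k),
    (θ ⟨of (gl r i), Subgroup.mem_zpowers _⟩ : HNNExtension (OR r) ⊥ ⊥ φ) = t ^ k ∧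
    ∃ f : OR (sb i (FreeGroup.of i ^ k) r) →* HNNExtension (HNNExtension (OR r) ⊥ ⊥ φ)
        (Subgroup.zpowers (of (gl r i))) (Subgroup.zpowers (t ^ k)) θ,
      Function.Injective f ∧ f (gl _ i) = of t ∧
      ∀ l, l ≠ i → f (gl _ l) = t * of (of (gl r l)) * t⁻¹

/-! ## The property (Q) -/

/-- conjugates -/
def T_CJG : Prop := ∀ (H : Type) [Group H] (l : List H) (a g : H), a ∈ l → QF H l →
  QF H ((g * a * g⁻¹) :: l)

/-- extension of the list by surviving elements and by conjugates of powers -/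
def T_EXT : Prop := ∀ (H : Type) [Group H] (l l' : List H), QF H l →
  (∀ c ∈ l', (∃ β : H →* Multiplicative ℤ, β c ≠ 1) ∨
    ∃ a ∈ l, ∃ (k : ℤ) (g : H), k ≠ 0 ∧ c = g * a ^ k * g⁻¹) → QF H (l' ++ l)

def T_NST : Prop := ∀ (n : ℕ) (r : FreeGroup (Fin n)) (i j : Fin n) (p : ℤ), i ≠ j → p ≠ 0 →
  Gdn r → Gdn (sb j (FreeGroup.of j * FreeGroup.of i ^ p * (FreeGroup.of j)⁻¹) r)

def T_RTS : Prop := ∀ (n : ℕ) (r : FreeGroup (Fin n)) (i : Fin n) (k : ℤ), k ≠ 0 →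
  Gdn r → Gdn (sb i (FreeGroup.of i ^ k) r)

def T_ADG : Prop := ∀ (n : ℕ) (r : FreeGroup (Fin n)), Gdn r →
  Gdn (FreeGroup.map Fin.castSucc r)

def T_AUT : Prop := ∀ (n : ℕ) (r : FreeGroup (Fin n))
  (f : FreeGroup (Fin n) ≃* FreeGroup (Fin n)), Gdn r →
  (∀ i, (∃ β : OR (f r) →* Multiplicative ℤ, β (gl (f r) i) ≠ 1) ∨
    ∃ (j : Fin n) (k : ℤ) (g : FreeGroup (Fin n)), k ≠ 0 ∧
      f.symm (FreeGroup.of i) = g * FreeGroup.of j ^ k * g⁻¹) → Gdn (f r)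

def T_CLS : Prop := ∀ (n : ℕ) (r : FreeGroup (Fin n)), Cln n r → Gdn r

/-! ## Final statements -/

def T_M0 : Prop := ∀ (n : ℕ) (r : FreeGroup (Fin n)), Cln n r → HasHaagerup (OR r)

/-- all Baumslag-Gersten groups -/
def T_M1 : Prop := ∀ p m n : ℤ, p ≠ 0 → m ≠ 0 → n ≠ 0 →
  HasHaagerup (OneRel ((ly * lx ^ p * ly⁻¹) * lx ^ m * (ly * lx ^ p * ly⁻¹)⁻¹ * lx ^ (-n)))

end

end HGP
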